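import Mathlib

/-!
# H55R: reciprocity for cyclic extensions of prime degree (definitions)

K is a totally complex number field, L/K cyclic of prime degree, tame. There is a ray class character
of K whose modulus is the product of the ramified primes and whose value at a prime v prime to the
modulus is 1 if and only if v splits in L. See PROOF.md.
-/

open NumberField IsDedekindDomain
open scoped Pointwise

namespace H55R

/-- The primes of K. -/
abbrev Pl (K : Type) [Field K] [NumberField K] := HeightOneSpectrum (𝓞 K)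

section chars

variable {K : Type} [Field K] [NumberField K]

/-- The order of x at v. -/
noncomputable def ord (v : Pl K) (x : Kˣ) : ℤ := -Multiplicative.toAdd (v.valuationOfNeZero x)

theorem ord_mul (v : Pl K) (x y : Kˣ) : ord v (x * y) = ord v x + ord v y := by
  unfold ord
  rw [map_mul, toAdd_mul]
  ring

theorem ord_one (v : Pl K) : ord v (1 : Kˣ) = 0 := by
  unfold ord
  rw [map_one, toAdd_one, neg_zero]

theorem ord_inv (v : Pl K) (x : Kˣ) : ord v x⁻¹ = -ord v x := by
  unfold ord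
  rw [map_inv, toAdd_inv]

theorem ord_zpow (v : Pl K) (x : Kˣ) (k : ℤ) : ord v (x ^ k) = k * ord v x := by
  unfold ord
  rw [map_zpow, toAdd_zpow, smul_eq_mul]
  ring

open Classical in
/-- The value at a nonzero ideal of the character with values φ at the primes. -/
noncomputable def pv (φ : Pl K → ℂˣ) (a : Ideal (𝓞 K)) : ℂˣ :=
  ((UniqueFactorizationMonoid.normalizedFactors a).map fun P =>
    if h : P.IsPrime ∧ P ≠ ⊥ then φ ⟨P, h.1, h.2⟩ else 1).prod

theorem pv_one (φ : Pl K → ℂˣ) : pv φ 1 = 1 := by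
  unfold pv
  rw [UniqueFactorizationMonoid.normalizedFactors_one]
  simp

theorem pv_mul (φ : Pl K → ℂˣ) {a b : Ideal (𝓞 K)} (ha : a ≠ ⊥) (hb : b ≠ ⊥) :
    pv φ (a * b) = pv φ a * pv φ b := by
  unfold pv
  rw [UniqueFactorizationMonoid.normalizedFactors_mul ha hb, Multiset.map_add, Multiset.prod_add]

theorem pv_prime (φ : Pl K → ℂˣ) (v : Pl K) : pv φ v.asIdeal = φ v := by
  unfold pv
  rw [UniqueFactorizationMonoid.normalizedFactors_irreducible v.irreducible]
  simp only [normalize_eq, Multiset.map_singleton, Multiset.prod_singleton]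
  rw [dif_pos ⟨v.isPrime, v.ne_bot⟩]

theorem pv_mul_fun (φ ψ : Pl K → ℂˣ) (a : Ideal (𝓞 K)) : pv (φ * ψ) a = pv φ a * pv ψ a := by
  unfold pv
  rw [← Multiset.prod_map_mul]
  congr 1
  refine Multiset.map_congr rfl fun P _ => ?_
  by_cases h : P.IsPrime ∧ P ≠ ⊥
  · rw [dif_pos h, dif_pos h, dif_pos h, Pi.mul_apply]
  · rw [dif_neg h, dif_neg h, dif_neg h, mul_one]

theorem pv_one_fun (a : Ideal (𝓞 K)) : pv (1 : Pl K → ℂˣ) a = 1 := by
  unfold pv
  refine Multiset.prod_eq_one fun x hx => ?_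
  rw [Multiset.mem_map] at hx
  obtain ⟨P, -, rfl⟩ := hx
  by_cases h : P.IsPrime ∧ P ≠ ⊥
  · rw [dif_pos h, Pi.one_apply]
  · rw [dif_neg h]

theorem pv_inv_fun (φ : Pl K → ℂˣ) (a : Ideal (𝓞 K)) : pv φ⁻¹ a = (pv φ a)⁻¹ := by
  rw [eq_inv_iff_mul_eq_one, ← pv_mul_fun, inv_mul_cancel, pv_one_fun]

open Classical in
/-- The character on ideals with values φ, 0 for the ideals not prime to f. -/
noncomputable def tI (f : Ideal (𝓞 K)) (φ : Pl K → ℂˣ) : Ideal (𝓞 K) →*₀ ℂ where
  toFun a := if a ≠ ⊥ ∧ IsCoprime a f then (pv φ a : ℂ) else 0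
  map_zero' := if_neg fun h => h.1 rfl
  map_one' := by
    rw [if_pos ⟨one_ne_zero, isCoprime_one_left⟩, pv_one, Units.val_one]
  map_mul' a b := by
    by_cases ha : a ≠ ⊥ ∧ IsCoprime a f
    · by_cases hb : b ≠ ⊥ ∧ IsCoprime b f
      · rw [if_pos ⟨mul_ne_zero ha.1 hb.1, ha.2.mul_left hb.2⟩, if_pos ha, if_pos hb,
          pv_mul φ ha.1 hb.1, Units.val_mul]
      · rw [if_neg hb, mul_zero, if_neg]
        rintro ⟨h1, h2⟩
        exact hb ⟨right_ne_zero_of_mul h1, h2.of_mul_left_right⟩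
    · rw [if_neg ha, zero_mul, if_neg]
      rintro ⟨h1, h2⟩
      exact ha ⟨left_ne_zero_of_mul h1, h2.of_mul_left_left⟩

theorem tI_apply (f : Ideal (𝓞 K)) (φ : Pl K → ℂˣ) {a : Ideal (𝓞 K)} (ha : a ≠ ⊥)
    (h : IsCoprime a f) : tI f φ a = (pv φ a : ℂ) := if_pos ⟨ha, h⟩

theorem tI_zero (f : Ideal (𝓞 K)) (φ : Pl K → ℂˣ) {a : Ideal (𝓞 K)} (h : ¬ IsCoprime a f) :
    tI f φ a = 0 := if_neg fun h' => h h'.2

/-- The ray class characters modulo f, given by their values at the primes (1 at the primes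
dividing f). -/
noncomputable def RC (f : Ideal (𝓞 K)) : Subgroup (Pl K → ℂˣ) where
  carrier := {φ | (∀ v : Pl K, f ≤ v.asIdeal → φ v = 1) ∧ ∀ x y : 𝓞 K, x ≠ 0 → y ≠ 0 →
    IsCoprime (Ideal.span {x}) f → x - y ∈ f → pv φ (Ideal.span {x}) = pv φ (Ideal.span {y})}
  mul_mem' := by
    rintro φ ψ ⟨h1, h2⟩ ⟨h3, h4⟩
    refine ⟨fun v hv => ?_, fun x y hx hy hc hxy => ?_⟩
    · rw [Pi.mul_apply, h1 v hv, h3 v hv, mul_one]
    · rw [pv_mul_fun, pv_mul_fun, h2 x y hx hy hc hxy, h4 x y hx hy hc hxy]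
  one_mem' := ⟨fun v _ => rfl, fun x y _ _ _ _ => by rw [pv_one_fun, pv_one_fun]⟩
  inv_mem' := by
    rintro φ ⟨h1, h2⟩
    refine ⟨fun v hv => ?_, fun x y hx hy hc hxy => ?_⟩
    · rw [Pi.inv_apply, h1 v hv, inv_one]
    · rw [pv_inv_fun, pv_inv_fun, h2 x y hx hy hc hxy]

open Classical in
/-- The sum of Nv^(-s) over the primes in A. -/
noncomputable def PS (A : Set (Pl K)) (s : ℝ) : ℝ :=
  ∑' v : Pl K, A.indicator (fun v => (Ideal.absNorm v.asIdeal : ℝ) ^ (-s)) v

/-- The S-units. -/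
def SU (S : Set (Pl K)) : Subgroup Kˣ where
  carrier := {x | ∀ v : Pl K, v ∉ S → ord v x = 0}
  mul_mem' := fun ha hb v hv => by rw [ord_mul, ha v hv, hb v hv, add_zero]
  one_mem' := fun v _ => ord_one v
  inv_mem' := fun ha v hv => by rw [ord_inv, ha v hv, neg_zero]

end chars

section ext

variable (K L : Type) [Field K] [NumberField K] [Field L] [NumberField L] [Algebra K L]

/-- The ramification index of v in L/K (Galois). -/
noncomputable def es (v : Pl K) : ℕ := v.asIdeal.ramificationIdxIn (𝓞 L)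

/-- The residue degree of v in L/K (Galois). -/
noncomputable def fs (v : Pl K) : ℕ := v.asIdeal.inertiaDegIn (𝓞 L)

/-- v splits completely in L/K (Galois). -/
def Spl (v : Pl K) : Prop := es K L v = 1 ∧ fs K L v = 1

variable {K L}

/-- The set of primes of L above the primes in S. -/
def above (S : Set (Pl K)) : Set (Pl L) := {W | W.under (𝓞 K) ∈ S}

/-- The decomposition groups (in Gal(L/K)) of the primes above v are contained in A. -/
def SplA (A : Subgroup Gal(L/K)) (v : Pl K) : Prop :=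
  ∀ W : Pl L, W.under (𝓞 K) = v → ∀ σ : Gal(L/K), σ • W.asIdeal = W.asIdeal → σ ∈ A

end ext

/-! ### Herbrand quotients -/

section herb

variable {A : Type} [AddCommGroup A]

/-- 1 - σ. -/
def Dm (σ : AddMonoid.End A) : A →+ A := (1 - σ : AddMonoid.End A)

/-- 1 + σ + ... + σ^(n-1). -/
def Nm (n : ℕ) (σ : AddMonoid.End A) : A →+ A := (∑ i ∈ Finset.range n, σ ^ i : AddMonoid.End A)

/-- The order of the 0th Tate cohomology of the subgroup B. -/
noncomputable def h0 (n : ℕ) (σ : AddMonoid.End A) (B : AddSubgroup A) : ℕ :=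
  (B.map (Nm n σ)).relIndex (B ⊓ (Dm σ).ker)

/-- The order of the -1st Tate cohomology of the subgroup B. -/
noncomputable def h1 (n : ℕ) (σ : AddMonoid.End A) (B : AddSubgroup A) : ℕ :=
  (B.map (Dm σ)).relIndex (B ⊓ (Nm n σ).ker)

/-- The permutation module. -/
def pe {P : Type} (τ : Equiv.Perm P) : AddMonoid.End (P → ℤ) where
  toFun a := fun p => a (τ.symm p)
  map_zero' := rfl
  map_add' _ _ := rfl

/-- The Galois action on the multiplicative group, written additively. -/
noncomputable def sg {K L : Type} [Field K] [Field L] [Algebra K L] (σ : Gal(L/K)) :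
    AddMonoid.End (Additive Lˣ) :=
  MonoidHom.toAdditive (Units.map ((σ : L ≃ₐ[K] L) : L →* L))

end herb

end H55R
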