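import Mathlib
import Pool.Agent.Lib.H55R.Defs

/-! # H55R: definitions for the first inequality -/

open NumberField IsDedekindDomain
open scoped Pointwise

namespace H55R

section
variable {L : Type} [Field L] [NumberField L]

/-- The S-units, written additively. -/
noncomputable def TUa (T : Finset (Pl L)) : AddSubgroup (Additive Lˣ) :=
  Subgroup.toAddSubgroup (SU (T : Set (Pl L)))

/-- A family of T-units, one for every prime in T and every infinite place. -/
structure Eta (T : Finset (Pl L)) (η : T ⊕ InfinitePlace L → Additive Lˣ) : Prop where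
  fin : ∀ W : T, 0 < ord W.1 (η (Sum.inl W)).toMul ∧
    ∀ W' : Pl L, W' ≠ W.1 → ord W' (η (Sum.inl W)).toMul = 0
  inf : ∀ V : InfinitePlace L, (∀ W : Pl L, ord W (η (Sum.inr V)).toMul = 0) ∧
    ∀ V' : InfinitePlace L, V' ≠ V → V' ((η (Sum.inr V)).toMul : L) < 1

open Classical in
/-- The map from the permutation module to the T-units times Z. -/
noncomputable def Th (T : Finset (Pl L)) (η : T ⊕ InfinitePlace L → Additive Lˣ) :
    (T ⊕ InfinitePlace L → ℤ) →+ Additive Lˣ × ℤ where
  toFun a := (∑ p, a p • η p, ∑ V : InfinitePlace L, a (Sum.inr V))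
  map_zero' := by simp
  map_add' a b := by
    simp only [Pi.add_apply, add_zsmul, Finset.sum_add_distrib, Prod.mk_add_mk]

end

section
variable {K L : Type} [Field K] [NumberField K] [Field L] [NumberField L] [Algebra K L]

/-- The action of the Galois group on the primes. -/
noncomputable def smulP (σ : Gal(L/K)) (W : Pl L) : Pl L where
  asIdeal := σ • W.asIdeal
  isPrime := by
    have := W.isPrime
    infer_instance
  ne_bot := by
    intro h
    apply W.ne_bot
    have h1 : σ⁻¹ • (σ • W.asIdeal) = σ⁻¹ • (⊥ : Ideal (𝓞 L)) := by rw [h]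
    rw [inv_smul_smul] at h1
    rw [h1]
    exact Ideal.smul_bot _

/-- The norm on units. -/
noncomputable def nrm (K L : Type) [Field K] [Field L] [Algebra K L] : Lˣ →* Kˣ :=
  Units.map (Algebra.norm K : L →* K)

/-- Every prime is, up to primes in S, principal. -/
def GenS (S : Set (Pl K)) : Prop :=
  ∀ v : Pl K, ∃ x : Kˣ, (v ∉ S → ord v x = 1) ∧ ∀ u : Pl K, u ∉ S → u ≠ v → ord u x = 0

end

end H55R
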