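import Mathlib
import Pool.Agent.Lib.H55R.HD

open NumberField IsDedekindDomain
open scoped Pointwise

namespace H55R

variable {K L : Type} [Field K] [NumberField K] [Field L] [NumberField L] [Algebra K L]

/-! Chunk BF1 (M): the Galois action on the primes, L/K Galois.
smulP_one, smulP_mul: HeightOneSpectrum.ext, one_smul, mul_smul. under_smulP: the elements of O_K are fixed
(Ideal.under_smul or comap; Mathlib: Ideal.under_smul). smulP_trans: two primes over the same prime are conjugate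
(Ideal.exists_smul_eq_of_isGaloisGroup). ord_smul: ord (σ W) (σ y) = ord W y: for integral y the multiplicity of
σ W in σ (y) is that of W in (y) (σ is a ring automorphism of 𝓞 L: Ideal.map and normalizedFactors, or: y in W^n iff σ y in (σ W)^n =
σ (W^n)); for general y = a/b. ord_int: ord v x for x in 𝓞 K nonzero: n <= ord v x iff x in v^n
(HeightOneSpectrum.intValuation_le_pow_iff_mem). -/

theorem BF1_val (v : Pl K) (y : Kˣ) : v.valuation K (y : K) = WithZero.exp (-ord v y) := by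
  rw [← HeightOneSpectrum.valuationOfNeZero_eq]
  unfold ord
  rw [neg_neg]
  rfl

theorem ord_int (v : Pl K) (x : 𝓞 K) (y : Kˣ) (h : (y : K) = x) (n : ℕ) :
    (n : ℤ) ≤ ord v y ↔ x ∈ v.asIdeal ^ n := by
  have h1 := BF1_val v y
  rw [h] at h1
  have h2 : v.valuation K ((algebraMap (𝓞 K) K) x) = v.intValuation x :=
    v.valuation_of_algebraMap x
  rw [← v.intValuation_le_pow_iff_mem, ← h2]
  have h3 : v.valuation K ((algebraMap (𝓞 K) K) x) = WithZero.exp (-ord v y) := h1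
  rw [h3, WithZero.exp_le_exp]
  omega

theorem smulP_one (W : Pl L) : smulP (1 : Gal(L/K)) W = W := by
  apply HeightOneSpectrum.ext
  exact one_smul _ W.asIdeal

theorem smulP_mul (σ τ : Gal(L/K)) (W : Pl L) : smulP (σ * τ) W = smulP σ (smulP τ W) := by
  apply HeightOneSpectrum.ext
  exact mul_smul σ τ W.asIdeal

theorem BF1_comm : SMulCommClass Gal(L/K) (𝓞 K) (𝓞 L) := by
  refine ⟨fun σ a x => ?_⟩
  rw [Algebra.smul_def, Algebra.smul_def, smul_mul']
  congr 1
  apply RingOfIntegers.ext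
  exact σ.commutes (a : K)

theorem under_smulP (σ : Gal(L/K)) (W : Pl L) : (smulP σ W).under (𝓞 K) = W.under (𝓞 K) := by
  have := BF1_comm (K := K) (L := L)
  apply HeightOneSpectrum.ext
  exact Ideal.under_smul (𝓞 K) W.asIdeal σ

theorem smulP_trans [IsGalois K L] (W W' : Pl L) (h : W.under (𝓞 K) = W'.under (𝓞 K)) :
    ∃ σ : Gal(L/K), smulP σ W = W' := by
  have h1 : W.asIdeal.LiesOver (W.asIdeal.under (𝓞 K)) := ⟨rfl⟩
  have h2 : W'.asIdeal.LiesOver (W.asIdeal.under (𝓞 K)) := ⟨congrArg HeightOneSpectrum.asIdeal h⟩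
  have h3 := W.isPrime
  have h4 := W'.isPrime
  obtain ⟨σ, hσ⟩ := Ideal.exists_smul_eq_of_isGaloisGroup (W.asIdeal.under (𝓞 K)) W.asIdeal
    W'.asIdeal Gal(L/K)
  exact ⟨σ, HeightOneSpectrum.ext hσ⟩

theorem BF1_coe (σ : Gal(L/K)) (x : 𝓞 L) : ((σ • x : 𝓞 L) : L) = σ (x : L) := rfl

theorem BF1_int (σ : Gal(L/K)) (W : Pl L) (x : 𝓞 L) (y : Lˣ) (h : (y : L) = x) :
    ord (smulP σ W) (Units.map ((σ : L ≃ₐ[K] L) : L →* L) y) = ord W y := by
  have h1 : ∀ n : ℕ, (n : ℤ) ≤ ord (smulP σ W) (Units.map ((σ : L ≃ₐ[K] L) : L →* L) y) ↔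
      (n : ℤ) ≤ ord W y := by
    intro n
    have h2 : ((Units.map ((σ : L ≃ₐ[K] L) : L →* L) y : Lˣ) : L) = ((σ • x : 𝓞 L) : L) := by
      rw [BF1_coe, ← h]
      rfl
    rw [ord_int (smulP σ W) (σ • x) _ h2 n, ord_int W x y h n]
    have h3 : (smulP σ W).asIdeal ^ n = σ • (W.asIdeal ^ n) := by
      rw [smul_pow']
      rfl
    rw [h3, Ideal.smul_mem_pointwise_smul_iff]
  have h4 := (h1 0).2 ((ord_int W x y h 0).2 (by simp))
  have h5 := (ord_int W x y h 0).2 (by simp)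
  push_cast at h4 h5
  obtain ⟨a, ha⟩ := Int.eq_ofNat_of_zero_le h4
  obtain ⟨b, hb⟩ := Int.eq_ofNat_of_zero_le h5
  have h6 := (h1 a).1 ha.ge
  have h7 := (h1 b).2 hb.ge
  omega

theorem ord_smul (σ : Gal(L/K)) (W : Pl L) (y : Lˣ) :
    ord (smulP σ W) (Units.map ((σ : L ≃ₐ[K] L) : L →* L) y) = ord W y := by
  obtain ⟨a, b, hb, hab⟩ := IsFractionRing.div_surjective (A := 𝓞 L) (y : L)
  have hb0 : (algebraMap (𝓞 L) L) b ≠ 0 := by
    intro h0
    have := (map_eq_zero_iff _ (IsFractionRing.injective (𝓞 L) L)).1 h0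
    rw [this] at hb
    exact zero_notMem_nonZeroDivisors hb
  have ha0 : (algebraMap (𝓞 L) L) a ≠ 0 := by
    intro h0
    rw [h0, zero_div] at hab
    exact y.ne_zero hab.symm
  have hy : y = Units.mk0 _ ha0 * (Units.mk0 _ hb0)⁻¹ := by
    ext
    rw [← hab, Units.val_mul, Units.val_inv_eq_inv_val, Units.val_mk0, Units.val_mk0, div_eq_mul_inv]
  rw [hy, map_mul, map_inv, ord_mul, ord_inv, ord_mul, ord_inv, BF1_int σ W a (Units.mk0 _ ha0) rfl,
    BF1_int σ W b (Units.mk0 _ hb0) rfl]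

end H55R
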