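import Mathlib
import Pool.Agent.Lib.H55R.BF1

open NumberField IsDedekindDomain
open scoped Pointwise

namespace H55R

variable {K L : Type} [Field K] [NumberField K] [Field L] [NumberField L] [Algebra K L] [IsGalois K L]

/-! Chunk BF2 (M): ramification, degrees, norms; L/K Galois of degree n, v a prime of K.
es_pos, fs_pos: Ideal.ramificationIdxIn_ne_zero, inertiaDegIn_ne_zero. card_above: number of primes above v times e f is n
(Ideal.ncard_primesOver_mul_ramificationIdxIn_mul_inertiaDegIn; the primes W with W.under = v correspond to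
v.asIdeal.primesOver (𝓞 L)). card_stab: Ideal.card_stabilizer_eq.
ord_map: ord W (x) = e ord v (x) for x in Kˣ: v O_L = product of the W'^e over the primes W' above v (Ideal.ramificationIdx is the multiplicity
of W in v O_L), so for integral x with (x) = v^a b, b prime to v, the multiplicity of W in x O_L is e a; quotients.
under_exists: every v has a prime above it. -/

theorem es_pos (v : Pl K) : 0 < es K L v := by
  have h := v.isPrime
  exact Nat.pos_of_ne_zero (Ideal.ramificationIdxIn_ne_zero (A := 𝓞 K) (B := 𝓞 L) Gal(L/K)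
    (p := v.asIdeal))

theorem fs_pos (v : Pl K) : 0 < fs K L v := by
  have h := v.isPrime
  exact Nat.pos_of_ne_zero (Ideal.inertiaDegIn_ne_zero (A := 𝓞 K) (B := 𝓞 L) Gal(L/K)
    (p := v.asIdeal))

omit [IsGalois K L] in
theorem under_exists (v : Pl K) : ∃ W : Pl L, W.under (𝓞 K) = v := by
  have hm := v.isMaximal
  obtain ⟨Q, hQ1, hQ2⟩ := Ideal.exists_maximal_ideal_liesOver_of_isIntegral (S := 𝓞 L) v.asIdeal
  refine ⟨⟨Q, hQ1.isPrime, Ideal.ne_bot_of_liesOver_of_ne_bot v.ne_bot Q⟩, ?_⟩
  apply HeightOneSpectrum.ext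
  exact hQ2.over.symm

omit [IsGalois K L] in
theorem BF2_mem (v : Pl K) (W : Pl L) (h : W.under (𝓞 K) = v) :
    W.asIdeal ∈ v.asIdeal.primesOver (𝓞 L) :=
  ⟨W.isPrime, ⟨(congrArg HeightOneSpectrum.asIdeal h).symm⟩⟩

omit [IsGalois K L] in
theorem above_finite (v : Pl K) : {W : Pl L | W.under (𝓞 K) = v}.Finite := by
  have hm := v.isMaximal
  have h1 : (v.asIdeal.primesOver (𝓞 L)).Finite := IsDedekindDomain.primesOver_finite v.asIdeal (𝓞 L)
  refine Set.Finite.of_finite_image (f := HeightOneSpectrum.asIdeal) (h1.subset ?_) ?_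
  · rintro _ ⟨W, hW, rfl⟩
    exact BF2_mem v W hW
  · intro W _ W' _ h
    exact HeightOneSpectrum.ext h

theorem card_above (v : Pl K) (T : Finset (Pl L)) (hT : ∀ W, W ∈ T ↔ W.under (𝓞 K) = v) :
    T.card * (es K L v * fs K L v) = Module.finrank K L := by
  classical
  have hp := v.isPrime
  have h1 := Ideal.ncard_primesOver_mul_ramificationIdxIn_mul_inertiaDegIn v.asIdeal (𝓞 L) Gal(L/K)
  rw [IsGalois.card_aut_eq_finrank] at h1
  have h2 : ((T.image HeightOneSpectrum.asIdeal : Finset (Ideal (𝓞 L))) : Set (Ideal (𝓞 L))) =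
      v.asIdeal.primesOver (𝓞 L) := by
    ext P
    rw [Finset.coe_image]
    constructor
    · rintro ⟨W, hW, rfl⟩
      exact BF2_mem v W ((hT W).1 (Finset.mem_coe.1 hW))
    · rintro ⟨hP, hP2⟩
      refine ⟨⟨P, hP, Ideal.ne_bot_of_liesOver_of_ne_bot v.ne_bot P⟩, ?_, rfl⟩
      rw [Finset.mem_coe, hT]
      apply HeightOneSpectrum.ext
      exact hP2.over.symm
  rw [← h2, Set.ncard_coe_finset, Finset.card_image_of_injective] at h1
  · exact h1
  · intro W W' h
    exact HeightOneSpectrum.ext h

theorem card_stab (W : Pl L) (v : Pl K) (h : W.under (𝓞 K) = v) :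
    Nat.card {σ : Gal(L/K) // smulP σ W = W} = es K L v * fs K L v := by
  have hp := v.isPrime
  have hW := W.isPrime
  have hl : W.asIdeal.LiesOver v.asIdeal := (BF2_mem v W h).2
  have h1 := Ideal.card_stabilizer_eq (G := Gal(L/K)) v.asIdeal W.asIdeal
  have h2 : Nat.card {σ : Gal(L/K) // smulP σ W = W} =
      Nat.card (MulAction.stabilizer Gal(L/K) W.asIdeal) := by
    apply Nat.card_congr
    refine Equiv.subtypeEquivRight fun σ => ?_
    rw [MulAction.mem_stabilizer_iff]
    constructor
    · intro h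
      exact congrArg HeightOneSpectrum.asIdeal h
    · intro h
      exact HeightOneSpectrum.ext h
  rw [h2, h1]
  rfl

theorem ord_map (W : Pl L) (v : Pl K) (h : W.under (𝓞 K) = v) (x : Kˣ) :
    ord W (Units.map (algebraMap K L : K →* L) x) = es K L v * ord v x := by
  have hp := v.isPrime
  have hW := W.isPrime
  have hl : W.asIdeal.LiesOver v.asIdeal := (BF2_mem v W h).2
  have h1 := HeightOneSpectrum.valuation_liesOver L v W (x : K)
  rw [Ideal.ramificationIdx'_eq_ramificationIdx v.asIdeal W.asIdeal v.ne_bot,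
    ← Ideal.ramificationIdxIn_eq_ramificationIdx v.asIdeal W.asIdeal Gal(L/K)] at h1
  have h2 := BF1_val W (Units.map (algebraMap K L : K →* L) x)
  have h3 : ((Units.map (algebraMap K L : K →* L) x : Lˣ) : L) = algebraMap K L (x : K) := rfl
  rw [h3, ← h1, BF1_val, ← WithZero.exp_nsmul, WithZero.exp_inj] at h2
  have h4 : v.asIdeal.ramificationIdxIn (𝓞 L) = es K L v := rfl
  rw [h4, nsmul_eq_mul] at h2
  linarith

end H55R
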