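import Mathlib
import Pool.Agent.Lib.H55N.H3
import Pool.Agent.Lib.H55R.Defs

/-!
# H55R, part AN: definitions and first lemmas.
-/

open NumberField IsDedekindDomain

namespace H55R

open H55B H55N

section one

variable {K : Type} [Field K] [NumberField K]

/-- The value of the Dirichlet series of h at the real number s. -/
noncomputable def Ls (h : Ideal (𝓞 K) → ℂ) (s : ℝ) : ℂ := ∑' a, tm h s a

open Classical in
/-- The smoothing weight of the ideal c. -/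
noncomputable def wt (c : Ideal (𝓞 K)) (x : 𝓞 K) : ℂ :=
  if x ∈ c then 1 - (Ideal.absNorm c : ℂ) else 1

/-- The absolute value of the norm to F. -/
noncomputable def nn [Algebra F K] (x : 𝓞 K) : ℝ := ‖emb (Algebra.norm F (x : K))‖

theorem dd_two_le (v : Pl K) : 2 ≤ Ideal.absNorm v.asIdeal := by
  have h0 : Ideal.absNorm v.asIdeal ≠ 0 := fun h => v.ne_bot (Ideal.absNorm_eq_zero_iff.1 h)
  have h1 : Ideal.absNorm v.asIdeal ≠ 1 := fun h => v.isPrime.ne_top (Ideal.absNorm_eq_one_iff.1 h)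
  omega

theorem dd_half (v : Pl K) (s : ℝ) (hs : 1 ≤ s) : (Ideal.absNorm v.asIdeal : ℝ) ^ (-s) ≤ 1 / 2 := by
  have h2 : (2 : ℝ) ≤ (Ideal.absNorm v.asIdeal : ℝ) := by exact_mod_cast dd_two_le v
  calc (Ideal.absNorm v.asIdeal : ℝ) ^ (-s) ≤ (Ideal.absNorm v.asIdeal : ℝ) ^ (-1 : ℝ) :=
        Real.rpow_le_rpow_of_exponent_le (by linarith) (by linarith)
    _ = (Ideal.absNorm v.asIdeal : ℝ)⁻¹ := Real.rpow_neg_one _
    _ ≤ 1 / 2 := by
        rw [one_div]
        exact inv_anti₀ (by norm_num) h2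

theorem dd_inj : Function.Injective fun v : Pl K => v.asIdeal := fun _ _ h =>
  HeightOneSpectrum.ext h

theorem dd_summable (s : ℝ) (hs : 1 < s) :
    Summable fun v : Pl K => (Ideal.absNorm v.asIdeal : ℝ) ^ (-s) :=
  (ideal_summable (K := K) s hs).comp_injective dd_inj

theorem dd_norm_tm (h : Ideal (𝓞 K) → ℂ) (s : ℝ) (hs : s ≠ 0) (a : Ideal (𝓞 K)) :
    ‖tm h s a‖ = ‖h a‖ * (Ideal.absNorm a : ℝ) ^ (-s) := by
  unfold tm
  rw [norm_mul, Complex.norm_natCast_cpow_of_re_ne_zero _ (by simpa using hs)]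
  simp

theorem dd_tm_summable (h : Ideal (𝓞 K) → ℂ) (hh : ∀ a, ‖h a‖ ≤ 1) (s : ℝ) (hs : 1 < s) :
    Summable fun a => ‖tm h s a‖ := by
  refine Summable.of_nonneg_of_le (fun _ => norm_nonneg _) (fun a => ?_)
    (ideal_summable (K := K) s hs)
  rw [dd_norm_tm h s (by linarith) a]
  exact mul_le_of_le_one_left (by positivity) (hh a)

theorem dd_norm_pv (φ : Pl K → ℂˣ) (h : ∀ v, ‖(φ v : ℂ)‖ = 1) (a : Ideal (𝓞 K)) :
    ‖(pv φ a : ℂ)‖ = 1 := by
  unfold pv
  have h1 : ∀ s : Multiset ℂˣ, (∀ x ∈ s, ‖(x : ℂ)‖ = 1) → ‖((s.prod : ℂˣ) : ℂ)‖ = 1 := by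
    intro s
    induction s using Multiset.induction_on with
    | empty => simp
    | cons x s ih =>
      intro hx
      rw [Multiset.prod_cons, Units.val_mul, norm_mul, hx x (Multiset.mem_cons_self x s),
        ih fun y hy => hx y (Multiset.mem_cons_of_mem hy), one_mul]
  apply h1
  intro x hx
  rw [Multiset.mem_map] at hx
  obtain ⟨P, -, rfl⟩ := hx
  split_ifs with h2
  · exact h _
  · simp

theorem dd_norm_tI (f : Ideal (𝓞 K)) (φ : Pl K → ℂˣ) (h : ∀ v, ‖(φ v : ℂ)‖ = 1)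
    (a : Ideal (𝓞 K)) : ‖tI f φ a‖ ≤ 1 := by
  by_cases h0 : a ≠ ⊥ ∧ IsCoprime a f
  · rw [tI_apply f φ h0.1 h0.2, dd_norm_pv φ h a]
  · have : tI f φ a = 0 := if_neg h0
    rw [this, norm_zero]
    exact zero_le_one

theorem dd_norm_Y (Y : Subgroup (Pl K → ℂˣ)) [Finite Y] (φ : Pl K → ℂˣ) (hφ : φ ∈ Y) (v : Pl K) :
    ‖(φ v : ℂ)‖ = 1 := by
  have h1 : (⟨φ, hφ⟩ : Y) ^ Nat.card Y = 1 := pow_card_eq_one'
  have h2 : φ ^ Nat.card Y = 1 := congrArg Subtype.val h1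
  have h3 : (φ v : ℂ) ^ Nat.card Y = 1 := by
    have := congrFun h2 v
    rw [Pi.pow_apply, Pi.one_apply] at this
    have h4 := congrArg (Units.val) this
    simpa using h4
  exact Complex.norm_eq_one_of_pow_eq_one h3 Nat.card_pos.ne'

/-- The value at an ideal all of whose primes have value 1. -/
theorem dd_pv_eq_one (φ : Pl K → ℂˣ) (a : Ideal (𝓞 K))
    (h : ∀ v : Pl K, a ≤ v.asIdeal → φ v = 1) : pv φ a = 1 := by
  unfold pv
  refine Multiset.prod_eq_one fun x hx => ?_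
  rw [Multiset.mem_map] at hx
  obtain ⟨P, hP, rfl⟩ := hx
  split_ifs with h2
  · exact h _ (Ideal.dvd_iff_le.1 (UniqueFactorizationMonoid.dvd_of_mem_normalizedFactors hP))
  · rfl

end one

end H55R
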