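import Mathlib
import Pool.Agent.Lib.H55R.DD
import Pool.Agent.Lib.H55N.H2
import Pool.Agent.Lib.H55N.H13

open NumberField IsDedekindDomain

namespace H55R

open H55B H55N

open Classical in
/-- Chunk RD10 (S/M), the terms of a class. kappa = pv phi (c₀) / pv phi b. Let x in XS, a b = (x). x <> 0 and c₀ <> 0, and both (x) and (c₀) are coprime to (3) f: (x) = a b with b coprime to (6) f
and a coprime to (3) f: if a and (3) f were contained in a prime w, then x in w b, and x - c₀ in 3 f b <= w b gives c₀ in w b, against hp (the same for c₀ = b d; there is such a prime w because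
3 is not a unit of 𝓞 K; see H13_three, H13_prime, H13_ex in H55N/H13.lean). x - c₀ in (3) f b <= f, so
pv phi (x) = pv phi (c₀) (second part of RC) and pv phi a * pv phi b = pv phi (x) (pv_mul), tI (3f) phi a = pv phi a = kappa (tI_apply). absNorm a * absNorm b =
absNorm (x) = nn x ^ 2 (H55N.absNorm_span), all positive, so (absNorm a)^(-s) = (absNorm b)^s * nn x ^ (-2 s) (real powers; the complex power of a natural number with real exponent is the real power:
Complex.ofReal_cpow). Weights: a <= c iff x in c: x in c gives a b <= c, c is prime and b is not <= c (b + c = 1, c <> 1); conversely x in a b <= a <= c. -/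
theorem term_class {K : Type} [Field K] [NumberField K] [Algebra F K] (f b : Ideal (𝓞 K))
    (hf : f ≠ ⊥) (hb : b ≠ ⊥) (φ : Pl K → ℂˣ) (hφ : φ ∈ RC f)
    (hbf : IsCoprime b (Ideal.span {6} * f)) (c₀ : 𝓞 K) (hc : c₀ ∈ b)
    (hp : ∀ w : HeightOneSpectrum (𝓞 K), Ideal.span {3} * f ≤ w.asIdeal → c₀ ∉ w.asIdeal * b) :
    ∃ κ : ℂ, ∀ c : Pl K, IsCoprime b c.asIdeal → ∀ x ∈ XS (Ideal.span {3} * f * b) c₀,
      ∀ a : Ideal (𝓞 K), a * b = Ideal.span {x} → ∀ s : ℝ,
        tm (tI (Ideal.span {3} * f) φ) s a *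
            (if a ≤ c.asIdeal then 1 - (Ideal.absNorm c.asIdeal : ℂ) else 1) =
          κ * (((Ideal.absNorm b : ℝ) ^ s : ℝ) : ℂ) *
            (wt c.asIdeal x * ((nn x ^ (-2 * s) : ℝ) : ℂ)) := by
  classical
  have key : ∀ x ∈ XS (Ideal.span {3} * f * b) c₀, ∀ w : HeightOneSpectrum (𝓞 K),
      Ideal.span {3} * f ≤ w.asIdeal → x ∉ w.asIdeal * b := by
    intro x hx w hw hxw
    have h1 : x - c₀ ∈ Ideal.span {3} * f * b := hx
    apply hp w hw
    have h2 : x - c₀ ∈ w.asIdeal * b := Ideal.mul_mono_left hw h1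
    have h3 := Ideal.sub_mem _ hxw h2
    rwa [sub_sub_cancel] at h3
  have hc₀XS : c₀ ∈ XS (Ideal.span {3} * f * b) c₀ := by
    show c₀ - c₀ ∈ Ideal.span {3} * f * b
    rw [sub_self]
    exact Ideal.zero_mem _
  have hne : ∀ x ∈ XS (Ideal.span {3} * f * b) c₀, x ≠ 0 := by
    rintro x hx rfl
    obtain ⟨w, hw⟩ := H13_prime (K := K)
    exact key 0 hx w (Ideal.mul_le_left.trans hw) (Ideal.zero_mem _)
  have hcop : ∀ x ∈ XS (Ideal.span {3} * f * b) c₀, ∀ a : Ideal (𝓞 K),
      a * b = Ideal.span {x} → a ≠ ⊥ ∧ IsCoprime a (Ideal.span {3} * f) := by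
    intro x hx a hab
    have ha0 : a ≠ ⊥ := by
      rintro rfl
      apply hne x hx
      rw [← Ideal.span_singleton_eq_bot, ← hab]
      exact zero_mul b
    refine ⟨ha0, ?_⟩
    by_contra hc'
    rw [Ideal.isCoprime_iff_sup_eq] at hc'
    obtain ⟨M, hM, hM2⟩ := Ideal.exists_le_maximal _ hc'
    have hM0 : M ≠ ⊥ := by
      rintro rfl
      exact ha0 (le_bot_iff.1 (le_sup_left.trans hM2))
    refine key x hx ⟨M, hM.isPrime, hM0⟩ (le_sup_right.trans hM2) ?_
    have h4 : x ∈ a * b := by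
      rw [hab]
      exact Ideal.mem_span_singleton_self x
    exact Ideal.mul_mono_left (le_sup_left.trans hM2) h4
  have hbf' : IsCoprime b f := hbf.of_mul_right_right
  refine ⟨(pv φ (Ideal.span {c₀}) : ℂ) * ((pv φ b : ℂ))⁻¹, fun c hbc x hx a hab s => ?_⟩
  obtain ⟨ha0, hac⟩ := hcop x hx a hab
  have hx0 := hne x hx
  have hc0 := hne c₀ hc₀XS
  have hxf : IsCoprime (Ideal.span {x}) f := by
    rw [← hab]
    exact hac.of_mul_right_right.mul_left hbf'
  have hxc : x - c₀ ∈ f := by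
    have h1 : x - c₀ ∈ Ideal.span {3} * f * b := hx
    exact Ideal.mul_le_right (Ideal.mul_le_left h1)
  have hpv : pv φ a * pv φ b = pv φ (Ideal.span {c₀}) := by
    rw [← pv_mul φ ha0 hb, hab]
    exact hφ.2 x c₀ hx0 hc0 hxf hxc
  have hpva : ((pv φ a : ℂˣ) : ℂ) = (pv φ (Ideal.span {c₀}) : ℂ) * ((pv φ b : ℂ))⁻¹ := by
    rw [← hpv, Units.val_mul, mul_assoc, mul_inv_cancel₀ (pv φ b).ne_zero, mul_one]
  -- norms
  have hNa : (0 : ℝ) < Ideal.absNorm a := by
    have : Ideal.absNorm a ≠ 0 := fun h => ha0 (Ideal.absNorm_eq_zero_iff.1 h)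
    exact_mod_cast Nat.pos_of_ne_zero this
  have hNb : (0 : ℝ) < Ideal.absNorm b := by
    have : Ideal.absNorm b ≠ 0 := fun h => hb (Ideal.absNorm_eq_zero_iff.1 h)
    exact_mod_cast Nat.pos_of_ne_zero this
  have hNab : (Ideal.absNorm a : ℝ) * Ideal.absNorm b = nn x ^ 2 := by
    unfold nn
    rw [← H55N.absNorm_span, ← hab, map_mul, Nat.cast_mul]
  have hnn0 : 0 ≤ nn x := norm_nonneg _
  have hpow : (Ideal.absNorm a : ℝ) ^ (-s) = (Ideal.absNorm b : ℝ) ^ s * nn x ^ (-2 * s) := by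
    have h1 : nn x ^ (-2 * s) = (nn x ^ 2) ^ (-s) := by
      rw [← Real.rpow_natCast, ← Real.rpow_mul hnn0]
      congr 1
      push_cast
      ring
    rw [h1, ← hNab, Real.mul_rpow hNa.le hNb.le, mul_comm ((Ideal.absNorm a : ℝ) ^ (-s)),
      ← mul_assoc, ← Real.rpow_add hNb, add_neg_cancel, Real.rpow_zero, one_mul]
  have htm : tm (tI (Ideal.span {3} * f) φ) s a = (pv φ (Ideal.span {c₀}) : ℂ) * ((pv φ b : ℂ))⁻¹ *
      (((Ideal.absNorm b : ℝ) ^ s : ℝ) : ℂ) * ((nn x ^ (-2 * s) : ℝ) : ℂ) := by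
    unfold tm
    rw [tI_apply _ φ ha0 hac, hpva]
    have h1 : (Ideal.absNorm a : ℂ) ^ (-(s : ℂ)) = (((Ideal.absNorm a : ℝ) ^ (-s) : ℝ) : ℂ) := by
      rw [Complex.ofReal_cpow hNa.le]
      push_cast
      rfl
    rw [h1, hpow]
    push_cast
    ring
  have hwt : wt c.asIdeal x = if a ≤ c.asIdeal then 1 - (Ideal.absNorm c.asIdeal : ℂ) else 1 := by
    unfold wt
    have h1 : x ∈ c.asIdeal ↔ a ≤ c.asIdeal := by
      constructor
      · intro h
        have h2 : a * b ≤ c.asIdeal := by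
          rw [hab, Ideal.span_singleton_le_iff_mem]
          exact h
        rcases c.isPrime.mul_le.1 h2 with h3 | h3
        · exact h3
        · exfalso
          rw [Ideal.isCoprime_iff_sup_eq, sup_eq_right.2 h3] at hbc
          exact c.isPrime.ne_top hbc
      · intro h
        have h2 : x ∈ a * b := by
          rw [hab]
          exact Ideal.mem_span_singleton_self x
        exact h (Ideal.mul_le_left h2)
    simp only [h1]
  rw [htm, hwt]
  ring

end H55R
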