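import Mathlib
import Pool.Agent.Lib.H55N.U1

namespace H55R

open H55N

/-! Chunk RD9 (S), two lower bounds by compactness. fac_low: the function s -> |1 - q zeta q^(-s)| is continuous on [1,2] (q > 0) and has no zero: a zero gives |q q^(-s)| = q^(1-s) = 1,
so s = 1 and zeta = 1. IsCompact.exists_isMinOn. cst_low: for real s > 0, cst_eq gives Gamma(n s) cst(s) |Delta| = Gamma(s)^n with Gamma(s), Gamma(n s) <> 0, so |cst(s)| = |Gamma(s)|^n / (|Gamma(n s)| |Delta|), a
continuous positive function on the compact interval (Complex.differentiableAt_Gamma or Real.Gamma with Real.Gamma_pos_of_pos, Complex.Gamma_ofReal). -/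

theorem d9_compact (a b : ℝ) (hab : a ≤ b) (φ : ℝ → ℝ) (hφ : ContinuousOn φ (Set.Icc a b))
    (hp : ∀ s ∈ Set.Icc a b, 0 < φ s) : ∃ δ : ℝ, 0 < δ ∧ ∀ s ∈ Set.Icc a b, δ ≤ φ s := by
  obtain ⟨s₀, h1, h2⟩ := isCompact_Icc.exists_isMinOn (Set.nonempty_Icc.2 hab) hφ
  exact ⟨φ s₀, hp s₀ h1, fun s hs => h2 hs⟩

theorem fac_low (q : ℕ) (hq : 2 ≤ q) (ζ : ℂ) (h1 : ‖ζ‖ = 1) (hζ : ζ ≠ 1) :
    ∃ δ : ℝ, 0 < δ ∧ ∀ s ∈ Set.Icc (1 : ℝ) 2,
      δ ≤ ‖1 - (q : ℂ) * (ζ * (q : ℂ) ^ (-(s : ℂ)))‖ := by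
  have hq0 : (q : ℂ) ≠ 0 := by
    have : q ≠ 0 := by omega
    exact_mod_cast this
  refine d9_compact 1 2 (by norm_num) _ ?_ ?_
  · have h2 : Continuous fun s : ℝ => (q : ℂ) ^ (-(s : ℂ)) :=
      Continuous.const_cpow (by fun_prop) (Or.inl hq0)
    exact (continuous_norm.comp (continuous_const.sub
      (continuous_const.mul (continuous_const.mul h2)))).continuousOn
  · intro s hs
    rw [norm_pos_iff]
    intro h
    have h3 : (q : ℂ) * (ζ * (q : ℂ) ^ (-(s : ℂ))) = 1 := (sub_eq_zero.1 h).symm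
    have hq' : (0 : ℝ) < q := by exact_mod_cast (by omega : 0 < q)
    have h4 : (q : ℝ) * (q : ℝ) ^ (-s) = 1 := by
      have h5 := congrArg norm h3
      rw [norm_mul, norm_mul, h1, one_mul, norm_one, Complex.norm_natCast,
        Complex.norm_natCast_cpow_of_pos (by omega)] at h5
      simpa using h5
    have h5 : (q : ℝ) ^ (1 - s) = 1 := by
      rw [sub_eq_add_neg, Real.rpow_add hq', Real.rpow_one]
      exact h4
    have h6 : s = 1 := by
      by_contra hne
      have h7 : 1 - s < 0 := by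
        rcases lt_or_eq_of_le hs.1 with h | h
        · linarith
        · exact absurd h.symm hne
      have h8 : (q : ℝ) ^ (1 - s) < 1 := Real.rpow_lt_one_of_one_lt_of_neg
        (by exact_mod_cast (by omega : 1 < q)) h7
      linarith
    apply hζ
    rw [h6] at h3
    have h7 : (q : ℂ) ^ (-((1 : ℝ) : ℂ)) = (q : ℂ)⁻¹ := by
      rw [Complex.ofReal_one, Complex.cpow_neg_one]
    rw [h7] at h3
    field_simp at h3
    exact h3

theorem cst_low {m : ℕ} (lm : Fin (m + 1) → Fin m → ℝ) (h0 : ∀ j, ∑ i, lm i j = 0)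
    (hD : Delta lm ≠ 0) :
    ∃ δ : ℝ, 0 < δ ∧ ∀ s ∈ Set.Icc (3 / 2 : ℝ) (5 / 2), δ ≤ ‖cst lm (s : ℂ)‖ := by
  have hΔ : 0 < |Delta lm| := abs_pos.2 hD
  have key : ∀ s : ℝ, 0 < s → ‖cst lm (s : ℂ)‖ =
      Real.Gamma s ^ (m + 1) / (Real.Gamma ((m + 1 : ℕ) * s) * |Delta lm|) := by
    intro s hs
    have h1 := cst_eq lm h0 hD (s : ℂ) (by simpa using hs)
    have h2 := congrArg norm h1
    have e1 : Complex.Gamma ((m + 1 : ℕ) * (s : ℂ)) = ((Real.Gamma ((m + 1 : ℕ) * s) : ℝ) : ℂ) := by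
      rw [← Complex.Gamma_ofReal]
      push_cast
      rfl
    have hp1 : 0 < Real.Gamma s := Real.Gamma_pos_of_pos hs
    have hp2 : 0 < Real.Gamma ((m + 1 : ℕ) * s) := Real.Gamma_pos_of_pos (by positivity)
    rw [norm_mul, norm_mul, norm_pow, e1, Complex.Gamma_ofReal, Complex.norm_real, Complex.norm_real,
      Complex.norm_real, Real.norm_of_nonneg hp1.le, Real.norm_of_nonneg hp2.le,
      Real.norm_of_nonneg hΔ.le] at h2
    rw [eq_div_iff (by positivity), ← h2]
    ring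
  have hc : ∀ s : ℝ, 0 < s → ContinuousAt Real.Gamma s := fun s hs =>
    (Real.differentiableAt_Gamma fun n h => by
      have : (0 : ℝ) ≤ n := Nat.cast_nonneg n
      linarith).continuousAt
  obtain ⟨δ, hδ, h⟩ := d9_compact (3 / 2) (5 / 2) (by norm_num)
    (fun s => Real.Gamma s ^ (m + 1) / (Real.Gamma ((m + 1 : ℕ) * s) * |Delta lm|)) (by
      intro s hs
      have hs0 : 0 < s := by
        have := hs.1
        linarith
      have hp2 : 0 < Real.Gamma ((m + 1 : ℕ) * s) := Real.Gamma_pos_of_pos (by positivity)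
      refine ContinuousAt.continuousWithinAt ?_
      refine ((hc s hs0).pow _).div (ContinuousAt.mul ?_ continuousAt_const) (by positivity)
      exact ContinuousAt.comp (f := fun s : ℝ => ((m + 1 : ℕ) : ℝ) * s) (hc _ (by positivity))
        (by fun_prop)) (by
      intro s hs
      have hs0 : 0 < s := by
        have := hs.1
        linarith
      have hp1 : 0 < Real.Gamma s := Real.Gamma_pos_of_pos hs0
      have hp2 : 0 < Real.Gamma ((m + 1 : ℕ) * s) := Real.Gamma_pos_of_pos (by positivity)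
      positivity)
  refine ⟨δ, hδ, fun s hs => ?_⟩
  have hs0 : 0 < s := by
    have := hs.1
    linarith
  rw [key s hs0]
  exact h s hs

end H55R
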