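import Mathlib
import Pool.Agent.Lib.H55N.Core
import Pool.Agent.Lib.H55R.D11
import Pool.Agent.Lib.H55R.D9

open NumberField IsDedekindDomain

namespace H55R

open H55B H55N

theorem D12_fin {K : Type} [Field K] [NumberField K] [Algebra F K] :
    ∃ m : ℕ, Module.finrank F K = m + 1 := by
  have : IsScalarTower ℚ F K := IsScalarTower.of_algebraMap_eq' (Subsingleton.elim _ _)
  have : Module.Finite F K := Module.Finite.of_restrictScalars_finite ℚ F K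
  have h : 0 < Module.finrank F K := Module.finrank_pos
  exact ⟨Module.finrank F K - 1, by omega⟩

theorem D12_three {K : Type} [Field K] [NumberField K] :
    (Ideal.span {3} : Ideal (𝓞 K)) ≠ ⊤ := by
  intro h
  have h1 : Ideal.absNorm (Ideal.span {3} : Ideal (𝓞 K)) = 1 := by
    rw [h]
    exact Ideal.absNorm_top
  rw [Ideal.absNorm_span_singleton] at h1
  have h2 : (3 : 𝓞 K) = algebraMap ℤ (𝓞 K) 3 := by simp
  rw [h2, Algebra.norm_algebraMap] at h1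
  have h3 : 0 < Module.finrank ℤ (𝓞 K) := Module.finrank_pos
  rw [Int.natAbs_pow] at h1
  have h4 : 1 < Int.natAbs 3 ^ Module.finrank ℤ (𝓞 K) := Nat.one_lt_pow h3.ne' (by decide)
  omega

theorem D12_ne {K : Type} [Field K] [NumberField K] (f b : Ideal (𝓞 K)) (hf : f ≠ ⊥) (c₀ : 𝓞 K)
    (hp : ∀ w : HeightOneSpectrum (𝓞 K), Ideal.span {3} * f ≤ w.asIdeal → c₀ ∉ w.asIdeal * b) :
    c₀ ∉ Ideal.span {3} * f * b := by
  intro h
  have h1 : (Ideal.span {3} * f : Ideal (𝓞 K)) ≠ ⊤ := fun h2 =>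
    D12_three (K := K) (top_unique (h2 ▸ Ideal.mul_le_left))
  obtain ⟨M, hM, hM2⟩ := Ideal.exists_le_maximal _ h1
  have h3 : (Ideal.span {(3 : 𝓞 K)}) ≠ ⊥ := by
    rw [Ne, Ideal.span_singleton_eq_bot]
    exact OfNat.ofNat_ne_zero 3
  have hM0 : M ≠ ⊥ := by
    rintro rfl
    exact mul_ne_zero h3 hf (le_bot_iff.1 hM2)
  exact hp ⟨M, hM.isPrime, hM0⟩ hM2 (Ideal.mul_mono_left hM2 h)

theorem D12_wt {K : Type} [Field K] [NumberField K] (c : Ideal (𝓞 K)) (u : (𝓞 K)ˣ) (x : 𝓞 K) :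
    wt c ((u : 𝓞 K) * x) = wt c x := by
  unfold wt
  have : (u : 𝓞 K) * x ∈ c ↔ x ∈ c := Ideal.unit_mul_mem_iff_mem _ u.isUnit
  by_cases h : x ∈ c
  · rw [if_pos (this.2 h), if_pos h]
  · rw [if_neg (fun h' => h (this.1 h')), if_neg h]

theorem D12_wt_bd {K : Type} [Field K] [NumberField K] (c : Ideal (𝓞 K)) (x : 𝓞 K) :
    ‖wt c x‖ ≤ 1 + Ideal.absNorm c := by
  unfold wt
  split_ifs
  · refine (norm_sub_le _ _).trans ?_
    rw [NormOneClass.norm_one, Complex.norm_natCast]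
  · rw [NormOneClass.norm_one]
    have : (0 : ℝ) ≤ Ideal.absNorm c := Nat.cast_nonneg _
    linarith

section

variable {K : Type} [Field K] [NumberField K] [Algebra F K] {m : ℕ}

theorem D12_N (D : Ctx K m) (hσ : Emb D.σ) (x : 𝓞 K) :
    D.N x = emb (Algebra.norm F (x : K)) := norm_eq hσ _

theorem D12_nn (D : Ctx K m) (hσ : Emb D.σ) (x : 𝓞 K) : nn x = ‖D.N x‖ := by
  rw [D12_N D hσ]
  rfl

theorem D12_Nmul (D : Ctx K m) (u x : 𝓞 K) : D.N (u * x) = D.N u * D.N x := by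
  unfold Ctx.N
  rw [← Finset.prod_mul_distrib]
  refine Finset.prod_congr rfl fun i _ => ?_
  rw [← map_mul]
  rfl

theorem D12_N_ne (D : Ctx K m) {x : 𝓞 K} (hx : x ≠ 0) : D.N x ≠ 0 := by
  unfold Ctx.N
  refine Finset.prod_ne_zero_iff.2 fun i _ => ?_
  rw [Ne, map_eq_zero]
  exact fun h => hx (RingOfIntegers.coe_eq_zero_iff.1 h)

theorem D12_Q_pos (D : Ctx K m) (t : Fin (m + 1) → ℝ) (ht : ∀ i, 0 < t i) {x : 𝓞 K} (hx : x ≠ 0) :
    0 < D.Q t x := by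
  unfold Ctx.Q
  refine Finset.sum_pos (fun i _ => ?_) Finset.univ_nonempty
  have h1 : D.σ i (x : K) ≠ 0 := by
    rw [Ne, map_eq_zero]
    exact fun h => hx (RingOfIntegers.coe_eq_zero_iff.1 h)
  have := ht i
  have h2 := norm_pos_iff.2 h1
  positivity

/-- conj N times N/|N| -/
theorem D12_conj (z : ℂ) (hz : z ≠ 0) : z / (‖z‖ : ℂ) * (starRingEnd ℂ) z = (‖z‖ : ℂ) := by
  have h : (‖z‖ : ℂ) ≠ 0 := by
    exact_mod_cast norm_ne_zero_iff.2 hz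
  rw [div_mul_eq_mul_div, Complex.mul_conj, Complex.normSq_eq_norm_sq, div_eq_iff h]
  push_cast
  ring

theorem D12_nf (D : Ctx K m) (hσ : Emb D.σ) (s : ℝ) {x : 𝓞 K} (hx : x ≠ 0) :
    D.N x / (‖D.N x‖ : ℂ) * nf ((s + 1 / 2 : ℝ) : ℂ) x = ((nn x ^ (-2 * s) : ℝ) : ℂ) := by
  have hN := D12_N_ne D hx
  have h0 : 0 < ‖D.N x‖ := norm_pos_iff.2 hN
  unfold nf g
  rw [← D12_N D hσ, ← mul_assoc, D12_conj _ hN, D12_nn D hσ]
  have h1 : (-2 * ((s + 1 / 2 : ℝ) : ℂ)) = ((-2 * (s + 1 / 2) : ℝ) : ℂ) := by push_cast; ring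
  rw [h1, ← Complex.ofReal_cpow h0.le, ← Complex.ofReal_mul]
  congr 1
  have h2 : ‖D.N x‖ * ‖D.N x‖ ^ (-2 * (s + 1 / 2)) = ‖D.N x‖ ^ (1 : ℝ) * ‖D.N x‖ ^ (-2 * (s + 1 / 2)) := by
    rw [Real.rpow_one]
  rw [h2, ← Real.rpow_add h0]
  congr 1
  ring

theorem D12_fs (D : Ctx K m) (t : Fin (m + 1) → ℝ) (ht : ∀ i, 0 < t i) (s : ℝ) {x : 𝓞 K}
    (hx : x ≠ 0) : D.N x / (‖D.N x‖ : ℂ) * D.fs t (s : ℂ) x = ((‖D.fs t (s : ℂ) x‖ : ℝ) : ℂ) := by
  have hN := D12_N_ne D hx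
  have hQ := D12_Q_pos D t ht hx
  have h1 : (-((m + 1 : ℕ) * (s : ℂ))) = ((-((m + 1 : ℕ) * s) : ℝ) : ℂ) := by push_cast; ring
  have h2 : D.fs t (s : ℂ) x = (starRingEnd ℂ) (D.N x) * ((D.Q t x ^ (-((m + 1 : ℕ) * s)) : ℝ) : ℂ) := by
    unfold Ctx.fs
    rw [h1, ← Complex.ofReal_cpow hQ.le]
  have h3 : 0 ≤ D.Q t x ^ (-((m + 1 : ℕ) * s)) := Real.rpow_nonneg hQ.le _
  rw [h2, ← mul_assoc, D12_conj _ hN, norm_mul, RCLike.norm_conj, Complex.norm_real,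
    Real.norm_of_nonneg h3, Complex.ofReal_mul]

end

/-- Chunk RD12 (M/L), the smoothed partial series of a class is bounded (model: the proof of H55N.core in H55N/Core.lean). finrank F K = m + 1, sigma from emb_exists,
J = 3 f, J' = (2) J c (nonzero, <= J, <= (6)), X = XS (J b) c₀, D = the context sigma, I = J b, c₀ (c, p arbitrary). c₀ is not in J b (hp at a prime w containing 3, see H13_prime).
phi(x) = wt c x * nn x ^ (-2 s) is invariant under the units u = 1 mod J on X (u x in c iff x in c; N u = 1 by norm_one and norm_eq, as J <= (3)). X is stable under these units ((u - 1) x in J b: x in b).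
finite_change J J' gives nu > 0 and T' = a transversal of X modulo the units = 1 mod J' such that HasSum over T' of phi with sum S gives HasSum over T with sum S / nu.
units_basis for J' gives u; UOk D u: act (u - 1 in J, c₀ in b), norm (norm_one), reg (delta_ne). Z3_bij gives the bijection hypothesis of unfold. Apply unfold with
g(x) = wt c x * (D.N x / |D.N x|) (bounded by q + 1; invariant under the units uu u z: these have norm 1, uu_act) at s' = s + 1/2 in (3/2, 5/2]: for x <> 0, g(x) nf s' x = wt c x * |N x|^(-2s)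
= phi(x) (nf s' x = conj N |N|^(-2s'), D.N x = emb (norm x) by norm_eq, N <> 0), and g(x) fs(t, s', x) = wt c x * |fs(t, s', x)| (the power of Q is a positive real number). So the sum over T' of phi
converges and times cst(s') it is the integral over the cube of the sums of cube_bdd (a, b from U4_tt_bd), bounded by the constant C of cube_bdd (the cube has volume one; MeasureTheory.norm_setIntegral_le_of_norm_le_const), and
|cst(s')| >= delta (cst_low, lm_sum). Bound: C / (delta nu). -/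
theorem class_bdd {K : Type} [Field K] [NumberField K] [Algebra F K] (f b : Ideal (𝓞 K))
    (hf : f ≠ ⊥) (hb : b ≠ ⊥) (c₀ : 𝓞 K) (hc : c₀ ∈ b)
    (hp : ∀ w : HeightOneSpectrum (𝓞 K), Ideal.span {3} * f ≤ w.asIdeal → c₀ ∉ w.asIdeal * b)
    (c : Pl K) (hcc : IsCoprime (Ideal.span {3} * f * b) c.asIdeal) (T : Set (𝓞 K))
    (hT : Transv (Ideal.span {3} * f) (XS (Ideal.span {3} * f * b) c₀) T) :
    ∃ C : ℝ, ∀ s ∈ Set.Ioc (1 : ℝ) 2, ∃ Z : ℂ, ‖Z‖ ≤ C ∧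
      HasSum (fun x : T => wt c.asIdeal (x : 𝓞 K) * ((nn (x : 𝓞 K) ^ (-2 * s) : ℝ) : ℂ)) Z := by
  classical
  obtain ⟨m, hm⟩ := D12_fin (K := K)
  obtain ⟨σ, hσ⟩ := emb_exists K m hm
  have hne0 := D12_ne f b hf c₀ hp
  obtain ⟨J, hJdef⟩ : ∃ J : Ideal (𝓞 K), J = Ideal.span {3} * f := ⟨_, rfl⟩
  obtain ⟨J', hJ'def⟩ : ∃ J' : Ideal (𝓞 K), J' = Ideal.span {2} * J := ⟨_, rfl⟩
  rw [← hJdef] at hT hne0 hcc
  have hJ0 : J ≠ ⊥ := by
    rw [hJdef]
    exact mul_ne_zero (by simp) hf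
  have hJ'0 : J' ≠ ⊥ := by
    rw [hJ'def]
    exact mul_ne_zero (by simp) hJ0
  have hJ'J : J' ≤ J := by
    rw [hJ'def]
    exact Ideal.mul_le_right
  have hJ3 : J ≤ Ideal.span {3} := by
    rw [hJdef]
    exact Ideal.mul_le_left
  have hJ6 : J' ≤ Ideal.span {6} := by
    rw [hJ'def, hJdef, ← mul_assoc, Ideal.span_singleton_mul_span_singleton]
    have : (2 : 𝓞 K) * 3 = 6 := by norm_num
    rw [this]
    exact Ideal.mul_le_left
  obtain ⟨u, hu1, hu2, hu3, hu4⟩ := units_basis hm J' hJ'0 hJ6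
  obtain ⟨D, hDσ, hDI, hDc⟩ : ∃ D : Ctx K m, D.σ = σ ∧ D.I = J * b ∧ D.c₀ = c₀ :=
    ⟨⟨σ, J * b, c₀, fun _ => ⊥, fun _ => 0⟩, rfl, rfl, rfl⟩
  have hσ' : Emb D.σ := by
    rw [hDσ]
    exact hσ
  have hne : D.c₀ ∉ D.I := by
    rw [hDI, hDc]
    exact hne0
  have hDX : D.X = XS (J * b) c₀ := by
    unfold Ctx.X
    rw [hDI, hDc]
  rw [← hDX] at hT
  have h0X : (0 : 𝓞 K) ∉ D.X := fun h => D.X_ne hne h rfl
  have hact : ∀ v : (𝓞 K)ˣ, (v : 𝓞 K) - 1 ∈ J → ((v : 𝓞 K) - 1) * D.c₀ ∈ D.I := by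
    intro v hv
    rw [hDI, hDc]
    exact Ideal.mul_mem_mul hv hc
  have hu : D.UOk u := ⟨fun j => hact _ (hJ'J (hu1 j)),
    fun j => H55N.norm_one D hσ' (u j) (hJ3 (hJ'J (hu1 j))), delta_ne D hσ' u hu4⟩
  obtain ⟨ν, hν, hT2⟩ := finite_change J J' hJ'0 hJ'J D.X h0X (by
    intro v hv x hx
    have h1 : (v : 𝓞 K) * x - D.c₀ = ((v : 𝓞 K) - 1) * D.c₀ + v * (x - D.c₀) := by ring
    rw [D.mem_X, h1]
    exact D.I.add_mem (hact v hv) (D.I.mul_mem_left _ hx))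
  obtain ⟨T', hT', hφ⟩ := hT2 T hT
  obtain ⟨a, b', ha, hab⟩ := U4_tt_bd (D.lm u)
  obtain ⟨C, hC⟩ := cube_bdd D hσ' hne c.asIdeal c.ne_bot (by rw [hDI]; exact hcc) a b' ha
  obtain ⟨δ, hδ, hlow⟩ := cst_low (D.lm u) (lm_sum D u hu) hu.reg
  have hinv : ∀ v : (𝓞 K)ˣ, ∏ i, D.σ i ((v : 𝓞 K) : K) = 1 → ∀ x : 𝓞 K,
      D.N ((v : 𝓞 K) * x) = D.N x := by
    intro v hv x
    rw [D12_Nmul]
    have : D.N (v : 𝓞 K) = 1 := hv
    rw [this, one_mul]
  have hunf := fun s' : ℂ => H55N.unfold D hσ' hne u hu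
    (fun x => wt c.asIdeal x * (D.N x / (‖D.N x‖ : ℂ)))
    ⟨1 + Ideal.absNorm c.asIdeal, fun x => by
      rw [norm_mul]
      refine (mul_le_of_le_one_right (norm_nonneg _) ?_).trans (D12_wt_bd _ _)
      rw [norm_div, Complex.norm_real, norm_norm]
      exact div_self_le_one _⟩
    (fun x _ z => by
      show wt c.asIdeal ((uu u z : 𝓞 K) * x) * (D.N ((uu u z : 𝓞 K) * x) /
        (‖D.N ((uu u z : 𝓞 K) * x)‖ : ℂ)) = wt c.asIdeal x * (D.N x / (‖D.N x‖ : ℂ))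
      rw [D12_wt, hinv _ (uu_act D u hu z).2.1])
    T' hT'.sub (Z3_bij h0X hT' u hu2 hu3) s'
  refine ⟨C / δ / ν, fun s hs => ?_⟩
  obtain ⟨hs1, hs2⟩ := hs
  obtain ⟨hsum, hint⟩ := hunf ((s + 1 / 2 : ℝ) : ℂ) (by rw [Complex.ofReal_re]; linarith)
  have hterm : ∀ x : T', wt c.asIdeal (x : 𝓞 K) * (D.N (x : 𝓞 K) / (‖D.N (x : 𝓞 K)‖ : ℂ)) *
      nf ((s + 1 / 2 : ℝ) : ℂ) (x : 𝓞 K) =
      wt c.asIdeal (x : 𝓞 K) * ((nn (x : 𝓞 K) ^ (-2 * s) : ℝ) : ℂ) := by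
    intro x
    rw [mul_assoc, D12_nf D hσ' s (D.X_ne hne (hT'.sub x.2))]
  have hsum' : Summable fun x : T' => wt c.asIdeal (x : 𝓞 K) *
      ((nn (x : 𝓞 K) ^ (-2 * s) : ℝ) : ℂ) := by
    refine (hsum.of_norm).congr fun x => ?_
    exact hterm x
  have hhas := hsum'.hasSum
  refine ⟨(∑' x : T', wt c.asIdeal (x : 𝓞 K) * ((nn (x : 𝓞 K) ^ (-2 * s) : ℝ) : ℂ)) / ν, ?_, ?_⟩
  · have hν0 : (0 : ℝ) < ν := by exact_mod_cast hν
    rw [norm_div, Complex.norm_natCast]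
    refine div_le_div_of_nonneg_right ?_ hν0.le
    rw [le_div_iff₀ hδ]
    have h1 : (∑' x : T', wt c.asIdeal (x : 𝓞 K) * (D.N (x : 𝓞 K) / (‖D.N (x : 𝓞 K)‖ : ℂ)) *
      nf ((s + 1 / 2 : ℝ) : ℂ) (x : 𝓞 K)) =
        ∑' x : T', wt c.asIdeal (x : 𝓞 K) * ((nn (x : 𝓞 K) ^ (-2 * s) : ℝ) : ℂ) :=
      tsum_congr hterm
    have h2 : ‖∑' x : T', wt c.asIdeal (x : 𝓞 K) * ((nn (x : 𝓞 K) ^ (-2 * s) : ℝ) : ℂ)‖ *
        ‖cst (D.lm u) ((s + 1 / 2 : ℝ) : ℂ)‖ ≤ C := by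
      rw [← norm_mul, ← h1, hint]
      have h3 := MeasureTheory.norm_setIntegral_le_of_norm_le_const (C := C)
        (μ := MeasureTheory.volume) (s := Set.Icc (0 : Fin m → ℝ) 1)
        (f := fun z => ∑' x : D.X, wt c.asIdeal (x : 𝓞 K) *
          (D.N (x : 𝓞 K) / (‖D.N (x : 𝓞 K)‖ : ℂ)) *
            D.fs (tt (D.lm u) z) ((s + 1 / 2 : ℝ) : ℂ) x)
        (by
          rw [Real.volume_Icc_pi]
          simp) (by
          intro z hz
          have hz2 := hab z hz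
          have h4 := hC (tt (D.lm u) z) hz2 (s + 1 / 2) ⟨by linarith, by linarith⟩
          refine (le_of_eq ?_).trans h4
          congr 1
          refine tsum_congr fun x => ?_
          rw [mul_assoc, D12_fs D (tt (D.lm u) z) (fun i => ha.trans_le (hz2 i).1) (s + 1 / 2)
            (D.X_ne hne x.2)])
      refine h3.trans (le_of_eq ?_)
      have h5 : MeasureTheory.volume.real (Set.Icc (0 : Fin m → ℝ) 1) = 1 := by
        rw [MeasureTheory.measureReal_def, Real.volume_Icc_pi]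
        simp
      rw [h5, mul_one]
    exact (mul_le_mul_of_nonneg_left (hlow (s + 1 / 2) ⟨by linarith, by linarith⟩)
      (norm_nonneg _)).trans h2
  · refine hφ (fun x => wt c.asIdeal x * ((nn x ^ (-2 * s) : ℝ) : ℂ)) _ ?_ hhas
    intro v hv x _
    have h1 : nn ((v : 𝓞 K) * x) = nn x := by
      rw [D12_nn D hσ', D12_nn D hσ', hinv v (H55N.norm_one D hσ' v (hJ3 hv))]
    show wt c.asIdeal ((v : 𝓞 K) * x) * ((nn ((v : 𝓞 K) * x) ^ (-2 * s) : ℝ) : ℂ) = _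
    rw [D12_wt, h1]

end H55R
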