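import Mathlib
import Pool.Agent.Lib.H55R.DD
import Pool.Agent.Lib.H55N.H11

open NumberField IsDedekindDomain

namespace H55R

open H55B H55N

/-- Chunk RD7 (M), a prime with nontrivial value outside a given modulus. Suppose that phi c = 1 for all primes c with not f <= c, not g <= c (for f <= c we have phi c = 1 by the
definition of RC). Take v with phi v <> 1; then not f <= v. exists_mem_cop with J = v, g := f * g gives x <> 0 with (x) = v b, b coprime to f g, so pv phi b = 1 (dd_pv_eq_one) and pv phi (x) =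
phi v (pv_mul, pv_prime). Let g' be the product of the primes w with g <= w, not f <= w (a finite set because g <> bot: Ideal.finite_factors); g' is coprime to f. By the Chinese
remainder theorem there is y with y - x in f and y - 1 in g' (write 1 = p + q, p in f, q in g', y = x q + p). (x) is coprime to f (v and b are), so (y) is coprime to f; y is not in
any of the w dividing g'. We may also take y <> 0 (replace y by y + t with t <> 0 in f g' if y = 0, or show it: if y = 0 then x in f so f = top by coprimality, and 1 in g' so g' = top; in this case take y = 1). So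
every prime containing y contains neither f nor g, pv phi (y) = 1 (dd_pv_eq_one), but pv phi (x) = pv phi (y) (RC), so phi v = 1, a contradiction. -/
theorem exists_prime {K : Type} [Field K] [NumberField K] (f : Ideal (𝓞 K)) (hf : f ≠ ⊥)
    (φ : Pl K → ℂˣ) (hφ : φ ∈ RC f) (h1 : φ ≠ 1) (g : Ideal (𝓞 K)) (hg : g ≠ ⊥) :
    ∃ c : Pl K, ¬ f ≤ c.asIdeal ∧ ¬ g ≤ c.asIdeal ∧ φ c ≠ 1 := by
  classical
  by_contra hcon
  push Not at hcon
  obtain ⟨hφ1, hφ2⟩ := hφ
  obtain ⟨v, hv⟩ : ∃ v, φ v ≠ 1 := by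
    by_contra h
    push Not at h
    exact h1 (funext h)
  have hfv : ¬ f ≤ v.asIdeal := fun h => hv (hφ1 v h)
  have hgv : g ≤ v.asIdeal := by
    by_contra h
    exact hv (hcon v hfv h)
  obtain ⟨x, hxv, b, hx0, hxb, hcop⟩ := exists_mem_cop v.asIdeal (f * g) v.ne_bot
    (mul_ne_zero hf hg)
  have hbf : IsCoprime b f := hcop.of_mul_right_left
  have hbg : IsCoprime b g := hcop.of_mul_right_right
  have hnot : ∀ (I J : Ideal (𝓞 K)) (w : Pl K), IsCoprime I J → I ≤ w.asIdeal → ¬ J ≤ w.asIdeal := by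
    intro I J w hIJ hI hJ
    have h2 := Ideal.isCoprime_iff_sup_eq.1 hIJ
    exact w.isPrime.ne_top (top_le_iff.1 (h2 ▸ sup_le hI hJ))
  have hb0 : b ≠ ⊥ := by
    rintro rfl
    rw [Ideal.mul_bot, Ideal.span_singleton_eq_bot] at hxb
    exact hx0 hxb
  have hb : pv φ b = 1 := dd_pv_eq_one φ b fun w hw =>
    hcon w (hnot b f w hbf hw) (hnot b g w hbg hw)
  have hx : pv φ (Ideal.span {x}) = φ v := by
    rw [hxb, pv_mul φ v.ne_bot hb0, pv_prime, hb, mul_one]
  have hfin : {w : Pl K | g ≤ w.asIdeal ∧ ¬ f ≤ w.asIdeal}.Finite := by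
    refine (Ideal.finite_factors hg).subset ?_
    rintro w ⟨hw, -⟩
    exact Ideal.dvd_iff_le.2 hw
  have hmaxcop : ∀ w : Pl K, ¬ f ≤ w.asIdeal → IsCoprime f w.asIdeal := by
    intro w hw
    rw [Ideal.isCoprime_iff_sup_eq, sup_comm]
    have hm : w.asIdeal.IsMaximal := w.isPrime.isMaximal w.ne_bot
    exact hm.out.2 _ (left_lt_sup.2 hw)
  have hgcop : IsCoprime f (∏ w ∈ hfin.toFinset, w.asIdeal) := by
    refine IsCoprime.prod_right fun w hw => ?_
    exact hmaxcop w ((hfin.mem_toFinset.1 hw).2)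
  obtain ⟨p, hp, q, hq, hpq⟩ := Ideal.isCoprime_iff_exists.1 hgcop
  obtain ⟨y, hy⟩ : ∃ y, y = x * q + p := ⟨_, rfl⟩
  have hyx : x - y ∈ f := by
    have : x - y = (x - 1) * p := by
      rw [hy]
      linear_combination (-x) * hpq
    rw [this]
    exact Ideal.mul_mem_left _ _ hp
  have hy1 : ∀ w : Pl K, g ≤ w.asIdeal → ¬ f ≤ w.asIdeal → y ∉ w.asIdeal := by
    intro w hgw hfw hyw
    have hwm : w ∈ hfin.toFinset := hfin.mem_toFinset.2 ⟨hgw, hfw⟩
    have hqw : q ∈ w.asIdeal := by
      have h3 : ∏ w ∈ hfin.toFinset, w.asIdeal ≤ w.asIdeal :=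
        Ideal.dvd_iff_le.1 (Finset.dvd_prod_of_mem _ hwm)
      exact h3 hq
    have h4 : (1 : 𝓞 K) = y - (x - 1) * q := by
      rw [hy]
      linear_combination -hpq
    apply w.isPrime.ne_top
    rw [Ideal.eq_top_iff_one, h4]
    exact Ideal.sub_mem _ hyw (Ideal.mul_mem_left _ _ hqw)
  have hy0 : y ≠ 0 := by
    rintro h0
    apply hy1 v hgv hfv
    rw [h0]
    exact Ideal.zero_mem _
  have hxf : IsCoprime (Ideal.span {x}) f := by
    rw [hxb]
    exact (hmaxcop v hfv).symm.mul_left hbf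
  have h5 := hφ2 x y hx0 hy0 hxf hyx
  have h6 : pv φ (Ideal.span {y}) = 1 := by
    refine dd_pv_eq_one φ _ fun w hw => ?_
    have hyw : y ∈ w.asIdeal := hw (Ideal.mem_span_singleton_self y)
    by_cases hfw : f ≤ w.asIdeal
    · exact hφ1 w hfw
    · by_cases hgw : g ≤ w.asIdeal
      · exact absurd hyw (hy1 w hgw hfw)
      · exact hcon w hfw hgw
  rw [hx, h6] at h5
  exact hv h5

end H55R
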