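import Mathlib
import Pool.Agent.Lib.H55R.DD
import Pool.Agent.Lib.H55N.H4

open NumberField IsDedekindDomain

namespace H55R

open H55B H55N

theorem D8_cop {K : Type} [Field K] [NumberField K] (f : Ideal (𝓞 K)) (a : Ideal (𝓞 K))
    (ha : a ≠ ⊥) (hf : IsCoprime a f)
    (h : ∀ v : Pl K, (3 : 𝓞 K) ∈ v.asIdeal → ¬ f ≤ v.asIdeal → ¬ a ≤ v.asIdeal) :
    IsCoprime a (Ideal.span {3} * f) := by
  refine IsCoprime.mul_right ?_ hf
  rw [Ideal.isCoprime_iff_sup_eq]
  by_contra hne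
  obtain ⟨M, hM, hle⟩ := Ideal.exists_le_maximal _ hne
  have haM : a ≤ M := le_sup_left.trans hle
  have hM0 : M ≠ ⊥ := by
    rintro rfl
    exact ha (le_bot_iff.1 haM)
  refine h ⟨M, hM.isPrime, hM0⟩ ?_ ?_ haM
  · exact (le_sup_right.trans hle) (Ideal.mem_span_singleton_self _)
  · intro hfM
    rw [Ideal.isCoprime_iff_sup_eq] at hf
    exact hM.ne_top (top_le_iff.1 (hf ▸ sup_le haM hfM))

/-- Chunk RD8 (S/M), removing finitely many Euler factors. S = the finite set of primes v with 3 in v and not f <= v. For an ideal a, a is coprime to (3) f iff it is coprime to f and a is not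
contained in any v in S. smooth_sum (index type S, c v = v.asIdeal, p = 1, k = tmH (tI f phi) s): the sum over a of tm (tI f phi) s a * prod over S (if a <= v then 0 else 1), which is
tm (tI (3f) phi) s a, equals (prod over S of (1 - k v)) * Ls (tI f phi) s. Since |k v| <= 1/2 (dd_norm_tm, dd_norm_tI, dd_half), |1 - k v| >= 1/2, so C = 2^(card S). -/
theorem change_mod {K : Type} [Field K] [NumberField K] (f : Ideal (𝓞 K)) (hf : f ≠ ⊥)
    (φ : Pl K → ℂˣ) (hφ : ∀ v, ‖(φ v : ℂ)‖ = 1) :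
    ∃ C : ℝ, 0 < C ∧ ∀ s ∈ Set.Ioc (1 : ℝ) 2,
      ‖Ls (tI f φ) s‖ ≤ C * ‖Ls (tI (Ideal.span {3} * f) φ) s‖ := by
  classical
  have h3 : Ideal.span {(3 : 𝓞 K)} ≠ 0 := by
    intro h
    have h3 : ((3 : ℕ) : 𝓞 K) ≠ 0 := Nat.cast_ne_zero.2 (by decide)
    apply h3
    rw [Nat.cast_ofNat]
    exact Ideal.span_singleton_eq_bot.1 h
  have hfin : {v : Pl K | (3 : 𝓞 K) ∈ v.asIdeal ∧ ¬ f ≤ v.asIdeal}.Finite := by
    refine (Ideal.finite_factors h3).subset fun v hv => ?_
    show v.asIdeal ∣ Ideal.span {(3 : 𝓞 K)}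
    rw [Ideal.dvd_iff_le, Ideal.span_singleton_le_iff_mem]
    exact hv.1
  set S : Finset (Pl K) := hfin.toFinset with hS
  have hmemS : ∀ v, v ∈ S ↔ (3 : 𝓞 K) ∈ v.asIdeal ∧ ¬ f ≤ v.asIdeal := by
    intro v
    rw [hS, Set.Finite.mem_toFinset]
    rfl
  refine ⟨2 ^ S.card, by positivity, fun s hs => ?_⟩
  set k := tmH (tI f φ) (s : ℂ) with hk
  have hk1 : ∀ a, k a = tm (tI f φ) s a := fun a => rfl
  have hksum : Summable fun a => ‖k a‖ := dd_tm_summable _ (dd_norm_tI f φ hφ) s hs.1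
  have h1 := smooth_sum k hksum (fun v : S => v.1.asIdeal) (fun v => v.1.isPrime)
    (fun v => v.1.ne_bot) (fun v w h => Subtype.ext (dd_inj h)) (fun _ => 1)
  have h2 : ∀ a, k a * ∏ v : S, (if a ≤ v.1.asIdeal then 1 - (1 : ℂ) else 1) =
      tm (tI (Ideal.span {3} * f) φ) s a := by
    intro a
    by_cases ha : a = ⊥
    · have e1 : k a = 0 := by
        rw [ha]
        exact map_zero k
      have e2 : tI (Ideal.span {3} * f) φ a = 0 := by
        rw [ha]
        exact map_zero _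
      unfold tm
      rw [e1, e2, zero_mul, zero_mul]
    by_cases hf' : IsCoprime a f
    · by_cases hv : ∀ v : Pl K, (3 : 𝓞 K) ∈ v.asIdeal → ¬ f ≤ v.asIdeal → ¬ a ≤ v.asIdeal
      · have hc := D8_cop f a ha hf' hv
        have e1 : ∏ v : S, (if a ≤ v.1.asIdeal then 1 - (1 : ℂ) else 1) = 1 := by
          refine Finset.prod_eq_one fun v _ => ?_
          rw [if_neg]
          exact hv v.1 ((hmemS v.1).1 v.2).1 ((hmemS v.1).1 v.2).2
        rw [e1, mul_one, hk1]
        unfold tm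
        rw [tI_apply f φ ha hf', tI_apply _ φ ha hc]
      · push Not at hv
        obtain ⟨v, hv3, hvf, hav⟩ := hv
        have e1 : ∏ v : S, (if a ≤ v.1.asIdeal then 1 - (1 : ℂ) else 1) = 0 := by
          refine Finset.prod_eq_zero (Finset.mem_univ (⟨v, (hmemS v).2 ⟨hv3, hvf⟩⟩ : S)) ?_
          rw [if_pos hav, sub_self]
        have e2 : ¬ IsCoprime a (Ideal.span {3} * f) := by
          intro hc
          have hc' := hc.of_mul_right_left
          rw [Ideal.isCoprime_iff_sup_eq] at hc'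
          apply v.isPrime.ne_top
          rw [← top_le_iff, ← hc']
          exact sup_le hav ((Ideal.span_singleton_le_iff_mem _).2 hv3)
        rw [e1, mul_zero]
        unfold tm
        rw [tI_zero _ φ e2, zero_mul]
    · have e2 : ¬ IsCoprime a (Ideal.span {3} * f) := fun hc => hf' hc.of_mul_right_right
      rw [hk1]
      unfold tm
      rw [tI_zero f φ hf', tI_zero _ φ e2, zero_mul, zero_mul]
  have h4 : Ls (tI (Ideal.span {3} * f) φ) s =
      (∏ v : S, (1 - 1 * k v.1.asIdeal)) * Ls (tI f φ) s := by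
    unfold Ls
    rw [← tsum_congr h2]
    exact h1.tsum_eq
  have h5 : ∀ v : S, (1 / 2 : ℝ) ≤ ‖1 - 1 * k v.1.asIdeal‖ := by
    intro v
    have h6 : ‖k v.1.asIdeal‖ ≤ 1 / 2 := by
      rw [hk1, dd_norm_tm _ s (by linarith [hs.1]) _]
      calc ‖tI f φ v.1.asIdeal‖ * (Ideal.absNorm v.1.asIdeal : ℝ) ^ (-s)
          ≤ (Ideal.absNorm v.1.asIdeal : ℝ) ^ (-s) :=
            mul_le_of_le_one_left (by positivity) (dd_norm_tI f φ hφ _)
        _ ≤ 1 / 2 := dd_half v.1 s hs.1.le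
    have h7 := norm_sub_norm_le (1 : ℂ) (1 * k v.1.asIdeal)
    rw [one_mul] at h7 ⊢
    rw [NormOneClass.norm_one] at h7
    linarith
  have h8 : (1 / 2 : ℝ) ^ S.card ≤ ‖∏ v : S, (1 - 1 * k v.1.asIdeal)‖ := by
    rw [norm_prod]
    calc (1 / 2 : ℝ) ^ S.card = ∏ _v : S, (1 / 2 : ℝ) := by
          rw [Finset.prod_const, Finset.card_univ, Fintype.card_coe]
      _ ≤ _ := Finset.prod_le_prod (fun _ _ => by norm_num) fun v _ => h5 v
  rw [h4, norm_mul]
  have h9 : (2 : ℝ) ^ S.card * (1 / 2) ^ S.card = 1 := by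
    rw [← mul_pow]
    norm_num
  calc ‖Ls (tI f φ) s‖ = 2 ^ S.card * ((1 / 2) ^ S.card * ‖Ls (tI f φ) s‖) := by
        rw [← mul_assoc, h9, one_mul]
    _ ≤ _ := by
        gcongr

end H55R
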