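import Mathlib
import Pool.Agent.Lib.H55N.H12
import Pool.Agent.Lib.H55R.D10
import Pool.Agent.Lib.H55R.D12
import Pool.Agent.Lib.H55R.D7
import Pool.Agent.Lib.H55R.D8

open NumberField IsDedekindDomain

namespace H55R

open H55B H55N

/-- The L-series of a nontrivial ray class character is bounded near 1. -/
theorem bdd {K : Type} [Field K] [NumberField K] [Algebra F K] (f : Ideal (𝓞 K)) (hf : f ≠ ⊥)
    (φ : Pl K → ℂˣ) (hφ : φ ∈ RC f) (hn : ∀ v, ‖(φ v : ℂ)‖ = 1) (h1 : φ ≠ 1) :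
    ∃ C : ℝ, ∀ s ∈ Set.Ioc (1 : ℝ) 2, ‖Ls (tI f φ) s‖ ≤ C := by
  classical
  obtain ⟨C₁, hC₁, hmod⟩ := change_mod f hf φ hn
  obtain ⟨ι, _, b, c₀, T, hCD⟩ := exists_CD f hf
  have h3 : (Ideal.span {(3 : 𝓞 K)}) ≠ ⊥ := by
    rw [Ne, Ideal.span_singleton_eq_bot]
    exact OfNat.ofNat_ne_zero 3
  set J : Ideal (𝓞 K) := Ideal.span {3} * f with hJ
  have hJ0 : J ≠ ⊥ := mul_ne_zero h3 hf
  have hg : J * ∏ i, b i ≠ ⊥ := mul_ne_zero hJ0 (Finset.prod_ne_zero_iff.2 fun i _ => hCD.ne i)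
  obtain ⟨c, hcf, hcg, hφc⟩ := exists_prime f hf φ hφ h1 _ hg
  have hcmax : c.asIdeal.IsMaximal := c.isPrime.isMaximal c.ne_bot
  have hcop : ∀ I : Ideal (𝓞 K), ¬ I ≤ c.asIdeal → IsCoprime I c.asIdeal := by
    intro I hI
    rw [Ideal.isCoprime_iff_sup_eq]
    by_contra hne
    obtain ⟨M, hM, hle⟩ := Ideal.exists_le_maximal _ hne
    have h4 : c.asIdeal = M := hcmax.eq_of_le hM.ne_top (le_sup_right.trans hle)
    exact hI (h4 ▸ le_sup_left.trans hle)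
  have hJc : ¬ J ≤ c.asIdeal := fun h => hcg (Ideal.mul_le_left.trans h)
  have hbc : ∀ i, ¬ b i ≤ c.asIdeal := fun i h => hcg
    (Ideal.mul_le_right.trans ((Ideal.prod_le_inf.trans (Finset.inf_le (Finset.mem_univ i))).trans h))
  have hcJ : IsCoprime J c.asIdeal := hcop J hJc
  have hcb : ∀ i, IsCoprime (b i) c.asIdeal := fun i => hcop _ (hbc i)
  choose κ hκ using fun i => term_class f (b i) hf (hCD.ne i) φ hφ (hCD.cop i) (c₀ i) (hCD.mem i)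
    (hCD.prim i)
  choose C hC using fun i => class_bdd f (b i) hf (hCD.ne i) (c₀ i) (hCD.mem i) (hCD.prim i) c
    ((hcJ.mul_left (hcb i))) (T i) (hCD.trans i)
  have hh : ∀ a, ‖tI J φ a‖ ≤ 1 := dd_norm_tI J φ hn
  have htc : tI J φ c.asIdeal = (φ c : ℂ) := by
    rw [tI_apply J φ c.ne_bot hcJ.symm, pv_prime]
  obtain ⟨δ, hδ, hlow⟩ := fac_low (Ideal.absNorm c.asIdeal) (dd_two_le c) (φ c : ℂ) (hn c)
    (fun h => hφc (Units.ext h))
  refine ⟨C₁ * ((∑ i, ‖κ i‖ * ((Ideal.absNorm (b i) : ℝ) ^ (2 : ℝ)) * C i) / δ), fun s hs => ?_⟩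
  refine (hmod s hs).trans (mul_le_mul_of_nonneg_left ?_ hC₁.le)
  rw [le_div_iff₀ hδ]
  -- the smoothed series
  have hsum := dd_tm_summable (tI J φ) hh s hs.1
  have hsm := smooth_sum (tmH (tI J φ) s) hsum (fun _ : Unit => c.asIdeal)
    (fun _ => c.isPrime) (fun _ => c.ne_bot) (fun _ _ _ => rfl)
    (fun _ => (Ideal.absNorm c.asIdeal : ℂ))
  simp only [Finset.univ_unique, Finset.prod_singleton] at hsm
  choose Z hZ1 hZ2 using fun i => hC i s hs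
  have hcd := cd_hasSum f ι b c₀ T hCD
    (fun a => tm (tI J φ) s a *
      (if a ≤ c.asIdeal then 1 - (Ideal.absNorm c.asIdeal : ℂ) else 1))
    (fun a ha => by
      by_contra hne
      apply ha
      have h5 : tI J φ a = 0 := if_neg hne
      show tI J φ a * _ * _ = 0
      rw [h5, zero_mul, zero_mul])
    (fun i x => κ i * (((Ideal.absNorm (b i) : ℝ) ^ s : ℝ) : ℂ) *
            (wt c.asIdeal x * ((nn x ^ (-2 * s) : ℝ) : ℂ)))
    (fun i x hx a hab => hκ i c (hcb i) x ((hCD.trans i).sub hx) a hab s)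
    (fun i => κ i * (((Ideal.absNorm (b i) : ℝ) ^ s : ℝ) : ℂ) * Z i)
    (fun i => (hZ2 i).mul_left _)
  have heq : (1 - (Ideal.absNorm c.asIdeal : ℂ) * tmH (tI J φ) s c.asIdeal) *
      ∑' a, tmH (tI J φ) s a = ∑ i, κ i * (((Ideal.absNorm (b i) : ℝ) ^ s : ℝ) : ℂ) * Z i :=
    hsm.unique hcd
  have hk : tmH (tI J φ) s c.asIdeal = (φ c : ℂ) * (Ideal.absNorm c.asIdeal : ℂ) ^ (-(s : ℂ)) := by
    show tI J φ c.asIdeal * _ = _
    rw [htc]
  have hL : ∑' a, tmH (tI J φ) s a = Ls (tI J φ) s := rfl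
  rw [hk, hL] at heq
  calc ‖Ls (tI J φ) s‖ * δ ≤ ‖Ls (tI J φ) s‖ * ‖1 - (Ideal.absNorm c.asIdeal : ℂ) *
        ((φ c : ℂ) * (Ideal.absNorm c.asIdeal : ℂ) ^ (-(s : ℂ)))‖ :=
        mul_le_mul_of_nonneg_left (hlow s ⟨hs.1.le, hs.2⟩) (norm_nonneg _)
    _ = ‖∑ i, κ i * (((Ideal.absNorm (b i) : ℝ) ^ s : ℝ) : ℂ) * Z i‖ := by
        rw [mul_comm, ← norm_mul, heq]
    _ ≤ ∑ i, ‖κ i * (((Ideal.absNorm (b i) : ℝ) ^ s : ℝ) : ℂ) * Z i‖ := norm_sum_le _ _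
    _ ≤ ∑ i, ‖κ i‖ * ((Ideal.absNorm (b i) : ℝ) ^ (2 : ℝ)) * C i := by
        refine Finset.sum_le_sum fun i _ => ?_
        have hb1 : (1 : ℝ) ≤ (Ideal.absNorm (b i) : ℝ) := by
          have h6 : Ideal.absNorm (b i) ≠ 0 := fun h => hCD.ne i (Ideal.absNorm_eq_zero_iff.1 h)
          exact_mod_cast Nat.one_le_iff_ne_zero.2 h6
        rw [norm_mul, norm_mul, Complex.norm_real, Real.norm_of_nonneg (by positivity)]
        refine mul_le_mul (mul_le_mul_of_nonneg_left ?_ (norm_nonneg _)) (hZ1 i) (norm_nonneg _)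
          (by positivity)
        exact Real.rpow_le_rpow_of_exponent_le hb1 hs.2

end H55R
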