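import Mathlib
import Pool.Agent.Lib.H55R.DD
import Pool.Agent.Lib.H55N.H4

open NumberField IsDedekindDomain

namespace H55R

open H55B H55N

theorem RD1_le {K : Type} [Field K] [NumberField K] (h : Ideal (𝓞 K) →*₀ ℂ)
    (hh : ∀ a, ‖h a‖ ≤ 1) (s : ℝ) (hs : 1 < s) (v : Pl K) : ‖tm h s v.asIdeal‖ ≤ 1 / 2 := by
  rw [dd_norm_tm h s (by linarith)]
  calc ‖h v.asIdeal‖ * (Ideal.absNorm v.asIdeal : ℝ) ^ (-s) ≤
      1 * (Ideal.absNorm v.asIdeal : ℝ) ^ (-s) := by
        gcongr
        exact hh _
    _ ≤ 1 / 2 := by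
        rw [one_mul]
        exact dd_half v s hs.le

theorem RD1_ne {K : Type} [Field K] [NumberField K] (h : Ideal (𝓞 K) →*₀ ℂ)
    (hh : ∀ a, ‖h a‖ ≤ 1) (s : ℝ) (hs : 1 < s) (v : Pl K) : 1 - tm h s v.asIdeal ≠ 0 := by
  intro h0
  have h1 := RD1_le h hh s hs v
  rw [← sub_eq_zero.1 h0, NormOneClass.norm_one] at h1
  norm_num at h1

open Filter Topology Classical in
theorem RD1_lim {K : Type} [Field K] [NumberField K] (h : Ideal (𝓞 K) →*₀ ℂ)
    (hh : ∀ a, ‖h a‖ ≤ 1) (s : ℝ) (hs : 1 < s) :
    Tendsto (fun S : Finset (Pl K) => (∏ v ∈ S, (1 - tm h s v.asIdeal)) * Ls h s) atTop (𝓝 1) := by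
  set k : Ideal (𝓞 K) →*₀ ℂ := tmH h s with hk
  have hkv : ∀ a, k a = tm h s a := fun _ => rfl
  have hsum : Summable fun a => ‖k a‖ := dd_tm_summable h hh s hs
  have h1 : ∀ S : Finset (Pl K), ∑' a, k a * ∏ v ∈ S, (if a ≤ v.asIdeal then (1 : ℂ) - 1 else 1) =
      (∏ v ∈ S, (1 - tm h s v.asIdeal)) * Ls h s := by
    intro S
    have h2 := H4_aux k hsum (fun v : Pl K => v.asIdeal) (fun v => v.isPrime) (fun v => v.ne_bot)
      dd_inj (fun _ => 1) S
    rw [h2.tsum_eq]
    simp only [one_mul]
    rfl
  have h3 : Tendsto (fun S : Finset (Pl K) =>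
      ∑' a, k a * ∏ v ∈ S, (if a ≤ v.asIdeal then (1 : ℂ) - 1 else 1)) atTop
      (𝓝 (∑' a : Ideal (𝓞 K), if a = 1 then (1 : ℂ) else 0)) := by
    refine tendsto_tsum_of_dominated_convergence hsum ?_ ?_
    · intro a
      by_cases ha : a = 1
      · subst ha
        rw [if_pos rfl]
        refine tendsto_const_nhds.congr fun S => ?_
        rw [map_one, one_mul]
        refine (Finset.prod_eq_one fun v _ => ?_).symm
        rw [if_neg]
        intro h4
        rw [Ideal.one_eq_top, top_le_iff] at h4
        exact v.isPrime.ne_top h4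
      · rw [if_neg ha]
        by_cases ha0 : a = ⊥
        · refine tendsto_const_nhds.congr fun S => ?_
          have h5 : k a = 0 := by
            rw [ha0]
            exact map_zero k
          rw [h5, zero_mul]
        · have h6 : a ≠ ⊤ := by
            rw [← Ideal.one_eq_top]
            exact ha
          obtain ⟨m, hm, ham⟩ := Ideal.exists_le_maximal a h6
          have hm0 : m ≠ ⊥ := by
            rintro rfl
            exact ha0 (le_bot_iff.1 ham)
          refine tendsto_const_nhds.congr' ?_
          filter_upwards [eventually_ge_atTop {(⟨m, hm.isPrime, hm0⟩ : Pl K)}] with S hS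
          have h7 : (⟨m, hm.isPrime, hm0⟩ : Pl K) ∈ S := hS (Finset.mem_singleton_self _)
          rw [Finset.prod_eq_zero h7, mul_zero]
          rw [if_pos ham, sub_self]
    · refine Eventually.of_forall fun S a => ?_
      rw [norm_mul, norm_prod]
      refine mul_le_of_le_one_right (norm_nonneg _) ?_
      refine Finset.prod_le_one (fun _ _ => norm_nonneg _) fun v _ => ?_
      split_ifs
      · rw [sub_self, norm_zero]
        exact zero_le_one
      · rw [NormOneClass.norm_one]
  rw [tsum_ite_eq] at h3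
  exact h3.congr h1

/-- Chunk RD1 (M), the Euler product. k = tmH h s (multiplicative, norm summable: dd_tm_summable). For a finset S of primes, H4_aux (or smooth_sum) with
index type Pl K, c v = v.asIdeal, p = 1 gives: the sum over a of k a * prod over v in S of (if a <= v then 0 else 1) is (prod over S of (1 - k v)) * L. When
S runs over the finsets (atTop) the left side tends to k 1 = 1: tendsto_tsum_of_dominated_convergence with the bound |k a|; for a = 1 = top all factors are
1 (a prime is not top); for a = bot k a = 0; any other a is contained in a maximal ideal v (Ideal.exists_le_maximal), nonzero since a <> bot, so the term is 0 as soon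
as v is in S (Filter.eventually_ge_atTop {v}). So (prod over S of (1 - k v)) * L tends to 1; hence L <> 0 and |prod over S of (1 - k v)| tends to 1 / |L| and
the sum over S of -log |1 - k v| = -log |prod| tends to log |L| (Real.log_prod needs 1 - k v <> 0: |k v| <= 1/2 by dd_norm_tm, dd_half; continuity of log at
1/|L| > 0). HasSum is the convergence along the finsets. -/
theorem euler {K : Type} [Field K] [NumberField K] (h : Ideal (𝓞 K) →*₀ ℂ)
    (hh : ∀ a, ‖h a‖ ≤ 1) (s : ℝ) (hs : 1 < s) :
    Ls h s ≠ 0 ∧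
      HasSum (fun v : Pl K => -Real.log ‖1 - tm h s v.asIdeal‖) (Real.log ‖Ls h s‖) := by
  have h1 := RD1_lim h hh s hs
  have hL : Ls h s ≠ 0 := by
    intro h0
    rw [h0] at h1
    simp only [mul_zero] at h1
    exact zero_ne_one (tendsto_nhds_unique tendsto_const_nhds h1)
  refine ⟨hL, ?_⟩
  have h2 : Filter.Tendsto (fun S : Finset (Pl K) => ∏ v ∈ S, (1 - tm h s v.asIdeal))
      Filter.atTop (nhds (Ls h s)⁻¹) := by
    have h3 := h1.mul_const (Ls h s)⁻¹
    rw [one_mul] at h3
    refine h3.congr fun S => ?_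
    rw [mul_assoc, mul_inv_cancel₀ hL, mul_one]
  have h4 := (h2.norm.log (norm_ne_zero_iff.2 (inv_ne_zero hL))).neg
  rw [norm_inv, Real.log_inv, neg_neg] at h4
  unfold HasSum
  rw [SummationFilter.unconditional_filter]
  refine h4.congr fun S => ?_
  rw [norm_prod, Real.log_prod fun v _ => norm_ne_zero_iff.2 (RD1_ne h hh s hs v),
    Finset.sum_neg_distrib]

end H55R
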