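import Mathlib
import Pool.Agent.Lib.H55R.D1

open NumberField IsDedekindDomain

namespace H55R

open H55B H55N

theorem RD2_re {K : Type} [Field K] [NumberField K] (h : Ideal (𝓞 K) →*₀ ℂ) (s : ℝ)
    (a : Ideal (𝓞 K)) : (tm h s a).re = (h a).re * (Ideal.absNorm a : ℝ) ^ (-s) := by
  unfold tm
  have h1 : ((Ideal.absNorm a : ℂ) ^ (-(s : ℂ))) = (((Ideal.absNorm a : ℝ) ^ (-s) : ℝ) : ℂ) := by
    rw [Complex.ofReal_cpow (Nat.cast_nonneg _)]
    push_cast
    rfl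
  rw [h1, Complex.re_mul_ofReal]

theorem RD2_term {K : Type} [Field K] [NumberField K] (h : Ideal (𝓞 K) →*₀ ℂ)
    (hh : ∀ a, ‖h a‖ ≤ 1) (s : ℝ) (hs : 1 < s) (v : Pl K) :
    |(h v.asIdeal).re * (Ideal.absNorm v.asIdeal : ℝ) ^ (-s) -
      (-Real.log ‖1 - tm h s v.asIdeal‖)| ≤ (Ideal.absNorm v.asIdeal : ℝ) ^ (-2 : ℝ) := by
  have h0 := RD1_le h hh s hs v
  set z := tm h s v.asIdeal with hz
  have h1 : ‖Complex.log (1 + -z) - -z‖ ≤ ‖z‖ ^ 2 := by
    have h2 := Complex.norm_log_one_add_sub_self_le (z := -z) (by rw [norm_neg]; linarith)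
    rw [norm_neg] at h2
    refine h2.trans ?_
    have h3 : (1 - ‖z‖)⁻¹ ≤ 2 := by
      rw [inv_le_comm₀ (by linarith) (by norm_num)]
      linarith
    have h4 : 0 ≤ ‖z‖ ^ 2 := sq_nonneg _
    nlinarith
  have h5 : (h v.asIdeal).re * (Ideal.absNorm v.asIdeal : ℝ) ^ (-s) -
      (-Real.log ‖1 - z‖) = (Complex.log (1 + -z) - -z).re := by
    rw [← RD2_re, Complex.sub_re, Complex.log_re, ← sub_eq_add_neg, Complex.neg_re]
    ring
  rw [h5]
  refine (Complex.abs_re_le_norm _).trans (h1.trans ?_)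
  have h6 : (0 : ℝ) ≤ (Ideal.absNorm v.asIdeal : ℝ) := Nat.cast_nonneg _
  have h2 : (2 : ℝ) ≤ (Ideal.absNorm v.asIdeal : ℝ) := by exact_mod_cast dd_two_le v
  have h7 : ‖z‖ ≤ (Ideal.absNorm v.asIdeal : ℝ) ^ (-s) := by
    rw [hz, dd_norm_tm h s (by linarith)]
    exact mul_le_of_le_one_left (by positivity) (hh _)
  calc ‖z‖ ^ 2 ≤ ((Ideal.absNorm v.asIdeal : ℝ) ^ (-s)) ^ 2 :=
        pow_le_pow_left₀ (norm_nonneg _) h7 2
    _ = (Ideal.absNorm v.asIdeal : ℝ) ^ (-s * 2) := by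
        rw [Real.rpow_mul h6]
        norm_num
    _ ≤ (Ideal.absNorm v.asIdeal : ℝ) ^ (-2 : ℝ) :=
        Real.rpow_le_rpow_of_exponent_le (by linarith) (by linarith)

/-- Chunk RD2 (S), logarithms. With z = tm h s v, |z| <= Nv^(-s) <= 1/2 (dd_norm_tm, dd_half): |-log |1 - z| - Re z| <= |log(1 - z) + z| <= |z|^2
(real part of the complex logarithm, Complex.log_re; Complex.norm_log_one_add_sub_self_le with z replaced by -z) and |z|^2 <= Nv^(-2s) <= Nv^(-2).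
Re z = Re (h v) * Nv^(-s) (the power is a positive real number). Sum over v: euler, dd_summable; C is the sum of Nv^(-2) (tsum of a difference,
norm of a tsum <= tsum of the bounds). Both series converge: Re (h v) Nv^(-s) is bounded by Nv^(-s). -/
theorem log_cmp (K : Type) [Field K] [NumberField K] : ∃ C : ℝ, ∀ h : Ideal (𝓞 K) →*₀ ℂ,
    (∀ a, ‖h a‖ ≤ 1) → ∀ s ∈ Set.Ioc (1 : ℝ) 2,
      |∑' v : Pl K, (h v.asIdeal).re * (Ideal.absNorm v.asIdeal : ℝ) ^ (-s) -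
        Real.log ‖Ls h s‖| ≤ C := by
  refine ⟨∑' v : Pl K, (Ideal.absNorm v.asIdeal : ℝ) ^ (-2 : ℝ), fun h hh s hs => ?_⟩
  have h2 : Summable fun v : Pl K => (Ideal.absNorm v.asIdeal : ℝ) ^ (-2 : ℝ) :=
    dd_summable 2 (by norm_num)
  have h3 := (euler h hh s hs.1).2
  have h4 : Summable fun v : Pl K => (h v.asIdeal).re * (Ideal.absNorm v.asIdeal : ℝ) ^ (-s) := by
    refine Summable.of_norm_bounded (dd_summable (K := K) s hs.1) fun v => ?_
    rw [norm_mul, Real.norm_eq_abs, Real.norm_of_nonneg (by positivity)]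
    exact mul_le_of_le_one_left (by positivity) ((Complex.abs_re_le_norm _).trans (hh _))
  rw [← h3.tsum_eq, ← h4.tsum_sub h3.summable, ← Real.norm_eq_abs]
  exact tsum_of_norm_bounded h2.hasSum fun v => RD2_term h hh s hs.1 v

end H55R
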