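import Mathlib
import Pool.Agent.Lib.H55N.H3

open NumberField IsDedekindDomain

namespace H55R

open H55B H55N

theorem RD3_zeta {K : Type} [Field K] [NumberField K] (s : ℝ) (hs : 1 < s) :
    dedekindZeta K s = ((∑' a : Ideal (𝓞 K), (Ideal.absNorm a : ℝ) ^ (-s) : ℝ) : ℂ) := by
  have h0 := ideal_summable (K := K) s hs
  have h1 : HasSum (fun p : Σ n : ℕ, {a : Ideal (𝓞 K) // Ideal.absNorm a = n} =>
      (((Ideal.absNorm p.2.1 : ℝ) ^ (-s) : ℝ) : ℂ))
      ((∑' a : Ideal (𝓞 K), (Ideal.absNorm a : ℝ) ^ (-s) : ℝ) : ℂ) := by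
    have h2 := (Equiv.sigmaFiberEquiv (fun a : Ideal (𝓞 K) => Ideal.absNorm a)).hasSum_iff
      (f := fun a : Ideal (𝓞 K) => (((Ideal.absNorm a : ℝ) ^ (-s) : ℝ) : ℂ))
      (a := ((∑' a : Ideal (𝓞 K), (Ideal.absNorm a : ℝ) ^ (-s) : ℝ) : ℂ))
    exact h2.2 (Complex.hasSum_ofReal.2 h0.hasSum)
  have h2 : HasSum (LSeries.term (fun n => (Nat.card {I : Ideal (𝓞 K) // Ideal.absNorm I = n} : ℂ)) s)
      ((∑' a : Ideal (𝓞 K), (Ideal.absNorm a : ℝ) ^ (-s) : ℝ) : ℂ) := by
    refine h1.sigma fun n => ?_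
    have hfin : Finite {a : Ideal (𝓞 K) // Ideal.absNorm a = n} :=
      Ideal.finite_setOfPred_absNorm_eq n
    let _ : Fintype {a : Ideal (𝓞 K) // Ideal.absNorm a = n} := Fintype.ofFinite _
    have h3 : LSeries.term (fun n => (Nat.card {I : Ideal (𝓞 K) // Ideal.absNorm I = n} : ℂ)) s n =
        ∑ a : {a : Ideal (𝓞 K) // Ideal.absNorm a = n},
          (((Ideal.absNorm a.1 : ℝ) ^ (-s) : ℝ) : ℂ) := by
      rw [Finset.sum_congr rfl (g := fun _ => (((n : ℝ) ^ (-s) : ℝ) : ℂ))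
        (fun a _ => by rw [a.2]), Finset.sum_const, Finset.card_univ, ← Nat.card_eq_fintype_card,
        nsmul_eq_mul]
      rcases Nat.eq_zero_or_pos n with rfl | hn
      · rw [LSeries.term_zero, Nat.cast_zero, Real.zero_rpow (by linarith), Complex.ofReal_zero,
          mul_zero]
      · rw [LSeries.term_of_ne_zero (by omega), div_eq_mul_inv, ← Complex.cpow_neg,
          Complex.ofReal_cpow (Nat.cast_nonneg _)]
        push_cast
        rfl
    rw [h3]
    exact hasSum_fintype _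
  exact h2.tsum_eq

theorem RD3_one {K : Type} [Field K] [NumberField K] (s : ℝ) (hs : 1 < s) :
    1 ≤ ∑' a : Ideal (𝓞 K), (Ideal.absNorm a : ℝ) ^ (-s) := by
  have h1 := (ideal_summable (K := K) s hs).le_tsum (1 : Ideal (𝓞 K)) fun _ _ => by positivity
  rw [map_one, Nat.cast_one, Real.one_rpow] at h1
  exact h1

theorem RD3_anti {K : Type} [Field K] [NumberField K] {s t : ℝ} (hs : 1 < s) (hst : s ≤ t) :
    ∑' a : Ideal (𝓞 K), (Ideal.absNorm a : ℝ) ^ (-t) ≤
      ∑' a : Ideal (𝓞 K), (Ideal.absNorm a : ℝ) ^ (-s) := by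
  refine Summable.tsum_le_tsum (fun a => ?_) (ideal_summable (K := K) t (by linarith))
    (ideal_summable (K := K) s hs)
  rcases Nat.eq_zero_or_pos (Ideal.absNorm a) with h0 | h0
  · rw [h0, Nat.cast_zero, Real.zero_rpow (by linarith), Real.zero_rpow (by linarith)]
  · have h1 : (1 : ℝ) ≤ (Ideal.absNorm a : ℝ) := by exact_mod_cast h0
    exact Real.rpow_le_rpow_of_exponent_le h1 (by linarith)

open Filter Topology in
theorem RD3_bd (K : Type) [Field K] [NumberField K] : ∃ A B : ℝ, 0 < A ∧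
    ∀ s ∈ Set.Ioc (1 : ℝ) 2,
      A ≤ (s - 1) * ∑' a : Ideal (𝓞 K), (Ideal.absNorm a : ℝ) ^ (-s) ∧
      (s - 1) * ∑' a : Ideal (𝓞 K), (Ideal.absNorm a : ℝ) ^ (-s) ≤ B := by
  have hκ := dedekindZeta_residue_pos K
  set κ := dedekindZeta_residue K with hk
  have h1 : Tendsto (fun s : ℝ => (s - 1) * ∑' a : Ideal (𝓞 K), (Ideal.absNorm a : ℝ) ^ (-s))
      (𝓝[>] 1) (𝓝 κ) := by
    have h2 := (Complex.continuous_re.tendsto _).comp (tendsto_sub_one_mul_dedekindZeta_nhdsGT K)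
    rw [Complex.ofReal_re] at h2
    refine h2.congr' ?_
    filter_upwards [self_mem_nhdsWithin] with s hs
    show ((s - 1 : ℂ) * dedekindZeta K s).re = _
    rw [RD3_zeta s hs]
    rw [show ((s : ℂ) - 1) = ((s - 1 : ℝ) : ℂ) by push_cast; rfl, ← Complex.ofReal_mul,
      Complex.ofReal_re]
  have h3 : ∀ᶠ s in 𝓝[>] (1 : ℝ),
      (s - 1) * ∑' a : Ideal (𝓞 K), (Ideal.absNorm a : ℝ) ^ (-s) ∈ Set.Icc (κ / 2) (2 * κ) :=
    h1 (Icc_mem_nhds (by linarith) (by linarith))
  obtain ⟨u, hu, hu2⟩ := (mem_nhdsGT_iff_exists_Ioo_subset).1 h3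
  have hu1 : (1 : ℝ) < u := hu
  obtain ⟨d, hd⟩ : ∃ d, d = min ((u - 1) / 2) 1 := ⟨_, rfl⟩
  have hd0 : 0 < d := by rw [hd]; exact lt_min (by linarith) one_pos
  have hdu : d < u - 1 := by rw [hd]; exact (min_le_left _ _).trans_lt (by linarith)
  refine ⟨min (κ / 2) d, max (2 * κ)
    (∑' a : Ideal (𝓞 K), (Ideal.absNorm a : ℝ) ^ (-(1 + d))), lt_min (by linarith) hd0,
    fun s hs => ?_⟩
  have hs1 : 1 < s := hs.1
  have hs2 : s ≤ 2 := hs.2
  by_cases hsd : s < 1 + d
  · have h4 : s ∈ Set.Ioo 1 u := ⟨hs1, by linarith⟩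
    have h5 := hu2 h4
    exact ⟨(min_le_left _ _).trans h5.1, h5.2.trans (le_max_left _ _)⟩
  · push Not at hsd
    have h6 := RD3_one (K := K) s hs1
    have h7 := RD3_anti (K := K) (s := 1 + d) (t := s) (by linarith) hsd
    constructor
    · refine (min_le_right _ _).trans ?_
      nlinarith
    · refine le_trans ?_ (le_max_right _ _)
      nlinarith

/-- Chunk RD3 (M), the pole of the zeta function. Z s = sum over the ideals of Na^(-s) (the zero ideal contributes 0). For s > 1, Z s (as a complex number) is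
dedekindZeta K s, the L-series of the numbers of ideals of norm n (sum over the fibres of the norm; see the proof of ideal_summable in H55N/H3.lean, or AI_LSeries
in H55N/H6.lean for the pattern), and (s - 1) * dedekindZeta K s tends to the residue, which is positive (NumberField.tendsto_sub_one_mul_dedekindZeta_nhdsGT,
NumberField.dedekindZeta_residue_pos). Z is antitone on s > 1 (each term is, Na >= 1 or Na = 0; Summable.tsum_le_tsum) and Z s >= 1 (the term of the unit ideal). Near 1: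
there is d in (0,1) with residue/2 <= (s-1) Z s <= 2 residue for s in (1, 1 + d); for s in [1 + d, 2]: d * 1 <= (s - 1) Z s <= Z (1 + d). So
(s - 1) Z s lies in a fixed interval [A, B], 0 < A, and log Z s - log (1/(s-1)) = log ((s - 1) Z s) lies in [log A, log B]. -/
theorem zeta_log (K : Type) [Field K] [NumberField K] : ∃ C : ℝ, ∀ s ∈ Set.Ioc (1 : ℝ) 2,
    0 < ∑' a : Ideal (𝓞 K), (Ideal.absNorm a : ℝ) ^ (-s) ∧
    |Real.log (∑' a : Ideal (𝓞 K), (Ideal.absNorm a : ℝ) ^ (-s)) - Real.log (1 / (s - 1))| ≤ C := by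
  obtain ⟨A, B, hA, hAB⟩ := RD3_bd K
  refine ⟨|Real.log A| + |Real.log B|, fun s hs => ?_⟩
  have h1 := RD3_one (K := K) s hs.1
  have hs1 : 0 < s - 1 := sub_pos.2 hs.1
  refine ⟨by linarith, ?_⟩
  obtain ⟨h2, h3⟩ := hAB s hs
  rw [one_div, Real.log_inv, sub_neg_eq_add, add_comm, ← Real.log_mul hs1.ne' (by linarith)]
  have h4 := Real.log_le_log hA h2
  have h5 := Real.log_le_log (hA.trans_le h2) h3
  rw [abs_le]
  constructor
  · linarith [neg_abs_le (Real.log A), abs_nonneg (Real.log B)]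
  · linarith [le_abs_self (Real.log B), abs_nonneg (Real.log A)]

end H55R
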