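import Mathlib
import Pool.Agent.Lib.H55B.H2
import Pool.Agent.Lib.H55N.R6
import Pool.Agent.Lib.H55R.Defs

open NumberField IsDedekindDomain

namespace H55R

open H55B H55N

/-- Chunk RD4 (S/M), finiteness of the ramified primes. If e(v) <> 1 then a prime W of L above v is ramified, so W divides the different ideal
differentIdeal (𝓞 K) (𝓞 L), which is nonzero (differentIdeal_ne_bot; not_dvd_differentIdeal_iff, Ideal.ramificationIdx_eq_one_iff,
Ideal.ramificationIdxIn_eq_ramificationIdx; see Mathlib/NumberTheory/NumberField/ExistsRamified.lean lines 80-100 for the pattern). A nonzero ideal has only finitely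
many prime divisors (Ideal.finite_factors or UniqueFactorizationMonoid.normalizedFactors), and v is W.under. Alternative: for each sigma <> 1 in Gal(L/K) choose x with
sigma x <> x; the inertia group of W is nontrivial if e <> 1, so W contains the nonzero product of all sigma x - x. -/
theorem ram_finite (K L : Type) [Field K] [NumberField K] [Field L] [NumberField L]
    [Algebra K L] [IsGalois K L] : {v : Pl K | es K L v ≠ 1}.Finite := by
  have h1 : differentIdeal (𝓞 K) (𝓞 L) ≠ ⊥ := differentIdeal_ne_bot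
  have h2 : {W : Pl L | W.asIdeal ∣ differentIdeal (𝓞 K) (𝓞 L)}.Finite :=
    Ideal.finite_factors h1
  refine (h2.image fun W => W.under (𝓞 K)).subset ?_
  intro v hv
  obtain ⟨P, hP⟩ : ∃ P : Ideal (𝓞 L), P.IsPrime ∧ P.LiesOver v.asIdeal := by
    obtain ⟨⟨P, h3, h4⟩⟩ := v.asIdeal.nonempty_primesOver (S := 𝓞 L)
    exact ⟨P, h3, h4⟩
  obtain ⟨hP1, hP2⟩ := hP
  have hP0 : P ≠ ⊥ := Ideal.ne_bot_of_liesOver_of_ne_bot v.ne_bot P
  have h3 : es K L v = P.ramificationIdx (𝓞 K) :=
    Ideal.ramificationIdxIn_eq_ramificationIdx v.asIdeal P Gal(L/K)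
  refine ⟨⟨P, hP1, hP0⟩, ?_, ?_⟩
  · show P ∣ differentIdeal (𝓞 K) (𝓞 L)
    by_contra h4
    rw [not_dvd_differentIdeal_iff] at h4
    apply hv
    rw [h3]
    exact Ideal.ramificationIdx_eq_one P (𝓞 K)
  · apply HeightOneSpectrum.ext
    exact hP2.over.symm

end H55R
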