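import Mathlib
import Pool.Agent.Lib.H55R.BF2
import Pool.Agent.Lib.H55R.D4
import Pool.Agent.Lib.H55R.DD

open NumberField IsDedekindDomain

namespace H55R

open H55B H55N

section

variable {K L : Type} [Field K] [NumberField K] [Field L] [NumberField L] [Algebra K L]
  [IsGalois K L]

theorem D5_norm (v : Pl K) (W : Pl L) (h : W.under (𝓞 K) = v) :
    Ideal.absNorm W.asIdeal = Ideal.absNorm v.asIdeal ^ fs K L v := by
  have hp := v.isPrime
  have hW := W.isPrime
  have hvm := v.isMaximal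
  have hWm := W.isMaximal
  have hl : W.asIdeal.LiesOver v.asIdeal := (BF2_mem v W h).2
  have h1 := Ideal.absNorm_relNorm (𝓞 K) (𝓞 L) W.asIdeal
  rw [← h1, Ideal.relNorm_eq_pow_of_isMaximal W.asIdeal v.asIdeal, map_pow]
  congr 1
  exact (Ideal.inertiaDegIn_eq_inertiaDeg v.asIdeal W.asIdeal Gal(L/K)).symm

/-- The primes above v. -/
noncomputable def D5_T (v : Pl K) : Finset (Pl L) := (above_finite (L := L) v).toFinset

omit [IsGalois K L] in
theorem D5_mem (v : Pl K) (W : Pl L) : W ∈ D5_T v ↔ W.under (𝓞 K) = v := by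
  unfold D5_T
  rw [Set.Finite.mem_toFinset]
  exact Iff.rfl

theorem D5_card (v : Pl K) : (D5_T (L := L) v).card * (es K L v * fs K L v) = Module.finrank K L :=
  card_above v _ fun W => D5_mem v W

theorem D5_card_le (v : Pl K) : (D5_T (L := L) v).card ≤ Module.finrank K L := by
  rw [← D5_card (L := L) v]
  exact Nat.le_mul_of_pos_right _ (Nat.mul_pos (es_pos v) (fs_pos v))

theorem D5_fibre (v : Pl K) (s : ℝ) :
    ∑ W ∈ D5_T (L := L) v, (Ideal.absNorm W.asIdeal : ℝ) ^ (-s) =
      (D5_T (L := L) v).card * (Ideal.absNorm v.asIdeal : ℝ) ^ (-(fs K L v * s)) := by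
  rw [← nsmul_eq_mul, ← Finset.sum_const]
  refine Finset.sum_congr rfl fun W hW => ?_
  rw [D5_norm v W ((D5_mem v W).1 hW)]
  push_cast
  rw [← Real.rpow_natCast, ← Real.rpow_mul (Nat.cast_nonneg _)]
  congr 1
  ring

end

/-- Chunk RD5 (M/L), primes of L and completely split primes of K. n = [L : K]. Sum over the primes W of L = sum over the v of the finite sums over the fibre {W : W.under = v}
(Equiv.sigmaFiberEquiv for W -> W.under (𝓞 K), Summable.tsum_sigma'; dd_summable for L). The fibre over v is in bijection with v.asIdeal.primesOver (𝓞 L), has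
n / (e f) elements (Ideal.ncard_primesOver_mul_ramificationIdxIn_mul_inertiaDegIn), at most n, and absNorm W = (absNorm v)^f (Ideal.absNorm_eq_pow_inertiaDeg or the cardinality of the residue field:
Ideal.absNorm_relNorm and Ideal.relNorm_eq_pow_of_isMaximal). If v splits (Spl: e = f = 1) the fibre sum is n * Nv^(-s). If f >= 2 it is between 0 and n * Nv^(-2s) <= n * Nv^(-2). If
f = 1 and e <> 1 it is between 0 and n, and these v form a finite set (ram_finite). So |sum over W - n * PS (Spl) s| <= n * (sum of Nv^(-2)) + n * #(ramified). -/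
theorem split_cmp (K L : Type) [Field K] [NumberField K] [Field L] [NumberField L]
    [Algebra K L] [IsGalois K L] : ∃ C : ℝ, ∀ s ∈ Set.Ioc (1 : ℝ) 2,
      |∑' W : Pl L, (Ideal.absNorm W.asIdeal : ℝ) ^ (-s) -
        Module.finrank K L * PS {v : Pl K | Spl K L v} s| ≤ C := by
  classical
  have hB1 : Summable fun v : Pl K => (Module.finrank K L : ℝ) * (Ideal.absNorm v.asIdeal : ℝ) ^ (-2 : ℝ) :=
    (dd_summable 2 (by norm_num)).mul_left _
  have hB2 : Summable fun v : Pl K => if es K L v ≠ 1 then (Module.finrank K L : ℝ) else 0 := by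
    refine summable_of_finite_support ((ram_finite K L).subset ?_)
    intro v hv
    rw [Function.mem_support] at hv
    by_contra hne
    exact hv (if_neg hne)
  have hB := hB1.add hB2
  refine ⟨∑' v : Pl K, ((Module.finrank K L : ℝ) * (Ideal.absNorm v.asIdeal : ℝ) ^ (-2 : ℝ) +
      if es K L v ≠ 1 then (Module.finrank K L : ℝ) else 0), fun s hs => ?_⟩
  obtain ⟨hs1, hs2⟩ := hs
  have hg : Summable fun W : Pl L => (Ideal.absNorm W.asIdeal : ℝ) ^ (-s) := dd_summable s hs1
  let E : (Σ v : Pl K, {W : Pl L // W.under (𝓞 K) = v}) ≃ Pl L :=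
    Equiv.sigmaFiberEquiv fun W : Pl L => W.under (𝓞 K)
  have hgE : Summable fun p : (Σ v : Pl K, {W : Pl L // W.under (𝓞 K) = v}) =>
      (Ideal.absNorm (E p).asIdeal : ℝ) ^ (-s) := (Equiv.summable_iff E).2 hg
  have hin : ∀ v : Pl K, ∑' W : {W : Pl L // W.under (𝓞 K) = v},
      (Ideal.absNorm (E ⟨v, W⟩).asIdeal : ℝ) ^ (-s) =
        ∑ W ∈ D5_T (L := L) v, (Ideal.absNorm W.asIdeal : ℝ) ^ (-s) := by
    intro v
    rw [← Finset.tsum_subtype (D5_T (L := L) v) fun W : Pl L => (Ideal.absNorm W.asIdeal : ℝ) ^ (-s)]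
    let e : {W : Pl L // W.under (𝓞 K) = v} ≃ {W : Pl L // W ∈ D5_T (L := L) v} :=
      Equiv.subtypeEquivRight fun W => (D5_mem v W).symm
    rw [← Equiv.tsum_eq e]
    rfl
  have hsum : ∑' W : Pl L, (Ideal.absNorm W.asIdeal : ℝ) ^ (-s) =
      ∑' v : Pl K, ∑ W ∈ D5_T (L := L) v, (Ideal.absNorm W.asIdeal : ℝ) ^ (-s) := by
    rw [← Equiv.tsum_eq E, hgE.tsum_sigma]
    exact tsum_congr hin
  have hF : Summable fun v : Pl K => ∑ W ∈ D5_T (L := L) v, (Ideal.absNorm W.asIdeal : ℝ) ^ (-s) :=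
    hgE.sigma.congr hin
  have hP : Summable fun v : Pl K => (Module.finrank K L : ℝ) *
      {v : Pl K | Spl K L v}.indicator (fun v => (Ideal.absNorm v.asIdeal : ℝ) ^ (-s)) v :=
    ((dd_summable s hs1).indicator _).mul_left _
  unfold PS
  rw [hsum, ← tsum_mul_left, ← hF.tsum_sub hP, ← Real.norm_eq_abs]
  refine tsum_of_norm_bounded hB.hasSum fun v => ?_
  rw [Real.norm_eq_abs, D5_fibre]
  have hN1 : (1 : ℝ) ≤ Ideal.absNorm v.asIdeal := by
    have := dd_two_le v
    exact_mod_cast (by omega : 1 ≤ Ideal.absNorm v.asIdeal)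
  have hc : ((D5_T (L := L) v).card : ℝ) ≤ Module.finrank K L := by exact_mod_cast D5_card_le v
  have hn0 : (0 : ℝ) ≤ Module.finrank K L := Nat.cast_nonneg _
  have hf1 := fs_pos (K := K) (L := L) v
  have h20 : 0 ≤ (Ideal.absNorm v.asIdeal : ℝ) ^ (-2 : ℝ) := by positivity
  have hite : (0 : ℝ) ≤ if es K L v ≠ 1 then (Module.finrank K L : ℝ) else 0 := by
    split_ifs
    · exact hn0
    · exact le_rfl
  by_cases hv : Spl K L v
  · have h1 : v ∈ {v : Pl K | Spl K L v} := hv
    rw [Set.indicator_of_mem h1]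
    obtain ⟨h2, h3⟩ := hv
    have h4 := D5_card (L := L) v
    rw [h2, h3, mul_one, mul_one] at h4
    rw [h4, h3, Nat.cast_one, one_mul, sub_self, abs_zero]
    positivity
  · have h1 : v ∉ {v : Pl K | Spl K L v} := hv
    rw [Set.indicator_of_notMem h1, mul_zero, sub_zero]
    have h5 : 0 ≤ (Ideal.absNorm v.asIdeal : ℝ) ^ (-(fs K L v * s)) := by positivity
    rw [abs_of_nonneg (mul_nonneg (Nat.cast_nonneg _) h5)]
    have hfs : (1 : ℝ) ≤ fs K L v := by exact_mod_cast hf1
    by_cases he : es K L v = 1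
    · have hf2 : fs K L v ≠ 1 := fun h => hv ⟨he, h⟩
      have hf3 : (2 : ℝ) ≤ fs K L v := by exact_mod_cast (by omega : 2 ≤ fs K L v)
      have h6 : (Ideal.absNorm v.asIdeal : ℝ) ^ (-(fs K L v * s)) ≤
          (Ideal.absNorm v.asIdeal : ℝ) ^ (-2 : ℝ) := by
        refine Real.rpow_le_rpow_of_exponent_le hN1 ?_
        nlinarith
      exact (mul_le_mul hc h6 h5 hn0).trans (le_add_of_nonneg_right hite)
    · rw [if_pos he]
      have h6 : (Ideal.absNorm v.asIdeal : ℝ) ^ (-(fs K L v * s)) ≤ 1 := by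
        refine Real.rpow_le_one_of_one_le_of_nonpos hN1 ?_
        have : 0 ≤ (fs K L v : ℝ) * s := by positivity
        linarith
      have h7 := mul_le_mul hc h6 h5 hn0
      rw [mul_one] at h7
      exact h7.trans (le_add_of_nonneg_left (by positivity))

end H55R
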