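import Mathlib
import Pool.Agent.Lib.H55R.DD

open NumberField IsDedekindDomain

namespace H55R

open H55B H55N

theorem D6_cop {K : Type} [Field K] [NumberField K] (f : Ideal (𝓞 K)) (v : Pl K) :
    IsCoprime v.asIdeal f ↔ ¬ f ≤ v.asIdeal := by
  rw [Ideal.isCoprime_iff_sup_eq]
  constructor
  · intro h hf
    rw [sup_eq_left.2 hf] at h
    exact v.isPrime.ne_top h
  · intro h
    by_contra hne
    apply h
    have h1 := v.isMaximal.eq_of_le hne le_sup_left
    rw [h1]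
    exact le_sup_right

theorem D6_sum {K : Type} [Field K] [NumberField K] (Y : Subgroup (Pl K → ℂˣ)) [Fintype Y]
    (v : Pl K) (h : ¬ ∀ φ ∈ Y, φ v = 1) : ∑ φ : Y, ((φ : Pl K → ℂˣ) v : ℂ) = 0 := by
  push Not at h
  obtain ⟨ψ, hψ, hv⟩ := h
  have h1 : (ψ v : ℂ) * ∑ φ : Y, ((φ : Pl K → ℂˣ) v : ℂ) = ∑ φ : Y, ((φ : Pl K → ℂˣ) v : ℂ) := by
    rw [Finset.mul_sum]
    exact Fintype.sum_equiv (Equiv.mulLeft (⟨ψ, hψ⟩ : Y)) _ _ fun φ => rfl
  have h2 : ((ψ v : ℂ) - 1) * ∑ φ : Y, ((φ : Pl K → ℂˣ) v : ℂ) = 0 := by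
    rw [sub_mul, h1, one_mul, sub_self]
  rcases mul_eq_zero.1 h2 with h3 | h3
  · exact absurd (Units.ext (sub_eq_zero.1 h3)) hv
  · exact h3

open Classical in
theorem D6_point {K : Type} [Field K] [NumberField K] (f : Ideal (𝓞 K))
    (Y : Subgroup (Pl K → ℂˣ)) [Fintype Y] (v : Pl K) :
    ∑ φ : Y, (tI f (φ : Pl K → ℂˣ) v.asIdeal).re =
      if ¬ f ≤ v.asIdeal ∧ ∀ φ ∈ Y, φ v = 1 then (Nat.card Y : ℝ) else 0 := by
  by_cases hf : f ≤ v.asIdeal
  · rw [if_neg fun h => h.1 hf]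
    refine Finset.sum_eq_zero fun φ _ => ?_
    rw [tI_zero f _ fun h => (D6_cop f v).1 h hf, Complex.zero_re]
  · have h1 : ∀ φ : Y, tI f (φ : Pl K → ℂˣ) v.asIdeal = ((φ : Pl K → ℂˣ) v : ℂ) := by
      intro φ
      rw [tI_apply f _ v.ne_bot ((D6_cop f v).2 hf), pv_prime]
    simp only [h1]
    by_cases h : ∀ φ ∈ Y, φ v = 1
    · rw [if_pos ⟨hf, h⟩]
      have h2 : ∀ φ : Y, (((φ : Pl K → ℂˣ) v : ℂ)).re = 1 := by
        intro φ
        rw [h φ.1 φ.2, Units.val_one, Complex.one_re]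
      rw [Finset.sum_congr rfl fun φ _ => h2 φ, Finset.sum_const, Finset.card_univ, nsmul_eq_mul,
        mul_one, Nat.card_eq_fintype_card]
    · rw [if_neg fun h' => h h'.2, ← Complex.re_sum, D6_sum Y v h, Complex.zero_re]

/-- Chunk RD6 (S/M), orthogonality. For v with f <= v all tI f phi v = 0 (v is not coprime to f) and v is not in the set. For v not containing f, v and f are coprime, tI f phi v = phi v (tI_apply,
pv_prime), and the sum over phi in Y of phi v is card Y if phi v = 1 for all phi in Y, and 0 otherwise (multiply by psi v <> 1: reindex phi -> psi phi, Fintype.sum_equiv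
Equiv.mulLeft). So the sum over phi of Re (tI f phi v) is card Y times the indicator function. Exchange the finite sum and the convergent series (Summable.tsum_finsetSum;
each series is dominated by Nv^(-s), dd_summable, dd_norm_tI, dd_norm_Y). -/
theorem orth {K : Type} [Field K] [NumberField K] (f : Ideal (𝓞 K)) (Y : Subgroup (Pl K → ℂˣ))
    [Fintype Y] (s : ℝ) (hs : 1 < s) :
    (Nat.card Y : ℝ) * PS {v : Pl K | ¬ f ≤ v.asIdeal ∧ ∀ φ ∈ Y, φ v = 1} s =
      ∑ φ : Y, ∑' v : Pl K, (tI f (φ : Pl K → ℂˣ) v.asIdeal).re *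
        (Ideal.absNorm v.asIdeal : ℝ) ^ (-s) := by
  classical
  have hsum : ∀ φ : Y, Summable fun v : Pl K => (tI f (φ : Pl K → ℂˣ) v.asIdeal).re *
      (Ideal.absNorm v.asIdeal : ℝ) ^ (-s) := by
    intro φ
    refine Summable.of_norm_bounded (dd_summable (K := K) s hs) fun v => ?_
    rw [norm_mul, Real.norm_eq_abs, Real.norm_eq_abs]
    have h1 : |(tI f (φ : Pl K → ℂˣ) v.asIdeal).re| ≤ 1 :=
      (Complex.abs_re_le_norm _).trans (dd_norm_tI f _ (dd_norm_Y Y φ.1 φ.2) _)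
    have h2 : |(Ideal.absNorm v.asIdeal : ℝ) ^ (-s)| = (Ideal.absNorm v.asIdeal : ℝ) ^ (-s) :=
      abs_of_nonneg (by positivity)
    rw [h2]
    exact mul_le_of_le_one_left (by positivity) h1
  rw [← Summable.tsum_finsetSum fun φ _ => hsum φ]
  unfold PS
  rw [← tsum_mul_left]
  refine tsum_congr fun v => ?_
  rw [← Finset.sum_mul, D6_point f Y v]
  by_cases h : ¬ f ≤ v.asIdeal ∧ ∀ φ ∈ Y, φ v = 1
  · rw [if_pos h, Set.indicator_of_mem (by exact h)]
  · rw [if_neg h, Set.indicator_of_notMem (by exact h), mul_zero, zero_mul]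

end H55R
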