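import Mathlib
import Pool.Agent.Lib.H55R.D13
import Pool.Agent.Lib.H55R.D2
import Pool.Agent.Lib.H55R.D3
import Pool.Agent.Lib.H55R.D5
import Pool.Agent.Lib.H55R.D6

/-!
# H55R: the two density theorems (part AN, designer: helper28). Interface of part X.
-/

open NumberField IsDedekindDomain

namespace H55R

open H55B

theorem den_trivial {K : Type} [Field K] [NumberField K] (f : Ideal (𝓞 K)) (s : ℝ) (hs : 1 < s) :
    ‖Ls (tI f (1 : Pl K → ℂˣ)) s‖ ≤ ∑' a : Ideal (𝓞 K), (Ideal.absNorm a : ℝ) ^ (-s) := by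
  have h1 : ∀ a, ‖tI f (1 : Pl K → ℂˣ) a‖ ≤ 1 :=
    dd_norm_tI f 1 fun v => by rw [Pi.one_apply, Units.val_one, norm_one]
  have h2 := dd_tm_summable (tI f (1 : Pl K → ℂˣ)) h1 s hs
  refine (norm_tsum_le_tsum_norm h2).trans ?_
  refine h2.tsum_le_tsum (fun a => ?_) (H55N.ideal_summable (K := K) s hs)
  rw [dd_norm_tm _ s (by linarith) a]
  exact mul_le_of_le_one_left (by positivity) (h1 a)

/-- Primes in the kernel of a finite group of ray class characters. -/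
theorem density_ker {K : Type} [Field K] [NumberField K] [Algebra F K] (f : Ideal (𝓞 K))
    (hf : f ≠ ⊥) (hf' : f ≠ ⊤) (Y : Subgroup (Pl K → ℂˣ)) [Finite Y] (hY : Y ≤ RC f) :
    ∃ C : ℝ, ∀ s ∈ Set.Ioc (1 : ℝ) 2, PS {v : Pl K | ¬ f ≤ v.asIdeal ∧ ∀ φ ∈ Y, φ v = 1} s ≤
      (1 / Nat.card Y : ℝ) * Real.log (1 / (s - 1)) + C := by
  classical
  have := Fintype.ofFinite Y
  obtain ⟨C₂, hC₂⟩ := log_cmp K
  obtain ⟨C₃, hC₃⟩ := zeta_log K
  have hb : ∀ φ : Y, ∃ B : ℝ, ∀ s ∈ Set.Ioc (1 : ℝ) 2,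
      ∑' v : Pl K, (tI f (φ : Pl K → ℂˣ) v.asIdeal).re * (Ideal.absNorm v.asIdeal : ℝ) ^ (-s) ≤
        (if φ = 1 then Real.log (1 / (s - 1)) else 0) + B := by
    intro φ
    have hn := dd_norm_Y Y φ.1 φ.2
    have hh := dd_norm_tI f φ.1 hn
    by_cases h1 : φ = 1
    · subst h1
      refine ⟨C₂ + C₃, fun s hs => ?_⟩
      have e1 := (abs_le.1 (hC₂ (tI f ((1 : Y) : Pl K → ℂˣ)) hh s hs)).2
      obtain ⟨e2, e3⟩ := hC₃ s hs
      have e4 := (abs_le.1 e3).2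
      have e5 := (euler (tI f ((1 : Y) : Pl K → ℂˣ)) hh s hs.1).1
      have e6 := Real.log_le_log (norm_pos_iff.2 e5) (den_trivial f s hs.1)
      rw [if_pos rfl]
      linarith
    · have h2 : φ.1 ≠ 1 := fun h => h1 (Subtype.ext h)
      obtain ⟨B, hB⟩ := bdd f hf φ.1 (hY φ.2) hn h2
      refine ⟨C₂ + Real.log B, fun s hs => ?_⟩
      have e1 := (abs_le.1 (hC₂ (tI f φ.1) hh s hs)).2
      have e5 := (euler (tI f φ.1) hh s hs.1).1
      have e6 := Real.log_le_log (norm_pos_iff.2 e5) (hB s hs)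
      rw [if_neg h1]
      linarith
  choose B hB using hb
  refine ⟨(1 / Nat.card Y : ℝ) * ∑ φ, B φ, fun s hs => ?_⟩
  have hc : (0 : ℝ) < Nat.card Y := by exact_mod_cast Nat.card_pos
  have h1 := orth f Y s hs.1
  have h2 : (Nat.card Y : ℝ) * PS {v : Pl K | ¬ f ≤ v.asIdeal ∧ ∀ φ ∈ Y, φ v = 1} s ≤
      Real.log (1 / (s - 1)) + ∑ φ, B φ := by
    rw [h1]
    refine (Finset.sum_le_sum fun φ _ => hB φ s hs).trans (le_of_eq ?_)
    rw [Finset.sum_add_distrib, Finset.sum_ite_eq' Finset.univ (1 : Y)]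
    simp
  have h3 : PS {v : Pl K | ¬ f ≤ v.asIdeal ∧ ∀ φ ∈ Y, φ v = 1} s =
      (1 / Nat.card Y : ℝ) *
        ((Nat.card Y : ℝ) * PS {v : Pl K | ¬ f ≤ v.asIdeal ∧ ∀ φ ∈ Y, φ v = 1} s) := by
    field_simp
  rw [h3, ← mul_add]
  exact mul_le_mul_of_nonneg_left h2 (by positivity)

/-- Completely split primes. -/
theorem density_split (K L : Type) [Field K] [NumberField K] [Field L] [NumberField L]
    [Algebra K L] [IsGalois K L] :
    ∃ C : ℝ, ∀ s ∈ Set.Ioc (1 : ℝ) 2,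
      |PS {v : Pl K | Spl K L v} s - (1 / Module.finrank K L : ℝ) * Real.log (1 / (s - 1))| ≤ C := by
  obtain ⟨C₁, hC₁⟩ := split_cmp K L
  obtain ⟨C₂, hC₂⟩ := log_cmp L
  obtain ⟨C₃, hC₃⟩ := zeta_log L
  have hfr : (0 : ℝ) < Module.finrank K L := by exact_mod_cast Module.finrank_pos
  refine ⟨(1 / Module.finrank K L : ℝ) * (C₁ + C₂ + C₃), fun s hs => ?_⟩
  -- the trivial character of L
  have hn : ∀ v : Pl L, ‖((1 : Pl L → ℂˣ) v : ℂ)‖ = 1 := fun v => by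
    rw [Pi.one_apply, Units.val_one, norm_one]
  have hh := dd_norm_tI ⊤ (1 : Pl L → ℂˣ) hn
  have hval : ∀ a : Ideal (𝓞 L), a ≠ ⊥ → tI ⊤ (1 : Pl L → ℂˣ) a = 1 := by
    intro a ha
    rw [tI_apply ⊤ 1 ha (by rw [← Ideal.one_eq_top]; exact isCoprime_one_right), pv_one_fun,
      Units.val_one]
  have e1 := hC₂ (tI ⊤ (1 : Pl L → ℂˣ)) hh s hs
  have e2 : ∑' v : Pl L, (tI ⊤ (1 : Pl L → ℂˣ) v.asIdeal).re *
      (Ideal.absNorm v.asIdeal : ℝ) ^ (-s) =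
      ∑' W : Pl L, (Ideal.absNorm W.asIdeal : ℝ) ^ (-s) := by
    refine tsum_congr fun W => ?_
    rw [hval _ W.ne_bot, Complex.one_re, one_mul]
  have e3 : Ls (tI ⊤ (1 : Pl L → ℂˣ)) s =
      ((∑' a : Ideal (𝓞 L), (Ideal.absNorm a : ℝ) ^ (-s) : ℝ) : ℂ) := by
    unfold Ls
    rw [Complex.ofReal_tsum]
    refine tsum_congr fun a => ?_
    unfold H55N.tm
    rw [Complex.ofReal_cpow (Nat.cast_nonneg _)]
    by_cases ha : a = ⊥
    · subst ha
      have : tI ⊤ (1 : Pl L → ℂˣ) ⊥ = 0 := map_zero _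
      rw [this, zero_mul, Ideal.absNorm_bot]
      have hs0 : (-(s : ℂ)) ≠ 0 := by
        rw [neg_ne_zero, Complex.ofReal_ne_zero]
        linarith [hs.1]
      simp [Complex.zero_cpow hs0]
    · rw [hval a ha, one_mul]
      push_cast
      rfl
  obtain ⟨e4, e5⟩ := hC₃ s hs
  rw [e2, e3, Complex.norm_real, Real.norm_of_nonneg e4.le] at e1
  have e6 := hC₁ s hs
  rw [abs_le] at *
  obtain ⟨a1, a2⟩ := e1
  obtain ⟨b1, b2⟩ := e5
  obtain ⟨c1, c2⟩ := e6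
  have key : PS {v : Pl K | Spl K L v} s - (1 / Module.finrank K L : ℝ) * Real.log (1 / (s - 1)) =
      (1 / Module.finrank K L : ℝ) * (Module.finrank K L * PS {v : Pl K | Spl K L v} s -
        Real.log (1 / (s - 1))) := by
    field_simp
  rw [key, ← mul_neg]
  have hp : (0 : ℝ) ≤ 1 / Module.finrank K L := by positivity
  constructor
  · exact mul_le_mul_of_nonneg_left (by linarith) hp
  · exact mul_le_mul_of_nonneg_left (by linarith) hp

end H55R
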