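import Mathlib
import Pool.Agent.Lib.H35T.Defs
import Pool.Agent.Lib.H55B.Z1
import Pool.Agent.Lib.H55R.BF2

open NumberField IsDedekindDomain

namespace H55R

open H55B

/-! Chunk CH1 (M): ramified primes. good_of_es (model: Pool/Agent/Lib/H55N/RQ27.lean): suppose v is not good; let W be a prime above w (under_exists); W.under O = v (Ideal.under_under), so
W.ramificationIdx O = 1 by hU; multiplicative in the tower (Ideal.ramificationIdx_tower), so W.ramificationIdx (𝓞 K) = 1 = es K K' w
(Ideal.ramificationIdxIn_eq_ramificationIdx). three_dvd: 3 is not in w (a good prime v does not contain 3 and v = w meet O); om in 𝓞 K has order 3 modulo w: om^3 = 1,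
and om = 1 mod w would give 3 = (1 - om)(1 - om^2) in w. So 3 divides the order N w - 1 of (𝓞 K / w)ˣ. -/

theorem good_of_es {K K' : Type} [Field K] [NumberField K] [Algebra F K] [Field K'] [NumberField K']
    [Algebra F K'] [Algebra K K'] [IsScalarTower F K K'] [IsGalois K K'] (hU : H35T.UnrOut K')
    (w : Pl K) (h : es K K' w ≠ 1) (v : HeightOneSpectrum O) (hv : v.asIdeal = w.asIdeal.under O) :
    H35T.Good v := by
  by_contra hg
  obtain ⟨W, hW⟩ := under_exists (L := K') w
  have hunder : W.asIdeal.under (𝓞 K) = w.asIdeal := congrArg HeightOneSpectrum.asIdeal hW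
  have hlies : W.asIdeal.LiesOver w.asIdeal := ⟨hunder.symm⟩
  have hw := w.isPrime
  have hWp := W.isPrime
  have hWO : v.asIdeal = W.asIdeal.under O := by
    rw [hv, ← hunder, Ideal.under_under]
  have h1 : W.asIdeal.ramificationIdx O = 1 := hU W v hWO hg
  have h2 := Ideal.ramificationIdx_tower (R := O) w.asIdeal W.asIdeal
  rw [h1] at h2
  have h3 : W.asIdeal.ramificationIdx (𝓞 K) = 1 := Nat.eq_one_of_mul_eq_one_left h2.symm
  apply h
  have h4 := Ideal.ramificationIdxIn_eq_ramificationIdx w.asIdeal W.asIdeal Gal(K'/K)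
  unfold es
  rw [h4, h3]

theorem three_dvd {K : Type} [Field K] [NumberField K] [Algebra F K] (w : Pl K)
    (h : (3 : 𝓞 K) ∉ w.asIdeal) : 3 ∣ Ideal.absNorm w.asIdeal - 1 := by
  classical
  have hmax : w.asIdeal.IsMaximal := w.isMaximal
  have hfin : Finite (𝓞 K ⧸ w.asIdeal) := Ideal.finiteQuotientOfFreeOfNeBot w.asIdeal w.ne_bot
  letI : Field (𝓞 K ⧸ w.asIdeal) := Ideal.Quotient.field w.asIdeal
  letI : Fintype (𝓞 K ⧸ w.asIdeal) := Fintype.ofFinite _
  have hN : Ideal.absNorm w.asIdeal = Fintype.card (𝓞 K ⧸ w.asIdeal) := by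
    rw [Ideal.absNorm_apply, Submodule.cardQuot_apply, Nat.card_eq_fintype_card]
  rw [hN, ← Fintype.card_units]
  set z : 𝓞 K ⧸ w.asIdeal := Ideal.Quotient.mk w.asIdeal (algebraMap O (𝓞 K) om) with hz
  have hrel : z ^ 2 + z + 1 = 0 := by
    have h1 := congrArg (fun x => Ideal.Quotient.mk w.asIdeal (algebraMap O (𝓞 K) x)) om_rel
    simp only [map_add, map_pow, map_one, map_zero] at h1
    exact h1
  have h3 : (3 : 𝓞 K ⧸ w.asIdeal) ≠ 0 := by
    intro h0
    apply h
    rw [← Ideal.Quotient.eq_zero_iff_mem]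
    rw [map_ofNat]
    exact h0
  have hz1 : z ≠ 1 := by
    intro h1
    rw [h1] at hrel
    apply h3
    rw [← hrel]
    norm_num
  have hz3 : z ^ 3 = 1 := by
    have : z ^ 3 - 1 = (z - 1) * (z ^ 2 + z + 1) := by ring
    rw [hrel, mul_zero] at this
    exact sub_eq_zero.1 this
  have hz0 : z ≠ 0 := by
    intro h1
    rw [h1] at hz3
    norm_num at hz3
  have hord : orderOf (Units.mk0 z hz0) = 3 := by
    apply orderOf_eq_prime
    · apply Units.ext
      simpa using hz3
    · intro h1
      apply hz1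
      have := congrArg Units.val h1
      simpa using this
  rw [← hord]
  exact orderOf_dvd_card

end H55R
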