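import Mathlib
import Pool.Agent.Lib.H55R.BF2

open NumberField IsDedekindDomain

namespace H55R

/-! Chunk CH2 (M): the decomposition law in a Galois extension of degree 3. By card_above (number of primes above w) * (e f) = 3. The prime W has relNorm W = w^f
(Ideal.relNorm_eq_pow_of_isMaximal, Ideal.inertiaDegIn_eq_inertiaDeg). The set of primes above w is finite (above_finite). -/

theorem CH2_norm {K K' : Type} [Field K] [NumberField K] [Field K'] [NumberField K']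
    [Algebra K K'] [IsGalois K K'] (w : Pl K) (W : Pl K') (h : W.asIdeal.under (𝓞 K) = w.asIdeal) :
    Ideal.relNorm (𝓞 K) W.asIdeal = w.asIdeal ^ fs K K' w := by
  have hl : W.asIdeal.LiesOver w.asIdeal := ⟨h.symm⟩
  have hw := w.isMaximal
  have hwp := w.isPrime
  have hW := W.isMaximal
  have hWp := W.isPrime
  have h1 := Ideal.relNorm_eq_pow_of_isMaximal W.asIdeal w.asIdeal
  have h2 := Ideal.inertiaDegIn_eq_inertiaDeg w.asIdeal W.asIdeal Gal(K'/K)
  rw [h1, ← h2]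
  rfl

theorem CH2_card {K K' : Type} [Field K] [NumberField K] [Field K'] [NumberField K']
    [Algebra K K'] [IsGalois K K'] (h3 : Module.finrank K K' = 3) (w : Pl K) :
    ∃ T : Finset (Pl K'), (∀ W, W ∈ T ↔ W.asIdeal.under (𝓞 K) = w.asIdeal) ∧
      T.card * (es K K' w * fs K K' w) = 3 := by
  have hf := above_finite (L := K') w
  have hT : ∀ W : Pl K', W ∈ hf.toFinset ↔ W.under (𝓞 K) = w := by
    intro W
    rw [Set.Finite.mem_toFinset]
    exact Iff.rfl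
  refine ⟨hf.toFinset, fun W => ?_, ?_⟩
  · rw [hT]
    exact ⟨fun h => congrArg HeightOneSpectrum.asIdeal h, fun h => HeightOneSpectrum.ext h⟩
  · rw [card_above w hf.toFinset hT, h3]

theorem CH2_one {K K' : Type} [Field K] [NumberField K] [Field K'] [NumberField K']
    [Algebra K K'] (w : Pl K) (T : Finset (Pl K'))
    (hT : ∀ W, W ∈ T ↔ W.asIdeal.under (𝓞 K) = w.asIdeal) (hc : T.card = 1) :
    ∃ W : Pl K', {W : Pl K' | W.asIdeal.under (𝓞 K) = w.asIdeal} = {W} ∧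
      W.asIdeal.under (𝓞 K) = w.asIdeal := by
  obtain ⟨W, hW⟩ := Finset.card_eq_one.1 hc
  have hWT : W ∈ T := by
    rw [hW]
    exact Finset.mem_singleton_self W
  refine ⟨W, ?_, (hT W).1 hWT⟩
  ext W'
  rw [Set.mem_ofPred_eq, ← hT W', hW, Finset.mem_singleton, Set.mem_singleton_iff]

theorem cubic_spl {K K' : Type} [Field K] [NumberField K] [Field K'] [NumberField K'] [Algebra K K']
    [IsGalois K K'] (h3 : Module.finrank K K' = 3) (w : Pl K) (h : Spl K K' w) :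
    ∃ W₁ W₂ W₃ : HeightOneSpectrum (𝓞 K'), W₁ ≠ W₂ ∧ W₁ ≠ W₃ ∧ W₂ ≠ W₃ ∧
      {W : HeightOneSpectrum (𝓞 K') | W.asIdeal.under (𝓞 K) = w.asIdeal} = {W₁, W₂, W₃} ∧
      Ideal.relNorm (𝓞 K) W₁.asIdeal = w.asIdeal ∧ Ideal.relNorm (𝓞 K) W₂.asIdeal = w.asIdeal ∧
      Ideal.relNorm (𝓞 K) W₃.asIdeal = w.asIdeal := by
  classical
  obtain ⟨T, hT, hc⟩ := CH2_card h3 w
  rw [h.1, h.2, mul_one, mul_one] at hc
  obtain ⟨W₁, W₂, W₃, h12, h13, h23, hTe⟩ := Finset.card_eq_three.1 hc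
  have hn : ∀ W, W ∈ T → Ideal.relNorm (𝓞 K) W.asIdeal = w.asIdeal := by
    intro W hW
    rw [CH2_norm w W ((hT W).1 hW), h.2, pow_one]
  refine ⟨W₁, W₂, W₃, h12, h13, h23, ?_, hn W₁ (by rw [hTe]; simp), hn W₂ (by rw [hTe]; simp),
    hn W₃ (by rw [hTe]; simp)⟩
  ext W
  rw [Set.mem_ofPred_eq, ← hT W, hTe]
  simp

theorem cubic_inert {K K' : Type} [Field K] [NumberField K] [Field K'] [NumberField K']
    [Algebra K K'] [IsGalois K K'] (h3 : Module.finrank K K' = 3) (w : Pl K) (h : ¬ Spl K K' w)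
    (he : es K K' w = 1) : ∃ W : HeightOneSpectrum (𝓞 K'),
      {W : HeightOneSpectrum (𝓞 K') | W.asIdeal.under (𝓞 K) = w.asIdeal} = {W} ∧
      Ideal.relNorm (𝓞 K) W.asIdeal = w.asIdeal ^ 3 := by
  obtain ⟨T, hT, hc⟩ := CH2_card h3 w
  have hf : fs K K' w ≠ 1 := fun hf => h ⟨he, hf⟩
  rw [he, one_mul] at hc
  have hdvd : fs K K' w ∣ 3 := ⟨T.card, by rw [← hc]; ring⟩
  have hf3 : fs K K' w = 3 := ((Nat.dvd_prime Nat.prime_three).1 hdvd).resolve_left hf
  rw [hf3] at hc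
  have hc1 : T.card = 1 := by omega
  obtain ⟨W, hW1, hW2⟩ := CH2_one w T hT hc1
  exact ⟨W, hW1, by rw [CH2_norm w W hW2, hf3]⟩

theorem cubic_ram {K K' : Type} [Field K] [NumberField K] [Field K'] [NumberField K']
    [Algebra K K'] [IsGalois K K'] (h3 : Module.finrank K K' = 3) (w : Pl K)
    (he : es K K' w ≠ 1) : ∃ W : HeightOneSpectrum (𝓞 K'),
      {W : HeightOneSpectrum (𝓞 K') | W.asIdeal.under (𝓞 K) = w.asIdeal} = {W} ∧
      Ideal.relNorm (𝓞 K) W.asIdeal = w.asIdeal := by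
  obtain ⟨T, hT, hc⟩ := CH2_card h3 w
  have hdvd : es K K' w ∣ 3 := ⟨T.card * fs K K' w, by rw [← hc]; ring⟩
  have he3 : es K K' w = 3 := ((Nat.dvd_prime Nat.prime_three).1 hdvd).resolve_left he
  rw [he3] at hc
  have hc1 : T.card * fs K K' w = 1 := by
    have : T.card * (3 * fs K K' w) = 3 * (T.card * fs K K' w) := by ring
    omega
  have hcT : T.card = 1 := Nat.eq_one_of_mul_eq_one_right hc1
  have hf1 : fs K K' w = 1 := Nat.eq_one_of_mul_eq_one_left hc1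
  obtain ⟨W, hW1, hW2⟩ := CH2_one w T hT hcT
  exact ⟨W, hW1, by rw [CH2_norm w W hW2, hf1, pow_one]⟩

end H55R
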