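import Mathlib

namespace H55R

/-! Chunk X1 (M, pure Mathlib, elementary number theory). For j >= 1 let y = q^(l^(j-1)), A = 1 + y + ... + y^(l-1), (y - 1) A = y^l - 1. A prime p <> l dividing A
does not divide q (A = 1 mod y, q | y), y^l = 1 mod p, and y <> 1 mod p (otherwise A = l mod p, p = l); so the order of q mod p divides l^j but
not l^(j-1): it is l^j, l divides it, and l^j <= p - 1. Such a p exists for all large j: A has a prime factor other than l, because otherwise A is a power of l,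
A > l >= 2 (A >= 1 + y + ... , y >= 2^(l^(j-1))), so l^2 | A; but: for l odd, l | A gives y^l = 1 mod l, y = 1 mod l (Fermat), y = 1 + l t and
A = sum (1 + l t)^i = sum (1 + i l t) = l + l t l (l-1)/2 = l mod l^2, contradiction; for l = 2 take j >= 2: y is a square, A = 1 + y = 1 or 2 mod 4, so 4
does not divide A. Choose j with l^j larger than all elements of bad. -/

/-- `l ^ 2` does not divide `1 + y + ... + y ^ (l - 1)`. -/
theorem X1_not_sq_dvd (l y : ℕ) (hl : l.Prime) (h2 : l = 2 → ∃ z, y = z ^ 2) :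
    ¬ l ^ 2 ∣ ∑ i ∈ Finset.range l, y ^ i := by
  intro h
  have := Fact.mk hl
  rcases hl.eq_two_or_odd' with h2' | hodd
  · obtain ⟨z, hz⟩ := h2 h2'
    subst h2'
    rw [Finset.sum_range_succ, Finset.sum_range_one, pow_zero, pow_one, hz] at h
    have h4 : (z ^ 2) % 4 = 0 ∨ (z ^ 2) % 4 = 1 := by
      rcases Nat.even_or_odd' z with ⟨c, hc | hc⟩
      · left
        rw [hc]
        ring_nf
        omega
      · right
        rw [hc]
        ring_nf
        omega
    omega
  · -- `l` divides `y - 1`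
    have hdvd : l ∣ ∑ i ∈ Finset.range l, y ^ i := (dvd_pow_self l two_ne_zero).trans h
    have h1 : ((∑ i ∈ Finset.range l, y ^ i : ℕ) : ZMod l) = 0 :=
      (ZMod.natCast_eq_zero_iff _ _).2 hdvd
    push_cast at h1
    have h2 := mul_geom_sum (y : ZMod l) l
    rw [h1, mul_zero, ZMod.pow_card] at h2
    have h3 : (y : ZMod l) = 1 := (sub_eq_zero.1 h2.symm)
    have h4 : (l : ℤ) ∣ (y : ℤ) - 1 := by
      rw [← ZMod.intCast_zmod_eq_zero_iff_dvd]
      push_cast
      rw [h3, sub_self]
    obtain ⟨t, ht⟩ := h4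
    have h5 := odd_sq_dvd_geom_sum₂_sub (R := ℤ) (a := 1) t hodd
    simp only [one_pow, mul_one] at h5
    have h6 : (1 : ℤ) + l * t = y := by
      rw [← ht]
      ring
    rw [h6] at h5
    have h7 : ((l : ℤ) ^ 2) ∣ ∑ i ∈ Finset.range l, (y : ℤ) ^ i := by
      exact_mod_cast h
    have h8 : ((l : ℤ) ^ 2) ∣ (l : ℤ) := by
      have := dvd_sub h7 h5
      rwa [sub_sub_cancel] at this
    have h9 : l ^ 2 ∣ l := by exact_mod_cast h8
    have h10 := Nat.le_of_dvd hl.pos h9
    have := hl.two_le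
    nlinarith

theorem exists_p (q l : ℕ) (hq : 1 < q) (hl : l.Prime) (bad : Finset ℕ) :
    ∃ p : ℕ, p.Prime ∧ ¬ p ∣ q ∧ p ∉ bad ∧ l ∣ orderOf (q : ZMod p) := by
  set j : ℕ := bad.sup id + 1 with hj
  have hj1 : 1 ≤ j := by omega
  set y : ℕ := q ^ l ^ j with hy
  have hl2 := hl.two_le
  have hlj : 1 ≤ l ^ j := Nat.one_le_pow _ _ hl.pos
  have hy1 : 1 < y := Nat.one_lt_pow (by omega) hq
  set A : ℕ := ∑ i ∈ Finset.range l, y ^ i with hA
  have hsq : ¬ l ^ 2 ∣ A := by
    refine X1_not_sq_dvd l y hl fun h => ⟨q ^ l ^ (j - 1), ?_⟩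
    rw [hy, ← pow_mul]
    congr 1
    rw [h, ← pow_succ]
    congr 1
  have hAl : l < A := by
    have h1 : ∑ i ∈ Finset.range l, 1 < ∑ i ∈ Finset.range l, y ^ i := by
      refine Finset.sum_lt_sum (fun i _ => Nat.one_le_pow _ _ (by omega)) ⟨1, ?_, ?_⟩
      · rw [Finset.mem_range]
        omega
      · rw [pow_one]
        exact hy1
    simpa using h1
  -- a prime factor different from `l`
  obtain ⟨p, hp, hpA, hpl⟩ : ∃ p : ℕ, p.Prime ∧ p ∣ A ∧ p ≠ l := by
    by_contra hcon
    push Not at hcon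
    have h1 := Nat.eq_prime_pow_of_unique_prime_dvd (n := A) (p := l) (by omega)
      fun {d} hd hdA => hcon d hd hdA
    rcases Nat.lt_or_ge A.primeFactorsList.length 2 with h2 | h2
    · have h3 : A ≤ l := by
        rw [h1]
        calc l ^ A.primeFactorsList.length ≤ l ^ 1 :=
              Nat.pow_le_pow_right hl.pos (by omega)
          _ = l := pow_one l
      omega
    · refine hsq ?_
      rw [h1]
      exact pow_dvd_pow l h2
  have hpf := Fact.mk hp
  have hA0 : ((A : ℕ) : ZMod p) = 0 := (ZMod.natCast_eq_zero_iff _ _).2 hpA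
  have hyl : ((y : ℕ) : ZMod p) ^ l = 1 := by
    have h2 := mul_geom_sum (y : ZMod p) l
    rw [hA] at hA0
    push_cast at hA0
    rw [hA0, mul_zero] at h2
    exact (sub_eq_zero.1 h2.symm)
  have hy1' : ((y : ℕ) : ZMod p) ≠ 1 := by
    intro h
    rw [hA] at hA0
    push_cast at hA0
    rw [h] at hA0
    simp only [one_pow, Finset.sum_const, Finset.card_range, nsmul_eq_mul, mul_one] at hA0
    have h3 : p ∣ l := (ZMod.natCast_eq_zero_iff _ _).1 hA0
    exact hpl ((Nat.prime_dvd_prime_iff_eq hp hl).1 h3)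
  have hord : orderOf (q : ZMod p) = l ^ (j + 1) := by
    have := Fact.mk hl
    refine orderOf_eq_prime_pow ?_ ?_
    · intro h
      apply hy1'
      rw [hy]
      push_cast
      exact h
    · rw [pow_succ, pow_mul]
      rw [hy] at hyl
      push_cast at hyl
      exact hyl
  have hq0 : (q : ZMod p) ≠ 0 := by
    intro h
    rw [hy] at hyl
    push_cast at hyl
    rw [h, zero_pow (by omega), zero_pow hl.ne_zero] at hyl
    exact zero_ne_one hyl
  refine ⟨p, hp, ?_, ?_, ?_⟩
  · intro h
    exact hq0 ((ZMod.natCast_eq_zero_iff _ _).2 h)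
  · intro hbad
    have h1 : orderOf (q : ZMod p) ∣ p - 1 := ZMod.orderOf_dvd_card_sub_one hq0
    rw [hord] at h1
    have h2 := Nat.le_of_dvd (by have := hp.two_le; omega) h1
    have h3 : p ≤ bad.sup id := Finset.le_sup (f := id) hbad
    have h4 : j + 1 < l ^ (j + 1) := (Nat.lt_two_pow_self).trans_le (Nat.pow_le_pow_left hl2 _)
    omega
  · rw [hord]
    exact dvd_pow_self l (by omega)

end H55R
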