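import Mathlib
import Pool.Agent.Lib.H55R.Defs

namespace H55R

/-! Chunk HA1 (M, pure algebra): the Herbrand quotient does not change under finite index. Write D = Dm, N = Nm n, D N = N D = 0
(1 - σ^n = 0), φ D = D φ, φ N = N φ. Put B = φ.range <= B'. For f in {Dm σ', Nm n σ'} (both map B' to B' and B to B):
(*) [B' : B] = [f B' : f B] [B' ∩ ker f : B ∩ ker f] (B <= B + (B' ∩ ker f) <= B'; B'/(B + B' ∩ ker f) is f B'/f B and
(B + B' ∩ ker f)/B is (B' ∩ ker f)/(B ∩ ker f)); all factors are nonzero. B ∩ ker D = φ(ker D), N B = φ(N A), so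
h0 n σ ⊤ = [B ∩ ker D : N B] and h1 n σ ⊤ = [B ∩ ker N : D B]. From N B <= N B' <= B' ∩ ker D and N B <= B ∩ ker D <= B' ∩ ker D:
[B' ∩ ker D : N B'][N B' : N B] = [B' ∩ ker D : B ∩ ker D][B ∩ ker D : N B] (AddSubgroup.relIndex_mul_relIndex), i.e.
h0' [N B' : N B] = [B' ∩ ker D : B ∩ ker D] h0, in the same way h1' [D B' : D B] = [B' ∩ ker N : B ∩ ker N] h1. Hence h0', h1' <> 0 and
with (*): h0 h1' = h0' h1. -/

theorem HA1_star {A : Type} [AddCommGroup A] (f : A →+ A) (B B' : AddSubgroup A) (h : B ≤ B') :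
    B.relIndex B' = (B.map f).relIndex (B'.map f) * (B ⊓ f.ker).relIndex (B' ⊓ f.ker) := by
  have e1 : (B.map f).relIndex (B'.map f) = (B ⊔ f.ker).relIndex B' := by
    rw [AddSubgroup.relIndex_map_map]
    have e : B' ⊔ f.ker = B' ⊔ (B ⊔ f.ker) := by
      rw [← sup_assoc, sup_eq_left.2 h]
    rw [e, AddSubgroup.relIndex_sup_right]
  have e2 : B.relIndex ((B ⊔ f.ker) ⊓ B') * (B ⊔ f.ker).relIndex B' = B.relIndex B' := by
    rw [AddSubgroup.relIndex_inf_mul_relIndex, inf_eq_left.2 le_sup_left]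
  have e3 : (B ⊔ f.ker) ⊓ B' = B ⊔ (f.ker ⊓ B') := sup_inf_assoc_of_le f.ker h
  have e4 : B.relIndex (B ⊔ (f.ker ⊓ B')) = (B ⊓ f.ker).relIndex (B' ⊓ f.ker) := by
    rw [AddSubgroup.relIndex_sup_left, ← AddSubgroup.inf_relIndex_right]
    congr 1
    · rw [← inf_assoc, inf_eq_left.2 (inf_le_left.trans h)]
    · exact inf_comm _ _
  rw [← e2, e3, e4, e1, mul_comm]

theorem HA1_core {A : Type} [AddCommGroup A] (f g : A →+ A) (hfg : ∀ a, f (g a) = 0)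
    (hgf : ∀ a, g (f a) = 0) (B B' : AddSubgroup A) (h : B ≤ B') (hBf : ∀ b ∈ B, f b ∈ B)
    (hBg : ∀ b ∈ B, g b ∈ B) (hBf' : ∀ b ∈ B', f b ∈ B') (hBg' : ∀ b ∈ B', g b ∈ B')
    (hi : B.relIndex B' ≠ 0) (h0n : (B.map g).relIndex (B ⊓ f.ker) ≠ 0)
    (h1n : (B.map f).relIndex (B ⊓ g.ker) ≠ 0) :
    (B'.map g).relIndex (B' ⊓ f.ker) ≠ 0 ∧ (B'.map f).relIndex (B' ⊓ g.ker) ≠ 0 ∧
      (B.map g).relIndex (B ⊓ f.ker) * (B'.map f).relIndex (B' ⊓ g.ker) =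
        (B'.map g).relIndex (B' ⊓ f.ker) * (B.map f).relIndex (B ⊓ g.ker) := by
  have key : ∀ (f g : A →+ A) (_ : ∀ a, f (g a) = 0) (_ : ∀ b ∈ B, g b ∈ B)
      (_ : ∀ b ∈ B', g b ∈ B'), (B.map g).relIndex (B'.map g) * (B'.map g).relIndex (B' ⊓ f.ker) =
        (B.map g).relIndex (B ⊓ f.ker) * (B ⊓ f.ker).relIndex (B' ⊓ f.ker) := by
    intro f g hfg hB hB'
    rw [AddSubgroup.relIndex_mul_relIndex _ _ _ (AddSubgroup.map_mono h),
      AddSubgroup.relIndex_mul_relIndex]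
    · rintro _ ⟨b, hb, rfl⟩
      exact ⟨hB b hb, hfg b⟩
    · exact inf_le_inf_right _ h
    · rintro _ ⟨b, hb, rfl⟩
      exact ⟨hB' b hb, hfg b⟩
  have s1 := HA1_star f B B' h
  have s2 := HA1_star g B B' h
  have k1 := key f g hfg hBg hBg'
  have k2 := key g f hgf hBf hBf'
  generalize (B.map g).relIndex (B ⊓ f.ker) = hg at *
  generalize (B.map f).relIndex (B ⊓ g.ker) = hf at *
  generalize (B'.map g).relIndex (B' ⊓ f.ker) = hg' at *
  generalize (B'.map f).relIndex (B' ⊓ g.ker) = hf' at *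
  generalize (B.map f).relIndex (B'.map f) = af at *
  generalize (B.map g).relIndex (B'.map g) = ag at *
  generalize (B ⊓ f.ker).relIndex (B' ⊓ f.ker) = kf at *
  generalize (B ⊓ g.ker).relIndex (B' ⊓ g.ker) = kg at *
  generalize B.relIndex B' = m at *
  have haf : af ≠ 0 := by
    rintro rfl
    exact hi (by rw [s1, zero_mul])
  have hkf : kf ≠ 0 := by
    rintro rfl
    exact hi (by rw [s1, mul_zero])
  have hag : ag ≠ 0 := by
    rintro rfl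
    exact hi (by rw [s2, zero_mul])
  have hkg : kg ≠ 0 := by
    rintro rfl
    exact hi (by rw [s2, mul_zero])
  refine ⟨?_, ?_, ?_⟩
  · rintro rfl
    rw [mul_zero] at k1
    exact mul_ne_zero h0n hkf k1.symm
  · rintro rfl
    rw [mul_zero] at k2
    exact mul_ne_zero h1n hkg k2.symm
  · have h2 : (hg * hf') * m = (hg' * hf) * m := by
      calc (hg * hf') * m = (hg * kf) * (af * hf') := by
            rw [s1]
            ring
        _ = (ag * hg') * (hf * kg) := by rw [← k1, k2]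
        _ = (hg' * hf) * (ag * kg) := by ring
        _ = (hg' * hf) * m := by rw [← s2]
    exact Nat.eq_of_mul_eq_mul_right (Nat.pos_of_ne_zero hi) h2

theorem HA1_DN {A : Type} [AddCommGroup A] (n : ℕ) (σ : AddMonoid.End A) (hσ : σ ^ n = 1) (a : A) :
    Dm σ (Nm n σ a) = 0 := by
  have h := mul_neg_geom_sum σ n
  rw [hσ, sub_self] at h
  exact DFunLike.congr_fun h a

theorem HA1_ND {A : Type} [AddCommGroup A] (n : ℕ) (σ : AddMonoid.End A) (hσ : σ ^ n = 1) (a : A) :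
    Nm n σ (Dm σ a) = 0 := by
  have h := geom_sum_mul_neg σ n
  rw [hσ, sub_self] at h
  exact DFunLike.congr_fun h a

theorem HA1_D {A : Type} [AddCommGroup A] (σ : AddMonoid.End A) (a : A) : Dm σ a = a - σ a := rfl

theorem HA1_N {A : Type} [AddCommGroup A] (n : ℕ) (σ : AddMonoid.End A) (a : A) :
    Nm n σ a = ∑ i ∈ Finset.range n, (σ ^ i) a := by
  unfold Nm
  exact AddMonoidHom.finsetSum_apply _ _ _

theorem HA1_pow {A A' : Type} [AddCommGroup A] [AddCommGroup A'] (σ : AddMonoid.End A)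
    (σ' : AddMonoid.End A') (φ : A →+ A') (hφ : ∀ a, φ (σ a) = σ' (φ a)) (i : ℕ) (a : A) :
    φ ((σ ^ i) a) = (σ' ^ i) (φ a) := by
  induction i generalizing a with
  | zero => rfl
  | succ i ih =>
    rw [pow_succ, pow_succ]
    change φ ((σ ^ i) (σ a)) = (σ' ^ i) (σ' (φ a))
    rw [ih, hφ]

theorem HA1_stab {A : Type} [AddCommGroup A] (σ : AddMonoid.End A) (B : AddSubgroup A)
    (hB : ∀ b ∈ B, σ b ∈ B) (i : ℕ) (b : A) (hb : b ∈ B) : (σ ^ i) b ∈ B := by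
  induction i generalizing b with
  | zero => exact hb
  | succ i ih =>
    rw [pow_succ]
    exact ih _ (hB b hb)

theorem herb_fi {A A' : Type} [AddCommGroup A] [AddCommGroup A'] (n : ℕ) (σ : AddMonoid.End A)
    (σ' : AddMonoid.End A') (hσ : σ ^ n = 1) (hσ' : σ' ^ n = 1) (φ : A →+ A')
    (hφ : ∀ a, φ (σ a) = σ' (φ a)) (hi : Function.Injective φ) (B' : AddSubgroup A')
    (hB' : ∀ b ∈ B', σ' b ∈ B') (hr : φ.range ≤ B') (hf : φ.range.relIndex B' ≠ 0)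
    (h0n : h0 n σ ⊤ ≠ 0) (h1n : h1 n σ ⊤ ≠ 0) :
    h0 n σ' B' ≠ 0 ∧ h1 n σ' B' ≠ 0 ∧ h0 n σ ⊤ * h1 n σ' B' = h0 n σ' B' * h1 n σ ⊤ := by
  have hD : ∀ a, φ (Dm σ a) = Dm σ' (φ a) := by
    intro a
    rw [HA1_D, HA1_D, map_sub, hφ]
  have hN : ∀ a, φ (Nm n σ a) = Nm n σ' (φ a) := by
    intro a
    rw [HA1_N, HA1_N, map_sum]
    exact Finset.sum_congr rfl fun i _ => HA1_pow σ σ' φ hφ i a
  have hBs : ∀ b ∈ φ.range, σ' b ∈ φ.range := by
    rintro _ ⟨a, rfl⟩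
    exact ⟨σ a, hφ a⟩
  have stD : ∀ B : AddSubgroup A', (∀ b ∈ B, σ' b ∈ B) → ∀ b ∈ B, Dm σ' b ∈ B := by
    intro B hB b hb
    rw [HA1_D]
    exact B.sub_mem hb (hB b hb)
  have stN : ∀ B : AddSubgroup A', (∀ b ∈ B, σ' b ∈ B) → ∀ b ∈ B, Nm n σ' b ∈ B := by
    intro B hB b hb
    rw [HA1_N]
    exact B.sum_mem fun i _ => HA1_stab σ' B hB i b hb
  have tr : ∀ (f g : A →+ A) (f' g' : A' →+ A'), (∀ a, φ (f a) = f' (φ a)) →
      (∀ a, φ (g a) = g' (φ a)) → ((⊤ : AddSubgroup A).map g).relIndex (⊤ ⊓ f.ker) =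
        (φ.range.map g').relIndex (φ.range ⊓ f'.ker) := by
    intro f g f' g' hf hg
    rw [← AddSubgroup.relIndex_map_map_of_injective _ _ hi]
    congr 1
    · ext x
      constructor
      · rintro ⟨_, ⟨a, -, rfl⟩, rfl⟩
        exact ⟨φ a, ⟨a, rfl⟩, (hg a).symm⟩
      · rintro ⟨_, ⟨a, rfl⟩, rfl⟩
        exact ⟨g a, ⟨a, trivial, rfl⟩, hg a⟩
    · ext x
      constructor
      · rintro ⟨a, ⟨-, ha⟩, rfl⟩
        refine ⟨⟨a, rfl⟩, ?_⟩
        show f' (φ a) = 0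
        have ha' : f a = 0 := ha
        rw [← hf, ha', map_zero]
      · rintro ⟨⟨a, rfl⟩, ha⟩
        refine ⟨a, ⟨trivial, ?_⟩, rfl⟩
        show f a = 0
        apply hi
        rw [hf, map_zero]
        exact ha
  have e0 : h0 n σ ⊤ = (φ.range.map (Nm n σ')).relIndex (φ.range ⊓ (Dm σ').ker) :=
    tr (Dm σ) (Nm n σ) _ _ hD hN
  have e1 : h1 n σ ⊤ = (φ.range.map (Dm σ')).relIndex (φ.range ⊓ (Nm n σ').ker) :=
    tr (Nm n σ) (Dm σ) _ _ hN hD
  rw [e0] at h0n ⊢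
  rw [e1] at h1n ⊢
  exact HA1_core (Dm σ') (Nm n σ') (HA1_DN n σ' hσ') (HA1_ND n σ' hσ') _ B' hr (stD _ hBs)
    (stN _ hBs) (stD _ hB') (stN _ hB') hf h0n h1n

end H55R
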