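import Mathlib
import Pool.Agent.Lib.H55R.Defs

namespace H55R

/-! Chunk HA2 (S/M, pure algebra). herb_prod: Nm n (σ × σ') = Nm n σ × Nm n σ' and the same for Dm (σ.prodMap σ' to the power i is
the product of the powers); the map of a product subgroup is the product of the images, kernels and intersections too, and the
relative index of a product is the product of the relative indices. herb_Z: Dm 1 = 0, Nm n 1 = multiplication by n: h0 = [Z : nZ] = n
(Int.index_zmultiples or similar), h1: the kernel of multiplication by n is 0, relIndex in ⊥ is 1. -/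

theorem HA2_N {A : Type} [AddCommGroup A] (n : ℕ) (σ : AddMonoid.End A) (a : A) :
    Nm n σ a = ∑ i ∈ Finset.range n, (σ ^ i) a := by
  unfold Nm
  exact AddMonoidHom.finsetSum_apply _ _ _

theorem HA2_pow {A A' : Type} [AddCommGroup A] [AddCommGroup A'] (σ : AddMonoid.End A)
    (σ' : AddMonoid.End A') (τ : AddMonoid.End (A × A')) (hτ : ∀ x, τ x = (σ x.1, σ' x.2)) (i : ℕ)
    (x : A × A') : (τ ^ i) x = ((σ ^ i) x.1, (σ' ^ i) x.2) := by
  induction i generalizing x with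
  | zero => rfl
  | succ i ih =>
    rw [pow_succ, pow_succ, pow_succ]
    change (τ ^ i) (τ x) = _
    rw [ih, hτ]
    rfl

theorem HA2_Nm {A A' : Type} [AddCommGroup A] [AddCommGroup A'] (n : ℕ) (σ : AddMonoid.End A)
    (σ' : AddMonoid.End A') (τ : AddMonoid.End (A × A')) (hτ : ∀ x, τ x = (σ x.1, σ' x.2))
    (x : A × A') : Nm n τ x = (Nm n σ x.1, Nm n σ' x.2) := by
  rw [HA2_N, HA2_N, HA2_N]
  simp only [HA2_pow σ σ' τ hτ]
  ext
  · rw [Prod.fst_sum]
  · rw [Prod.snd_sum]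

theorem HA2_Dm {A A' : Type} [AddCommGroup A] [AddCommGroup A'] (σ : AddMonoid.End A)
    (σ' : AddMonoid.End A') (τ : AddMonoid.End (A × A')) (hτ : ∀ x, τ x = (σ x.1, σ' x.2))
    (x : A × A') : Dm τ x = (Dm σ x.1, Dm σ' x.2) := by
  show x - τ x = (x.1 - σ x.1, x.2 - σ' x.2)
  rw [hτ]
  rfl

theorem HA2_rel {A A' : Type} [AddCommGroup A] [AddCommGroup A'] (H K : AddSubgroup A)
    (H' K' : AddSubgroup A') :
    (H.prod H').relIndex (K.prod K') = H.relIndex K * H'.relIndex K' := by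
  unfold AddSubgroup.relIndex
  rw [← AddSubgroup.index_prod]
  have h1 : (H.prod H').addSubgroupOf (K.prod K') =
      ((H.addSubgroupOf K).prod (H'.addSubgroupOf K')).comap
        ((K.prodEquiv K').toAddMonoidHom) := by
    ext x
    rfl
  rw [h1]
  exact AddSubgroup.index_comap_of_surjective _ (K.prodEquiv K').surjective

theorem HA2_gen {A A' : Type} [AddCommGroup A] [AddCommGroup A'] (f g : A →+ A) (f' g' : A' →+ A')
    (F G : A × A' →+ A × A') (hF : ∀ x, F x = (f x.1, f' x.2)) (hG : ∀ x, G x = (g x.1, g' x.2))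
    (B : AddSubgroup A) (B' : AddSubgroup A') :
    ((B.prod B').map F).relIndex ((B.prod B') ⊓ G.ker) =
      (B.map f).relIndex (B ⊓ g.ker) * (B'.map f').relIndex (B' ⊓ g'.ker) := by
  rw [← HA2_rel]
  congr 1
  · ext x
    constructor
    · rintro ⟨y, ⟨hy1, hy2⟩, rfl⟩
      rw [hF]
      exact ⟨⟨y.1, hy1, rfl⟩, ⟨y.2, hy2, rfl⟩⟩
    · rintro ⟨⟨a, ha, h1⟩, ⟨b, hb, h2⟩⟩
      refine ⟨(a, b), ⟨ha, hb⟩, ?_⟩
      rw [hF]
      exact Prod.ext h1 h2
  · ext x
    constructor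
    · rintro ⟨⟨hx1, hx2⟩, hx⟩
      have hx' : G x = 0 := hx
      rw [hG] at hx'
      exact ⟨⟨hx1, congrArg Prod.fst hx'⟩, ⟨hx2, congrArg Prod.snd hx'⟩⟩
    · rintro ⟨⟨hx1, h1⟩, ⟨hx2, h2⟩⟩
      refine ⟨⟨hx1, hx2⟩, ?_⟩
      show G x = 0
      rw [hG]
      exact Prod.ext h1 h2

theorem herb_prod {A A' : Type} [AddCommGroup A] [AddCommGroup A'] (n : ℕ) (σ : AddMonoid.End A)
    (σ' : AddMonoid.End A') (B : AddSubgroup A) (B' : AddSubgroup A') :
    h0 n (AddMonoidHom.prodMap σ σ' : AddMonoid.End (A × A')) (B.prod B') = h0 n σ B * h0 n σ' B' ∧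
    h1 n (AddMonoidHom.prodMap σ σ' : AddMonoid.End (A × A')) (B.prod B') = h1 n σ B * h1 n σ' B' :=
  ⟨HA2_gen _ _ _ _ _ _ (HA2_Nm n σ σ' _ fun _ => rfl) (HA2_Dm σ σ' _ fun _ => rfl) B B',
    HA2_gen _ _ _ _ _ _ (HA2_Dm σ σ' _ fun _ => rfl) (HA2_Nm n σ σ' _ fun _ => rfl) B B'⟩

theorem herb_Z (n : ℕ) (hn : n ≠ 0) :
    h0 n (1 : AddMonoid.End ℤ) ⊤ = n ∧ h1 n (1 : AddMonoid.End ℤ) ⊤ = 1 := by
  have hN : ∀ a : ℤ, Nm n (1 : AddMonoid.End ℤ) a = n * a := by
    intro a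
    rw [HA2_N]
    simp only [one_pow]
    rw [Finset.sum_const, Finset.card_range, nsmul_eq_mul]
    rfl
  have hD : ∀ a : ℤ, Dm (1 : AddMonoid.End ℤ) a = 0 := by
    intro a
    show a - a = 0
    rw [sub_self]
  constructor
  · unfold h0
    have e1 : (⊤ : AddSubgroup ℤ) ⊓ (Dm (1 : AddMonoid.End ℤ)).ker = ⊤ := by
      rw [top_inf_eq, eq_top_iff]
      intro a _
      exact hD a
    have e2 : (⊤ : AddSubgroup ℤ).map (Nm n (1 : AddMonoid.End ℤ)) =
        AddSubgroup.zmultiples (n : ℤ) := by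
      ext x
      rw [AddSubgroup.mem_zmultiples_iff]
      constructor
      · rintro ⟨a, -, rfl⟩
        refine ⟨a, ?_⟩
        rw [hN, smul_eq_mul, mul_comm]
      · rintro ⟨a, rfl⟩
        refine ⟨a, trivial, ?_⟩
        rw [hN, smul_eq_mul, mul_comm]
    rw [e1, e2, AddSubgroup.relIndex_top_right, Int.index_zmultiples, Int.natAbs_natCast]
  · unfold h1
    have e1 : (⊤ : AddSubgroup ℤ) ⊓ (Nm n (1 : AddMonoid.End ℤ)).ker = ⊥ := by
      rw [top_inf_eq, eq_bot_iff]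
      intro a ha
      have ha' : Nm n (1 : AddMonoid.End ℤ) a = 0 := ha
      rw [hN] at ha'
      have h3 : (n : ℤ) ≠ 0 := by exact_mod_cast hn
      rcases mul_eq_zero.1 ha' with h | h
      · exact absurd h h3
      · exact h
    rw [e1, AddSubgroup.relIndex_bot_right]

end H55R
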