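import Mathlib

namespace H55R

/-! Chunk HA4 (S/M, pure algebra). eq_family: choose y p with R p (y p) and put η p = sum_(i<n) σ^i (y ((τ^i)^-1 p)). Every summand
satisfies R p (iterate heq), the sum of n >= 1 of them too; σ (η p) = sum_(i<n) σ^(i+1) (y ((τ^i)^-1 p)) = sum_(j=1..n) σ^j
(y ((τ^j)^-1 (τ p))), and the term j = n equals the term j = 0 (σ^n = 1, τ^n = 1).
pos_lemma: let P = {v : a v > 0}. If P is empty all a v <= 0 and the sum is 0, so a = 0. If P is everything the sum is > 0 (or V is empty). Otherwise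
sum ha over v' in P: 0 = sum_v a v * s v, s v = sum over v' in P of μ v v'. For v in P: s v = - sum over v' not in P of μ v v' > 0, so
a v * s v > 0. For v not in P: a v <= 0 and s v < 0, so a v * s v >= 0. Contradiction. -/

theorem eq_family {P A : Type} [AddCommGroup A] (n : ℕ) (hn : 0 < n) (τ : Equiv.Perm P)
    (hτ : τ ^ n = 1) (σ : AddMonoid.End A) (hσ : σ ^ n = 1) (R : P → A → Prop)
    (hadd : ∀ p a b, R p a → R p b → R p (a + b)) (heq : ∀ p a, R p a → R (τ p) (σ a))
    (hex : ∀ p, ∃ a, R p a) : ∃ η : P → A, (∀ p, R p (η p)) ∧ ∀ p, η (τ p) = σ (η p) := by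
  choose y hy using hex
  have hit : ∀ (i : ℕ) (q : P), R ((τ ^ i) q) ((σ ^ i) (y q)) := by
    intro i q
    induction i with
    | zero => exact hy q
    | succ i ih =>
      rw [pow_succ', pow_succ']
      exact heq _ _ ih
  have hit2 : ∀ (i : ℕ) (p : P), R p ((σ ^ i) (y ((τ ^ i)⁻¹ p))) := by
    intro i p
    have h := hit i ((τ ^ i)⁻¹ p)
    have h' : (τ ^ i) ((τ ^ i)⁻¹ p) = p := (τ ^ i).apply_symm_apply p
    rwa [h'] at h
  refine ⟨fun p => ∑ i ∈ Finset.range n, (σ ^ i) (y ((τ ^ i)⁻¹ p)), fun p => ?_, fun p => ?_⟩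
  · have h : ∀ m : ℕ, R p (∑ i ∈ Finset.range (m + 1), (σ ^ i) (y ((τ ^ i)⁻¹ p))) := by
      intro m
      induction m with
      | zero =>
        rw [zero_add, Finset.sum_range_one]
        exact hit2 0 p
      | succ m ih =>
        rw [Finset.sum_range_succ]
        exact hadd _ _ _ ih (hit2 _ p)
    obtain ⟨m, rfl⟩ : ∃ m, n = m + 1 := ⟨n - 1, by omega⟩
    exact h m
  · have h1 : σ (∑ i ∈ Finset.range n, (σ ^ i) (y ((τ ^ i)⁻¹ p))) =
        ∑ i ∈ Finset.range n, (σ ^ (i + 1)) (y ((τ ^ (i + 1))⁻¹ (τ p))) := by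
      rw [map_sum]
      refine Finset.sum_congr rfl fun i _ => ?_
      rw [pow_succ' σ i, pow_succ' τ i, mul_inv_rev]
      have h2 : ((τ ^ i)⁻¹ * τ⁻¹) (τ p) = (τ ^ i)⁻¹ p := by
        rw [Equiv.Perm.mul_apply]
        congr 1
        exact τ.symm_apply_apply p
      rw [h2]
      rfl
    have h3 := Finset.sum_range_succ' (fun j => (σ ^ j) (y ((τ ^ j)⁻¹ (τ p)))) n
    rw [Finset.sum_range_succ] at h3
    have h4 : (σ ^ n) (y ((τ ^ n)⁻¹ (τ p))) = (σ ^ 0) (y ((τ ^ 0)⁻¹ (τ p))) := by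
      rw [hσ, hτ, pow_zero, pow_zero]
    rw [h4] at h3
    change ∑ i ∈ Finset.range n, (σ ^ i) (y ((τ ^ i)⁻¹ (τ p))) = _
    rw [h1]
    exact add_right_cancel h3

theorem pos_lemma {V : Type} [Fintype V] [DecidableEq V] (μ : V → V → ℝ)
    (hneg : ∀ v v', v ≠ v' → μ v v' < 0) (hrow : ∀ v, ∑ v', μ v v' = 0) (a : V → ℤ)
    (ha : ∀ v', ∑ v, (a v : ℝ) * μ v v' = 0) (hs : ∑ v, a v = 0) : a = 0 := by
  classical
  set S : Finset V := Finset.univ.filter fun v => 0 < a v with hS
  have hmem : ∀ v, v ∈ S ↔ 0 < a v := fun v => by simp [hS]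
  by_cases hne : S.Nonempty
  · exfalso
    by_cases hne' : Sᶜ.Nonempty
    · obtain ⟨p, hp⟩ := hne
      obtain ⟨q, hq⟩ := hne'
      have hq' : q ∉ S := Finset.mem_compl.1 hq
      have h1 : ∑ v, (a v : ℝ) * ∑ v' ∈ S, μ v v' = 0 := by
        simp only [Finset.mul_sum]
        rw [Finset.sum_comm]
        exact Finset.sum_eq_zero fun v' _ => ha v'
      have h2 : ∀ v ∈ S, 0 < ∑ v' ∈ S, μ v v' := by
        intro v hv
        have h3 := hrow v
        rw [← Finset.sum_add_sum_compl S] at h3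
        have h4 : ∑ v' ∈ Sᶜ, μ v v' < 0 := by
          refine Finset.sum_neg (fun v' hv' => hneg v v' ?_) ⟨q, hq⟩
          rintro rfl
          exact (Finset.mem_compl.1 hv') hv
        linarith
      have h5 : ∀ v, 0 ≤ (a v : ℝ) * ∑ v' ∈ S, μ v v' := by
        intro v
        by_cases hv : v ∈ S
        · have h6 : (0 : ℝ) < a v := by exact_mod_cast (hmem v).1 hv
          exact (mul_pos h6 (h2 v hv)).le
        · have h6 : (a v : ℝ) ≤ 0 := by
            have : ¬ 0 < a v := fun h => hv ((hmem v).2 h)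
            exact_mod_cast not_lt.1 this
          have h7 : ∑ v' ∈ S, μ v v' ≤ 0 := by
            refine Finset.sum_nonpos fun v' hv' => (hneg v v' ?_).le
            rintro rfl
            exact hv hv'
          exact mul_nonneg_of_nonpos_of_nonpos h6 h7
      have h8 := (Finset.sum_eq_zero_iff_of_nonneg fun v _ => h5 v).1 h1 p (Finset.mem_univ p)
      have h6 : (0 : ℝ) < a p := by exact_mod_cast (hmem p).1 hp
      exact (mul_pos h6 (h2 p hp)).ne' h8
    · have h1 : ∀ v, 0 < a v := by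
        intro v
        by_contra hv
        apply hne'
        exact ⟨v, Finset.mem_compl.2 fun h => hv ((hmem v).1 h)⟩
      obtain ⟨p, -⟩ := hne
      have h2 : 0 < ∑ v, a v := Finset.sum_pos (fun v _ => h1 v) ⟨p, Finset.mem_univ p⟩
      omega
  · have h1 : ∀ v, a v ≤ 0 := by
      intro v
      by_contra hv
      exact hne ⟨v, (hmem v).2 (not_le.1 hv)⟩
    have h2 := (Finset.sum_eq_zero_iff_of_nonpos fun v _ => h1 v).1 hs
    funext v
    exact h2 v (Finset.mem_univ v)

end H55R
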