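import Mathlib
import Pool.Agent.Lib.H55R.HD
import Pool.Agent.Lib.H55R.HA4

open NumberField IsDedekindDomain

namespace H55R

/-! Chunk HA6 (M): the map Th is injective. Let Th T η a = 0. (1) a (inl W) = 0 for W in T: apply ord W (a homomorphism Lˣ -> ℤ) to
the product of the η p ^ a p: only η (inl W) has nonzero order at W. (2) So the product over V of η(inr V)^(a V) is 1 and
the sum of the a V is 0. With μ V V' = mult(V') log V'(η (inr V)): for V' <> V negative (the value is > 0, < 1), the sum over V' is 0 (the element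
η(inr V) has order 0 at all primes, so it is a unit of O_L, |N| = 1 : InfinitePlace.prod_eq_abs_norm, or the product formula in
Mathlib/NumberTheory/NumberField/ProductFormula.lean), and sum_V a V μ V V' = mult(V') log V'(1) = 0. Then
pos_lemma (chunk HA4) gives a V = 0. -/

/-- ord as a homomorphism. -/
noncomputable def HA6_ordH {L : Type} [Field L] [NumberField L] (W : Pl L) : Additive Lˣ →+ ℤ where
  toFun y := ord W y.toMul
  map_zero' := ord_one W
  map_add' a b := ord_mul W a.toMul b.toMul

/-- The logarithm of an infinite place. -/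
noncomputable def HA6_lg {L : Type} [Field L] [NumberField L] (V : InfinitePlace L) :
    Additive Lˣ →+ ℝ where
  toFun y := V.mult * Real.log (V (y.toMul : L))
  map_zero' := by
    rw [toMul_zero, Units.val_one, map_one, Real.log_one, mul_zero]
  map_add' a b := by
    rw [toMul_add, Units.val_mul, map_mul, Real.log_mul, mul_add]
    · exact (map_ne_zero V).mpr a.toMul.ne_zero
    · exact (map_ne_zero V).mpr b.toMul.ne_zero

theorem HA6_val {L : Type} [Field L] [NumberField L] (W : Pl L) (y : Lˣ) (h : ord W y = 0) :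
    W.valuation L (y : L) = 1 := by
  rw [← HeightOneSpectrum.valuationOfNeZero_eq]
  have h1 : W.valuationOfNeZero y = 1 := by
    unfold ord at h
    have h2 : Multiplicative.toAdd (W.valuationOfNeZero y) = 0 := neg_eq_zero.mp h
    exact Multiplicative.toAdd.injective h2
  rw [h1]
  rfl

theorem HA6_unit {L : Type} [Field L] [NumberField L] (y : Lˣ) (h : ∀ W : Pl L, ord W y = 0) :
    ∃ u : (𝓞 L)ˣ, ((u : 𝓞 L) : L) = y := by
  obtain ⟨x, hx⟩ := HeightOneSpectrum.mem_integers_of_valuation_le_one L (y : L)
    (fun W => (HA6_val W y (h W)).le)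
  obtain ⟨x', hx'⟩ := HeightOneSpectrum.mem_integers_of_valuation_le_one L ((y⁻¹ : Lˣ) : L)
    (fun W => (HA6_val W y⁻¹ (by rw [ord_inv, h W, neg_zero])).le)
  have h1 : x * x' = 1 := by
    apply RingOfIntegers.coe_injective
    rw [map_mul, map_one]
    show algebraMap (𝓞 L) L x * algebraMap (𝓞 L) L x' = 1
    rw [hx, hx']
    exact y.mul_inv
  exact ⟨⟨x, x', h1, by rw [mul_comm, h1]⟩, hx⟩

theorem theta_inj {L : Type} [Field L] [NumberField L] (T : Finset (Pl L))
    (η : T ⊕ InfinitePlace L → Additive Lˣ) (hη : Eta T η) : Function.Injective (Th T η) := by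
  classical
  rw [injective_iff_map_eq_zero]
  intro a ha
  have h1 : ∑ p, a p • η p = 0 := congrArg Prod.fst ha
  have h2 : ∑ V : InfinitePlace L, a (Sum.inr V) = 0 := congrArg Prod.snd ha
  have h3 : ∀ W : T, a (Sum.inl W) = 0 := by
    intro W
    have h := congrArg (HA6_ordH W.1) h1
    rw [map_sum, map_zero, Fintype.sum_sum_type] at h
    have h4 : ∑ V : InfinitePlace L, (HA6_ordH W.1) (a (Sum.inr V) • η (Sum.inr V)) = 0 := by
      refine Finset.sum_eq_zero fun V _ => ?_
      rw [map_zsmul]
      have : (HA6_ordH W.1) (η (Sum.inr V)) = 0 := (hη.inf V).1 W.1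
      rw [this, smul_zero]
    have h5 : ∑ W' : T, (HA6_ordH W.1) (a (Sum.inl W') • η (Sum.inl W')) =
        a (Sum.inl W) * ord W.1 (η (Sum.inl W)).toMul := by
      rw [Finset.sum_eq_single W]
      · rw [map_zsmul, smul_eq_mul]
        rfl
      · intro W' _ hne
        rw [map_zsmul]
        have : (HA6_ordH W.1) (η (Sum.inl W')) = 0 :=
          (hη.fin W').2 W.1 fun h => hne (Subtype.ext h.symm)
        rw [this, smul_zero]
      · intro h
        exact absurd (Finset.mem_univ _) h
    rw [h4, h5, add_zero] at h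
    rcases mul_eq_zero.mp h with h | h
    · exact h
    · exact absurd h (hη.fin W).1.ne'
  have h4 : ∑ V : InfinitePlace L, a (Sum.inr V) • η (Sum.inr V) = 0 := by
    rw [Fintype.sum_sum_type] at h1
    rw [← h1, eq_comm, add_eq_right]
    exact Finset.sum_eq_zero fun W _ => by rw [h3 W, zero_smul]
  have h5 := pos_lemma (fun V V' : InfinitePlace L => HA6_lg V' (η (Sum.inr V)))
    (fun V V' hne => ?_) (fun V => ?_) (fun V => a (Sum.inr V)) (fun V' => ?_) h2
  · funext p
    rcases p with W | V
    · exact h3 W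
    · exact congrFun h5 V
  · show (V'.mult : ℝ) * Real.log (V' ((η (Sum.inr V)).toMul : L)) < 0
    refine mul_neg_of_pos_of_neg ?_ ?_
    · exact_mod_cast InfinitePlace.mult_pos
    · refine Real.log_neg ?_ ((hη.inf V).2 V' hne.symm)
      exact InfinitePlace.pos_iff.mpr (Units.ne_zero _)
  · obtain ⟨u, hu⟩ := HA6_unit (η (Sum.inr V)).toMul (hη.inf V).1
    have := Units.sum_mult_mul_log u
    rw [← this]
    refine Finset.sum_congr rfl fun V' _ => ?_
    show (V'.mult : ℝ) * Real.log (V' ((η (Sum.inr V)).toMul : L)) = _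
    rw [← hu]
  · have h := congrArg (HA6_lg V') h4
    rw [map_sum, map_zero] at h
    rw [← h]
    refine Finset.sum_congr rfl fun V _ => ?_
    rw [map_zsmul, zsmul_eq_mul]

end H55R
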