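import Mathlib
import Pool.Agent.Lib.H55R.HA6

open NumberField IsDedekindDomain

namespace H55R

/-! Chunk HA7 (M/L): the image of Th has finite index in (T-units) x Z. Let G = (TUa T).prod ⊤ and H = (Th T η).range <= G
(ord and the definition of SU; the images are T-units).
(a) The units: the subgroup U of elements x of Lˣ with ord = 0 everywhere is the image of (𝓞 L)ˣ, finitely generated of rank
r = (number of infinite places) - 1 (NumberField.Units.rank, Dirichlet: (𝓞 L)ˣ modulo torsion is free of rank r, torsion finite). The map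
Z^(infinite places) -> U × Z, a -> (sum a V η(inr V), sum a V) is injective (theta_inj restricted), and both sides
have rank r + 1, so its image has finite index: every element (x, k) of U × Z has a positive multiple in the image (if not, (x, k) and the
images of the r + 1 basis vectors would be r + 2 independent elements of a group of rank r + 1).
(b) Every (x, k) in G has a positive multiple in H: with N = the product of the ord W η(inl W), W in T, put a W = N ord W x / ord W η(inl W); then
N x - sum a W η(inl W) has order 0 at all primes, i.e. is in U; apply (a).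
(c) G is finitely generated (U is, and G/(U × Z) embeds in Z^T by the orders), so G/H is a finitely generated torsion group,
hence finite (for example Module.finite_of_fg_torsion or AddCommGroup.finite_of_fg_torsion), i.e. H.relIndex G <> 0. -/

/-- The order as an additive homomorphism. -/
noncomputable def HA7_ord {L : Type} [Field L] [NumberField L] (v : Pl L) : Additive Lˣ →+ ℤ where
  toFun x := ord v x.toMul
  map_zero' := ord_one v
  map_add' x y := ord_mul v x.toMul y.toMul

theorem HA7_ord_apply {L : Type} [Field L] [NumberField L] (v : Pl L) (x : Additive Lˣ) :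
    HA7_ord v x = ord v x.toMul := rfl

theorem theta_mem {L : Type} [Field L] [NumberField L] (T : Finset (Pl L))
    (η : T ⊕ InfinitePlace L → Additive Lˣ) (hη : Eta T η) :
    (Th T η).range ≤ (TUa T).prod (⊤ : AddSubgroup ℤ) := by
  classical
  rintro _ ⟨a, rfl⟩
  rw [AddSubgroup.mem_prod]
  refine ⟨?_, trivial⟩
  show ∀ v : Pl L, v ∉ (T : Set (Pl L)) → HA7_ord v (∑ p, a p • η p) = 0
  intro v hv
  rw [map_sum]
  refine Finset.sum_eq_zero fun p _ => ?_
  rw [map_zsmul, HA7_ord_apply]
  rcases p with W | V
  · rw [(hη.fin W).2 v (fun h => hv (by rw [h]; exact W.2)), smul_zero]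
  · rw [(hη.inf V).1 v, smul_zero]

theorem HA7_unit {L : Type} [Field L] [NumberField L] (x : Lˣ) (h : ∀ v : Pl L, ord v x = 0) :
    ∃ u : (𝓞 L)ˣ, Units.map (algebraMap (𝓞 L) L : 𝓞 L →* L) u = x := by
  have hval : ∀ v : Pl L, v.valuation L (x : L) = 1 := by
    intro v
    have h1 := h v
    unfold ord at h1
    have h2 : v.valuationOfNeZero x = 1 := by
      rw [neg_eq_zero] at h1
      exact Multiplicative.toAdd.injective h1
    rw [← v.valuationOfNeZero_eq x, h2]
    rfl
  obtain ⟨a, ha⟩ := HeightOneSpectrum.mem_integers_of_valuation_le_one (R := 𝓞 L) L (x : L)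
    (fun v => (hval v).le)
  obtain ⟨b, hb⟩ := HeightOneSpectrum.mem_integers_of_valuation_le_one (R := 𝓞 L) L ((x : L)⁻¹)
    (fun v => by rw [map_inv₀, hval v, inv_one])
  have hab : a * b = 1 := by
    apply FaithfulSMul.algebraMap_injective (𝓞 L) L
    rw [map_mul, ha, hb, map_one, mul_inv_cancel₀ x.ne_zero]
  exact ⟨⟨a, b, hab, (mul_comm b a).trans hab⟩, Units.ext ha⟩

theorem HA7_ord_unit {L : Type} [Field L] [NumberField L] (u : (𝓞 L)ˣ) (v : Pl L) :
    ord v (Units.map (algebraMap (𝓞 L) L : 𝓞 L →* L) u) = 0 := by
  unfold ord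
  rw [HeightOneSpectrum.valuation_of_unit_eq, toAdd_one, neg_zero]

theorem theta_index {L : Type} [Field L] [NumberField L] (T : Finset (Pl L))
    (η : T ⊕ InfinitePlace L → Additive Lˣ) (hη : Eta T η) :
    (Th T η).range.relIndex ((TUa T).prod (⊤ : AddSubgroup ℤ)) ≠ 0 := by
  classical
  set G : AddSubgroup (Additive Lˣ × ℤ) := (TUa T).prod (⊤ : AddSubgroup ℤ) with hG
  -- the orders
  let ρ : G →ₗ[ℤ] (T → ℤ) × ℤ :=
    { toFun := fun x => (fun W => HA7_ord W.1 x.1.1, x.1.2)
      map_add' := fun x y => by
        ext
        · exact map_add (HA7_ord _) _ _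
        · rfl
      map_smul' := fun c x => by
        ext
        · exact map_zsmul (HA7_ord _) _ _
        · rfl }
  -- the units
  let ε : Additive (𝓞 L)ˣ →ₗ[ℤ] LinearMap.ker ρ :=
    { toFun := fun u => ⟨⟨(Additive.ofMul (Units.map (algebraMap (𝓞 L) L : 𝓞 L →* L) u.toMul), 0),
        AddSubgroup.mem_prod.2 ⟨fun v _ => HA7_ord_unit u.toMul v, trivial⟩⟩, by
          rw [LinearMap.mem_ker]
          ext W
          · exact HA7_ord_unit u.toMul W.1
          · rfl⟩
      map_add' := fun x y => by
        apply Subtype.ext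
        apply Subtype.ext
        refine Prod.ext ?_ ?_
        · exact congrArg Additive.ofMul (map_mul (Units.map (algebraMap (𝓞 L) L : 𝓞 L →* L))
            x.toMul y.toMul)
        · exact (add_zero (0 : ℤ)).symm
      map_smul' := fun c x => by
        apply Subtype.ext
        apply Subtype.ext
        refine Prod.ext ?_ ?_
        · exact congrArg Additive.ofMul (map_zpow (Units.map (algebraMap (𝓞 L) L : 𝓞 L →* L))
            x.toMul c)
        · exact (smul_zero c).symm }
  have hε : Function.Surjective ε := by
    rintro ⟨⟨⟨x, k⟩, hx⟩, hk⟩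
    rw [LinearMap.mem_ker] at hk
    have hk1 : ∀ W : T, ord W.1 x.toMul = 0 := fun W => congrFun (congrArg Prod.fst hk) W
    have hk2 : k = 0 := congrArg Prod.snd hk
    have h1 : ∀ v : Pl L, ord v x.toMul = 0 := by
      intro v
      by_cases hv : v ∈ T
      · exact hk1 ⟨v, hv⟩
      · exact (AddSubgroup.mem_prod.1 hx).1 v hv
    obtain ⟨u, hu⟩ := HA7_unit x.toMul h1
    refine ⟨Additive.ofMul u, ?_⟩
    apply Subtype.ext
    apply Subtype.ext
    refine Prod.ext ?_ ?_
    · exact congrArg Additive.ofMul hu
    · exact hk2.symm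
  have hfinker : Module.Finite ℤ (LinearMap.ker ρ) := Module.Finite.of_surjective ε hε
  have hfinG : Module.Finite ℤ G := by
    have h1 : Module.Finite ℤ (G ⧸ LinearMap.ker ρ) :=
      Module.Finite.equiv ρ.quotKerEquivRange.symm
    exact Module.Finite.of_submodule_quotient (LinearMap.ker ρ)
  have hrank1 : Module.finrank ℤ (LinearMap.ker ρ) ≤ Fintype.card (InfinitePlace L) - 1 := by
    have h1 := LinearMap.finrank_le_finrank_of_surjective hε
    rwa [NumberField.Units.finrank_eq] at h1
  have hrank2 : Module.finrank ℤ (G ⧸ LinearMap.ker ρ) ≤ T.card + 1 := by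
    rw [LinearEquiv.finrank_eq ρ.quotKerEquivRange]
    refine (Submodule.finrank_le _).trans ?_
    rw [Module.finrank_prod, Module.finrank_fintype_fun_eq_card, Module.finrank_self,
      Fintype.card_coe]
  have hrankG : Module.finrank ℤ G ≤ T.card + Fintype.card (InfinitePlace L) := by
    have h1 := Submodule.finrank_quotient_add_finrank (LinearMap.ker ρ)
    have h2 : 0 < Fintype.card (InfinitePlace L) := Fintype.card_pos
    omega
  let Θ : (T ⊕ InfinitePlace L → ℤ) →ₗ[ℤ] G :=
    ((Th T η).codRestrict G (fun a => theta_mem T η hη ⟨a, rfl⟩)).toIntLinearMap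
  have hΘ : Function.Injective Θ := by
    intro a b hab
    exact theta_inj T η hη (congrArg Subtype.val hab)
  have hrankH : Module.finrank ℤ (LinearMap.range Θ) = T.card + Fintype.card (InfinitePlace L) := by
    rw [LinearMap.finrank_range_of_inj hΘ, Module.finrank_fintype_fun_eq_card, Fintype.card_sum,
      Fintype.card_coe]
  have hq : Module.finrank ℤ (G ⧸ LinearMap.range Θ) = 0 := by
    have h1 := Submodule.finrank_quotient_add_finrank (LinearMap.range Θ)
    omega
  have hfin : Finite (G ⧸ LinearMap.range Θ) :=
    Module.finite_of_fg_torsion _ (Module.finrank_eq_zero_iff_isTorsion.1 hq)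
  have heq : (LinearMap.range Θ).toAddSubgroup = (Th T η).range.addSubgroupOf G := by
    ext x
    rw [Submodule.mem_toAddSubgroup, LinearMap.mem_range, AddSubgroup.mem_addSubgroupOf]
    constructor
    · rintro ⟨a, rfl⟩
      exact ⟨a, rfl⟩
    · rintro ⟨a, ha⟩
      exact ⟨a, Subtype.ext ha⟩
  show ((Th T η).range.addSubgroupOf G).index ≠ 0
  rw [← heq]
  have hfin' : Finite (G ⧸ (LinearMap.range Θ).toAddSubgroup) := hfin
  exact AddSubgroup.index_ne_zero_of_finite

end H55R
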