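import Mathlib
import Pool.Agent.Lib.H55R.Defs

namespace H55R

/-! Chunk HA3 (M/L, pure algebra): permutation modules. Let m_q be the number of points of the fibre of q; the fibre is an orbit of τ,
m_q divides n (τ^n = 1) and for p in the fibre i -> τ^(-i) p (i < n) takes every value n/m_q times. So
N a (p) = sum_(i<n) a(τ^(-i) p) = (n/m_q) * (sum of a over the fibre of p). ker D = functions constant on the fibres (= Z^Q by
composition with π), range N = functions constant on the fibres with value in (n/m_q) Z on the fibre of q (take a = k at one point of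
the fibre, 0 elsewhere), so the index is the product of the n/m_q. ker N = functions with sum 0 on every fibre; every such a is b - σ b: on
the fibre of p0 = τ^0 p0, .., τ^(m-1) p0 put b(τ^j p0) = a(p0) + .. + a(τ^j p0) (b(τ^j p0) - b(τ^(j-1) p0) = a(τ^j p0), also for j = 0 =
m because the total sum is 0). So h1 = 1. A convenient way: choose for every q a point s(q) in the fibre and use
p = τ^j s(π p) with j < m. -/

/-- The size of the fibre is the minimal period, and the sum over one period is the sum over the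
fibre. -/
theorem HA3_per {P Q : Type} [Fintype P] [DecidableEq Q] (ρ : Equiv.Perm P) (n : ℕ)
    (hn : 0 < n) (hρ : ρ ^ n = 1) (π : P → Q)
    (ho : ∀ p p', π p = π p' ↔ ∃ i : ℕ, (ρ ^ i) p = p') (p : P) :
    (Finset.univ.filter fun p' => π p' = π p).card = Function.minimalPeriod ρ p ∧
    ∀ a : P → ℤ, ∑ i ∈ Finset.range (Function.minimalPeriod ρ p), a ((ρ ^ i) p) =
      ∑ p' ∈ Finset.univ.filter (fun p' => π p' = π p), a p' := by
  classical
  have hper : Function.IsPeriodicPt ρ n p := by
    show ρ^[n] p = p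
    rw [Equiv.Perm.iterate_eq_pow, hρ]
    rfl
  have hpos : 0 < Function.minimalPeriod ρ p := hper.minimalPeriod_pos hn
  have himg : Finset.univ.filter (fun p' => π p' = π p) =
      (Finset.range (Function.minimalPeriod ρ p)).image (fun i => (ρ ^ i) p) := by
    ext p'
    rw [Finset.mem_filter, Finset.mem_image]
    constructor
    · rintro ⟨-, h⟩
      obtain ⟨i, hi⟩ := (ho p p').mp h.symm
      refine ⟨i % Function.minimalPeriod ρ p, Finset.mem_range.mpr (Nat.mod_lt _ hpos), ?_⟩
      have := Function.iterate_mod_minimalPeriod_eq (f := ρ) (x := p) (n := i)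
      rw [Equiv.Perm.iterate_eq_pow, Equiv.Perm.iterate_eq_pow, hi] at this
      exact this
    · rintro ⟨i, -, hi⟩
      exact ⟨Finset.mem_univ _, ((ho p p').mpr ⟨i, hi⟩).symm⟩
  have hinj : Set.InjOn (fun i => (ρ ^ i) p) (Finset.range (Function.minimalPeriod ρ p)) := by
    intro i hi j hj hij
    rw [Finset.mem_coe, Finset.mem_range] at hi hj
    refine Function.iterate_injOn_Iio_minimalPeriod (f := ρ) (x := p) (Set.mem_Iio.mpr hi)
      (Set.mem_Iio.mpr hj) ?_
    show ρ^[i] p = ρ^[j] p
    rw [Equiv.Perm.iterate_eq_pow, Equiv.Perm.iterate_eq_pow]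
    exact hij
  constructor
  · rw [himg, Finset.card_image_of_injOn hinj, Finset.card_range]
  · intro a
    rw [himg, Finset.sum_image hinj]

/-- The sum over k periods. -/
theorem HA3_blk {P Q : Type} [Fintype P] [DecidableEq Q] (ρ : Equiv.Perm P) (n : ℕ)
    (hn : 0 < n) (hρ : ρ ^ n = 1) (π : P → Q)
    (ho : ∀ p p', π p = π p' ↔ ∃ i : ℕ, (ρ ^ i) p = p') (p : P) (a : P → ℤ) (k : ℕ) :
    ∑ i ∈ Finset.range (Function.minimalPeriod ρ p * k), a ((ρ ^ i) p) =
      k * ∑ p' ∈ Finset.univ.filter (fun p' => π p' = π p), a p' := by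
  induction k with
  | zero => simp
  | succ k ih =>
    rw [Nat.mul_succ, Finset.sum_range_add, ih, ← (HA3_per ρ n hn hρ π ho p).2 a]
    rw [Nat.cast_add, Nat.cast_one, add_mul, one_mul]
    congr 1
    refine Finset.sum_congr rfl fun i _ => ?_
    have h1 : ρ^[Function.minimalPeriod ρ p * k] p = p :=
      Function.IsPeriodicPt.mul_const (Function.isPeriodicPt_minimalPeriod ρ p) k
    rw [← Equiv.Perm.iterate_eq_pow, ← Equiv.Perm.iterate_eq_pow, add_comm,
      Function.iterate_add_apply, h1]

theorem HA3_pe_pow {P : Type} (τ : Equiv.Perm P) (i : ℕ) (a : P → ℤ) (p : P) :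
    ((pe τ) ^ i : AddMonoid.End (P → ℤ)) a p = a (((τ⁻¹) ^ i) p) := by
  induction i generalizing p with
  | zero => rfl
  | succ i ih =>
    rw [pow_succ', AddMonoid.End.coe_mul, Function.comp_apply]
    show ((pe τ) ^ i : AddMonoid.End (P → ℤ)) a (τ.symm p) = _
    rw [ih, pow_succ, Equiv.Perm.mul_apply]
    rfl

theorem HA3_Nm {P : Type} (τ : Equiv.Perm P) (n : ℕ) (a : P → ℤ) (p : P) :
    Nm n (pe τ) a p = ∑ i ∈ Finset.range n, a (((τ⁻¹) ^ i) p) := by
  unfold Nm
  have : ∀ s : Finset ℕ, (∑ i ∈ s, (pe τ) ^ i : AddMonoid.End (P → ℤ)) a p =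
      ∑ i ∈ s, a (((τ⁻¹) ^ i) p) := by
    intro s
    classical
    induction s using Finset.induction_on with
    | empty => rfl
    | insert x s hx ih =>
      rw [Finset.sum_insert hx, Finset.sum_insert hx, ← ih, ← HA3_pe_pow τ x a p]
      rfl
  exact this _

theorem HA3_Dm {P : Type} (τ : Equiv.Perm P) (a : P → ℤ) (p : P) :
    Dm (pe τ) a p = a p - a (τ.symm p) := rfl

theorem HA3_sym {P Q : Type} (τ : Equiv.Perm P) (π : P → Q)
    (ho : ∀ p p', π p = π p' ↔ ∃ i : ℕ, (τ ^ i) p = p') :
    ∀ p p', π p = π p' ↔ ∃ i : ℕ, ((τ⁻¹) ^ i) p = p' := by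
  intro p p'
  rw [eq_comm, ho]
  refine exists_congr fun i => ?_
  rw [inv_pow, Equiv.Perm.inv_eq_iff_eq, eq_comm]

theorem herb_perm {P Q : Type} [Fintype P] [Fintype Q] [DecidableEq Q] (τ : Equiv.Perm P) (n : ℕ)
    (hn : 0 < n) (hτ : τ ^ n = 1) (π : P → Q) (hs : Function.Surjective π)
    (ho : ∀ p p', π p = π p' ↔ ∃ i : ℕ, (τ ^ i) p = p') :
    h1 n (pe τ) ⊤ = 1 ∧
      h0 n (pe τ) ⊤ = ∏ q : Q, n / (Finset.univ.filter fun p => π p = q).card := by
  classical
  set m : Q → ℕ := fun q => (Finset.univ.filter fun p => π p = q).card with hm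
  have hτ' : (τ⁻¹) ^ n = 1 := by rw [inv_pow, hτ, inv_one]
  have ho' := HA3_sym τ π ho
  have hmp : ∀ p, m (π p) = Function.minimalPeriod (τ⁻¹ : Equiv.Perm P) p := fun p =>
    (HA3_per τ⁻¹ n hn hτ' π ho' p).1
  have hmd : ∀ p, m (π p) ∣ n := by
    intro p
    rw [hmp]
    refine Function.IsPeriodicPt.minimalPeriod_dvd ?_
    show (τ⁻¹ : Equiv.Perm P)^[n] p = p
    rw [Equiv.Perm.iterate_eq_pow, hτ']
    rfl
  have hNm : ∀ a p, Nm n (pe τ) a p = ((n / m (π p) : ℕ) : ℤ) *
      ∑ p' ∈ Finset.univ.filter (fun p' => π p' = π p), a p' := by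
    intro a p
    rw [HA3_Nm, ← HA3_blk τ⁻¹ n hn hτ' π ho' p a (n / m (π p)), ← hmp, Nat.mul_div_cancel' (hmd p)]
  have hmpos : ∀ q, 0 < m q := by
    intro q
    obtain ⟨p, rfl⟩ := hs q
    exact Finset.card_pos.mpr ⟨p, Finset.mem_filter.mpr ⟨Finset.mem_univ _, rfl⟩⟩
  have hkpos : ∀ q, 0 < n / m q := by
    intro q
    obtain ⟨p, rfl⟩ := hs q
    exact Nat.div_pos (Nat.le_of_dvd hn (hmd p)) (hmpos _)
  choose s hsec using hs
  constructor
  · unfold h1
    rw [AddSubgroup.relIndex_eq_one]
    rintro a ⟨-, ha⟩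
    have ha' : ∀ p, ∑ p' ∈ Finset.univ.filter (fun p' => π p' = π p), a p' = 0 := by
      intro p
      have h : Nm n (pe τ) a p = 0 := by
        have := (AddMonoidHom.mem_ker).mp ha
        rw [this]
        rfl
      rw [hNm] at h
      rcases mul_eq_zero.mp h with h | h
      · exact absurd (by exact_mod_cast h) (hkpos (π p)).ne'
      · exact h
    -- the partial sums along the orbit of s q
    have hsh : ∀ p (i k : ℕ), (τ ^ i) p = (τ ^ (i + k)) p →
        ∑ t ∈ Finset.range k, a ((τ ^ (i + 1 + t)) p) = 0 := by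
      intro p i k hk
      have h1 : (τ ^ k) ((τ ^ (i + 1)) p) = (τ ^ (i + 1)) p := by
        rw [← Equiv.Perm.mul_apply, ← pow_add, show k + (i + 1) = 1 + (i + k) by ring, pow_add,
          Equiv.Perm.mul_apply, ← hk, ← Equiv.Perm.mul_apply, ← pow_add, add_comm]
      have h2 : Function.minimalPeriod τ ((τ ^ (i + 1)) p) ∣ k := by
        refine Function.IsPeriodicPt.minimalPeriod_dvd ?_
        show (τ : Equiv.Perm P)^[k] _ = _
        rw [Equiv.Perm.iterate_eq_pow, h1]
      obtain ⟨c, rfl⟩ := h2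
      have h3 := HA3_blk τ n hn hτ π ho ((τ ^ (i + 1)) p) a c
      rw [ha', mul_zero] at h3
      rw [← h3]
      refine Finset.sum_congr rfl fun t _ => ?_
      rw [← Equiv.Perm.mul_apply, ← pow_add, add_comm]
    have hwd : ∀ p (i j : ℕ), (τ ^ i) p = (τ ^ j) p →
        ∑ t ∈ Finset.range (i + 1), a ((τ ^ t) p) = ∑ t ∈ Finset.range (j + 1), a ((τ ^ t) p) := by
      have key : ∀ p (i j : ℕ), i ≤ j → (τ ^ i) p = (τ ^ j) p →
          ∑ t ∈ Finset.range (i + 1), a ((τ ^ t) p) =
            ∑ t ∈ Finset.range (j + 1), a ((τ ^ t) p) := by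
        intro p i j hij h
        obtain ⟨k, rfl⟩ := Nat.exists_eq_add_of_le hij
        rw [show i + k + 1 = (i + 1) + k by ring,
          Finset.sum_range_add (fun t => a ((τ ^ t) p)) (i + 1) k, hsh p i k h, add_zero]
      intro p i j h
      rcases le_total i j with hij | hij
      · exact key p i j hij h
      · exact (key p j i hij h.symm).symm
    have hex : ∀ p, ∃ i : ℕ, (τ ^ i) (s (π p)) = p := fun p => (ho _ _).mp (hsec (π p))
    choose j hj using hex
    refine AddSubgroup.mem_map.mpr
      ⟨fun p => ∑ t ∈ Finset.range (j p + 1), a ((τ ^ t) (s (π p))), trivial, ?_⟩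
    funext p
    rw [HA3_Dm]
    have hπ : π (τ.symm p) = π p := (ho _ _).mpr ⟨1, by simp⟩
    have h1 : (τ ^ (j (τ.symm p) + 1)) (s (π p)) = (τ ^ (j p)) (s (π p)) := by
      rw [hj p, pow_succ', Equiv.Perm.mul_apply]
      have := hj (τ.symm p)
      rw [hπ] at this
      rw [this, Equiv.apply_symm_apply]
    have h2 := hwd _ _ _ h1
    rw [hπ, ← h2, Finset.sum_range_succ, add_sub_cancel_left, h1, hj p]
  · unfold h0
    -- functions on Q
    let Φ : (Q → ℤ) →+ (P → ℤ) :=
      { toFun := fun c => c ∘ π, map_zero' := rfl, map_add' := fun _ _ => rfl }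
    have hΦi : Function.Injective Φ := by
      intro c c' h
      funext q
      have := congrFun h (s q)
      simpa [Φ, hsec] using this
    let Ψ : (Q → ℤ) →+ (∀ q : Q, ZMod (n / m q)) :=
      { toFun := fun c q => (c q : ZMod (n / m q)),
        map_zero' := by funext q; exact Int.cast_zero,
        map_add' := fun c c' => by funext q; exact Int.cast_add _ _ }
    have hker : (⊤ : AddSubgroup (P → ℤ)) ⊓ (Dm (pe τ)).ker = (⊤ : AddSubgroup (Q → ℤ)).map Φ := by
      rw [top_inf_eq]
      ext a
      rw [AddMonoidHom.mem_ker, AddSubgroup.mem_map]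
      constructor
      · intro h
        have h1 : ∀ p, a (τ p) = a p := by
          intro p
          have := congrFun h (τ p)
          rw [HA3_Dm, Equiv.symm_apply_apply] at this
          exact sub_eq_zero.mp this
        have h2 : ∀ (i : ℕ) p, a ((τ ^ i) p) = a p := by
          intro i
          induction i with
          | zero => intro p; rfl
          | succ i ih => intro p; rw [pow_succ', Equiv.Perm.mul_apply, h1, ih]
        refine ⟨fun q => a (s q), trivial, ?_⟩
        funext p
        obtain ⟨i, hi⟩ := (ho (s (π p)) p).mp (hsec _)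
        show a (s (π p)) = a p
        rw [← h2 i, hi]
      · rintro ⟨c, -, rfl⟩
        funext p
        rw [HA3_Dm]
        have hπ : π (τ.symm p) = π p := (ho _ _).mpr ⟨1, by simp⟩
        show c (π p) - c (π (τ.symm p)) = 0
        rw [hπ, sub_self]
    have hrange : (⊤ : AddSubgroup (P → ℤ)).map (Nm n (pe τ)) = (Ψ.ker).map Φ := by
      ext a
      rw [AddSubgroup.mem_map, AddSubgroup.mem_map]
      constructor
      · rintro ⟨b, -, rfl⟩
        refine ⟨fun q => ((n / m q : ℕ) : ℤ) *
          ∑ p' ∈ Finset.univ.filter (fun p' => π p' = q), b p', ?_, ?_⟩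
        · rw [AddMonoidHom.mem_ker]
          funext q
          show (((((n / m q : ℕ) : ℤ) *
            ∑ p' ∈ Finset.univ.filter (fun p' => π p' = q), b p' : ℤ)) : ZMod (n / m q)) = 0
          rw [Int.cast_mul, Int.cast_natCast, ZMod.natCast_self, zero_mul]
        · funext p
          rw [hNm]
          rfl
      · rintro ⟨c, hc, rfl⟩
        have hc' : ∀ q, ∃ d : ℤ, c q = ((n / m q : ℕ) : ℤ) * d := by
          intro q
          have h := congrFun ((AddMonoidHom.mem_ker).mp hc) q
          have h' : ((c q : ℤ) : ZMod (n / m q)) = 0 := h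
          exact (ZMod.intCast_zmod_eq_zero_iff_dvd _ _).mp h'
        choose d hd using hc'
        refine ⟨fun p => if p = s (π p) then d (π p) else 0, trivial, ?_⟩
        funext p
        rw [hNm]
        show _ = c (π p)
        rw [hd]
        congr 1
        rw [Finset.sum_eq_single (s (π p))]
        · rw [hsec, if_pos rfl]
        · intro p' hp' hne
          rw [Finset.mem_filter] at hp'
          rw [hp'.2, if_neg hne]
        · intro h
          exact absurd (Finset.mem_filter.mpr ⟨Finset.mem_univ (s (π p)), hsec (π p)⟩) h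
    rw [hker, hrange, AddSubgroup.relIndex_map_map_of_injective _ _ hΦi,
      AddSubgroup.relIndex_top_right, AddSubgroup.index_ker]
    have hsurj : Function.Surjective Ψ := by
      intro y
      have : ∀ q, ∃ z : ℤ, (z : ZMod (n / m q)) = y q := fun q => ZMod.intCast_surjective (y q)
      choose z hz using this
      exact ⟨z, funext hz⟩
    rw [AddMonoidHom.range_eq_top.mpr hsurj, Nat.card_congr AddSubgroup.topEquiv.toEquiv,
      Nat.card_pi]
    refine Finset.prod_congr rfl fun q _ => ?_
    rw [Nat.card_zmod]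

end H55R
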