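import Mathlib
import Pool.Agent.Lib.H55R.Defs

open NumberField IsDedekindDomain

namespace H55R

/-! Chunk HA5 (S/M): units. unit_place: NumberField.Units.dirichletUnitTheorem.exists_unit (a unit y with log V y < 0 for all
V <> V₀). prime_unit: let h be the class number; W^h = (y) (the class of W has finite order: pow_card_eq_one' in the class group,
ClassGroup.mk0_eq_one_iff). ord W' y is the multiplicity of W' in (y) (valuationOfNeZero_eq, HeightOneSpectrum.valuation_of_algebraMap,
intValuation and the count of W' in the factorisation of (y) = W^h): h for W' = W and 0 otherwise. -/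

theorem HA5_ord {K : Type} [Field K] [NumberField K] (v : Pl K) (u : Kˣ) (x : 𝓞 K) (hx : x ≠ 0)
    (hu : (u : K) = algebraMap (𝓞 K) K x) :
    ord v u = ((Associates.mk v.asIdeal).count (Associates.mk (Ideal.span {x} : Ideal (𝓞 K))).factors : ℤ) := by
  have h1 := v.valuationOfNeZero_eq (K := K) u
  rw [hu, HeightOneSpectrum.valuation_of_algebraMap, HeightOneSpectrum.intValuation_if_neg v hx] at h1
  have h2 : v.valuationOfNeZero u = Multiplicative.ofAdd
      (-(Associates.mk v.asIdeal).count (Associates.mk (Ideal.span {x} : Ideal (𝓞 K))).factors : ℤ) := by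
    rw [← WithZero.coe_inj]
    exact h1
  unfold ord
  rw [h2, toAdd_ofAdd, neg_neg]

theorem unit_place (L : Type) [Field L] [NumberField L] (V₀ : InfinitePlace L) :
    ∃ y : (𝓞 L)ˣ, ∀ V : InfinitePlace L, V ≠ V₀ → V ((y : 𝓞 L) : L) < 1 := by
  obtain ⟨y, hy⟩ := NumberField.Units.dirichletUnitTheorem.exists_unit (K := L) V₀
  refine ⟨y, fun V hV => ?_⟩
  have h1 := hy V hV
  have h0 : 0 < V ((y : 𝓞 L) : L) := by
    rw [InfinitePlace.pos_iff]
    exact NumberField.Units.coe_ne_zero y
  by_contra h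
  push_neg at h
  exact absurd (Real.log_nonneg h) (not_le.2 h1)

theorem prime_unit (L : Type) [Field L] [NumberField L] (W : Pl L) :
    ∃ y : Lˣ, 0 < ord W y ∧ ∀ W' : Pl L, W' ≠ W → ord W' y = 0 := by
  classical
  set h : ℕ := Nat.card (ClassGroup (𝓞 L)) with hh
  have hpos : 0 < h := Nat.card_pos
  have hW : (W.asIdeal) ∈ nonZeroDivisors (Ideal (𝓞 L)) :=
    mem_nonZeroDivisors_iff_ne_zero.2 W.ne_bot
  have h1 : (ClassGroup.mk0 (⟨W.asIdeal, hW⟩ : nonZeroDivisors (Ideal (𝓞 L)))) ^ h = 1 :=
    pow_card_eq_one'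
  rw [← map_pow, ClassGroup.mk0_eq_one_iff] at h1
  obtain ⟨y, hy⟩ := h1
  have hy' : W.asIdeal ^ h = Ideal.span {y} := hy
  have hWh : W.asIdeal ^ h ≠ 0 := pow_ne_zero _ W.ne_bot
  have hy0 : y ≠ 0 := by
    rintro rfl
    apply hWh
    rw [hy']
    exact Ideal.span_singleton_eq_bot.2 rfl
  have hyL : algebraMap (𝓞 L) L y ≠ 0 := by
    rw [Ne, FaithfulSMul.algebraMap_eq_zero_iff]
    exact hy0
  have hmk : Associates.mk (Ideal.span {y} : Ideal (𝓞 L)) = (Associates.mk W.asIdeal) ^ h := by
    rw [← hy', Associates.mk_pow]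
  refine ⟨Units.mk0 _ hyL, ?_, fun W' hW' => ?_⟩
  · rw [HA5_ord W _ y hy0 rfl, hmk,
      Associates.count_pow (Associates.mk_ne_zero.2 W.ne_bot) W.associates_irreducible,
      Associates.count_self W.associates_irreducible, mul_one]
    exact_mod_cast hpos
  · rw [HA5_ord W' _ y hy0 rfl, hmk,
      Associates.count_pow (Associates.mk_ne_zero.2 W.ne_bot) W'.associates_irreducible,
      Associates.count_eq_zero_of_ne W'.associates_irreducible W.associates_irreducible, mul_zero,
      Nat.cast_zero]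
    intro he
    apply hW'
    apply HeightOneSpectrum.ext
    rwa [Associates.mk_eq_mk_iff_associated, associated_iff_eq] at he

end H55R
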