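import Mathlib
import Pool.Agent.Lib.H55R.HA4
import Pool.Agent.Lib.H55R.HA5
import Pool.Agent.Lib.H55R.BF1

open NumberField IsDedekindDomain

namespace H55R

variable {K L : Type} [Field K] [NumberField K] [Field L] [NumberField L] [Algebra K L]

/-- The permutation τ is the action of σ on the primes in T and on the infinite places. -/
structure Tau (σ : Gal(L/K)) (T : Finset (Pl L)) (τ : Equiv.Perm (T ⊕ InfinitePlace L)) : Prop where
  fin : ∀ W : T, ∃ W' : T, τ (Sum.inl W) = Sum.inl W' ∧ W'.1 = smulP σ W.1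
  inf : ∀ V : InfinitePlace L, τ (Sum.inr V) = Sum.inr (σ • V)

/-! Chunk HA8 (M): the equivariant family. n = [L : K]. exists_tau: T is stable under σ (under_smulP), σ has order dividing n
(pow_card_eq_one, IsGalois.card_aut_eq_finrank), smulP_mul, smulP_one, mul_smul. sg_pow: (sg σ)^n = 1 for the same reason.
exists_eta: eq_family (HA4) with R (inl W) y: 0 < ord W y and ord W' y = 0 for W' <> W; R (inr V) y: ord = 0 everywhere and V' y < 1 for V' <> V.
hadd: ord of a product is the sum, V' (y z) = V' y V' z. heq: ord_smul (for W' <> σ W write W' = σ W'' with W'' = σ^-1 W' <> W) and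
InfinitePlace.smul_apply: (σ • V')(σ y) = V' y. hex: unit_place, prime_unit (HA5; for a unit y of 𝓞 L the orders are 0). n > 0. -/

theorem HA8_pow [IsGalois K L] (σ : Gal(L/K)) : σ ^ Module.finrank K L = 1 := by
  rw [← IsGalois.card_aut_eq_finrank]
  exact pow_card_eq_one'

omit [NumberField K] [NumberField L] in
theorem HA8_sg_pow (σ : Gal(L/K)) (i : ℕ) : (sg σ) ^ i = sg (σ ^ i) := by
  induction i with
  | zero =>
    rw [pow_zero, pow_zero]
    ext a
    rfl
  | succ i ih =>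
    rw [pow_succ, ih, pow_succ]
    ext a
    rfl

theorem HA8_smulP_inv (σ : Gal(L/K)) (W : Pl L) : smulP σ⁻¹ (smulP σ W) = W := by
  rw [← smulP_mul, inv_mul_cancel, smulP_one]

theorem HA8_smulP_inv' (σ : Gal(L/K)) (W : Pl L) : smulP σ (smulP σ⁻¹ W) = W := by
  rw [← smulP_mul, mul_inv_cancel, smulP_one]

theorem sg_pow [IsGalois K L] (σ : Gal(L/K)) : (sg σ) ^ Module.finrank K L = 1 := by
  rw [HA8_sg_pow, HA8_pow]
  ext a
  rfl

theorem exists_tau [IsGalois K L] (σ : Gal(L/K)) (S : Set (Pl K)) (T : Finset (Pl L))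
    (hT : ∀ W, W ∈ T ↔ W.under (𝓞 K) ∈ S) :
    ∃ τ : Equiv.Perm (T ⊕ InfinitePlace L), Tau σ T τ ∧ τ ^ Module.finrank K L = 1 := by
  have hst : ∀ (ρ : Gal(L/K)) (W : Pl L), W ∈ T → smulP ρ W ∈ T := by
    intro ρ W hW
    rw [hT, under_smulP]
    exact (hT W).mp hW
  let e : Equiv.Perm T :=
    { toFun := fun W => ⟨smulP σ W.1, hst σ W.1 W.2⟩
      invFun := fun W => ⟨smulP σ⁻¹ W.1, hst σ⁻¹ W.1 W.2⟩
      left_inv := fun W => Subtype.ext (HA8_smulP_inv σ W.1)
      right_inv := fun W => Subtype.ext (HA8_smulP_inv' σ W.1) }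
  let f : Equiv.Perm (InfinitePlace L) := MulAction.toPerm σ
  refine ⟨Equiv.sumCongr e f, ⟨fun W => ⟨e W, rfl, rfl⟩, fun V => rfl⟩, ?_⟩
  have h1 : ∀ (i : ℕ) (W : T), ∃ h, ((Equiv.sumCongr e f) ^ i) (Sum.inl W) =
      Sum.inl ⟨smulP (σ ^ i) W.1, h⟩ := by
    intro i
    induction i with
    | zero =>
      intro W
      refine ⟨hst _ _ W.2, ?_⟩
      rw [pow_zero, Equiv.Perm.one_apply]
      congr 1
      exact Subtype.ext (show W.1 = smulP (σ ^ 0) W.1 by rw [pow_zero, smulP_one])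
    | succ i ih =>
      intro W
      refine ⟨hst _ _ W.2, ?_⟩
      obtain ⟨h, hi⟩ := ih W
      rw [pow_succ', Equiv.Perm.mul_apply, hi]
      show Sum.inl (e _) = _
      congr 1
      exact Subtype.ext (show smulP σ (smulP (σ ^ i) W.1) = smulP (σ ^ (i + 1)) W.1 by
        rw [pow_succ', smulP_mul])
  have h2 : ∀ (i : ℕ) (V : InfinitePlace L), ((Equiv.sumCongr e f) ^ i) (Sum.inr V) =
      Sum.inr ((σ ^ i) • V) := by
    intro i
    induction i with
    | zero =>
      intro V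
      rw [pow_zero, Equiv.Perm.one_apply, pow_zero, one_smul]
    | succ i ih =>
      intro V
      rw [pow_succ', Equiv.Perm.mul_apply, ih]
      show Sum.inr (f _) = _
      congr 1
      show σ • (σ ^ i • V) = _
      rw [← mul_smul, pow_succ']
  ext p
  rcases p with W | V
  · obtain ⟨h, hi⟩ := h1 (Module.finrank K L) W
    rw [hi, Equiv.Perm.one_apply]
    congr 1
    exact Subtype.ext (show smulP (σ ^ Module.finrank K L) W.1 = W.1 by rw [HA8_pow, smulP_one])
  · rw [h2, HA8_pow, one_smul, Equiv.Perm.one_apply]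

theorem exists_eta [IsGalois K L] (σ : Gal(L/K)) (T : Finset (Pl L))
    (τ : Equiv.Perm (T ⊕ InfinitePlace L)) (hτ : Tau σ T τ) (hn : τ ^ Module.finrank K L = 1) :
    ∃ η : T ⊕ InfinitePlace L → Additive Lˣ, Eta T η ∧ ∀ p, η (τ p) = sg σ (η p) := by
  let R : T ⊕ InfinitePlace L → Additive Lˣ → Prop := fun p y =>
    match p with
    | Sum.inl W => 0 < ord W.1 y.toMul ∧ ∀ W' : Pl L, W' ≠ W.1 → ord W' y.toMul = 0
    | Sum.inr V => (∀ W : Pl L, ord W y.toMul = 0) ∧
        ∀ V' : InfinitePlace L, V' ≠ V → V' (y.toMul : L) < 1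
  have hpos : 0 < Module.finrank K L := Module.finrank_pos
  have hsg : ∀ y : Additive Lˣ, (sg σ y).toMul =
      Units.map ((σ : L ≃ₐ[K] L) : L →* L) y.toMul := fun y => rfl
  have hordσ : ∀ (W : Pl L) (y : Lˣ),
      ord W (Units.map ((σ : L ≃ₐ[K] L) : L →* L) y) = ord (smulP σ⁻¹ W) y := by
    intro W y
    rw [← ord_smul σ (smulP σ⁻¹ W) y, HA8_smulP_inv']
  obtain ⟨η, h1, h2⟩ := eq_family (Module.finrank K L) hpos τ hn (sg σ) (sg_pow σ) R
    (by
      rintro (W | V) a b ha hb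
      · refine ⟨?_, fun W' hW' => ?_⟩
        · rw [toMul_add, ord_mul]
          exact add_pos ha.1 hb.1
        · rw [toMul_add, ord_mul, ha.2 W' hW', hb.2 W' hW', add_zero]
      · refine ⟨fun W => ?_, fun V' hV' => ?_⟩
        · rw [toMul_add, ord_mul, ha.1 W, hb.1 W, add_zero]
        · rw [toMul_add, Units.val_mul, map_mul]
          exact mul_lt_one_of_nonneg_of_lt_one_left (apply_nonneg _ _) (ha.2 V' hV') (hb.2 V' hV').le)
    (by
      rintro (W | V) a ha
      · obtain ⟨W', h1, h2⟩ := hτ.fin W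
        rw [h1]
        refine ⟨?_, fun W'' hW'' => ?_⟩
        · rw [hsg, h2, ord_smul]
          exact ha.1
        · rw [hsg, hordσ]
          refine ha.2 _ fun h => hW'' ?_
          rw [h2, ← h, HA8_smulP_inv']
      · rw [hτ.inf V]
        refine ⟨fun W => ?_, fun V' hV' => ?_⟩
        · rw [hsg, hordσ]
          exact ha.1 _
        · rw [hsg]
          have h3 := ha.2 (σ⁻¹ • V') (fun h => hV' (by rw [← h, smul_inv_smul]))
          rw [InfinitePlace.smul_apply] at h3
          exact h3)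
    (by
      rintro (W | V)
      · obtain ⟨y, h1, h2⟩ := prime_unit L W.1
        exact ⟨Additive.ofMul y, h1, h2⟩
      · obtain ⟨y, hy⟩ := unit_place L V
        refine ⟨Additive.ofMul (Units.map (algebraMap (𝓞 L) L : 𝓞 L →* L) y), fun W => ?_,
          fun V' hV' => hy V' hV'⟩
        rw [toMul_ofMul]
        have h1 := (ord_int W (y : 𝓞 L) (Units.map (algebraMap (𝓞 L) L : 𝓞 L →* L) y) rfl 0).mpr
          (by rw [pow_zero, Ideal.one_eq_top]; trivial)
        have h2 := (ord_int W ((y⁻¹ : (𝓞 L)ˣ) : 𝓞 L)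
          (Units.map (algebraMap (𝓞 L) L : 𝓞 L →* L) y⁻¹) rfl 0).mpr
          (by rw [pow_zero, Ideal.one_eq_top]; trivial)
        rw [map_inv, ord_inv] at h2
        rw [Nat.cast_zero] at h1 h2
        omega)
  refine ⟨η, ⟨fun W => h1 (Sum.inl W), fun V => h1 (Sum.inr V)⟩, h2⟩

end H55R
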