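import Mathlib
import Pool.Agent.Lib.H55R.HA3
import Pool.Agent.Lib.H55R.HA8
import Pool.Agent.Lib.H55R.BF2

open NumberField IsDedekindDomain

namespace H55R

variable {K L : Type} [Field K] [NumberField K] [Field L] [NumberField L] [Algebra K L]

/-! Chunk HA9 (M): the permutation module of the places. Apply herb_perm (HA3) with P = T ⊕ infinite places of L, Q = S ⊕ infinite places of K,
π = the place below (W.under (𝓞 K), V.comap (algebraMap K L)). Surjective: under_exists, InfinitePlace.comap_surjective. Orbits: two primes over the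
same prime are conjugate under a power of the generator σ (smulP_trans; every element of the group is a power σ^i with i a natural number because the
group is finite), the action of τ^i is the action of σ^i (smulP_mul, mul_smul, Tau); two infinite places with the same restriction are conjugate
(InfinitePlace.exists_smul_eq_of_comap_eq). Fibres: above v in S: card_above, so n / card = e f; above an infinite place of K, which is
complex: the fibre is an orbit with trivial stabiliser (Mathlib: a complex place is unramified: InfinitePlace.isUnramified_iff,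
InfinitePlace.card_stabilizer or even a direct argument: V.comap = V.comap for σ with σ V = V means that σ fixes the
embedding of L or conjugates it, and conjugation is not K-linear since the place of K is complex), so it has n
elements and n / card = 1. The product over Q is the product over S. -/

theorem HA9_pow_fin (σ : Gal(L/K)) (T : Finset (Pl L)) (τ : Equiv.Perm (T ⊕ InfinitePlace L))
    (hτ : Tau σ T τ) (i : ℕ) (W : T) :
    ∃ W' : T, (τ ^ i) (Sum.inl W) = Sum.inl W' ∧ W'.1 = smulP (σ ^ i) W.1 := by
  induction i with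
  | zero => exact ⟨W, rfl, by rw [pow_zero, smulP_one]⟩
  | succ i ih =>
    obtain ⟨W₁, h1, h2⟩ := ih
    obtain ⟨W₂, h3, h4⟩ := hτ.fin W₁
    refine ⟨W₂, ?_, ?_⟩
    · rw [pow_succ', Equiv.Perm.mul_apply, h1, h3]
    · rw [h4, h2, pow_succ', smulP_mul]

theorem HA9_pow_inf (σ : Gal(L/K)) (T : Finset (Pl L)) (τ : Equiv.Perm (T ⊕ InfinitePlace L))
    (hτ : Tau σ T τ) (i : ℕ) (V : InfinitePlace L) :
    (τ ^ i) (Sum.inr V) = Sum.inr (σ ^ i • V) := by
  induction i with
  | zero => rw [pow_zero, pow_zero, one_smul]; rfl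
  | succ i ih =>
    rw [pow_succ', Equiv.Perm.mul_apply, ih, hτ.inf, pow_succ', mul_smul]

theorem HA9_card_inf [IsGalois K L] (V : InfinitePlace K) (hV : V.IsComplex)
    (s : Finset (InfinitePlace L)) (hs : ∀ w, w ∈ s ↔ w.comap (algebraMap K L) = V) :
    s.card = Module.finrank K L := by
  classical
  obtain ⟨w₀, hw₀⟩ := InfinitePlace.comap_surjective (K := L) V
  have hw₀' : w₀.comap (algebraMap K L) = V := hw₀
  have hun : w₀.IsUnramified K := by
    rw [InfinitePlace.isUnramified_iff]
    right
    rw [hw₀']
    exact hV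
  have hst := hun.stabilizer_eq_bot
  have hinj : Function.Injective (fun g : Gal(L/K) => g • w₀) := by
    intro g h hgh
    have h1 : g • w₀ = h • w₀ := hgh
    have h2 : h⁻¹ * g ∈ MulAction.stabilizer Gal(L/K) w₀ := by
      rw [MulAction.mem_stabilizer_iff, mul_smul, h1, inv_smul_smul]
    rw [hst, Subgroup.mem_bot] at h2
    exact (inv_mul_eq_one.1 h2).symm
  have hs' : s = Finset.univ.image (fun g : Gal(L/K) => g • w₀) := by
    ext w
    rw [hs, Finset.mem_image]
    constructor
    · intro h
      obtain ⟨g, hg⟩ := InfinitePlace.exists_smul_eq_of_comap_eq (k := K) (w := w₀) (w' := w)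
        (by rw [hw₀', h])
      exact ⟨g, Finset.mem_univ _, hg⟩
    · rintro ⟨g, -, rfl⟩
      have h1 := InfinitePlace.mem_orbit_iff (k := K) (w := w₀) (w' := g • w₀) |>.1 ⟨g, rfl⟩
      rw [← h1, hw₀']
  rw [hs', Finset.card_image_of_injective _ hinj, Finset.card_univ, ← Nat.card_eq_fintype_card,
    IsGalois.card_aut_eq_finrank]

theorem herb_places [IsGalois K L] (σ : Gal(L/K)) (hσ : ∀ g : Gal(L/K), g ∈ Subgroup.zpowers σ)
    (hK : ∀ v : InfinitePlace K, v.IsComplex) (S : Finset (Pl K)) (T : Finset (Pl L))
    (hT : ∀ W, W ∈ T ↔ W.under (𝓞 K) ∈ S) (τ : Equiv.Perm (T ⊕ InfinitePlace L))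
    (hτ : Tau σ T τ) (hn : τ ^ Module.finrank K L = 1) :
    h1 (Module.finrank K L) (pe τ) ⊤ = 1 ∧
      h0 (Module.finrank K L) (pe τ) ⊤ = ∏ v ∈ S, (es K L v * fs K L v) := by
  classical
  have hn0 : 0 < Module.finrank K L := Module.finrank_pos
  have hpow : ∀ g : Gal(L/K), ∃ i : ℕ, σ ^ i = g := by
    intro g
    have h1 := hσ g
    rw [← mem_powers_iff_mem_zpowers] at h1
    exact h1
  let π : T ⊕ InfinitePlace L → S ⊕ InfinitePlace K :=
    Sum.map (fun W => ⟨W.1.under (𝓞 K), (hT W.1).1 W.2⟩) (fun V => V.comap (algebraMap K L))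
  have hs : Function.Surjective π := by
    rintro (v | V)
    · obtain ⟨W, hW⟩ := under_exists (K := K) (L := L) v.1
      refine ⟨Sum.inl ⟨W, (hT W).2 (by rw [hW]; exact v.2)⟩, ?_⟩
      show Sum.inl _ = Sum.inl v
      congr 1
      exact Subtype.ext hW
    · obtain ⟨w₀, hw₀⟩ := InfinitePlace.comap_surjective (K := L) V
      exact ⟨Sum.inr w₀, congrArg Sum.inr hw₀⟩
  have ho : ∀ p p', π p = π p' ↔ ∃ i : ℕ, (τ ^ i) p = p' := by
    rintro (W | V) (W' | V')
    · constructor
      · intro h
        have h1 : W.1.under (𝓞 K) = W'.1.under (𝓞 K) := congrArg Subtype.val (Sum.inl_injective h)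
        obtain ⟨g, hg⟩ := smulP_trans W.1 W'.1 h1
        obtain ⟨i, hi⟩ := hpow g
        obtain ⟨W₁, h2, h3⟩ := HA9_pow_fin σ T τ hτ i W
        refine ⟨i, ?_⟩
        rw [h2]
        congr 1
        apply Subtype.ext
        rw [h3, hi, hg]
      · rintro ⟨i, hi⟩
        obtain ⟨W₁, h2, h3⟩ := HA9_pow_fin σ T τ hτ i W
        rw [h2] at hi
        have h4 := Sum.inl_injective hi
        show Sum.inl _ = Sum.inl _
        congr 1
        apply Subtype.ext
        show W.1.under (𝓞 K) = W'.1.under (𝓞 K)
        rw [← h4, h3, under_smulP]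
    · constructor
      · intro h
        exact absurd h Sum.inl_ne_inr
      · rintro ⟨i, hi⟩
        obtain ⟨W₁, h2, h3⟩ := HA9_pow_fin σ T τ hτ i W
        rw [h2] at hi
        exact absurd hi Sum.inl_ne_inr
    · constructor
      · intro h
        exact absurd h Sum.inr_ne_inl
      · rintro ⟨i, hi⟩
        rw [HA9_pow_inf σ T τ hτ] at hi
        exact absurd hi Sum.inr_ne_inl
    · constructor
      · intro h
        have h1 : V.comap (algebraMap K L) = V'.comap (algebraMap K L) := Sum.inr_injective h
        obtain ⟨g, hg⟩ := InfinitePlace.exists_smul_eq_of_comap_eq (k := K) h1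
        obtain ⟨i, hi⟩ := hpow g
        exact ⟨i, by rw [HA9_pow_inf σ T τ hτ, hi, hg]⟩
      · rintro ⟨i, hi⟩
        rw [HA9_pow_inf σ T τ hτ] at hi
        have h4 := Sum.inr_injective hi
        show Sum.inr _ = Sum.inr _
        congr 1
        exact InfinitePlace.mem_orbit_iff (k := K) |>.1 ⟨σ ^ i, h4⟩
  obtain ⟨h1, h2⟩ := herb_perm τ _ hn0 hn π hs ho
  refine ⟨h1, ?_⟩
  rw [h2, Fintype.prod_sum_type]
  have h3 : ∀ V : InfinitePlace K, Module.finrank K L /
      (Finset.univ.filter fun p => π p = Sum.inr V).card = 1 := by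
    intro V
    have h4 : (Finset.univ.filter fun p => π p = Sum.inr V).card = Module.finrank K L := by
      rw [← HA9_card_inf (L := L) V (hK V)
        (Finset.univ.filter fun w : InfinitePlace L => w.comap (algebraMap K L) = V) (by simp)]
      symm
      apply Finset.card_bij (fun w _ => Sum.inr w)
      · intro w hw
        rw [Finset.mem_filter] at hw ⊢
        exact ⟨Finset.mem_univ _, congrArg Sum.inr hw.2⟩
      · intro a _ b _ hab
        exact Sum.inr_injective hab
      · rintro (W | w) hb
        · rw [Finset.mem_filter] at hb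
          exact absurd hb.2 Sum.inl_ne_inr
        · rw [Finset.mem_filter] at hb
          refine ⟨w, ?_, rfl⟩
          rw [Finset.mem_filter]
          exact ⟨Finset.mem_univ _, Sum.inr_injective hb.2⟩
    rw [h4, Nat.div_self hn0]
  rw [Finset.prod_congr rfl (fun V _ => h3 V), Finset.prod_const_one, mul_one,
    ← Finset.prod_coe_sort S]
  apply Finset.prod_congr rfl
  intro v _
  have h4 : (Finset.univ.filter fun p => π p = Sum.inl v).card =
      (T.filter fun W => W.under (𝓞 K) = v.1).card := by
    symm
    apply Finset.card_bij (fun W hW => Sum.inl ⟨W, (Finset.mem_filter.1 hW).1⟩)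
    · intro W hW
      rw [Finset.mem_filter] at hW ⊢
      exact ⟨Finset.mem_univ _, congrArg Sum.inl (Subtype.ext hW.2)⟩
    · intro a _ b _ hab
      exact congrArg Subtype.val (Sum.inl_injective hab)
    · rintro (W | w) hb
      · rw [Finset.mem_filter] at hb
        refine ⟨W.1, ?_, rfl⟩
        rw [Finset.mem_filter]
        exact ⟨W.2, congrArg Subtype.val (Sum.inl_injective hb.2)⟩
      · rw [Finset.mem_filter] at hb
        exact absurd hb.2 Sum.inr_ne_inl
  have h5 := card_above (K := K) (L := L) v.1 (T.filter fun W => W.under (𝓞 K) = v.1) (by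
    intro W
    rw [Finset.mem_filter, hT]
    constructor
    · exact fun h => h.2
    · intro h
      exact ⟨by rw [h]; exact v.2, h⟩)
  rw [h4]
  have h6 : 0 < (T.filter fun W => W.under (𝓞 K) = v.1).card := by
    rcases Nat.eq_zero_or_pos (T.filter fun W => W.under (𝓞 K) = v.1).card with h | h
    · rw [h, zero_mul] at h5
      omega
    · exact h
  rw [← h5, Nat.mul_div_cancel_left _ h6]

end H55R
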