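import Mathlib
import Pool.Agent.Lib.H55R.HA1
import Pool.Agent.Lib.H55R.HA2
import Pool.Agent.Lib.H55R.HA7
import Pool.Agent.Lib.H55R.HA9

open NumberField IsDedekindDomain

namespace H55R

variable {K L : Type} [Field K] [NumberField K] [Field L] [NumberField L] [Algebra K L]

/-! Chunk HA10 (M): the Herbrand quotient of the T-units. Take τ, η from HA8. Apply herb_fi (HA1) to φ = Th T η, A' = Additive Lˣ × ℤ,
σ' = (sg σ).prodMap 1, B' = (TUa T).prod ⊤: φ (pe τ a) = σ' (φ a): sum_p a(τ^-1 p) η p = sum_p a p η (τ p) = sg σ (sum_p a p η p)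
(Equiv.sum_comp), and the second component is invariant because τ permutes the infinite places; injective: theta_inj; finite index:
theta_mem, theta_index; T-units are stable under σ (ord_smul, under_smulP). With herb_places, herb_prod and
herb_Z: h0(A) = product of the e f, h1(A) = 1, h0(B') = h0(TUa) n, h1(B') = h1(TUa). -/

theorem HA10_mul {A : Type} [AddCommGroup A] (f g : AddMonoid.End A) (a : A) :
    (f * g) a = f (g a) := rfl

theorem HA10_pe_pow {P : Type} (τ : Equiv.Perm P) (k : ℕ) (a : P → ℤ) :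
    ((pe τ) ^ k) a = fun p => a ((τ ^ k).symm p) := by
  induction k with
  | zero =>
    rw [pow_zero, pow_zero]
    rfl
  | succ k ih =>
    rw [pow_succ', HA10_mul, ih]
    funext p
    change a ((τ ^ k).symm (τ.symm p)) = a ((τ ^ (k + 1)).symm p)
    rw [pow_succ']
    rfl

theorem HA10_pe {P : Type} (τ : Equiv.Perm P) (n : ℕ) (h : τ ^ n = 1) : (pe τ) ^ n = 1 := by
  ext a p
  rw [HA10_pe_pow, h]
  rfl

/-- σ on the first factor -/
def HA10_P {A : Type} [AddCommGroup A] (σ : AddMonoid.End A) : AddMonoid.End (A × ℤ) :=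
  AddMonoidHom.prodMap σ (1 : AddMonoid.End ℤ)

theorem HA10_prod_pow {A : Type} [AddCommGroup A] (σ : AddMonoid.End A) (k : ℕ) (x : A × ℤ) :
    ((HA10_P σ) ^ k) x = ((σ ^ k) x.1, x.2) := by
  induction k with
  | zero => rfl
  | succ k ih =>
    rw [pow_succ', HA10_mul, ih, pow_succ', HA10_mul]
    rfl

theorem HA10_stable (σ : Gal(L/K)) (S : Finset (Pl K)) (T : Finset (Pl L))
    (hT : ∀ W, W ∈ T ↔ W.under (𝓞 K) ∈ S) (y : Additive Lˣ) (hy : y ∈ TUa T) :
    sg σ y ∈ TUa T := by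
  intro W hW
  have h := ord_smul σ (smulP σ⁻¹ W) y.toMul
  rw [← smulP_mul, mul_inv_cancel, smulP_one] at h
  have h1 : ord W (Units.map ((σ : L ≃ₐ[K] L) : L →* L) y.toMul) = 0 := by
    rw [h]
    refine hy _ ?_
    intro h2
    have h3 := (hT _).mp h2
    rw [under_smulP] at h3
    exact hW ((hT W).mpr h3)
  exact h1

theorem HA10_comm (σ : Gal(L/K)) (T : Finset (Pl L)) (τ : Equiv.Perm (T ⊕ InfinitePlace L))
    (hτ : Tau σ T τ) (η : T ⊕ InfinitePlace L → Additive Lˣ) (hη : ∀ p, η (τ p) = sg σ (η p))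
    (a : T ⊕ InfinitePlace L → ℤ) : Th T η (pe τ a) = HA10_P (sg σ) (Th T η a) := by
  classical
  refine Prod.ext ?_ ?_
  · change ∑ p, a (τ.symm p) • η p = sg σ (∑ p, a p • η p)
    rw [map_sum, ← Equiv.sum_comp τ]
    refine Finset.sum_congr rfl fun p _ => ?_
    rw [Equiv.symm_apply_apply, map_zsmul, hη]
  · change ∑ V : InfinitePlace L, a (τ.symm (Sum.inr V)) = ∑ V : InfinitePlace L, a (Sum.inr V)
    have h1 : ∀ V : InfinitePlace L, τ.symm (Sum.inr V) = Sum.inr (σ⁻¹ • V) := by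
      intro V
      rw [Equiv.symm_apply_eq, hτ.inf, smul_inv_smul]
    simp only [h1]
    exact Equiv.sum_comp (MulAction.toPerm (σ⁻¹)) fun V : InfinitePlace L => a (Sum.inr V)

theorem herbrand [IsGalois K L] (σ : Gal(L/K)) (hσ : ∀ g : Gal(L/K), g ∈ Subgroup.zpowers σ)
    (hK : ∀ v : InfinitePlace K, v.IsComplex) (S : Finset (Pl K)) (T : Finset (Pl L))
    (hT : ∀ W, W ∈ T ↔ W.under (𝓞 K) ∈ S) :
    h0 (Module.finrank K L) (sg σ) (TUa T) ≠ 0 ∧ h1 (Module.finrank K L) (sg σ) (TUa T) ≠ 0 ∧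
      h0 (Module.finrank K L) (sg σ) (TUa T) * Module.finrank K L =
        h1 (Module.finrank K L) (sg σ) (TUa T) * ∏ v ∈ S, (es K L v * fs K L v) := by
  obtain ⟨τ, hτ, hτn⟩ := exists_tau σ (S : Set (Pl K)) T (fun W => by rw [hT W]; rfl)
  obtain ⟨η, hη, hηe⟩ := exists_eta σ T τ hτ hτn
  obtain ⟨hp1, hp0⟩ := herb_places σ hσ hK S T hT τ hτ hτn
  have hn0 : Module.finrank K L ≠ 0 := Module.finrank_pos.ne'
  have hprod : ∏ v ∈ S, (es K L v * fs K L v) ≠ 0 :=
    Finset.prod_ne_zero_iff.mpr fun v _ => mul_ne_zero (es_pos v).ne' (fs_pos v).ne'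
  have hσ'n : (HA10_P (sg (K := K) (L := L) σ)) ^ Module.finrank K L = 1 := by
    refine AddMonoidHom.ext fun x => ?_
    have h := HA10_prod_pow (sg σ) (Module.finrank K L) x
    rw [sg_pow] at h
    exact h
  obtain ⟨g1, g2, g3⟩ := herb_fi (Module.finrank K L) (pe τ) (HA10_P (sg σ)) (HA10_pe τ _ hτn) hσ'n (Th T η)
    (HA10_comm σ T τ hτ η hηe) (theta_inj T η hη) ((TUa T).prod (⊤ : AddSubgroup ℤ))
    (fun b hb => ⟨HA10_stable σ S T hT b.1 hb.1, trivial⟩) (theta_mem T η hη) (theta_index T η hη)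
    (by rw [hp0]; exact hprod) (by rw [hp1]; exact one_ne_zero)
  obtain ⟨h4, h5⟩ : h0 (Module.finrank K L) (HA10_P (sg σ)) ((TUa T).prod (⊤ : AddSubgroup ℤ)) =
      h0 (Module.finrank K L) (sg σ) (TUa T) *
        h0 (Module.finrank K L) (1 : AddMonoid.End ℤ) (⊤ : AddSubgroup ℤ) ∧
      h1 (Module.finrank K L) (HA10_P (sg σ)) ((TUa T).prod (⊤ : AddSubgroup ℤ)) =
      h1 (Module.finrank K L) (sg σ) (TUa T) *
        h1 (Module.finrank K L) (1 : AddMonoid.End ℤ) (⊤ : AddSubgroup ℤ) :=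
    herb_prod (Module.finrank K L) (sg σ) (1 : AddMonoid.End ℤ) (TUa T) (⊤ : AddSubgroup ℤ)
  obtain ⟨h6, h7⟩ := herb_Z (Module.finrank K L) hn0
  rw [h6] at h4
  rw [h7, mul_one] at h5
  rw [h4] at g1
  rw [h5] at g2
  rw [hp0, hp1, h4, h5, mul_one] at g3
  exact ⟨left_ne_zero_of_mul g1, g2, by rw [← g3, mul_comm]⟩

end H55R
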