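import Mathlib
import Pool.Agent.Lib.H55R.BF2

open NumberField IsDedekindDomain

namespace H55R

variable {K L : Type} [Field K] [NumberField K] [Field L] [NumberField L] [Algebra K L]

/-! Chunk HA11 (M/L): the ambiguous ideals. n = [L : K], σ a generator. Nm n (sg σ) y = algebraMap (N y) (Algebra.norm_eq_prod_automorphisms; the powers
σ^i, i < n, are all elements of the group, once each). Let y in TUa T with norm 1. Hilbert 90 (groupCohomology.exists_div_of_norm_eq_one):
y = z / σ z, z in Lˣ. For W not in T: 0 = ord W y = ord W z - ord W (σ z), and ord (σ W') (σ z) = ord W' z (ord_smul), so the function W -> ord W z is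
invariant under σ outside T, hence constant = a_v on the primes above v (smulP_trans), v not in S. Map y to (a_v mod e_v) in the product of ZMod (e_v) over
v in R, v not in S. Well defined: z is unique up to Kˣ (z / z' fixed by σ), ord W k = e_v ord v k (ord_map). A homomorphism from
TUa ∩ ker Nm. If y is in the kernel: a_v = e_v b_v for all v not in S (for v not in R: e_v = 1), almost all b_v = 0. Let x = product of (x_v)^(b_v), x_v
from hS (GenS S): ord u x = b_u for u not in S. Then z / x is a T-unit and y = (z/x) / σ(z/x) is in the image of TUa under Dm. So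
(TUa ∩ ker Nm) / Dm(TUa) embeds in the product: its order is at most the product of the e_v, v in R (e_v >= 1). (An injective map between finite
sets is enough, or AddSubgroup.relIndex of the kernel.) -/

/-- the Galois action on the units -/
noncomputable def HA11_m (σ : Gal(L/K)) : Lˣ →* Lˣ := Units.map ((σ : L ≃ₐ[K] L) : L →* L)

theorem HA11_sg (σ : Gal(L/K)) (y : Lˣ) :
    (sg σ (Additive.ofMul y)).toMul = HA11_m σ y := rfl

theorem HA11_pow (σ : Gal(L/K)) (i : ℕ) (y : Lˣ) :
    (((sg σ) ^ i : AddMonoid.End (Additive Lˣ)) (Additive.ofMul y)).toMul = HA11_m (σ ^ i) y := by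
  induction i with
  | zero =>
    rw [pow_zero, pow_zero]
    exact Units.ext rfl
  | succ i ih =>
    rw [pow_succ', pow_succ']
    change (sg σ (((sg σ) ^ i : AddMonoid.End (Additive Lˣ)) (Additive.ofMul y))).toMul = _
    have h1 : ((sg σ) ^ i : AddMonoid.End (Additive Lˣ)) (Additive.ofMul y) =
        Additive.ofMul (HA11_m (σ ^ i) y) := by
      rw [← ih]
      rfl
    rw [h1, HA11_sg]
    exact Units.ext rfl

theorem norm_eq_Nm [IsGalois K L] (σ : Gal(L/K)) (hσ : ∀ g : Gal(L/K), g ∈ Subgroup.zpowers σ)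
    (y : Lˣ) : (Nm (Module.finrank K L) (sg σ) (Additive.ofMul y)).toMul =
      Units.map (algebraMap K L : K →* L) (nrm K L y) := by
  classical
  apply Units.ext
  have h1 : (Nm (Module.finrank K L) (sg σ) (Additive.ofMul y)).toMul =
      ∏ i ∈ Finset.range (Module.finrank K L), HA11_m (σ ^ i) y := by
    have h2 : Nm (Module.finrank K L) (sg σ) (Additive.ofMul y) =
        ∑ i ∈ Finset.range (Module.finrank K L),
          ((sg σ) ^ i : AddMonoid.End (Additive Lˣ)) (Additive.ofMul y) :=
      AddMonoidHom.finsetSum_apply _ _ _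
    rw [h2, toMul_sum]
    exact Finset.prod_congr rfl fun i _ => HA11_pow σ i y
  rw [h1]
  have hcard : Nat.card Gal(L/K) = Module.finrank K L := IsGalois.card_aut_eq_finrank K L
  have h3 : (Algebra.norm K (y : L) : K) = nrm K L y := rfl
  change _ = algebraMap K L (Algebra.norm K (y : L))
  rw [Algebra.norm_eq_prod_automorphisms, ← IsCyclic.image_range_card hσ, hcard,
    Finset.prod_image, Units.coe_prod]
  · rfl
  · intro i hi j hj hij
    rw [Finset.mem_coe, Finset.mem_range] at hi hj
    have h4 : orderOf σ = Module.finrank K L := by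
      rw [← hcard]
      exact orderOf_eq_card_of_forall_mem_zpowers hσ
    rw [← h4] at hi hj
    exact pow_injOn_Iio_orderOf hi hj hij

theorem HA11_Dm (σ : Gal(L/K)) (y : Lˣ) :
    Dm (sg σ) (Additive.ofMul y) = Additive.ofMul (y / HA11_m σ y) := rfl

/-- invariance outside `T` -/
theorem HA11_inv (σ : Gal(L/K)) (hσ : ∀ g : Gal(L/K), g ∈ Subgroup.zpowers σ)
    (S : Finset (Pl K)) (T : Finset (Pl L)) (hT : ∀ W, W ∈ T ↔ W.under (𝓞 K) ∈ S) (z : Lˣ)
    (hz : z / HA11_m σ z ∈ SU (T : Set (Pl L))) (g : Gal(L/K)) (W : Pl L) (hW : W ∉ T) :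
    ord (smulP g W) z = ord W z := by
  have hTs : ∀ (g : Gal(L/K)) (W : Pl L), W ∉ T → smulP g W ∉ T := by
    intro g W hW
    rw [hT, under_smulP, ← hT]
    exact hW
  let A : Subgroup Gal(L/K) :=
    { carrier := {g | ∀ W : Pl L, W ∉ T → ord (smulP g W) z = ord W z}
      mul_mem' := by
        intro a b ha hb W hW
        rw [smulP_mul, ha _ (hTs b W hW), hb W hW]
      one_mem' := by
        intro W _
        rw [smulP_one]
      inv_mem' := by
        intro a ha W hW
        have h1 := ha (smulP a⁻¹ W) (hTs _ W hW)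
        rw [← smulP_mul, mul_inv_cancel, smulP_one] at h1
        exact h1.symm }
  have hσA : σ ∈ A := by
    intro W hW
    have h1 := hz (smulP σ W) (hTs σ W hW)
    rw [div_eq_mul_inv, ord_mul, ord_inv] at h1
    have h2 : ord (smulP σ W) (HA11_m σ z) = ord W z := ord_smul σ W z
    rw [h2] at h1
    linarith
  have h1 : Subgroup.zpowers σ ≤ A := by
    rw [Subgroup.zpowers_le]
    exact hσA
  exact h1 (hσ g) W hW

theorem HA11_finite (z : Lˣ) : {W : Pl L | ord W z ≠ 0}.Finite := by
  have h1 := HeightOneSpectrum.Support.finite (𝓞 L) (z : L)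
  have h2 := HeightOneSpectrum.Support.finite (𝓞 L) ((z⁻¹ : Lˣ) : L)
  refine (h1.union h2).subset ?_
  intro W hW
  have key : ∀ x : Lˣ, ord W x < 0 → 1 < W.valuation L (x : L) := by
    intro x hx
    rw [← HeightOneSpectrum.valuationOfNeZero_eq]
    unfold ord at hx
    have h3 : 0 < Multiplicative.toAdd (W.valuationOfNeZero x) := by linarith
    rw [← WithZero.coe_one, WithZero.coe_lt_coe]
    exact h3
  rcases lt_or_gt_of_ne hW with h | h
  · left
    exact key z h
  · right
    apply key
    rw [ord_inv]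
    linarith

theorem HA11_ord_prod {ι : Type} (F : Finset ι) (f : ι → Kˣ) (u : Pl K) :
    ord u (∏ v ∈ F, f v) = ∑ v ∈ F, ord u (f v) := by
  classical
  induction F using Finset.induction_on with
  | empty => rw [Finset.prod_empty, Finset.sum_empty, ord_one]
  | insert a F ha ih => rw [Finset.prod_insert ha, Finset.sum_insert ha, ord_mul, ih]

/-- elements of the kernel -/
theorem HA11_ker [IsGalois K L] (σ : Gal(L/K)) (hσ : ∀ g : Gal(L/K), g ∈ Subgroup.zpowers σ)
    (S : Finset (Pl K)) (T : Finset (Pl L)) (hT : ∀ W, W ∈ T ↔ W.under (𝓞 K) ∈ S)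
    (hS : GenS (S : Set (Pl K))) (Wv : Pl K → Pl L) (hWv : ∀ v, (Wv v).under (𝓞 K) = v) (z : Lˣ)
    (hz : z / HA11_m σ z ∈ SU (T : Set (Pl L)))
    (hdvd : ∀ v, v ∉ S → (es K L v : ℤ) ∣ ord (Wv v) z) :
    ∃ t ∈ SU (T : Set (Pl L)), t / HA11_m σ t = z / HA11_m σ z := by
  classical
  choose b hb using hdvd
  choose x hx1 hx2 using hS
  have hinj : Function.Injective Wv := by
    intro v v' h
    rw [← hWv v, h, hWv v']
  have hfin : {v : Pl K | ord (Wv v) z ≠ 0}.Finite :=
    (HA11_finite z).preimage (hinj.injOn)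
  set F : Finset (Pl K) := hfin.toFinset with hF
  set B : Pl K → ℤ := fun v => if h : v ∉ S then b v h else 0 with hB
  set X : Kˣ := ∏ v ∈ F, x v ^ B v with hX
  have hordX : ∀ u : Pl K, u ∉ S → (es K L u : ℤ) * ord u X = ord (Wv u) z := by
    intro u hu
    rw [hX, HA11_ord_prod]
    have h1 : ∑ v ∈ F, ord u (x v ^ B v) = if u ∈ F then B u else 0 := by
      have h2 : ∀ v ∈ F, ord u (x v ^ B v) = if u = v then B u else 0 := by
        intro v _
        rw [ord_zpow]
        split_ifs with h
        · rw [← h, hx1 u hu, mul_one]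
        · rw [hx2 v u hu h, mul_zero]
      rw [Finset.sum_congr rfl h2, Finset.sum_ite_eq]
    rw [h1]
    split_ifs with h
    · have h3 : B u = b u hu := by
        rw [hB]
        exact dif_pos hu
      rw [h3, ← hb u hu]
    · rw [hF, Set.Finite.mem_toFinset, Set.mem_setOf_eq, not_not] at h
      rw [h, mul_zero]
  refine ⟨z / Units.map (algebraMap K L : K →* L) X, ?_, ?_⟩
  · intro W hW
    have hW' : W ∉ T := hW
    have hu : W.under (𝓞 K) ∉ S := fun h => hW' ((hT W).2 h)
    rw [div_eq_mul_inv, ord_mul, ord_inv, ord_map W _ rfl, hordX _ hu]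
    have h1 : Wv (W.under (𝓞 K)) ∉ T := by
      rw [hT, hWv]
      exact hu
    obtain ⟨g, hg⟩ := smulP_trans (Wv (W.under (𝓞 K))) W (hWv _)
    have h2 := HA11_inv σ hσ S T hT z hz g _ h1
    rw [hg] at h2
    rw [h2]
    ring
  · have h1 : HA11_m σ (Units.map (algebraMap K L : K →* L) X) =
        Units.map (algebraMap K L : K →* L) X := by
      apply Units.ext
      exact σ.commutes (X : K)
    rw [map_div, h1, div_div_div_cancel_right]

theorem h1_le [IsGalois K L] (σ : Gal(L/K)) (hσ : ∀ g : Gal(L/K), g ∈ Subgroup.zpowers σ)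
    (S : Finset (Pl K)) (T : Finset (Pl L)) (hT : ∀ W, W ∈ T ↔ W.under (𝓞 K) ∈ S)
    (hS : GenS (S : Set (Pl K))) (R : Finset (Pl K)) (hR : ∀ v, v ∉ R → es K L v = 1) :
    h1 (Module.finrank K L) (sg σ) (TUa T) ≤ ∏ v ∈ R, es K L v := by
  classical
  have hcyc : IsCyclic Gal(L/K) := ⟨σ, hσ⟩
  choose Wv hWv using under_exists (K := K) (L := L)
  unfold h1
  set Q : AddSubgroup (Additive Lˣ) := TUa T ⊓ (Nm (Module.finrank K L) (sg σ)).ker with hQ
  -- Hilbert 90
  have h90 : ∀ y : Q, ∃ z : Lˣ, z / HA11_m σ z = (y : Additive Lˣ).toMul := by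
    intro y
    have h1 : Nm (Module.finrank K L) (sg σ) (y : Additive Lˣ) = 0 := y.2.2
    have h2 := norm_eq_Nm σ hσ (y : Additive Lˣ).toMul
    have h3 : Additive.ofMul (y : Additive Lˣ).toMul = (y : Additive Lˣ) := rfl
    rw [h3, h1, toMul_zero] at h2
    have h4 : algebraMap K L (Algebra.norm K (((y : Additive Lˣ).toMul : Lˣ) : L)) = 1 := by
      have := congrArg (fun u : Lˣ => (u : L)) h2
      exact this.symm
    have h5 : Algebra.norm K (((y : Additive Lˣ).toMul : Lˣ) : L) = 1 := by
      apply (algebraMap K L).injective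
      rw [h4, map_one]
    obtain ⟨z, hz⟩ := groupCohomology.exists_div_of_norm_eq_one hσ h5
    refine ⟨z, Units.ext ?_⟩
    rw [← hz, Units.val_div_eq_div_val]
    rfl
  choose z hz using h90
  -- the map
  let f : Q → (∀ v : R, ZMod (es K L v)) := fun y v => (ord (Wv v) (z y) : ZMod (es K L v))
  have hf : ∀ y y' : Q, f y = f y' →
      (y : Additive Lˣ) - (y' : Additive Lˣ) ∈ (TUa T).map (Dm (sg σ)) := by
    intro y y' h
    have h1 : z y / z y' / HA11_m σ (z y / z y') =
        ((y : Additive Lˣ) - (y' : Additive Lˣ)).toMul := by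
      rw [map_div, toMul_sub, ← hz y, ← hz y', div_div_div_comm]
    have h2 : z y / z y' / HA11_m σ (z y / z y') ∈ SU (T : Set (Pl L)) := by
      rw [h1]
      exact (TUa T).sub_mem y.2.1 y'.2.1
    have h3 : ∀ v, v ∉ S → (es K L v : ℤ) ∣ ord (Wv v) (z y / z y') := by
      intro v _
      by_cases hv : v ∈ R
      · have h4 : (ord (Wv v) (z y) : ZMod (es K L v)) = (ord (Wv v) (z y') : ZMod (es K L v)) :=
          congrFun h ⟨v, hv⟩
        rw [ZMod.intCast_eq_intCast_iff_dvd_sub] at h4
        rw [div_eq_mul_inv, ord_mul, ord_inv, ← dvd_neg]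
        have h5 : -(ord (Wv v) (z y) + -ord (Wv v) (z y')) = ord (Wv v) (z y') - ord (Wv v) (z y) := by
          ring
        rw [h5]
        exact h4
      · rw [hR v hv]
        exact one_dvd _
    obtain ⟨t, ht, htz⟩ := HA11_ker σ hσ S T hT hS Wv hWv _ h2 h3
    refine ⟨Additive.ofMul t, ht, ?_⟩
    rw [HA11_Dm, htz, h1]
    rfl
  have hfin : Finite (∀ v : R, ZMod (es K L v)) := by
    have : ∀ v : R, NeZero (es K L v) := fun v => ⟨(es_pos (v : Pl K)).ne'⟩
    infer_instance
  have hcard : Nat.card (∀ v : R, ZMod (es K L v)) = ∏ v ∈ R, es K L v := by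
    rw [Nat.card_pi]
    simp only [Nat.card_zmod]
    exact Finset.prod_coe_sort R (fun v => es K L v)
  unfold AddSubgroup.relIndex AddSubgroup.index
  rw [← hcard]
  apply Nat.card_le_card_of_injective
    (fun q : Q ⧸ ((TUa T).map (Dm (sg σ))).addSubgroupOf Q => f q.out)
  intro q q' h
  have h1 := hf _ _ h
  rw [← QuotientAddGroup.out_eq' q, ← QuotientAddGroup.out_eq' q']
  rw [QuotientAddGroup.eq]
  rw [AddSubgroup.mem_addSubgroupOf]
  have h2 := AddSubgroup.neg_mem _ h1
  have h3 : -((q.out : Additive Lˣ) - (q'.out : Additive Lˣ)) =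
      ((-q.out + q'.out : Q) : Additive Lˣ) := by
    rw [AddSubgroup.coe_add, AddSubgroup.coe_neg]
    abel
  rw [h3] at h2
  exact h2

end H55R
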