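import Mathlib
import Pool.Agent.Lib.H55R.HA10
import Pool.Agent.Lib.H55R.HA11

open NumberField IsDedekindDomain

namespace H55R

variable {K L : Type} [Field K] [NumberField K] [Field L] [NumberField L] [Algebra K L]

/-! Chunk HA12 (S/M): h0 is the index of the norms of the T-units in the S-units of K. TUa ∩ ker Dm = the T-units fixed by σ, i.e. the elements of Kˣ
which are T-units, i.e. the image of the S-units of K (ord_map, es_pos, under_exists); the image of TUa under Nm is the image of the norms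
(norm_eq_Nm). The map Kˣ -> Lˣ is injective, so the relative indices agree (Subgroup.relIndex of maps under an injective map; pass between Additive
and multiplicative). norm_mem: the norm of a T-unit is an S-unit. index_bound: herbrand, h1_le. -/

/-- units of K in L -/
noncomputable abbrev HA12_i (K L : Type) [Field K] [Field L] [Algebra K L] : Kˣ →* Lˣ :=
  Units.map (algebraMap K L : K →* L)

theorem HA12_inj : Function.Injective (HA12_i K L) :=
  Units.map_injective (algebraMap K L).injective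

theorem HA12_smul (σ : Gal(L/K)) (W : Pl L) (y : Lˣ) :
    ord W (Units.map ((σ : L ≃ₐ[K] L) : L →* L) y) = ord (smulP σ⁻¹ W) y := by
  have h := ord_smul σ (smulP σ⁻¹ W) y
  rw [← smulP_mul, mul_inv_cancel, smulP_one] at h
  exact h

theorem HA12_norm_prod [IsGalois K L] (y : Lˣ) : HA12_i K L (nrm K L y) =
    ∏ σ : Gal(L/K), Units.map ((σ : L ≃ₐ[K] L) : L →* L) y := by
  ext
  rw [Units.coe_prod]
  exact Algebra.norm_eq_prod_automorphisms K (y : L)

theorem norm_mem [IsGalois K L] (S : Finset (Pl K)) (T : Finset (Pl L))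
    (hT : ∀ W, W ∈ T ↔ W.under (𝓞 K) ∈ S) :
    (SU (T : Set (Pl L))).map (nrm K L) ≤ SU (S : Set (Pl K)) := by
  rintro x ⟨y, hy, rfl⟩ v hv
  obtain ⟨W, hW⟩ := under_exists (K := K) (L := L) v
  have h1 := ord_map W v hW (nrm K L y)
  have h2 : ord W (HA12_i K L (nrm K L y)) = 0 := by
    rw [HA12_norm_prod]
    refine Finset.prod_induction _ (fun x => ord W x = 0) ?_ (ord_one W) ?_
    · intro a b ha hb
      rw [ord_mul, ha, hb, add_zero]
    · intro σ _
      rw [HA12_smul]
      refine hy _ ?_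
      intro h3
      have h4 := (hT _).mp h3
      rw [under_smulP, hW] at h4
      exact hv h4
  have h3 : (es K L v : ℤ) * ord v (nrm K L y) = 0 := by
    rw [← h1]
    exact h2
  rcases mul_eq_zero.mp h3 with h4 | h4
  · exact absurd (by exact_mod_cast h4) (es_pos (K := K) (L := L) v).ne'
  · exact h4

theorem HA12_map [IsGalois K L] (σ : Gal(L/K)) (hσ : ∀ g : Gal(L/K), g ∈ Subgroup.zpowers σ)
    (T : Finset (Pl L)) : (TUa T).map (Nm (Module.finrank K L) (sg σ)) =
      Subgroup.toAddSubgroup (((SU (T : Set (Pl L))).map (nrm K L)).map (HA12_i K L)) := by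
  ext x
  constructor
  · rintro ⟨y, hy, rfl⟩
    exact ⟨nrm K L y.toMul, ⟨y.toMul, hy, rfl⟩, (norm_eq_Nm σ hσ y.toMul).symm⟩
  · rintro ⟨z, ⟨y, hy, rfl⟩, hz⟩
    refine ⟨Additive.ofMul y, hy, ?_⟩
    have h := norm_eq_Nm σ hσ y
    apply Additive.toMul.injective
    rw [h]
    exact hz

theorem HA12_fixed [IsGalois K L] (σ : Gal(L/K)) (hσ : ∀ g : Gal(L/K), g ∈ Subgroup.zpowers σ)
    (x : Lˣ) (hx : σ (x : L) = x) : ∃ k : Kˣ, HA12_i K L k = x := by
  have h1 : ∀ g : Gal(L/K), g (x : L) = x := by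
    intro g
    have h2 : Subgroup.zpowers σ ≤ MulAction.stabilizer (Gal(L/K)) (x : L) := by
      rw [Subgroup.zpowers_le]
      exact hx
    exact h2 (hσ g)
  obtain ⟨k, hk⟩ := (IsGalois.mem_range_algebraMap_iff_fixed (F := K) (x : L)).mpr h1
  have hk0 : k ≠ 0 := by
    rintro rfl
    rw [map_zero] at hk
    exact x.ne_zero hk.symm
  refine ⟨Units.mk0 k hk0, ?_⟩
  ext
  exact hk

theorem HA12_ker [IsGalois K L] (σ : Gal(L/K)) (hσ : ∀ g : Gal(L/K), g ∈ Subgroup.zpowers σ)
    (S : Finset (Pl K)) (T : Finset (Pl L)) (hT : ∀ W, W ∈ T ↔ W.under (𝓞 K) ∈ S) :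
    TUa T ⊓ (Dm (sg σ)).ker =
      Subgroup.toAddSubgroup ((SU (S : Set (Pl K))).map (HA12_i K L)) := by
  ext x
  constructor
  · rintro ⟨hx, hx2⟩
    have h1 : x - sg σ x = 0 := hx2
    have h2 : sg σ x = x := (sub_eq_zero.mp h1).symm
    have h3 : σ (x.toMul : L) = x.toMul := by
      have h4 := congrArg (fun z : Additive Lˣ => ((z.toMul : Lˣ) : L)) h2
      exact h4
    obtain ⟨k, hk⟩ := HA12_fixed σ hσ x.toMul h3
    refine ⟨k, ?_, hk⟩
    intro v hv
    obtain ⟨W, hW⟩ := under_exists (K := K) (L := L) v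
    have h4 := ord_map W v hW k
    have h5 : ord W (HA12_i K L k) = 0 := by
      rw [hk]
      refine hx W ?_
      intro h6
      have h7 := (hT _).mp h6
      rw [hW] at h7
      exact hv h7
    have h6 : (es K L v : ℤ) * ord v k = 0 := by
      rw [← h4]
      exact h5
    rcases mul_eq_zero.mp h6 with h7 | h7
    · exact absurd (by exact_mod_cast h7) (es_pos (K := K) (L := L) v).ne'
    · exact h7
  · rintro ⟨k, hk, hkx⟩
    have hkx' : HA12_i K L k = x.toMul := hkx
    refine ⟨?_, ?_⟩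
    · intro W hW
      change ord W x.toMul = 0
      rw [← hkx', ord_map W _ rfl k, hk _ (fun h => hW ((hT W).mpr h)), mul_zero]
    · change x - sg σ x = 0
      rw [sub_eq_zero]
      apply Additive.toMul.injective
      ext
      change (x.toMul : L) = σ (x.toMul : L)
      rw [← hkx']
      exact (σ.commutes (k : K)).symm

theorem h0_eq [IsGalois K L] (σ : Gal(L/K)) (hσ : ∀ g : Gal(L/K), g ∈ Subgroup.zpowers σ)
    (S : Finset (Pl K)) (T : Finset (Pl L)) (hT : ∀ W, W ∈ T ↔ W.under (𝓞 K) ∈ S) :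
    h0 (Module.finrank K L) (sg σ) (TUa T) =
      ((SU (T : Set (Pl L))).map (nrm K L)).relIndex (SU (S : Set (Pl K))) := by
  unfold h0
  rw [HA12_map σ hσ T, HA12_ker σ hσ S T hT, Subgroup.relIndex_toAddSubgroup,
    Subgroup.relIndex_map_map_of_injective _ _ HA12_inj]

theorem index_bound [IsGalois K L] (σ : Gal(L/K)) (hσ : ∀ g : Gal(L/K), g ∈ Subgroup.zpowers σ)
    (hK : ∀ v : InfinitePlace K, v.IsComplex) (S : Finset (Pl K)) (T : Finset (Pl L))
    (hT : ∀ W, W ∈ T ↔ W.under (𝓞 K) ∈ S) (hS : GenS (S : Set (Pl K))) (R : Finset (Pl K))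
    (hR : ∀ v, v ∉ R → es K L v = 1) :
    ((SU (T : Set (Pl L))).map (nrm K L)).relIndex (SU (S : Set (Pl K))) ≠ 0 ∧
    ((SU (T : Set (Pl L))).map (nrm K L)).relIndex (SU (S : Set (Pl K))) * Module.finrank K L ≤
      (∏ v ∈ R, es K L v) * ∏ v ∈ S, (es K L v * fs K L v) := by
  obtain ⟨h1, h2, h3⟩ := herbrand σ hσ hK S T hT
  rw [← h0_eq σ hσ S T hT]
  refine ⟨h1, ?_⟩
  rw [h3]
  exact Nat.mul_le_mul_right _ (h1_le σ hσ S T hT hS R hR)

end H55R
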