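import Mathlib
import Pool.Agent.Lib.H55R.Defs

open NumberField IsDedekindDomain

namespace H55R

/-! Chunk HC1 (M, pure algebra): counting characters.
card_pow: the group of characters of a finite cyclic group of order c is cyclic of order c (CommGroup.monoidHom_mulEquiv_of_hasEnoughRootsOfUnity or:
a character is determined by the image of a generator, any c-th root of unity), so for e dividing c exactly e characters satisfy χ^e = 1, i.e. (χ x)^e = 1 for all x
(IsCyclic.card_pow_eq_one_eq... or IsCyclic.card_pow_eq_one). The group (𝓞 K ⧸ v)ˣ is cyclic of order absNorm v - 1 (units of a finite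
field; Ideal.absNorm is the cardinality of the quotient). card_root: the number of z in ℂˣ with z^k = 1 is k (Complex.card_rootsOfUnity).
dual_count: the restriction x -> (Ψ x restricted to U, factored through U/N) is a homomorphism from X to the group of characters of the finite
commutative group U/N, which has k elements (CommGroup.card_monoidHom_of_hasEnoughRootsOfUnity), with kernel {x | Ψ x = 1 on U}. -/

theorem card_root (k : ℕ) (hk : 0 < k) : Nat.card {z : ℂˣ // z ^ k = 1} = k := by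
  have : NeZero k := ⟨hk.ne'⟩
  exact (Nat.card_congr (Equiv.subtypeEquivRight fun z => (mem_rootsOfUnity k z).symm)).trans
    (Complex.card_rootsOfUnity k)

theorem hc1_cyc {G : Type} [Group G] [IsCyclic G] (e : ℕ) (he : e ∣ Nat.card G) (he0 : 0 < e) :
    Nat.card {χ : G →* ℂˣ // ∀ x, χ x ^ e = 1} = e := by
  obtain ⟨g, hg⟩ := IsCyclic.exists_generator (α := G)
  refine Eq.trans ?_ (card_root e he0)
  have hord : orderOf g = Nat.card G := orderOf_eq_card_of_forall_mem_zpowers hg
  refine Nat.card_congr (Equiv.ofBijective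
    (fun χ : {χ : G →* ℂˣ // ∀ x, χ x ^ e = 1} =>
      (⟨χ.1 g, χ.2 g⟩ : {z : ℂˣ // z ^ e = 1})) ⟨?_, ?_⟩)
  · intro χ ψ h
    have h1 : χ.1 g = ψ.1 g := congrArg Subtype.val h
    apply Subtype.ext
    refine MonoidHom.ext fun x => ?_
    obtain ⟨k, rfl⟩ := Subgroup.mem_zpowers_iff.1 (hg x)
    rw [map_zpow, map_zpow, h1]
  · rintro ⟨z, hz⟩
    have hd : orderOf z ∣ orderOf g := by
      rw [hord]
      exact (orderOf_dvd_of_pow_eq_one hz).trans he
    refine ⟨⟨monoidHomOfForallMemZpowers hg hd, fun x => ?_⟩, Subtype.ext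
      (monoidHomOfForallMemZpowers_apply_gen hg hd)⟩
    obtain ⟨k, rfl⟩ := Subgroup.mem_zpowers_iff.1 (hg x)
    rw [map_zpow, monoidHomOfForallMemZpowers_apply_gen, ← zpow_natCast, ← zpow_mul, mul_comm,
      zpow_mul, zpow_natCast, hz, one_zpow]

theorem card_pow {K : Type} [Field K] [NumberField K] (v : Pl K) (e : ℕ)
    (he : e ∣ Ideal.absNorm v.asIdeal - 1) (he0 : 0 < e) :
    Nat.card {χ : (𝓞 K ⧸ v.asIdeal)ˣ →* ℂˣ // ∀ x, χ x ^ e = 1} = e := by
  have : v.asIdeal.IsMaximal := v.isMaximal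
  have : Finite (𝓞 K ⧸ v.asIdeal) := Ideal.finiteQuotientOfFreeOfNeBot _ v.ne_bot
  let : Field (𝓞 K ⧸ v.asIdeal) := Ideal.Quotient.field v.asIdeal
  have hcard : Nat.card (𝓞 K ⧸ v.asIdeal)ˣ = Ideal.absNorm v.asIdeal - 1 := by
    rw [Nat.card_units, Ideal.absNorm_apply, Submodule.cardQuot_apply]
  have : IsCyclic (𝓞 K ⧸ v.asIdeal)ˣ := inferInstance
  exact hc1_cyc e (hcard ▸ he) he0

theorem dual_count {X G : Type} [CommGroup X] [Finite X] [CommGroup G] (U N : Subgroup G)
    (hN : N ≤ U) (hk : N.relIndex U ≠ 0) (Ψ : X →* (G →* ℂˣ)) (hΨ : ∀ x, ∀ g ∈ N, Ψ x g = 1) :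
    Nat.card X ≤ N.relIndex U * Nat.card {x : X // ∀ g ∈ U, Ψ x g = 1} := by
  have hindex : N.relIndex U = Nat.card (U ⧸ N.subgroupOf U) := rfl
  have hfin : Finite (U ⧸ N.subgroupOf U) := Nat.finite_of_card_ne_zero (hindex ▸ hk)
  have hker : ∀ x : X, N.subgroupOf U ≤ ((Ψ x).comp U.subtype).ker := by
    intro x g hg
    rw [MonoidHom.mem_ker]
    exact hΨ x g.1 (Subgroup.mem_subgroupOf.1 hg)
  let r : X →* ((U ⧸ N.subgroupOf U) →* ℂˣ) :=
    { toFun := fun x => QuotientGroup.lift (N.subgroupOf U) ((Ψ x).comp U.subtype) (hker x)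
      map_one' := by
        refine MonoidHom.ext fun q => ?_
        obtain ⟨g, rfl⟩ := QuotientGroup.mk_surjective q
        change Ψ 1 g.1 = 1
        rw [map_one]
        rfl
      map_mul' := fun x y => by
        refine MonoidHom.ext fun q => ?_
        obtain ⟨g, rfl⟩ := QuotientGroup.mk_surjective q
        change Ψ (x * y) g.1 = Ψ x g.1 * Ψ y g.1
        rw [map_mul]
        rfl }
  have hr : ∀ (x : X) (g : U), r x (QuotientGroup.mk g) = Ψ x g.1 := fun x g => rfl
  have hexp : Monoid.exponent (U ⧸ N.subgroupOf U) ≠ 0 := Monoid.exponent_ne_zero_of_finite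
  have : NeZero ((Monoid.exponent (U ⧸ N.subgroupOf U) : ℕ) : ℂ) := ⟨Nat.cast_ne_zero.2 hexp⟩
  have hdual : Nat.card ((U ⧸ N.subgroupOf U) →* ℂˣ) = N.relIndex U := by
    rw [hindex]
    exact CommGroup.card_monoidHom_of_hasEnoughRootsOfUnity (U ⧸ N.subgroupOf U) ℂ
  have hfd : Finite ((U ⧸ N.subgroupOf U) →* ℂˣ) := Nat.finite_of_card_ne_zero (hdual ▸ hk)
  have h1 : Nat.card X = Nat.card (X ⧸ r.ker) * Nat.card r.ker :=
    Subgroup.card_eq_card_quotient_mul_card_subgroup r.ker
  have h2 : Nat.card (X ⧸ r.ker) ≤ N.relIndex U := by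
    rw [← hdual, Nat.card_congr (QuotientGroup.quotientKerEquivRange r).toEquiv]
    exact Nat.card_le_card_of_injective Subtype.val Subtype.val_injective
  have h3 : Nat.card r.ker = Nat.card {x : X // ∀ g ∈ U, Ψ x g = 1} := by
    refine Nat.card_congr (Equiv.subtypeEquivRight fun x => ?_)
    rw [MonoidHom.mem_ker]
    constructor
    · intro h g hg
      rw [← hr x ⟨g, hg⟩, h]
      rfl
    · intro h
      refine MonoidHom.ext fun q => ?_
      obtain ⟨g, rfl⟩ := QuotientGroup.mk_surjective q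
      rw [hr, h g.1 g.2]
      rfl
  rw [h1, h3]
  exact Nat.mul_le_mul_right _ h2

end H55R
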