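import Mathlib
import Pool.Agent.Lib.H55R.Defs

open NumberField IsDedekindDomain

namespace H55R

variable {K : Type} [Field K] [NumberField K]

/-! Chunk HB1 (M): the residue map. Choose p in 𝓞 K of order exactly 1 at v (an element of v not in v^2), as an element of Kˣ. Every x in Kˣ of order 0 at
v is a/b with a, b in 𝓞 K, not in v: (x) = I/J with coprime integral ideals I, J, J not contained in v; choose b in J, b not in v; then
a = x b is integral (its order is >= 0 everywhere) and has order 0 at v. (Or: x is in the localisation at v, use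
HeightOneSpectrum.valuation_le_one_iff / IsLocalization.AtPrime and IsLocalization.mk'_surjective.) Put res x = a/b mod v (well defined: a b' = a' b), multiplicative on the elements
of order 0, and resv x = res (x p^(- ord v x)). -/

theorem HB1_val (v : Pl K) (x : Kˣ) : v.valuation K (x : K) =
    ((Multiplicative.ofAdd (-ord v x) : Multiplicative ℤ) : WithZero (Multiplicative ℤ)) := by
  rw [← HeightOneSpectrum.valuationOfNeZero_eq]
  unfold ord
  rw [neg_neg]
  rfl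

theorem HB1_ord_zero (v : Pl K) (x : Kˣ) : ord v x = 0 ↔ v.valuation K (x : K) = 1 := by
  rw [HB1_val]
  constructor
  · intro h
    rw [h]
    rfl
  · intro h
    have h1 : (Multiplicative.ofAdd (-ord v x) : Multiplicative ℤ) = 1 := by
      exact WithZero.coe_injective h
    have h2 : -ord v x = 0 := by
      have := congrArg Multiplicative.toAdd h1
      simpa using this
    linarith

theorem exists_frac (v : Pl K) (x : Kˣ) (hx : ord v x = 0) : ∃ a b : 𝓞 K, a ∉ v.asIdeal ∧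
    b ∉ v.asIdeal ∧ (x : K) = a / b := by
  have h1 := (HB1_ord_zero v x).1 hx
  obtain ⟨n, d, h⟩ := HeightOneSpectrum.exists_primeCompl_mul_eq_of_integer v (x : K) h1.le
  have hd : (d : 𝓞 K) ∉ v.asIdeal := d.2
  have hd1 : v.valuation K (algebraMap (𝓞 K) K (d : 𝓞 K)) = 1 :=
    (HeightOneSpectrum.valuation_eq_one_iff_notMem (K := K) v).2 hd
  have hn1 : v.valuation K (algebraMap (𝓞 K) K n) = 1 := by
    rw [← h, map_mul, h1, hd1, mul_one]
  have hn : n ∉ v.asIdeal := (HeightOneSpectrum.valuation_eq_one_iff_notMem (K := K) v).1 hn1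
  refine ⟨n, d, hn, hd, ?_⟩
  have hd0 : (algebraMap (𝓞 K) K (d : 𝓞 K)) ≠ 0 := by
    intro h0
    rw [h0, map_zero] at hd1
    exact zero_ne_one hd1
  exact (eq_div_iff hd0).2 h

theorem HB1_unit (v : Pl K) (a : 𝓞 K) (ha : a ∉ v.asIdeal) :
    IsUnit (Ideal.Quotient.mk v.asIdeal a) := by
  have hmax : v.asIdeal.IsMaximal := v.isMaximal
  obtain ⟨y, i, hi, h⟩ := hmax.exists_inv ha
  apply IsUnit.of_mul_eq_one (Ideal.Quotient.mk v.asIdeal y)
  rw [← map_mul, mul_comm, ← map_one (Ideal.Quotient.mk v.asIdeal), Ideal.Quotient.eq]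
  have h2 : y * a - 1 = -i := by
    rw [← h]
    ring
  rw [h2]
  exact neg_mem hi

theorem HB1_ex (v : Pl K) (x : Kˣ) (hx : ord v x = 0) : ∃ y : (𝓞 K ⧸ v.asIdeal)ˣ,
    ∀ a b : 𝓞 K, a ∉ v.asIdeal → b ∉ v.asIdeal → (x : K) = a / b →
      (y : 𝓞 K ⧸ v.asIdeal) * Ideal.Quotient.mk v.asIdeal b = Ideal.Quotient.mk v.asIdeal a := by
  obtain ⟨a₀, b₀, ha₀, hb₀, hx₀⟩ := exists_frac v x hx
  obtain ⟨ua, hua⟩ := HB1_unit v a₀ ha₀
  obtain ⟨ub, hub⟩ := HB1_unit v b₀ hb₀
  refine ⟨ua * ub⁻¹, ?_⟩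
  intro a b ha hb hab
  have hb0 : (b : K) ≠ 0 := by
    intro h0
    apply hb
    have : b = 0 := by exact_mod_cast h0
    rw [this]
    exact zero_mem _
  have hb₀0 : (b₀ : K) ≠ 0 := by
    intro h0
    apply hb₀
    have : b₀ = 0 := by exact_mod_cast h0
    rw [this]
    exact zero_mem _
  have h1 : a₀ * b = a * b₀ := by
    have h2 : (a₀ : K) / b₀ = a / b := hx₀.symm.trans hab
    rw [div_eq_div_iff hb₀0 hb0] at h2
    exact_mod_cast h2
  have h3 : (ua : 𝓞 K ⧸ v.asIdeal) * Ideal.Quotient.mk v.asIdeal b =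
      Ideal.Quotient.mk v.asIdeal a * ub := by
    rw [hua, hub, ← map_mul, h1, map_mul]
  rw [Units.val_mul, mul_assoc, mul_comm ((ub⁻¹ : (𝓞 K ⧸ v.asIdeal)ˣ) : 𝓞 K ⧸ v.asIdeal),
    ← mul_assoc, h3, mul_assoc, Units.mul_inv, mul_one]

theorem HB1_pi (v : Pl K) : ∃ p : Kˣ, ord v p = 1 := by
  obtain ⟨p, hp⟩ := HeightOneSpectrum.valuation_exists_uniformizer K v
  have hp0 : p ≠ 0 := by
    rintro rfl
    rw [map_zero] at hp
    exact WithZero.zero_ne_coe hp
  refine ⟨Units.mk0 p hp0, ?_⟩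
  have h1 := HB1_val v (Units.mk0 p hp0)
  rw [Units.val_mk0, hp] at h1
  have h2 := WithZero.coe_injective h1
  have h3 := congrArg Multiplicative.toAdd h2
  have h4 : (-1 : ℤ) = -ord v (Units.mk0 p hp0) := h3
  linarith

theorem exists_res (v : Pl K) : ∃ r : Kˣ →* (𝓞 K ⧸ v.asIdeal)ˣ, ∀ (a : 𝓞 K) (x : Kˣ),
    (x : K) = a → a ∉ v.asIdeal → ((r x : (𝓞 K ⧸ v.asIdeal)ˣ) : 𝓞 K ⧸ v.asIdeal) =
      Ideal.Quotient.mk v.asIdeal a := by
  obtain ⟨p, hp⟩ := HB1_pi v
  have hex := HB1_ex v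
  choose! f hf using hex
  have hmul : ∀ x y : Kˣ, ord v x = 0 → ord v y = 0 → f (x * y) = f x * f y := by
    intro x y hx hy
    obtain ⟨a, b, ha, hb, hab⟩ := exists_frac v x hx
    obtain ⟨c, d, hc, hd, hcd⟩ := exists_frac v y hy
    have hac : a * c ∉ v.asIdeal := fun h => (v.isPrime.mem_or_mem h).elim ha hc
    have hbd : b * d ∉ v.asIdeal := fun h => (v.isPrime.mem_or_mem h).elim hb hd
    have h1 := hf x hx a b ha hb hab
    have h2 := hf y hy c d hc hd hcd
    have h3 := hf (x * y) (by rw [ord_mul, hx, hy, add_zero]) (a * c) (b * d) hac hbd (by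
      rw [Units.val_mul, hab, hcd]
      push_cast
      rw [div_mul_div_comm])
    obtain ⟨u, hu⟩ := HB1_unit v (b * d) hbd
    apply Units.ext
    have h4 : (f (x * y) : 𝓞 K ⧸ v.asIdeal) * u = (f x * f y : (𝓞 K ⧸ v.asIdeal)ˣ) * u := by
      rw [hu, h3, map_mul, map_mul, ← h1, ← h2, Units.val_mul]
      exact mul_mul_mul_comm _ _ _ _
    exact (Units.mul_left_inj u).1 h4
  have hg : ∀ x : Kˣ, ord v (x * p ^ (-ord v x)) = 0 := by
    intro x
    rw [ord_mul, ord_zpow, hp]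
    ring
  refine ⟨MonoidHom.mk' (fun x => f (x * p ^ (-ord v x))) ?_, ?_⟩
  · intro x y
    rw [← hmul _ _ (hg x) (hg y)]
    congr 1
    rw [ord_mul, neg_add, zpow_add]
    exact mul_mul_mul_comm _ _ _ _
  · intro a x hx ha
    have h0 : ord v x = 0 := by
      rw [HB1_ord_zero, hx]
      exact (HeightOneSpectrum.valuation_eq_one_iff_notMem (K := K) v).2 ha
    have h1 : (1 : 𝓞 K) ∉ v.asIdeal := fun h => v.isPrime.ne_top ((Ideal.eq_top_iff_one _).2 h)
    have h2 := hf x h0 a 1 ha h1 (by rw [hx]; simp)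
    rw [map_one, mul_one] at h2
    show ((f (x * p ^ (-ord v x)) : (𝓞 K ⧸ v.asIdeal)ˣ) : 𝓞 K ⧸ v.asIdeal) = _
    rw [h0, neg_zero, zpow_zero, mul_one]
    exact h2

/-- The residue map at v (meaningful on the elements of order 0). -/
noncomputable def resv (v : Pl K) : Kˣ →* (𝓞 K ⧸ v.asIdeal)ˣ := (exists_res v).choose

theorem resv_apply (v : Pl K) (a : 𝓞 K) (x : Kˣ) (h : (x : K) = a) (ha : a ∉ v.asIdeal) :
    ((resv v x : (𝓞 K ⧸ v.asIdeal)ˣ) : 𝓞 K ⧸ v.asIdeal) = Ideal.Quotient.mk v.asIdeal a :=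
  (exists_res v).choose_spec a x h ha

end H55R
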