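import Mathlib
import Pool.Agent.Lib.H55R.HB1

/-! # H55R: definitions for the construction of characters -/

open NumberField IsDedekindDomain

namespace H55R

variable {K : Type} [Field K] [NumberField K]

/-- Local data: characters of the residue fields at R and values at S. -/
abbrev XX (R S : Finset (Pl K)) : Type :=
  ((w : R) → ((𝓞 K ⧸ w.1.asIdeal)ˣ →* ℂˣ)) × (S → ℂˣ)

/-- The character of Kˣ defined by local data. -/
noncomputable def Psi (R S : Finset (Pl K)) : XX R S →* (Kˣ →* ℂˣ) where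
  toFun q :=
    { toFun := fun x => (∏ w : R, q.1 w (resv w.1 x)) * ∏ s : S, q.2 s ^ ord s.1 x
      map_one' := by simp [ord_one]
      map_mul' := fun x y => by
        simp only [map_mul, ord_mul, zpow_add, Finset.prod_mul_distrib]
        exact mul_mul_mul_comm _ _ _ _ }
  map_one' := by
    ext x
    simp
  map_mul' q r := by
    apply MonoidHom.ext
    intro x
    simp only [MonoidHom.coe_mk, OneHom.coe_mk, Prod.fst_mul, Prod.snd_mul, Pi.mul_apply,
      MonoidHom.mul_apply, mul_zpow, Finset.prod_mul_distrib]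
    exact mul_mul_mul_comm _ _ _ _

theorem Psi_apply (R S : Finset (Pl K)) (q : XX R S) (x : Kˣ) :
    Psi R S q x = (∏ w : R, q.1 w (resv w.1 x)) * ∏ s : S, q.2 s ^ ord s.1 x := rfl

open Classical in
/-- The character defined by local data; xs v generates v up to primes in S. -/
noncomputable def phi (f : Ideal (𝓞 K)) (R S : Finset (Pl K)) (xs : Pl K → Kˣ) :
    XX R S →* (Pl K → ℂˣ) where
  toFun q := fun v => if f ≤ v.asIdeal then 1 else if h : v ∈ S then q.2 ⟨v, h⟩ else
    (Psi R S q (xs v))⁻¹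
  map_one' := by
    funext v
    by_cases h : f ≤ v.asIdeal
    · rw [if_pos h, Pi.one_apply]
    · rw [if_neg h]
      by_cases h' : v ∈ S
      · rw [dif_pos h']
        rfl
      · rw [dif_neg h', map_one, MonoidHom.one_apply, inv_one, Pi.one_apply]
  map_mul' q r := by
    funext v
    rw [Pi.mul_apply]
    by_cases h : f ≤ v.asIdeal
    · rw [if_pos h, if_pos h, if_pos h, mul_one]
    · rw [if_neg h, if_neg h, if_neg h]
      by_cases h' : v ∈ S
      · rw [dif_pos h', dif_pos h', dif_pos h']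
        rfl
      · rw [dif_neg h', dif_neg h', dif_neg h', map_mul, MonoidHom.mul_apply, mul_inv]

theorem phi_of_dvd (f : Ideal (𝓞 K)) (R S : Finset (Pl K)) (xs : Pl K → Kˣ) (q : XX R S) (v : Pl K)
    (h : f ≤ v.asIdeal) : phi f R S xs q v = 1 := if_pos h

open Classical in
theorem phi_of_mem (f : Ideal (𝓞 K)) (R S : Finset (Pl K)) (xs : Pl K → Kˣ) (q : XX R S) (v : Pl K)
    (h : ¬ f ≤ v.asIdeal) (h' : v ∈ S) : phi f R S xs q v = q.2 ⟨v, h'⟩ := by
  have h1 : phi f R S xs q v = if f ≤ v.asIdeal then 1 else if h : v ∈ S then q.2 ⟨v, h⟩ else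
    (Psi R S q (xs v))⁻¹ := rfl
  rw [h1, if_neg h, dif_pos h']

open Classical in
theorem phi_of_not_mem (f : Ideal (𝓞 K)) (R S : Finset (Pl K)) (xs : Pl K → Kˣ) (q : XX R S)
    (v : Pl K) (h : ¬ f ≤ v.asIdeal) (h' : v ∉ S) :
    phi f R S xs q v = (Psi R S q (xs v))⁻¹ := by
  have h1 : phi f R S xs q v = if f ≤ v.asIdeal then 1 else if h : v ∈ S then q.2 ⟨v, h⟩ else
    (Psi R S q (xs v))⁻¹ := rfl
  rw [h1, if_neg h, dif_neg h']

/-- Local data of the right orders. -/
def X0 (K L : Type) [Field K] [NumberField K] [Field L] [NumberField L] [Algebra K L]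
    (R S : Finset (Pl K)) : Subgroup (XX R S) where
  carrier := {q | (∀ (w : R) (x : (𝓞 K ⧸ w.1.asIdeal)ˣ), q.1 w x ^ es K L w.1 = 1) ∧
    ∀ s : S, q.2 s ^ fs K L s.1 = 1}
  mul_mem' := by
    rintro q r ⟨h1, h2⟩ ⟨h3, h4⟩
    refine ⟨fun w x => ?_, fun s => ?_⟩
    · have h : (q * r).1 w x = q.1 w x * r.1 w x := rfl
      rw [h, mul_pow, h1 w x, h3 w x, mul_one]
    · have h : (q * r).2 s = q.2 s * r.2 s := rfl
      rw [h, mul_pow, h2 s, h4 s, mul_one]
  one_mem' := ⟨fun w x => one_pow _, fun s => one_pow _⟩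
  inv_mem' := by
    rintro q ⟨h1, h2⟩
    refine ⟨fun w x => ?_, fun s => ?_⟩
    · have h : (q⁻¹).1 w x = (q.1 w x)⁻¹ := rfl
      rw [h, inv_pow, h1 w x, inv_one]
    · have h : (q⁻¹).2 s = (q.2 s)⁻¹ := rfl
      rw [h, inv_pow, h2 s, inv_one]

/-- xs v generates v up to primes in S. -/
def GenX (S : Finset (Pl K)) (xs : Pl K → Kˣ) : Prop :=
  ∀ v : Pl K, (v ∉ S → ord v (xs v) = 1) ∧ ∀ u : Pl K, u ∉ S → u ≠ v → ord u (xs v) = 0

end H55R
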