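import Mathlib
import Pool.Agent.Lib.H55R.HCD
import Pool.Agent.Lib.H55R.HC1
import Pool.Agent.Lib.H55R.BF2

open NumberField IsDedekindDomain

namespace H55R

/-! Chunk HC2 (S/M): the number of local data. X0 K L R S is (as a set) the product over w in R of {χ | for all x, (χ x)^(e_w) = 1} (card_pow) and
over s in S of {z | z^(f_s) = 1} (card_root): Nat.card_pi, Nat.card_prod, Equiv of subtypes; es_pos, fs_pos; finite because the product is
nonzero (Nat.finite_of_card_ne_zero) or directly. -/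

def hc2_equiv (K L : Type) [Field K] [NumberField K] [Field L] [NumberField L] [Algebra K L]
    (R S : Finset (Pl K)) :
    X0 K L R S ≃ ((w : R) → {χ : (𝓞 K ⧸ w.1.asIdeal)ˣ →* ℂˣ // ∀ x, χ x ^ es K L w.1 = 1}) ×
      ((s : S) → {z : ℂˣ // z ^ fs K L s.1 = 1}) where
  toFun q := (fun w => ⟨q.1.1 w, fun x => q.2.1 w x⟩, fun s => ⟨q.1.2 s, q.2.2 s⟩)
  invFun p := ⟨(fun w => (p.1 w).1, fun s => (p.2 s).1), ⟨fun w x => (p.1 w).2 x,
    fun s => (p.2 s).2⟩⟩
  left_inv _ := rfl
  right_inv _ := rfl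

theorem card_X0 (K L : Type) [Field K] [NumberField K] [Field L] [NumberField L] [Algebra K L]
    [IsGalois K L] (R S : Finset (Pl K))
    (ht : ∀ w ∈ R, es K L w ∣ Ideal.absNorm w.asIdeal - 1) :
    Finite (X0 K L R S) ∧
      Nat.card (X0 K L R S) = (∏ w ∈ R, es K L w) * ∏ s ∈ S, fs K L s := by
  have hcard : Nat.card (X0 K L R S) = (∏ w ∈ R, es K L w) * ∏ s ∈ S, fs K L s := by
    rw [Nat.card_congr (hc2_equiv K L R S), Nat.card_prod, Nat.card_pi, Nat.card_pi,
      ← Finset.prod_coe_sort R (fun w => es K L w), ← Finset.prod_coe_sort S (fun s => fs K L s)]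
    congr 1
    · exact Finset.prod_congr rfl fun w _ => card_pow w.1 (es K L w.1) (ht w.1 w.2) (es_pos w.1)
    · exact Finset.prod_congr rfl fun s _ => card_root (fs K L s.1) (fs_pos s.1)
  refine ⟨Nat.finite_of_card_ne_zero ?_, hcard⟩
  rw [hcard]
  exact mul_ne_zero (Finset.prod_ne_zero_iff.2 fun w _ => (es_pos w).ne')
    (Finset.prod_ne_zero_iff.2 fun s _ => (fs_pos s).ne')

end H55R
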