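import Mathlib
import Pool.Agent.Lib.H55R.BF1
import Pool.Agent.Lib.H55R.HCD

open NumberField IsDedekindDomain

namespace H55R

variable {K : Type} [Field K] [NumberField K]

/-! Chunk HC4 (M): values at principal ideals. pv_elem: the multiset of prime factors of (x) contains v exactly ord v x times
(ord_int of chunk BF1, or the count of v in the factorisation; Finset/Multiset.prod over the distinct factors, Finset.prod_multiset_map_count);
the factors v in U not containing x have order 0.
phi_elem: let U be the set of the primes containing x; none contains f. By pv_elem pv φ (x) = product over v in U of φ(v)^(ord v y). Let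
z = y * product over v in U, v not in S, of (xs v)^(- ord v y); z is an S-unit (GenX; for u in neither U nor S all orders are 0), so Psi z = 1:
Psi y = product over v in U minus S of Psi (xs v)^(ord v y). With phi_of_mem and phi_of_not_mem pv φ (x) = (product over s in S of
q.2 s ^ ord s y) * (Psi y)^-1 = (product over R of q.1 w (resv w y))^-1 (Psi_apply; ord s y = 0 for s in S not in U). -/

theorem HC4_prod {ι : Type} (W : Pl K) (s : Finset ι) (f : ι → Kˣ) :
    ord W (∏ i ∈ s, f i) = ∑ i ∈ s, ord W (f i) := by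
  classical
  induction s using Finset.induction_on with
  | empty => rw [Finset.prod_empty, Finset.sum_empty, ord_one]
  | insert a s ha ih => rw [Finset.prod_insert ha, Finset.sum_insert ha, ord_mul, ih]

open Classical in
theorem HC4_count (x : 𝓞 K) (y : Kˣ) (h : (y : K) = x) (v : Pl K) :
    ((UniqueFactorizationMonoid.normalizedFactors (Ideal.span {x})).count v.asIdeal : ℤ) =
      ord v y := by
  have h0 : (0 : ℤ) ≤ ord v y := by
    have := (ord_int v x y h 0).2 (by simp)
    exact_mod_cast this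
  obtain ⟨n, hn⟩ := Int.eq_ofNat_of_zero_le h0
  have hp := v.isPrime
  rw [hn]
  congr 1
  apply Ideal.count_normalizedFactors_eq
  · rw [Ideal.span_singleton_le_iff_mem, ← ord_int v x y h, hn]
  · rw [Ideal.span_singleton_le_iff_mem, ← ord_int v x y h, hn]
    push_cast
    omega

theorem HC4_zero (x : 𝓞 K) (y : Kˣ) (h : (y : K) = x) (v : Pl K) (hv : x ∉ v.asIdeal) :
    ord v y = 0 := by
  have h0 : (0 : ℤ) ≤ ord v y := by
    have := (ord_int v x y h 0).2 (by simp)
    exact_mod_cast this
  have h1 : ¬ ((1 : ℕ) : ℤ) ≤ ord v y := by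
    rw [ord_int v x y h, pow_one]
    exact hv
  push_cast at h1
  omega

theorem HC4_ne (x : 𝓞 K) (y : Kˣ) (h : (y : K) = x) : x ≠ 0 := by
  rintro rfl
  apply y.ne_zero
  rw [h]
  simp

theorem pv_elem (φ : Pl K → ℂˣ) (x : 𝓞 K) (y : Kˣ) (h : (y : K) = x) (U : Finset (Pl K))
    (hU : ∀ v : Pl K, x ∈ v.asIdeal → v ∈ U) :
    pv φ (Ideal.span {x}) = ∏ v ∈ U, φ v ^ ord v y := by
  classical
  unfold pv
  rw [Finset.prod_multiset_map_count]
  have h1 : (UniqueFactorizationMonoid.normalizedFactors (Ideal.span {x})).toFinset ⊆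
      U.image HeightOneSpectrum.asIdeal := by
    intro P hP
    rw [Multiset.mem_toFinset] at hP
    have hpr := UniqueFactorizationMonoid.prime_of_normalized_factor P hP
    have hdvd := UniqueFactorizationMonoid.dvd_of_mem_normalizedFactors hP
    have hP1 : P.IsPrime := Ideal.isPrime_of_prime hpr
    rw [Finset.mem_image]
    refine ⟨⟨P, hP1, hpr.ne_zero⟩, hU _ ?_, rfl⟩
    exact Ideal.dvd_span_singleton.1 hdvd
  rw [Finset.prod_subset h1]
  · rw [Finset.prod_image]
    · refine Finset.prod_congr rfl fun v _ => ?_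
      have hv : v.asIdeal.IsPrime ∧ v.asIdeal ≠ ⊥ := ⟨v.isPrime, v.ne_bot⟩
      rw [dif_pos hv, ← HC4_count x y h v, zpow_natCast]
    · intro v _ w _ hvw
      exact HeightOneSpectrum.ext hvw
  · intro P _ hP
    rw [Multiset.mem_toFinset] at hP
    rw [Multiset.count_eq_zero_of_notMem hP, pow_zero]

theorem phi_elem (f : Ideal (𝓞 K)) (R S : Finset (Pl K)) (xs : Pl K → Kˣ) (q : XX R S)
    (hR : ∀ v : Pl K, v ∈ R ↔ f ≤ v.asIdeal) (hS : ∀ v ∈ S, ¬ f ≤ v.asIdeal)
    (hxs : GenX S xs) (hq : ∀ x ∈ SU (S : Set (Pl K)), Psi R S q x = 1) (x : 𝓞 K) (y : Kˣ)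
    (h : (y : K) = x) (hx : IsCoprime (Ideal.span {x}) f) :
    pv (phi f R S xs q) (Ideal.span {x}) = (∏ w : R, q.1 w (resv w.1 y))⁻¹ := by
  classical
  have hx0 := HC4_ne x y h
  have hfin : {v : Pl K | x ∈ v.asIdeal}.Finite := by
    have h1 := Ideal.finite_factors (I := Ideal.span {x}) (by
      intro h2
      exact hx0 (Ideal.span_singleton_eq_bot.1 h2))
    refine h1.subset fun v hv => ?_
    exact Ideal.dvd_span_singleton.2 hv
  set U := hfin.toFinset with hUdef
  have hU : ∀ v : Pl K, v ∈ U ↔ x ∈ v.asIdeal := fun v => by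
    rw [hUdef, Set.Finite.mem_toFinset]
    rfl
  have hUf : ∀ v ∈ U, ¬ f ≤ v.asIdeal := by
    intro v hv hf
    rw [Ideal.isCoprime_iff_sup_eq] at hx
    apply v.isPrime.ne_top
    rw [eq_top_iff, ← hx]
    exact sup_le ((Ideal.span_singleton_le_iff_mem _).2 ((hU v).1 hv)) hf
  rw [pv_elem _ x y h U fun v hv => (hU v).2 hv,
    ← Finset.prod_filter_mul_prod_filter_not U (fun v => v ∈ S)]
  have e1 : ∏ v ∈ U.filter (fun v => v ∈ S), phi f R S xs q v ^ ord v y =
      ∏ s : S, q.2 s ^ ord s.1 y := by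
    have e2 : ∏ s : S, q.2 s ^ ord s.1 y = ∏ s : S, phi f R S xs q s.1 ^ ord s.1 y := by
      refine Finset.prod_congr rfl fun s _ => ?_
      rw [phi_of_mem f R S xs q s.1 (hS s.1 s.2) s.2]
    rw [e2, Finset.prod_coe_sort S fun v => phi f R S xs q v ^ ord v y]
    refine Finset.prod_subset (fun v hv => (Finset.mem_filter.1 hv).2) ?_
    intro v hv hv2
    rw [HC4_zero x y h v, zpow_zero]
    intro h3
    exact hv2 (Finset.mem_filter.2 ⟨(hU v).2 h3, hv⟩)
  have hz : y * ∏ v ∈ U.filter (fun v => v ∉ S), (xs v) ^ (-ord v y) ∈ SU (S : Set (Pl K)) := by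
    intro u hu
    rw [Finset.mem_coe] at hu
    rw [ord_mul, HC4_prod]
    simp only [ord_zpow]
    by_cases huU : u ∈ U
    · rw [Finset.sum_eq_single u, (hxs u).1 hu]
      · ring
      · intro v _ hne
        rw [(hxs v).2 u hu hne.symm, mul_zero]
      · intro h3
        exact absurd (Finset.mem_filter.2 ⟨huU, hu⟩) h3
    · rw [HC4_zero x y h u fun h3 => huU ((hU u).2 h3), zero_add]
      refine Finset.sum_eq_zero fun v hv => ?_
      rw [(hxs v).2 u hu, mul_zero]
      rintro rfl
      exact huU (Finset.mem_filter.1 hv).1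
  have h4 := hq _ hz
  rw [map_mul, map_prod] at h4
  have e3 : ∏ v ∈ U.filter (fun v => ¬ v ∈ S), phi f R S xs q v ^ ord v y = (Psi R S q y)⁻¹ := by
    rw [← mul_eq_one_iff_eq_inv, mul_comm, ← h4]
    congr 1
    refine Finset.prod_congr rfl fun v hv => ?_
    rw [Finset.mem_filter] at hv
    rw [phi_of_not_mem f R S xs q v (hUf v hv.1) hv.2, map_zpow, inv_zpow, zpow_neg]
  rw [e1, e3, Psi_apply, mul_inv, mul_comm, mul_assoc, inv_mul_cancel, mul_one]

end H55R
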