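import Mathlib
import Pool.Agent.Lib.H55R.HC4

open NumberField IsDedekindDomain

namespace H55R

variable {K : Type} [Field K] [NumberField K]

/-! Chunk HC5 (M). phi_RC: by phi_elem; if x - y is in f, x prime to f, then y is prime to f and for w in R, x and y have the same nonzero residue
modulo w, so resv w x = resv w y (resv_apply, Units.ext). phi_inj: let phi q = 1. For s in S: q.2 s = phi q s = 1. For w0 in R and u in
(𝓞 K ⧸ w0)ˣ choose x in 𝓞 K with x = u mod w0 and x = 1 mod w for the other w in R (Chinese remainder theorem, the w are distinct maximal ideals), x <> 0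
(not in w0); x is prime to f (a prime containing f is in R and does not contain x). By phi_elem 1 = pv 1 (x) = (q.1 w0 u)^-1
(resv w x = 1 for w <> w0). If R is empty nothing is to be shown for R. -/

theorem HC5_notMem {f : Ideal (𝓞 K)} {x : 𝓞 K} (hx : IsCoprime (Ideal.span {x}) f) (v : Pl K)
    (hv : f ≤ v.asIdeal) : x ∉ v.asIdeal := by
  intro h
  rw [Ideal.isCoprime_iff_sup_eq] at hx
  apply v.isPrime.ne_top
  rw [eq_top_iff, ← hx]
  exact sup_le ((Ideal.span_singleton_le_iff_mem _).2 h) hv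

theorem HC5_coe {x : 𝓞 K} (hx : x ≠ 0) : (x : K) ≠ 0 := by
  intro h
  exact hx (by exact_mod_cast h)

theorem phi_RC (f : Ideal (𝓞 K)) (R S : Finset (Pl K)) (xs : Pl K → Kˣ) (q : XX R S)
    (hR : ∀ v : Pl K, v ∈ R ↔ f ≤ v.asIdeal) (hS : ∀ v ∈ S, ¬ f ≤ v.asIdeal)
    (hxs : GenX S xs) (hq : ∀ x ∈ SU (S : Set (Pl K)), Psi R S q x = 1) :
    phi f R S xs q ∈ RC f := by
  refine ⟨fun v hv => phi_of_dvd f R S xs q v hv, fun x y hx hy hc hxy => ?_⟩
  have hc' : IsCoprime (Ideal.span {y}) f := by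
    rw [Ideal.isCoprime_iff_sup_eq] at hc ⊢
    rw [eq_top_iff, ← hc]
    refine sup_le ?_ le_sup_right
    rw [Ideal.span_singleton_le_iff_mem]
    have h1 : x = y + (x - y) := by ring
    rw [h1]
    exact Ideal.add_mem _ (Ideal.mem_sup_left (Ideal.mem_span_singleton_self y))
      (Ideal.mem_sup_right hxy)
  rw [phi_elem f R S xs q hR hS hxs hq x (Units.mk0 (x : K) (HC5_coe hx)) rfl hc,
    phi_elem f R S xs q hR hS hxs hq y (Units.mk0 (y : K) (HC5_coe hy)) rfl hc']
  congr 1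
  refine Finset.prod_congr rfl fun w _ => ?_
  congr 1
  apply Units.ext
  have hw := (hR w.1).1 w.2
  rw [resv_apply w.1 x _ rfl (HC5_notMem hc w.1 hw), resv_apply w.1 y _ rfl (HC5_notMem hc' w.1 hw),
    Ideal.Quotient.eq]
  exact hw hxy

theorem phi_inj (f : Ideal (𝓞 K)) (R S : Finset (Pl K)) (xs : Pl K → Kˣ) (q : XX R S)
    (hR : ∀ v : Pl K, v ∈ R ↔ f ≤ v.asIdeal) (hS : ∀ v ∈ S, ¬ f ≤ v.asIdeal)
    (hxs : GenX S xs) (hq : ∀ x ∈ SU (S : Set (Pl K)), Psi R S q x = 1)
    (h1 : phi f R S xs q = 1) : q = 1 := by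
  classical
  refine Prod.ext ?_ ?_
  swap
  · funext s
    rw [← phi_of_mem f R S xs q s.1 (hS s.1 s.2) s.2, h1]
    rfl
  funext w₀
  apply MonoidHom.ext
  intro u
  obtain ⟨r, hr⟩ := Ideal.Quotient.mk_surjective (I := w₀.1.asIdeal) (u : 𝓞 K ⧸ w₀.1.asIdeal)
  obtain ⟨x, hx⟩ := IsDedekindDomain.exists_forall_sub_mem_ideal (s := R)
    (fun w : Pl K => w.asIdeal) (fun _ => 1) (fun w _ => w.prime)
    (fun w _ w' _ hne h => hne (HeightOneSpectrum.ext h)) (fun w => if w = w₀ then r else 1)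
  have hx1 : x - r ∈ w₀.1.asIdeal := by
    have := hx w₀.1 w₀.2
    rwa [pow_one, if_pos rfl] at this
  have hx2 : ∀ w : R, w ≠ w₀ → x - 1 ∈ w.1.asIdeal := by
    intro w hw
    have := hx w.1 w.2
    rwa [pow_one, if_neg hw] at this
  have hxu : Ideal.Quotient.mk w₀.1.asIdeal x = (u : 𝓞 K ⧸ w₀.1.asIdeal) := by
    rw [← hr, Ideal.Quotient.eq]
    exact hx1
  have hnot : ∀ w : R, x ∉ w.1.asIdeal := by
    intro w hw
    have hnt : Nontrivial (𝓞 K ⧸ w.1.asIdeal) := Ideal.Quotient.nontrivial_iff.2 w.1.isPrime.ne_top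
    by_cases hww : w = w₀
    · subst hww
      have h2 : Ideal.Quotient.mk w.1.asIdeal x = 0 := Ideal.Quotient.eq_zero_iff_mem.2 hw
      rw [hxu] at h2
      exact u.ne_zero h2
    · have h3 := hx2 w hww
      have h4 : (1 : 𝓞 K) ∈ w.1.asIdeal := by
        have : (1 : 𝓞 K) = x - (x - 1) := by ring
        rw [this]
        exact Ideal.sub_mem _ hw h3
      exact w.1.isPrime.ne_top ((Ideal.eq_top_iff_one _).2 h4)
  have hx0 : x ≠ 0 := by
    rintro rfl
    exact hnot w₀ (Ideal.zero_mem _)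
  have hcop : IsCoprime (Ideal.span {x}) f := by
    rw [Ideal.isCoprime_iff_sup_eq]
    by_contra hne
    obtain ⟨M, hM, hle⟩ := Ideal.exists_le_maximal _ hne
    have hxM : x ∈ M := hle (Ideal.mem_sup_left (Ideal.mem_span_singleton_self x))
    have hM0 : M ≠ ⊥ := by
      rintro rfl
      exact hx0 (by simpa using hxM)
    have hfM : f ≤ M := le_sup_right.trans hle
    exact hnot ⟨⟨M, hM.isPrime, hM0⟩, (hR _).2 hfM⟩ hxM
  have h5 := phi_elem f R S xs q hR hS hxs hq x (Units.mk0 (x : K) (HC5_coe hx0)) rfl hcop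
  rw [h1, pv_one_fun] at h5
  have h6 : ∏ w : R, q.1 w (resv w.1 (Units.mk0 (x : K) (HC5_coe hx0))) = q.1 w₀ u := by
    rw [Finset.prod_eq_single w₀]
    · congr 1
      apply Units.ext
      rw [resv_apply w₀.1 x _ rfl (hnot w₀), hxu]
    · intro w _ hw
      have h7 : resv w.1 (Units.mk0 (x : K) (HC5_coe hx0)) = 1 := by
        apply Units.ext
        rw [resv_apply w.1 x _ rfl (hnot w), Units.val_one, ← map_one (Ideal.Quotient.mk _),
          Ideal.Quotient.eq]
        exact hx2 w hw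
      rw [h7, map_one]
    · intro h
      exact absurd (Finset.mem_univ _) h
  rw [h6] at h5
  exact (inv_eq_one.1 h5.symm)

end H55R
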