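import Mathlib
import Pool.Agent.Lib.H55R.BF2

open NumberField IsDedekindDomain
open scoped Pointwise

namespace H55R

variable {K L : Type} [Field K] [NumberField K] [Field L] [NumberField L] [Algebra K L] [IsGalois K L]

/-! Chunk BF3 (M): the order of a norm. In L: N y = product of the σ y over the Galois group (Algebra.norm_eq_prod_automorphisms). For a prime W above v:
e ord v (N y) = ord W (N y) (ord_map) = sum over σ of ord W (σ y) = sum over σ of ord (σ^-1 W) y (ord_smul), and σ^-1 W runs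
through the primes above v, each of them e f times (smulP_trans, card_stab: fibres of the orbit map). Divide by e. -/

omit [IsGalois K L] in
theorem BF3_prod {ι : Type} (W : Pl L) (s : Finset ι) (f : ι → Lˣ) :
    ord W (∏ i ∈ s, f i) = ∑ i ∈ s, ord W (f i) := by
  classical
  induction s using Finset.induction_on with
  | empty => rw [Finset.prod_empty, Finset.sum_empty, ord_one]
  | insert a s ha ih => rw [Finset.prod_insert ha, Finset.sum_insert ha, ord_mul, ih]

open Classical in
theorem BF3_fib (v : Pl K) (W₀ W : Pl L) (h₀ : W₀.under (𝓞 K) = v) (h : W.under (𝓞 K) = v)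
    [Fintype Gal(L/K)] :
    (Finset.univ.filter fun σ : Gal(L/K) => smulP σ W₀ = W).card = es K L v * fs K L v := by
  obtain ⟨τ, hτ⟩ := smulP_trans W₀ W (h₀.trans h.symm)
  rw [← card_stab W₀ v h₀, ← Fintype.card_subtype, ← Nat.card_eq_fintype_card]
  apply Nat.card_congr
  refine Equiv.subtypeEquiv (Equiv.mulLeft τ⁻¹) fun σ => ?_
  rw [Equiv.coe_mulLeft, smulP_mul]
  constructor
  · intro h1
    rw [h1, ← hτ, ← smulP_mul, inv_mul_cancel, smulP_one]
  · intro h1
    have h2 := congrArg (smulP τ) h1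
    rwa [← smulP_mul, mul_inv_cancel, smulP_one, hτ] at h2

theorem ord_norm (v : Pl K) (T : Finset (Pl L)) (hT : ∀ W, W ∈ T ↔ W.under (𝓞 K) = v) (y : Lˣ) :
    ord v (nrm K L y) = fs K L v * ∑ W ∈ T, ord W y := by
  classical
  obtain ⟨W₀, h₀⟩ := under_exists (L := L) v
  have h1 := ord_map W₀ v h₀ (nrm K L y)
  have h2 : Units.map (algebraMap K L : K →* L) (nrm K L y) =
      ∏ σ : Gal(L/K), Units.map ((σ : L ≃ₐ[K] L) : L →* L) y := by
    ext
    rw [Units.coe_prod]
    exact Algebra.norm_eq_prod_automorphisms K (y : L)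
  rw [h2, BF3_prod] at h1
  have h3 : ∀ σ : Gal(L/K), ord W₀ (Units.map ((σ : L ≃ₐ[K] L) : L →* L) y) =
      ord (smulP σ⁻¹ W₀) y := by
    intro σ
    have h4 := ord_smul σ (smulP σ⁻¹ W₀) y
    rwa [← smulP_mul, mul_inv_cancel, smulP_one] at h4
  rw [Finset.sum_congr rfl fun σ _ => h3 σ] at h1
  have h5 : ∑ σ : Gal(L/K), ord (smulP σ⁻¹ W₀) y = ∑ σ : Gal(L/K), ord (smulP σ W₀) y :=
    Equiv.sum_comp (Equiv.inv Gal(L/K)) fun σ => ord (smulP σ W₀) y
  have h6 : ∑ σ : Gal(L/K), ord (smulP σ W₀) y = ∑ W ∈ T, ((es K L v * fs K L v : ℕ) : ℤ) * ord W y := by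
    rw [← Finset.sum_fiberwise_of_maps_to (s := Finset.univ) (t := T)
      (g := fun σ : Gal(L/K) => smulP σ W₀)]
    · refine Finset.sum_congr rfl fun W hW => ?_
      rw [← BF3_fib v W₀ W h₀ ((hT W).1 hW), ← nsmul_eq_mul, ← Finset.sum_const]
      refine Finset.sum_congr rfl fun σ hσ => ?_
      rw [(Finset.mem_filter.1 hσ).2]
    · intro σ _
      rw [hT, under_smulP]
      exact h₀
  rw [h5, h6, ← Finset.mul_sum] at h1
  have h7 : (es K L v : ℤ) ≠ 0 := by
    have := es_pos (L := L) v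
    exact_mod_cast this.ne'
  apply mul_left_cancel₀ h7
  rw [← h1]
  push_cast
  ring

end H55R
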