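import Mathlib
import Pool.Agent.Lib.H55R.BF2
import Pool.Agent.Lib.H55R.HB1

open NumberField IsDedekindDomain
open scoped Pointwise

namespace H55R

variable {K L : Type} [Field K] [NumberField K] [Field L] [NumberField L] [Algebra K L]

/-! Chunk HB2 (M/L): norms of elements prime to v are e-th powers modulo v. G = Gal(L/K) commutative.
(a) y = a/b with a, b in 𝓞 L not in any prime W above v: there are finitely many such W; (y) = I/J with coprime integral ideals, J is contained in no W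
above v; choose b in J outside all W above v (prime avoidance, Ideal.subset_union_prime or the Chinese remainder theorem), a = y b. So it is enough
to treat y = a in 𝓞 L (resv and nrm are homomorphisms); N a = product of the g a is in 𝓞 K (Algebra.intNorm or RingOfIntegers.norm), not in v.
(b) Fix W above v, k_W = 𝓞 L / W, k_v = 𝓞 K / v, I = inertia group of W (W.asIdeal.inertia G, i x - x in W for all x in 𝓞 L), |I| = e
(Ideal.card_inertia_eq_ramificationIdxIn), D = stabilizer. Choose representatives c of G/I: in k_W: [N a] = product over g of [g a] = (product over c of [c a])^e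
because [i c a] = [c a]. The element z = product over c of [c a] of k_W does not depend on the choice of the representatives, and an
element d of D maps it to the product of the [d c a], i.e. to z (d c runs through representatives again; G commutative). D acts on k_W through
a surjection to Gal(k_W/k_v) (Ideal.Quotient.stabilizerHom_surjective), so z is in k_v, z <> 0 (a is not in c^-1 W).
k_v -> k_W is injective: N a = z^e in k_v. -/

theorem HB2_fib {G M : Type} [Group G] [Fintype G] [CommMonoid M] (I : Subgroup G) (φ : G → M)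
    [Fintype (G ⧸ I)] (φ' : G ⧸ I → M) (h : ∀ g, φ' (QuotientGroup.mk g) = φ g) :
    ∏ g, φ g = (∏ q, φ' q) ^ Nat.card I := by
  classical
  rw [← Finset.prod_fiberwise Finset.univ (fun g : G => (QuotientGroup.mk g : G ⧸ I)) φ,
    ← Finset.prod_pow]
  refine Finset.prod_congr rfl fun q _ => ?_
  obtain ⟨c, rfl⟩ := QuotientGroup.mk_surjective q
  have h1 : ∀ i ∈ Finset.univ.filter (fun g : G => (QuotientGroup.mk g : G ⧸ I) = QuotientGroup.mk c),
      φ i = φ' (QuotientGroup.mk c) := by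
    intro i hi
    rw [← h i, (Finset.mem_filter.1 hi).2]
  rw [Finset.prod_congr rfl h1, Finset.prod_const]
  congr 1
  rw [Nat.card_eq_fintype_card, ← Finset.card_univ]
  symm
  apply Finset.card_bij (fun (i : I) _ => c * i.1)
  · intro i _
    rw [Finset.mem_filter]
    refine ⟨Finset.mem_univ _, ?_⟩
    rw [eq_comm, QuotientGroup.eq, inv_mul_cancel_left]
    exact i.2
  · intro i _ j _ hij
    exact Subtype.ext (mul_left_cancel hij)
  · intro b hb
    rw [Finset.mem_filter] at hb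
    have h2 := hb.2
    rw [eq_comm, QuotientGroup.eq] at h2
    exact ⟨⟨c⁻¹ * b, h2⟩, Finset.mem_univ _, mul_inv_cancel_left _ _⟩

theorem HB2_under (σ : Gal(L/K)) (W : Pl L) (v : Pl K) (h : W.under (𝓞 K) = v) (a : 𝓞 L)
    (ha : ∀ W : Pl L, W.under (𝓞 K) = v → a ∉ W.asIdeal) : σ • a ∉ W.asIdeal := by
  intro h1
  apply ha (smulP σ⁻¹ W) (by rw [under_smulP, h])
  show a ∈ σ⁻¹ • W.asIdeal
  rw [Ideal.mem_inv_pointwise_smul_iff]
  exact h1

theorem HB2_int [IsGalois K L] (hc : ∀ g h : Gal(L/K), g * h = h * g) (v : Pl K) (a : 𝓞 L)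
    (ha : ∀ W : Pl L, W.under (𝓞 K) = v → a ∉ W.asIdeal) :
    RingOfIntegers.norm K a ∉ v.asIdeal ∧ ∃ z : (𝓞 K ⧸ v.asIdeal)ˣ,
      Ideal.Quotient.mk v.asIdeal (RingOfIntegers.norm K a) =
        (z : 𝓞 K ⧸ v.asIdeal) ^ es K L v := by
  classical
  obtain ⟨W, hW⟩ := under_exists (K := K) (L := L) v
  have hWv : v.asIdeal = W.asIdeal.under (𝓞 K) := by rw [← hW]; rfl
  have hl : W.asIdeal.LiesOver v.asIdeal := ⟨hWv⟩
  have hvm := v.isMaximal
  have hwm := W.isMaximal
  have hprod : algebraMap (𝓞 K) (𝓞 L) (RingOfIntegers.norm K a) = ∏ g : Gal(L/K), g • a := by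
    apply RingOfIntegers.ext
    rw [RingOfIntegers.coe_algebraMap_norm K a, Algebra.norm_eq_prod_automorphisms]
    show _ = algebraMap (𝓞 L) L (∏ g : Gal(L/K), g • a)
    rw [map_prod]
    rfl
  have hnot : RingOfIntegers.norm K a ∉ v.asIdeal := by
    intro h1
    rw [hWv] at h1
    have h2 : algebraMap (𝓞 K) (𝓞 L) (RingOfIntegers.norm K a) ∈ W.asIdeal := h1
    rw [hprod, W.isPrime.prod_mem_iff] at h2
    obtain ⟨g, -, hg⟩ := h2
    exact HB2_under g W v hW a ha hg
  refine ⟨hnot, ?_⟩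
  letI : Field (𝓞 K ⧸ v.asIdeal) := Ideal.Quotient.field v.asIdeal
  letI : Field (𝓞 L ⧸ W.asIdeal) := Ideal.Quotient.field W.asIdeal
  have hfin : Finite (𝓞 L ⧸ W.asIdeal) := Ideal.finiteQuotientOfFreeOfNeBot W.asIdeal W.ne_bot
  set I : Subgroup Gal(L/K) := W.asIdeal.inertia Gal(L/K) with hI
  have hcard : Nat.card I = es K L v :=
    Ideal.card_inertia_eq_ramificationIdxIn (G := Gal(L/K)) v.asIdeal W.asIdeal
  let φ : Gal(L/K) → 𝓞 L ⧸ W.asIdeal := fun g => Ideal.Quotient.mk W.asIdeal (g • a)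
  have hφ : ∀ g h : Gal(L/K), g⁻¹ * h ∈ I → φ g = φ h := by
    intro g h hgh
    have h1 := hgh (g • a)
    rw [smul_smul, mul_assoc, hc h g, inv_mul_cancel_left] at h1
    exact (Ideal.Quotient.eq.2 h1).symm
  let φ' : Gal(L/K) ⧸ I → 𝓞 L ⧸ W.asIdeal :=
    Quotient.lift φ fun g h hgh => hφ g h (QuotientGroup.leftRel_apply.1 hgh)
  have hφ' : ∀ g, φ' (QuotientGroup.mk g) = φ g := fun g => rfl
  set z : 𝓞 L ⧸ W.asIdeal := ∏ q, φ' q with hz
  have hN : Ideal.Quotient.mk W.asIdeal (algebraMap (𝓞 K) (𝓞 L) (RingOfIntegers.norm K a)) =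
      z ^ es K L v := by
    rw [hprod, map_prod, ← hcard]
    exact HB2_fib I φ φ' hφ'
  have hfix : ∀ f : (𝓞 L ⧸ W.asIdeal) ≃ₐ[𝓞 K ⧸ v.asIdeal] (𝓞 L ⧸ W.asIdeal), f z = z := by
    intro f
    obtain ⟨d, rfl⟩ := Ideal.Quotient.stabilizerHom_surjective Gal(L/K) v.asIdeal W.asIdeal f
    have hnorm : I.Normal := ⟨fun i hi g => by rwa [hc g i, mul_inv_cancel_right]⟩
    rw [hz, map_prod]
    have h1 : ∀ q, Ideal.Quotient.stabilizerHom W.asIdeal v.asIdeal Gal(L/K) d (φ' q) =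
        φ' (QuotientGroup.mk d.1 * q) := by
      intro q
      obtain ⟨g, rfl⟩ := QuotientGroup.mk_surjective q
      rw [hφ', ← QuotientGroup.mk_mul, hφ']
      show Ideal.Quotient.mk W.asIdeal (d.1 • (g • a)) = Ideal.Quotient.mk W.asIdeal ((d.1 * g) • a)
      rw [mul_smul]
    rw [Finset.prod_congr rfl fun q _ => h1 q]
    exact Fintype.prod_equiv (Equiv.mulLeft (QuotientGroup.mk d.1 : Gal(L/K) ⧸ I)) _ _ fun q => rfl
  have hzbot : z ∈ (⊥ : IntermediateField (𝓞 K ⧸ v.asIdeal) (𝓞 L ⧸ W.asIdeal)) := by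
    rw [IsGalois.mem_bot_iff_fixed]
    exact hfix
  rw [IntermediateField.mem_bot] at hzbot
  obtain ⟨z₀, hz₀⟩ := hzbot
  have h1 : Ideal.Quotient.mk v.asIdeal (RingOfIntegers.norm K a) = z₀ ^ es K L v := by
    apply (algebraMap (𝓞 K ⧸ v.asIdeal) (𝓞 L ⧸ W.asIdeal)).injective
    rw [map_pow, hz₀, ← hN]
    rfl
  have h2 : z₀ ≠ 0 := by
    rintro rfl
    rw [zero_pow (es_pos (L := L) v).ne', Ideal.Quotient.eq_zero_iff_mem] at h1
    exact hnot h1
  exact ⟨Units.mk0 z₀ h2, h1⟩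

theorem norm_res [IsGalois K L] (hc : ∀ g h : Gal(L/K), g * h = h * g) (v : Pl K) (y : Lˣ)
    (hy : ∀ W : Pl L, W.under (𝓞 K) = v → ord W y = 0) :
    ∃ z : (𝓞 K ⧸ v.asIdeal)ˣ, resv v (nrm K L y) = z ^ es K L v := by
  classical
  have hT : {W : Pl L | W.under (𝓞 K) = v}.Finite := above_finite v
  let J : Ideal (𝓞 L) :=
    { carrier := {b | ∃ a : 𝓞 L, algebraMap (𝓞 L) L a = algebraMap (𝓞 L) L b * y}
      add_mem' := by
        rintro b b' ⟨a, h⟩ ⟨a', h'⟩
        exact ⟨a + a', by rw [map_add, map_add, h, h']; ring⟩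
      zero_mem' := ⟨0, by rw [map_zero]; ring⟩
      smul_mem' := by
        rintro c b ⟨a, h⟩
        exact ⟨c * a, by rw [smul_eq_mul, map_mul, map_mul, h]; ring⟩ }
  have hfrac : ∀ W : Pl L, W.under (𝓞 K) = v → ∃ a b : 𝓞 L, a ∉ W.asIdeal ∧ b ∉ W.asIdeal ∧
      algebraMap (𝓞 L) L a = algebraMap (𝓞 L) L b * y := by
    intro W hW
    obtain ⟨a, b, ha, hb, hab⟩ := exists_frac W y (hy W hW)
    refine ⟨a, b, ha, hb, ?_⟩
    rw [hab]
    show (a : L) = (b : L) * ((a : L) / (b : L))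
    have hb0 : (b : L) ≠ 0 := by
      intro h
      apply hb
      have : b = 0 := RingOfIntegers.ext h
      rw [this]
      exact W.asIdeal.zero_mem
    rw [mul_div_cancel₀ _ hb0]
  obtain ⟨b, hbJ, hbW⟩ : ∃ b ∈ J, ∀ W : Pl L, W.under (𝓞 K) = v → b ∉ W.asIdeal := by
    by_contra hcon
    push Not at hcon
    have h1 : (J : Set (𝓞 L)) ⊆ ⋃ W ∈ (↑hT.toFinset : Set (Pl L)), (W.asIdeal : Set (𝓞 L)) := by
      intro b hb
      obtain ⟨W, hW, hbW⟩ := hcon b hb
      rw [Set.mem_iUnion₂]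
      exact ⟨W, by rw [Set.Finite.coe_toFinset]; exact hW, hbW⟩
    obtain ⟨W₀, hW₀⟩ := under_exists (K := K) (L := L) v
    rw [Ideal.subset_union_prime W₀ W₀ (fun W _ _ _ => W.isPrime)] at h1
    obtain ⟨W, hW, hJW⟩ := h1
    rw [Set.Finite.mem_toFinset] at hW
    obtain ⟨a, b, ha, hb, hab⟩ := hfrac W hW
    exact hb (hJW ⟨a, hab⟩)
  obtain ⟨a, hab⟩ := hbJ
  have haW : ∀ W : Pl L, W.under (𝓞 K) = v → a ∉ W.asIdeal := by
    intro W hW ha
    obtain ⟨a', b', ha', hb', hab'⟩ := hfrac W hW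
    have h1 : a * b' = b * a' := by
      apply RingOfIntegers.ext
      show algebraMap (𝓞 L) L (a * b') = algebraMap (𝓞 L) L (b * a')
      rw [map_mul, map_mul, hab, hab']
      ring
    have h2 : b * a' ∈ W.asIdeal := by
      rw [← h1]
      exact Ideal.mul_mem_right _ _ ha
    rcases W.isPrime.mem_or_mem h2 with h3 | h3
    · exact hbW W hW h3
    · exact ha' h3
  obtain ⟨W₀, hW₀⟩ := under_exists (K := K) (L := L) v
  have hne : ∀ c : 𝓞 L, (∀ W : Pl L, W.under (𝓞 K) = v → c ∉ W.asIdeal) → (c : L) ≠ 0 := by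
    intro c hcW h
    apply hcW W₀ hW₀
    have : c = 0 := RingOfIntegers.ext h
    rw [this]
    exact W₀.asIdeal.zero_mem
  have key : ∀ c : 𝓞 L, (hcW : ∀ W : Pl L, W.under (𝓞 K) = v → c ∉ W.asIdeal) →
      ∃ z : (𝓞 K ⧸ v.asIdeal)ˣ, resv v (nrm K L (Units.mk0 (c : L) (hne c hcW))) =
        z ^ es K L v := by
    intro c hcW
    obtain ⟨h1, z, hz⟩ := HB2_int hc v c hcW
    refine ⟨z, ?_⟩
    apply Units.ext
    rw [resv_apply v (RingOfIntegers.norm K c) _ rfl h1, hz, Units.val_pow_eq_pow_val]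
  obtain ⟨z₁, hz₁⟩ := key a haW
  obtain ⟨z₂, hz₂⟩ := key b hbW
  refine ⟨z₁ / z₂, ?_⟩
  have h1 : y = Units.mk0 (a : L) (hne a haW) / Units.mk0 (b : L) (hne b hbW) := by
    apply Units.ext
    rw [Units.val_div_eq_div_val]
    show (y : L) = algebraMap (𝓞 L) L a / algebraMap (𝓞 L) L b
    rw [hab, mul_comm]
    exact (mul_div_cancel_right₀ _ (hne b hbW)).symm
  rw [h1, map_div, map_div, hz₁, hz₂, div_pow]

end H55R
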