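import Mathlib
import Pool.Agent.Lib.H55R.HCD
import Pool.Agent.Lib.H55R.HB2
import Pool.Agent.Lib.H55R.BF3

open NumberField IsDedekindDomain

namespace H55R

/-! Chunk HC3 (S): local data are trivial on norms. Psi_apply. For w in R: norm_res gives resv w (N y) = z^(e_w), so the factor is
(q.1 w z)^(e_w) = 1. For s in S: ord_norm gives ord s (N y) = f_s k, so the factor is ((q.2 s)^(f_s))^k = 1. -/

theorem Psi_norm {K L : Type} [Field K] [NumberField K] [Field L] [NumberField L] [Algebra K L]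
    [IsGalois K L] (hc : ∀ g h : Gal(L/K), g * h = h * g) (R S : Finset (Pl K)) (q : XX R S)
    (hq : q ∈ X0 K L R S) (y : Lˣ) (hy : ∀ W : Pl L, W.under (𝓞 K) ∈ R → ord W y = 0) :
    Psi R S q (nrm K L y) = 1 := by
  obtain ⟨hq1, hq2⟩ := hq
  rw [Psi_apply]
  have h1 : ∏ w : R, q.1 w (resv w.1 (nrm K L y)) = 1 := by
    refine Finset.prod_eq_one fun w _ => ?_
    obtain ⟨z, hz⟩ := norm_res hc w.1 y fun W hW => hy W (by rw [hW]; exact w.2)
    rw [hz, map_pow]
    exact hq1 w z
  have h2 : ∏ s : S, q.2 s ^ ord s.1 (nrm K L y) = 1 := by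
    refine Finset.prod_eq_one fun s _ => ?_
    have hfin := above_finite (L := L) s.1
    have hT : ∀ W : Pl L, W ∈ hfin.toFinset ↔ W.under (𝓞 K) = s.1 := fun W => by
      rw [Set.Finite.mem_toFinset]
      rfl
    rw [ord_norm s.1 hfin.toFinset hT y, zpow_mul, zpow_natCast, hq2 s, one_zpow]
  rw [h1, h2, mul_one]

end H55R
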