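import Mathlib
import Pool.Agent.Lib.H55R.HC3

open NumberField IsDedekindDomain

namespace H55R

variable {K L : Type} [Field K] [NumberField K] [Field L] [NumberField L] [Algebra K L] [IsGalois K L]

/-! Chunk HC6 (M). phi_split: v does not contain f, e_v = f_v = 1. If v is in S: phi v = q.2 v and q.2 v ^ (f_v) = 1. If v is not in S: choose a prime W
above v (under_exists) and y in Lˣ with ord W y = 1 and ord U y = 0 for all U not in T, U <> W (hGT; W is not in T). For x = nrm y: by
ord_norm ord v x = f_v * 1 = 1 and ord u x = 0 for u not in S, u <> v, so x / xs v is an S-unit and Psi (xs v) = Psi x. Psi x = 1 by Psi_norm: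
for W' above w in R: ord W' y = 0 because w is not in S (w contains f) and w <> v. So phi v = (Psi (xs v))^-1 = 1.
phi_pow: q^n = 1 for q in X0, n = [L : K]: e_w and f_s divide n (card_above with any finite set of the primes above). -/

theorem HC6_dvd (v : Pl K) : es K L v ∣ Module.finrank K L ∧ fs K L v ∣ Module.finrank K L := by
  have h := card_above v (above_finite (L := L) v).toFinset (fun W => by
    rw [Set.Finite.mem_toFinset]
    rfl)
  rw [← h]
  exact ⟨Dvd.dvd.mul_left (Dvd.intro _ rfl) _, Dvd.dvd.mul_left (Dvd.intro_left _ rfl) _⟩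

theorem phi_split (hc : ∀ g h : Gal(L/K), g * h = h * g) (f : Ideal (𝓞 K)) (R S : Finset (Pl K))
    (T : Finset (Pl L)) (hT : ∀ W, W ∈ T ↔ W.under (𝓞 K) ∈ S) (hGT : GenS (T : Set (Pl L)))
    (xs : Pl K → Kˣ) (q : XX R S) (hR : ∀ v : Pl K, v ∈ R ↔ f ≤ v.asIdeal)
    (hS : ∀ v ∈ S, ¬ f ≤ v.asIdeal) (hxs : GenX S xs)
    (hq : ∀ x ∈ SU (S : Set (Pl K)), Psi R S q x = 1) (hq0 : q ∈ X0 K L R S) (v : Pl K)
    (hv : ¬ f ≤ v.asIdeal) (hs : Spl K L v) : phi f R S xs q v = 1 := by
  by_cases hvS : v ∈ S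
  · rw [phi_of_mem f R S xs q v hv hvS]
    have h1 : q.2 ⟨v, hvS⟩ ^ fs K L v = 1 := hq0.2 ⟨v, hvS⟩
    rwa [hs.2, pow_one] at h1
  · rw [phi_of_not_mem f R S xs q v hv hvS]
    obtain ⟨W, hW⟩ := under_exists (L := L) v
    have hWT : W ∉ T := by
      rw [hT, hW]
      exact hvS
    obtain ⟨y, hy1, hy2⟩ := hGT W
    have hy1' : ord W y = 1 := hy1 (by rw [Finset.mem_coe]; exact hWT)
    have hy2' : ∀ U : Pl L, U.under (𝓞 K) ∉ S → U ≠ W → ord U y = 0 := by
      intro U hU hne
      refine hy2 U ?_ hne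
      rw [Finset.mem_coe, hT]
      exact hU
    have hfin : ∀ u : Pl K, ∀ U : Pl L, U ∈ (above_finite (L := L) u).toFinset ↔
        U.under (𝓞 K) = u := by
      intro u U
      rw [Set.Finite.mem_toFinset]
      rfl
    have hx1 : ord v (nrm K L y) = 1 := by
      rw [ord_norm v _ (hfin v) y, hs.2, Finset.sum_eq_single W, hy1']
      · norm_num
      · intro U hU hne
        rw [hfin] at hU
        exact hy2' U (by rw [hU]; exact hvS) hne
      · intro h
        exact absurd ((hfin v W).2 hW) h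
    have hx2 : ∀ u : Pl K, u ∉ S → u ≠ v → ord u (nrm K L y) = 0 := by
      intro u hu hne
      rw [ord_norm u _ (hfin u) y, Finset.sum_eq_zero, mul_zero]
      intro U hU
      rw [hfin] at hU
      refine hy2' U (by rw [hU]; exact hu) ?_
      rintro rfl
      exact hne (hU.symm.trans hW)
    have hz : nrm K L y * (xs v)⁻¹ ∈ SU (S : Set (Pl K)) := by
      intro u hu
      rw [Finset.mem_coe] at hu
      rw [ord_mul, ord_inv]
      by_cases huv : u = v
      · rw [huv, hx1, (hxs v).1 hvS]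
        norm_num
      · rw [hx2 u hu huv, (hxs v).2 u hu huv]
        norm_num
    have h1 := hq _ hz
    rw [map_mul, map_inv, Psi_norm hc R S q hq0 y, one_mul] at h1
    · exact h1
    · intro W' hW'
      refine hy2' W' ?_ ?_
      · intro h2
        exact hS _ h2 ((hR _).1 hW')
      · rintro rfl
        rw [hW] at hW'
        exact hv ((hR v).1 hW')

theorem phi_pow (R S : Finset (Pl K)) (q : XX R S) (hq0 : q ∈ X0 K L R S) :
    q ^ Module.finrank K L = 1 := by
  refine Prod.ext ?_ ?_
  · rw [Prod.pow_fst]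
    funext w
    apply MonoidHom.ext
    intro x
    obtain ⟨k, hk⟩ := (HC6_dvd (L := L) w.1).1
    have h1 : (q.1 ^ Module.finrank K L) w x = q.1 w x ^ Module.finrank K L := rfl
    rw [h1, hk, pow_mul, hq0.1 w x, one_pow]
    rfl
  · rw [Prod.pow_snd]
    funext s
    obtain ⟨k, hk⟩ := (HC6_dvd (L := L) s.1).2
    rw [Pi.pow_apply, hk, pow_mul, hq0.2 s, one_pow]
    rfl

end H55R
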