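import Mathlib
import Pool.Agent.Lib.H55R.HD

open NumberField IsDedekindDomain

namespace H55R

/-! Chunk HC7 (M): existence of S. gens: for a number field M and an ideal g <> 0 there is a finite set U of primes not containing g such that every
finite set (indeed every set) U' containing U satisfies GenS U': for every ideal class choose an integral ideal b prime to g in it (copy the proofs of exists_mem_cop and exists_rep from Pool/Agent/Lib/H55N/H11.lean, they need only Mathlib),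
U = the primes containing one of these b (finitely many classes: Fintype (ClassGroup), each b has finitely many prime divisors). GenS: for a prime
v let b be the representative of the inverse class: v b = (x) (ClassGroup.mk0_eq_one_iff), ord u x = multiplicity of u in v b: for u not in U it is 1 if
u = v and 0 otherwise. (If v is in U the first condition is empty.) exists_S: U1 for K and f, U2 for L and f O_L;
S = U1 and the primes below U2 (if W does not contain f O_L the prime below does not contain f), T = the primes above S (finite). -/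

theorem HC7_ord {K : Type} [Field K] [NumberField K] (v : Pl K) (u : Kˣ) (x : 𝓞 K) (hx : x ≠ 0)
    (hu : (u : K) = algebraMap (𝓞 K) K x) :
    ord v u = ((Associates.mk v.asIdeal).count (Associates.mk (Ideal.span {x} : Ideal (𝓞 K))).factors : ℤ) := by
  have h1 := v.valuationOfNeZero_eq (K := K) u
  rw [hu, HeightOneSpectrum.valuation_of_algebraMap, HeightOneSpectrum.intValuation_if_neg v hx] at h1
  have h2 : v.valuationOfNeZero u = Multiplicative.ofAdd
      (-(Associates.mk v.asIdeal).count (Associates.mk (Ideal.span {x} : Ideal (𝓞 K))).factors : ℤ) := by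
    rw [← WithZero.coe_inj]
    exact h1
  unfold ord
  rw [h2, toAdd_ofAdd, neg_neg]

theorem HC7_exists_mem_cop {K : Type} [Field K] [NumberField K] (J g : Ideal (𝓞 K)) (hJ : J ≠ ⊥)
    (hg : g ≠ ⊥) :
    ∃ x ∈ J, ∃ b : Ideal (𝓞 K), x ≠ 0 ∧ Ideal.span {x} = J * b ∧ IsCoprime b g := by
  obtain ⟨x, hx⟩ := IsDedekindDomain.exists_sup_span_eq (I := J * g) (J := J) Ideal.mul_le_left
    (mul_ne_zero hJ hg)
  by_cases hx0 : x = 0
  · subst hx0
    have h1 : J * g = J := by
      rw [Ideal.span_singleton_eq_bot.2 rfl, sup_bot_eq] at hx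
      exact hx
    have h2 : g = ⊤ := by
      have h3 : J * g = J * 1 := by rw [h1, mul_one]
      have h4 := mul_left_cancel₀ (show J ≠ 0 from hJ) h3
      rw [h4]
      exact Ideal.one_eq_top
    obtain ⟨y, hy, hy0⟩ := Submodule.exists_mem_ne_zero_of_ne_bot hJ
    have h3 : J ∣ Ideal.span {y} := by
      rw [Ideal.dvd_iff_le, Ideal.span_singleton_le_iff_mem]
      exact hy
    obtain ⟨b, hb⟩ := h3
    refine ⟨y, hy, b, hy0, hb, ?_⟩
    rw [h2, ← Ideal.one_eq_top]
    exact isCoprime_one_right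
  · have hxJ : x ∈ J := by
      rw [← hx]
      exact Ideal.mem_sup_right (Ideal.mem_span_singleton_self x)
    have h3 : J ∣ Ideal.span {x} := by
      rw [Ideal.dvd_iff_le, Ideal.span_singleton_le_iff_mem]
      exact hxJ
    obtain ⟨b, hb⟩ := h3
    refine ⟨x, hxJ, b, hx0, hb, ?_⟩
    rw [hb] at hx
    have h4 : J * (g ⊔ b) = J * 1 := by
      rw [Ideal.mul_sup, hx, mul_one]
    have h5 := mul_left_cancel₀ (show J ≠ 0 from hJ) h4
    rw [Ideal.isCoprime_iff_sup_eq, sup_comm, h5]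
    exact Ideal.one_eq_top

theorem HC7_exists_rep {K : Type} [Field K] [NumberField K] (g : Ideal (𝓞 K)) (hg : g ≠ ⊥)
    (κ : ClassGroup (𝓞 K)) :
    ∃ (b : Ideal (𝓞 K)) (hb : b ≠ ⊥), IsCoprime b g ∧
      ClassGroup.mk0 ⟨b, mem_nonZeroDivisors_iff_ne_zero.2 hb⟩ = κ := by
  obtain ⟨J, hJ⟩ := ClassGroup.mk0_surjective κ⁻¹
  have hJ0 : (J : Ideal (𝓞 K)) ≠ ⊥ := mem_nonZeroDivisors_iff_ne_zero.1 J.2
  obtain ⟨x, hx, b, hx0, hb, hcop⟩ := HC7_exists_mem_cop (J : Ideal (𝓞 K)) g hJ0 hg
  have hb0 : b ≠ ⊥ := by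
    rintro rfl
    apply hx0
    rw [← Ideal.span_singleton_eq_bot, hb]
    exact mul_zero _
  refine ⟨b, hb0, hcop, ?_⟩
  have h1 : ClassGroup.mk0 (J * ⟨b, mem_nonZeroDivisors_iff_ne_zero.2 hb0⟩) = 1 := by
    rw [ClassGroup.mk0_eq_one_iff]
    refine ⟨⟨x, ?_⟩⟩
    show (J : Ideal (𝓞 K)) * b = _
    rw [← hb]
  rw [map_mul, hJ] at h1
  exact (inv_mul_eq_one.1 h1).symm

theorem gens {M : Type} [Field M] [NumberField M] (g : Ideal (𝓞 M)) (hg : g ≠ ⊥) :
    ∃ U : Finset (Pl M), (∀ v ∈ U, ¬ g ≤ v.asIdeal) ∧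
      ∀ U' : Set (Pl M), (U : Set (Pl M)) ⊆ U' → GenS U' := by
  classical
  choose b hb hcop hmk using HC7_exists_rep (K := M) g hg
  have hfin : ∀ κ : ClassGroup (𝓞 M), {v : Pl M | v.asIdeal ∣ b κ}.Finite := fun κ =>
    Ideal.finite_factors (hb κ)
  have hfinU : (⋃ κ : ClassGroup (𝓞 M), {v : Pl M | v.asIdeal ∣ b κ}).Finite :=
    Set.finite_iUnion hfin
  refine ⟨hfinU.toFinset, ?_, ?_⟩
  · intro v hv hgv
    rw [Set.Finite.mem_toFinset, Set.mem_iUnion] at hv
    obtain ⟨κ, hκ⟩ := hv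
    have h1 : b κ ≤ v.asIdeal := Ideal.dvd_iff_le.1 hκ
    have h2 := Ideal.isCoprime_iff_sup_eq.1 (hcop κ)
    have h3 : (⊤ : Ideal (𝓞 M)) ≤ v.asIdeal := by
      rw [← h2]
      exact sup_le h1 hgv
    exact v.isPrime.ne_top (top_le_iff.1 h3)
  · intro U' hU' v
    have hnot : ∀ w : Pl M, w ∉ U' → ∀ κ, ¬ w.asIdeal ∣ b κ := by
      intro w hw κ hd
      apply hw
      apply hU'
      rw [Set.Finite.coe_toFinset, Set.mem_iUnion]
      exact ⟨κ, hd⟩
    have hv : v.asIdeal ∈ nonZeroDivisors (Ideal (𝓞 M)) :=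
      mem_nonZeroDivisors_iff_ne_zero.2 v.ne_bot
    set κ : ClassGroup (𝓞 M) := (ClassGroup.mk0 (⟨v.asIdeal, hv⟩ : nonZeroDivisors (Ideal (𝓞 M))))⁻¹
      with hκ
    have h1 : ClassGroup.mk0 ((⟨v.asIdeal, hv⟩ : nonZeroDivisors (Ideal (𝓞 M))) *
        ⟨b κ, mem_nonZeroDivisors_iff_ne_zero.2 (hb κ)⟩) = 1 := by
      rw [map_mul, hmk κ, hκ, mul_inv_cancel]
    rw [ClassGroup.mk0_eq_one_iff] at h1
    obtain ⟨x, hx⟩ := h1
    have hx' : v.asIdeal * b κ = Ideal.span {x} := hx
    have hx0 : x ≠ 0 := by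
      rintro rfl
      apply mul_ne_zero (show v.asIdeal ≠ 0 from v.ne_bot) (show b κ ≠ 0 from hb κ)
      rw [hx']
      exact Ideal.span_singleton_eq_bot.2 rfl
    have hxL : algebraMap (𝓞 M) M x ≠ 0 := by
      rw [Ne, FaithfulSMul.algebraMap_eq_zero_iff]
      exact hx0
    have hmkx : Associates.mk (Ideal.span {x} : Ideal (𝓞 M)) =
        Associates.mk v.asIdeal * Associates.mk (b κ) := by
      rw [← hx', Associates.mk_mul_mk]
    have hcount : ∀ w : Pl M, w ∉ U' →
        (Associates.mk w.asIdeal).count (Associates.mk (b κ)).factors = 0 := by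
      intro w hw
      by_contra hne
      exact hnot w hw κ ((Associates.count_ne_zero_iff_dvd (hb κ) w.irreducible).1 hne)
    have hord : ∀ w : Pl M, w ∉ U' → ord w (Units.mk0 _ hxL) =
        ((Associates.mk w.asIdeal).count (Associates.mk v.asIdeal).factors : ℤ) := by
      intro w hw
      rw [HC7_ord w _ x hx0 rfl, hmkx, Associates.count_mul (Associates.mk_ne_zero.2 v.ne_bot)
        (Associates.mk_ne_zero.2 (hb κ)) w.associates_irreducible, hcount w hw, add_zero]
    refine ⟨Units.mk0 _ hxL, fun hvU => ?_, fun w hw hwv => ?_⟩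
    · rw [hord v hvU, Associates.count_self v.associates_irreducible, Nat.cast_one]
    · rw [hord w hw, Associates.count_eq_zero_of_ne w.associates_irreducible
        v.associates_irreducible, Nat.cast_zero]
      intro he
      apply hwv
      apply HeightOneSpectrum.ext
      rwa [Associates.mk_eq_mk_iff_associated, associated_iff_eq] at he

theorem exists_S (K L : Type) [Field K] [NumberField K] [Field L] [NumberField L] [Algebra K L]
    (f : Ideal (𝓞 K)) (hf : f ≠ ⊥) : ∃ (S : Finset (Pl K)) (T : Finset (Pl L)),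
      (∀ W, W ∈ T ↔ W.under (𝓞 K) ∈ S) ∧ (∀ v ∈ S, ¬ f ≤ v.asIdeal) ∧ GenS (S : Set (Pl K)) ∧
      GenS (T : Set (Pl L)) := by
  classical
  have hinj : Function.Injective (algebraMap (𝓞 K) (𝓞 L)) := FaithfulSMul.algebraMap_injective _ _
  have hmap : ∀ I : Ideal (𝓞 K), I ≠ ⊥ → I.map (algebraMap (𝓞 K) (𝓞 L)) ≠ ⊥ := by
    intro I hI h
    apply hI
    exact (Ideal.map_eq_bot_iff_of_injective hinj).1 h
  obtain ⟨U1, h1, h1'⟩ := gens (M := K) f hf
  obtain ⟨U2, h2, h2'⟩ := gens (M := L) (f.map (algebraMap (𝓞 K) (𝓞 L))) (hmap f hf)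
  set S : Finset (Pl K) := U1 ∪ U2.image (fun W => W.under (𝓞 K)) with hS
  have hfin : {W : Pl L | W.under (𝓞 K) ∈ S}.Finite := by
    refine Set.Finite.subset (s := ⋃ v ∈ S, {W : Pl L | W.asIdeal ∣ v.asIdeal.map (algebraMap (𝓞 K) (𝓞 L))})
      (Set.Finite.biUnion S.finite_toSet fun v _ => Ideal.finite_factors (hmap _ v.ne_bot)) ?_
    intro W hW
    rw [Set.mem_iUnion₂]
    refine ⟨W.under (𝓞 K), hW, ?_⟩
    show W.asIdeal ∣ _
    rw [Ideal.dvd_iff_le, Ideal.map_le_iff_le_comap]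
    exact le_refl _
  refine ⟨S, hfin.toFinset, fun W => ?_, ?_, ?_, ?_⟩
  · rw [Set.Finite.mem_toFinset]
    exact Iff.rfl
  · intro v hv hfv
    rw [hS, Finset.mem_union, Finset.mem_image] at hv
    rcases hv with hv | ⟨W, hW, rfl⟩
    · exact h1 v hv hfv
    · apply h2 W hW
      rw [Ideal.map_le_iff_le_comap]
      exact hfv
  · apply h1'
    intro v hv
    rw [hS, Finset.coe_union]
    exact Or.inl hv
  · apply h2'
    intro W hW
    rw [Set.Finite.coe_toFinset]
    show W.under (𝓞 K) ∈ S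
    rw [hS, Finset.mem_union, Finset.mem_image]
    exact Or.inr ⟨W, hW, rfl⟩

end H55R
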