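import Mathlib
import Pool.Agent.Lib.H55R.HA12
import Pool.Agent.Lib.H55R.HC2
import Pool.Agent.Lib.H55R.HC5
import Pool.Agent.Lib.H55R.HC6
import Pool.Agent.Lib.H55R.HC7

open NumberField IsDedekindDomain

namespace H55R

/-! The first inequality for cyclic extensions (assembly). -/

/-- The local data trivial on the S-units. -/
def Y0 (K L : Type) [Field K] [NumberField K] [Field L] [NumberField L] [Algebra K L]
    (R S : Finset (Pl K)) : Subgroup (XX R S) where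
  carrier := {q | q ∈ X0 K L R S ∧ ∀ x ∈ SU (S : Set (Pl K)), Psi R S q x = 1}
  mul_mem' := by
    rintro q r ⟨h1, h2⟩ ⟨h3, h4⟩
    refine ⟨mul_mem h1 h3, fun x hx => ?_⟩
    rw [map_mul, MonoidHom.mul_apply, h2 x hx, h4 x hx, mul_one]
  one_mem' := ⟨one_mem _, fun x _ => by rw [map_one, MonoidHom.one_apply]⟩
  inv_mem' := by
    rintro q ⟨h1, h2⟩
    refine ⟨inv_mem h1, fun x hx => ?_⟩
    rw [map_inv, MonoidHom.inv_apply, h2 x hx, inv_one]

theorem primes_finite {K : Type} [Field K] [NumberField K] (f : Ideal (𝓞 K)) (hf : f ≠ ⊥) :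
    {v : Pl K | f ≤ v.asIdeal}.Finite := by
  have h := Ideal.finite_factors hf
  refine h.subset fun v hv => ?_
  exact Ideal.dvd_iff_le.2 hv

theorem first_ineq {K L : Type} [Field K] [NumberField K] [Field L] [NumberField L] [Algebra K L]
    [IsGalois K L] (σ : Gal(L/K)) (hσ : ∀ g : Gal(L/K), g ∈ Subgroup.zpowers σ)
    (hK : ∀ v : InfinitePlace K, v.IsComplex) (f : Ideal (𝓞 K)) (hf : f ≠ ⊥)
    (hram : ∀ v : Pl K, ¬ f ≤ v.asIdeal → es K L v = 1)
    (htame : ∀ v : Pl K, es K L v ∣ Ideal.absNorm v.asIdeal - 1) :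
    ∃ Y : Subgroup (Pl K → ℂˣ), Finite Y ∧ Y ≤ RC f ∧ Module.finrank K L ≤ Nat.card Y ∧
      (∀ φ ∈ Y, φ ^ Module.finrank K L = 1) ∧
      ∀ φ ∈ Y, ∀ v : Pl K, ¬ f ≤ v.asIdeal → Spl K L v → φ v = 1 := by
  classical
  have hc : ∀ g h : Gal(L/K), g * h = h * g := by
    intro g h
    obtain ⟨i, rfl⟩ := hσ g
    obtain ⟨j, rfl⟩ := hσ h
    exact (Commute.zpow_zpow (Commute.refl σ) i j)
  obtain ⟨S, T, hT, hS, hGS, hGT⟩ := exists_S K L f hf
  obtain ⟨R, hR⟩ : ∃ R : Finset (Pl K), ∀ v, v ∈ R ↔ f ≤ v.asIdeal :=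
    ⟨(primes_finite f hf).toFinset, fun v => by simp⟩
  choose xs hxs using hGS
  have hxs' : GenX S xs := fun v => ⟨fun h => (hxs v).1 (by simpa using h),
    fun u hu huv => (hxs v).2 u (by simpa using hu) huv⟩
  have hR1 : ∀ v, v ∉ R → es K L v = 1 := fun v hv => hram v fun h => hv ((hR v).2 h)
  obtain ⟨hfin, hcard⟩ := card_X0 K L R S fun w _ => htame w
  obtain ⟨hi1, hi2⟩ := index_bound σ hσ hK S T hT (fun v => ⟨xs v, hxs v⟩) R hR1
  set N := (SU (T : Set (Pl L))).map (nrm K L) with hN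
  set U := SU (S : Set (Pl K)) with hU
  have hdc := dual_count (X := X0 K L R S) U N (norm_mem S T hT) hi1
    ((Psi R S).comp (X0 K L R S).subtype) (by
      rintro ⟨q, hq⟩ g hg
      obtain ⟨y, hy, rfl⟩ := hg
      refine Psi_norm hc R S q hq y fun W hW => ?_
      refine hy W fun hWT => ?_
      have h1 : W.under (𝓞 K) ∈ S := (hT W).1 (by simpa using hWT)
      exact hS _ h1 ((hR _).1 hW))
  -- the number of elements of Y0
  let e : {x : X0 K L R S // ∀ g ∈ U, ((Psi R S).comp (X0 K L R S).subtype) x g = 1} ≃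
      Y0 K L R S :=
    { toFun := fun x => ⟨x.1.1, x.1.2, x.2⟩
      invFun := fun q => ⟨⟨q.1, q.2.1⟩, q.2.2⟩
      left_inv := fun _ => rfl
      right_inv := fun _ => rfl }
  have hfinY : Finite (Y0 K L R S) := Finite.of_equiv _ e
  have hcY : Nat.card (Y0 K L R S) = Nat.card {x : X0 K L R S //
      ∀ g ∈ U, ((Psi R S).comp (X0 K L R S).subtype) x g = 1} := (Nat.card_congr e).symm
  have hSe : ∏ v ∈ S, (es K L v * fs K L v) = ∏ v ∈ S, fs K L v := by
    refine Finset.prod_congr rfl fun v hv => ?_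
    rw [hram v (hS v hv), one_mul]
  have hle : Module.finrank K L ≤ Nat.card (Y0 K L R S) := by
    rw [hSe, ← hcard] at hi2
    have h1 : N.relIndex U * Module.finrank K L ≤ N.relIndex U * Nat.card (Y0 K L R S) := by
      rw [hcY]
      exact hi2.trans hdc
    exact Nat.le_of_mul_le_mul_left h1 (Nat.pos_of_ne_zero hi1)
  have hinj : Function.Injective fun q : Y0 K L R S => phi f R S xs q.1 := by
    intro q r hqr
    have h1 : phi f R S xs (q.1 * r.1⁻¹) = 1 := by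
      have h2 : phi f R S xs q.1 = phi f R S xs r.1 := hqr
      have h5 : q.1 * r.1⁻¹ * r.1 = q.1 := inv_mul_cancel_right q.1 r.1
      have h3 : phi f R S xs (q.1 * r.1⁻¹) * phi f R S xs r.1 = 1 * phi f R S xs r.1 := by
        rw [← map_mul, h5, one_mul, h2]
      exact mul_right_cancel h3
    have h3 : q.1 * r.1⁻¹ ∈ Y0 K L R S := mul_mem q.2 (inv_mem r.2)
    have h4 := phi_inj f R S xs (q.1 * r.1⁻¹) hR hS hxs' h3.2 h1
    exact Subtype.ext (mul_inv_eq_one.1 h4)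
  have hmap : ∀ φ, φ ∈ (Y0 K L R S).map (phi f R S xs) ↔ ∃ q : Y0 K L R S, phi f R S xs q.1 = φ := by
    intro φ
    constructor
    · rintro ⟨q, hq, rfl⟩
      exact ⟨⟨q, hq⟩, rfl⟩
    · rintro ⟨q, rfl⟩
      exact ⟨q.1, q.2, rfl⟩
  let e2 : Y0 K L R S ≃ (Y0 K L R S).map (phi f R S xs) :=
    Equiv.ofBijective (fun q => ⟨phi f R S xs q.1, ⟨q.1, q.2, rfl⟩⟩)
      ⟨fun q r h => hinj (congrArg Subtype.val h), fun φ => by
        obtain ⟨q, hq⟩ := (hmap φ.1).1 φ.2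
        exact ⟨q, Subtype.ext hq⟩⟩
  refine ⟨(Y0 K L R S).map (phi f R S xs), Finite.of_equiv _ e2, ?_, ?_, ?_, ?_⟩
  · intro φ hφ
    obtain ⟨q, rfl⟩ := (hmap φ).1 hφ
    exact phi_RC f R S xs q.1 hR hS hxs' q.2.2
  · rw [← Nat.card_congr e2]
    exact hle
  · intro φ hφ
    obtain ⟨q, rfl⟩ := (hmap φ).1 hφ
    rw [← map_pow, phi_pow (K := K) (L := L) R S q.1 q.2.1, map_one]
  · intro φ hφ v hv hs
    obtain ⟨q, rfl⟩ := (hmap φ).1 hφ
    exact phi_split hc f R S T hT hGT xs q.1 hR hS hxs' q.2.2 q.2.1 v hv hs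

end H55R
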