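import Mathlib
import Pool.Agent.Lib.H55R.BF2

open NumberField IsDedekindDomain
open scoped Pointwise

namespace H55R

/-! Chunk X4 (M): decomposition groups in towers. spl_bot: in L/K Galois, Spl K L v iff all decomposition groups above v are trivial (card_stab,
es_pos, fs_pos; conjugate groups, under_exists). spl_iff (K < L < N, L/K and N/K Galois): (->) σ in Gal(N/K) with σ W = W (W a prime of N) restricts to an
element of Gal(L/K) fixing W.under (𝓞 L), which is 1. (<-) let W be a prime of N above v, W1 = W.under (𝓞 L), τ in Gal(L/K) with τ W1 = W1. Extend τ to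
τ' in Gal(N/K) (AlgEquiv.restrictNormalHom_surjective). τ' W and W lie above W1, so ρ τ' W = W for some ρ in Gal(N/L) (smulP_trans
for N/L), as an element ρ of Gal(N/K) (restrictScalars) it is in the kernel of the restriction; ρ τ' is in the decomposition
group of W, so in the kernel, so τ = 1. es_dvd: es K N = es K L * es of N/L (Ideal.ramificationIdx tower formula; ramificationIdxIn_eq_ramificationIdx). -/

theorem spl_bot (K L : Type) [Field K] [NumberField K] [Field L] [NumberField L] [Algebra K L]
    [IsGalois K L] (v : Pl K) : Spl K L v ↔ SplA (⊥ : Subgroup Gal(L/K)) v := by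
  constructor
  · rintro ⟨he, hf⟩ W hW σ hσ
    have h1 := card_stab W v hW
    rw [he, hf, mul_one, Nat.card_eq_one_iff_unique] at h1
    obtain ⟨h2, -⟩ := h1
    have h3 : (⟨σ, HeightOneSpectrum.ext hσ⟩ : {σ : Gal(L/K) // smulP σ W = W}) =
        ⟨1, smulP_one W⟩ := Subsingleton.elim _ _
    rw [Subgroup.mem_bot]
    exact congrArg Subtype.val h3
  · intro h
    obtain ⟨W, hW⟩ := under_exists (L := L) v
    have h1 := card_stab W v hW
    have h2 : Nat.card {σ : Gal(L/K) // smulP σ W = W} = 1 := by
      rw [Nat.card_eq_one_iff_unique]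
      refine ⟨⟨fun a b => ?_⟩, ⟨⟨1, smulP_one W⟩⟩⟩
      have ha := h W hW a.1 (congrArg HeightOneSpectrum.asIdeal a.2)
      have hb := h W hW b.1 (congrArg HeightOneSpectrum.asIdeal b.2)
      rw [Subgroup.mem_bot] at ha hb
      exact Subtype.ext (ha.trans hb.symm)
    rw [h2] at h1
    exact ⟨Nat.eq_one_of_mul_eq_one_right h1.symm, Nat.eq_one_of_mul_eq_one_left h1.symm⟩

theorem X4_coe (K L N : Type) [Field K] [NumberField K] [Field L] [NumberField L] [Field N]
    [NumberField N] [Algebra K L] [Algebra L N] [Algebra K N] [IsScalarTower K L N]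
    [IsGalois K L] [IsGalois K N] (σ : Gal(N/K)) (x : 𝓞 L) :
    algebraMap (𝓞 L) (𝓞 N) ((AlgEquiv.restrictNormalHom L σ : Gal(L/K)) • x) =
      σ • algebraMap (𝓞 L) (𝓞 N) x := by
  apply RingOfIntegers.ext
  exact AlgEquiv.restrictNormal_commutes σ L (x : L)

theorem X4_under (K L N : Type) [Field K] [NumberField K] [Field L] [NumberField L] [Field N]
    [NumberField N] [Algebra K L] [Algebra L N] [Algebra K N] [IsScalarTower K L N]
    [IsGalois K L] [IsGalois K N] (σ : Gal(N/K)) (W : Pl N) :
    (smulP σ W).under (𝓞 L) =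
      smulP (AlgEquiv.restrictNormalHom L σ : Gal(L/K)) (W.under (𝓞 L)) := by
  apply HeightOneSpectrum.ext
  change Ideal.comap (algebraMap (𝓞 L) (𝓞 N)) (σ • W.asIdeal) =
    (AlgEquiv.restrictNormalHom L σ : Gal(L/K)) •
      Ideal.comap (algebraMap (𝓞 L) (𝓞 N)) W.asIdeal
  ext x
  rw [Ideal.mem_comap, Ideal.mem_pointwise_smul_iff_inv_smul_mem,
    Ideal.mem_pointwise_smul_iff_inv_smul_mem, Ideal.mem_comap, ← map_inv, X4_coe]

theorem spl_iff (K L N : Type) [Field K] [NumberField K] [Field L] [NumberField L] [Field N]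
    [NumberField N] [Algebra K L] [Algebra L N] [Algebra K N] [IsScalarTower K L N]
    [IsGalois K L] [IsGalois K N] (v : Pl K) :
    Spl K L v ↔ SplA (AlgEquiv.restrictNormalHom L : Gal(N/K) →* Gal(L/K)).ker v := by
  have hunder : ∀ W : Pl N, (W.under (𝓞 L)).under (𝓞 K) = W.under (𝓞 K) := by
    intro W
    apply HeightOneSpectrum.ext
    exact Ideal.under_under W.asIdeal
  rw [spl_bot]
  constructor
  · intro h W hW σ hσ
    rw [MonoidHom.mem_ker]
    have h1 : smulP σ W = W := HeightOneSpectrum.ext hσ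
    have h2 := X4_under K L N σ W
    rw [h1] at h2
    have h3 := h (W.under (𝓞 L)) ((hunder W).trans hW) (AlgEquiv.restrictNormalHom L σ)
      (congrArg HeightOneSpectrum.asIdeal h2).symm
    rwa [Subgroup.mem_bot] at h3
  · intro h W₁ hW₁ τ hτ
    have hLN : IsGalois L N := IsGalois.tower_top_of_isGalois K L N
    obtain ⟨W, hW⟩ := under_exists (L := N) W₁
    obtain ⟨τ', hτ'⟩ := AlgEquiv.restrictNormalHom_surjective (F := K) (K₁ := L) (E := N) τ
    have h1 : (smulP τ' W).under (𝓞 L) = W.under (𝓞 L) := by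
      rw [X4_under K L N, hτ', hW]
      exact HeightOneSpectrum.ext hτ
    obtain ⟨ρ, hρ⟩ := smulP_trans (K := L) (smulP τ' W) W h1
    have h2 : (smulP ((ρ.restrictScalars K : Gal(N/K)) * τ') W) = W := by
      rw [smulP_mul]
      exact hρ
    have h3 : (AlgEquiv.restrictNormalHom L (ρ.restrictScalars K : Gal(N/K)) : Gal(L/K)) = 1 := by
      ext x
      apply (algebraMap L N).injective
      exact (AlgEquiv.restrictNormal_commutes (ρ.restrictScalars K : Gal(N/K)) L x).trans
        (ρ.commutes x)
    have h4 := h W ((hunder W).symm.trans (by rw [hW, hW₁])) _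
      (congrArg HeightOneSpectrum.asIdeal h2)
    rw [MonoidHom.mem_ker, map_mul, h3, one_mul, hτ'] at h4
    rw [Subgroup.mem_bot]
    exact h4

theorem es_dvd (K L N : Type) [Field K] [NumberField K] [Field L] [NumberField L] [Field N]
    [NumberField N] [Algebra K L] [Algebra L N] [Algebra K N] [IsScalarTower K L N]
    [IsGalois K L] [IsGalois K N] (v : Pl K) : es K L v ∣ es K N v := by
  have hLN : IsGalois L N := IsGalois.tower_top_of_isGalois K L N
  obtain ⟨W, hW⟩ := under_exists (L := L) v
  have hp := v.isPrime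
  have hP := W.isPrime
  have hl : W.asIdeal.LiesOver v.asIdeal := ⟨(congrArg HeightOneSpectrum.asIdeal hW).symm⟩
  refine Dvd.intro (W.asIdeal.ramificationIdxIn (𝓞 N)) ?_
  exact Ideal.ramificationIdxIn_mul_ramificationIdxIn (p := v.asIdeal) W.asIdeal Gal(L/K) (𝓞 N)
    Gal(N/K) Gal(N/L)

end H55R
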