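import Mathlib

open NumberField IsDedekindDomain

namespace H55R

/-! Chunk X5 (S/M): the fixed field of a normal subgroup as a type. M = IntermediateField.fixedField A (coerced to a type), a number field (NumberField.of_module_finite or
of_intermediateField), algebras and scalar tower from IntermediateField, IsGalois K M because A is normal
(IsGalois.of_fixedField_normal_subgroup), finrank K M = A.index (IntermediateField.finrank_fixedField_eq_card, Lagrange), and an element σ restricts to the
identity of M iff it fixes M pointwise iff it is in the fixing subgroup of the fixed field = A (IsGalois / IntermediateField.fixingSubgroup_fixedField). -/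

theorem exists_fixed (K N : Type) [Field K] [NumberField K] [Field N] [NumberField N] [Algebra K N]
    [IsGalois K N] (A : Subgroup Gal(N/K)) (hA : A.Normal) :
    ∃ (M : Type) (_ : Field M) (_ : NumberField M) (_ : Algebra K M) (_ : Algebra M N)
      (_ : IsScalarTower K M N) (_ : IsGalois K M), Module.finrank K M = A.index ∧
      (AlgEquiv.restrictNormalHom M : Gal(N/K) →* Gal(M/K)).ker = A := by
  have h1 : IsGalois K (IntermediateField.fixedField A) := IsGalois.of_fixedField_normal_subgroup A
  have h2 : NumberField (IntermediateField.fixedField A) := NumberField.of_module_finite K _
  refine ⟨IntermediateField.fixedField A, inferInstance, h2, inferInstance, inferInstance,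
    inferInstance, h1, ?_, ?_⟩
  · rw [IntermediateField.finrank_eq_fixingSubgroup_index, IntermediateField.fixingSubgroup_fixedField]
  · rw [IntermediateField.restrictNormalHom_ker, IntermediateField.fixingSubgroup_fixedField]

end H55R
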