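import Mathlib
import Pool.Agent.Lib.H55R.X4
import Pool.Agent.Lib.H55R.X5
import Pool.Agent.Lib.H55R.HC8
import Pool.Agent.Lib.H55R.Den

open NumberField IsDedekindDomain

namespace H55R

/-! The density theorem and the first inequality for the fixed field of a subgroup (assembly). -/

theorem density_A (K N : Type) [Field K] [NumberField K] [Field N] [NumberField N] [Algebra K N]
    [IsGalois K N] (A : Subgroup Gal(N/K)) (hA : A.Normal) :
    ∃ C : ℝ, ∀ s ∈ Set.Ioc (1 : ℝ) 2,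
      |PS {v : Pl K | SplA A v} s - (1 / A.index : ℝ) * Real.log (1 / (s - 1))| ≤ C := by
  obtain ⟨M, i1, i2, i3, i4, i5, i6, h1, h2⟩ := exists_fixed K N A hA
  obtain ⟨C, hC⟩ := density_split K M
  refine ⟨C, fun s hs => ?_⟩
  have h3 : {v : Pl K | SplA A v} = {v : Pl K | Spl K M v} := by
    ext v
    rw [Set.mem_setOf_eq, Set.mem_setOf_eq, spl_iff K M N v, h2]
  rw [h3, ← h1]
  exact hC s hs

theorem first_A (K N : Type) [Field K] [NumberField K] [Field N] [NumberField N] [Algebra K N]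
    [IsGalois K N] (A : Subgroup Gal(N/K)) (hA : A.Normal) (σ : Gal(N/K))
    (hσ : ∀ x : Gal(N/K), ∃ i : ℤ, x * (σ ^ i)⁻¹ ∈ A)
    (hK : ∀ v : InfinitePlace K, v.IsComplex) (f : Ideal (𝓞 K)) (hf : f ≠ ⊥)
    (hram : ∀ v : Pl K, ¬ f ≤ v.asIdeal → es K N v = 1)
    (htame : ∀ v : Pl K, es K N v ∣ Ideal.absNorm v.asIdeal - 1) :
    ∃ Y : Subgroup (Pl K → ℂˣ), Finite Y ∧ Y ≤ RC f ∧ A.index ≤ Nat.card Y ∧
      ∀ φ ∈ Y, ∀ v : Pl K, ¬ f ≤ v.asIdeal → SplA A v → φ v = 1 := by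
  obtain ⟨M, i1, i2, i3, i4, i5, i6, h1, h2⟩ := exists_fixed K N A hA
  have hgen : ∀ g : Gal(M/K), g ∈ Subgroup.zpowers (AlgEquiv.restrictNormalHom M σ) := by
    intro g
    obtain ⟨x, rfl⟩ := AlgEquiv.restrictNormalHom_surjective (F := K) (K₁ := M) (E := N) g
    obtain ⟨i, hi⟩ := hσ x
    rw [← h2, MonoidHom.mem_ker, map_mul, map_inv, mul_inv_eq_one, map_zpow] at hi
    rw [hi]
    exact Subgroup.zpow_mem _ (Subgroup.mem_zpowers _) i
  obtain ⟨Y, a1, a2, a3, -, a5⟩ := first_ineq (K := K) (L := M) _ hgen hK f hf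
    (fun v hv => Nat.dvd_one.1 ((hram v hv) ▸ es_dvd K M N v))
    (fun v => (es_dvd K M N v).trans (htame v))
  refine ⟨Y, a1, a2, by rw [← h1]; exact a3, fun φ hφ v hv hs => a5 φ hφ v hv ?_⟩
  rw [spl_iff K M N v, h2]
  exact hs

end H55R
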