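import Mathlib
import Pool.Agent.Lib.H55R.X6

open NumberField IsDedekindDomain

namespace H55R

open H55B

/-! Chunk X10 (M): consequences of the density theorems. PS is monotone in the set and additive on disjoint sets for s > 1 (the series over all primes converges:
the primes of norm m number at most [K : Q] per rational prime; or Summable from Pool.Agent.Lib.H55N.H3.ideal_summable), PS (A ∪ B) + PS (A ∩ B) = PS A + PS B,
PS of a finite set is bounded on [1, 2] by its number of elements. The primes containing f are finitely many (primes_finite).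
second_ineq: PS (SplA A) <= PS (kernel of Y) + finite, so (1/index) log(1/(s-1)) - C <= (1/|Y|) log(1/(s-1)) + C' for all s in (1, 2]; let s -> 1 : 1/index <= 1/|Y|.
indep: SplA A and SplA B outside f are in the kernel of Z; SplA A ∩ SplA B = SplA (A ⊓ B). Density: 1/[G:A] + 1/[G:B] - 1/[G:A ⊓ B] <= 1/|Z|, and
[G : A ⊓ B] > [G : A] because A is not contained in B. So 1/[G:B] < 1/|Z|. -/

theorem PS_summable {K : Type} [Field K] [NumberField K] (s : ℝ) (hs : 1 < s) :
    Summable fun v : Pl K => (Ideal.absNorm v.asIdeal : ℝ) ^ (-s) := by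
  have h1 := H55N.ideal_summable (K := K) s hs
  exact h1.comp_injective (i := fun v : Pl K => v.asIdeal) fun v w h => HeightOneSpectrum.ext h

section X10

variable {K : Type} [Field K] [NumberField K]

theorem X10_sum (S : Set (Pl K)) (s : ℝ) (hs : 1 < s) :
    Summable (S.indicator fun v : Pl K => (Ideal.absNorm v.asIdeal : ℝ) ^ (-s)) :=
  (PS_summable s hs).indicator S

theorem X10_mono {S T : Set (Pl K)} (h : S ⊆ T) (s : ℝ) (hs : 1 < s) : PS S s ≤ PS T s := by
  unfold PS
  refine (X10_sum S s hs).tsum_le_tsum (fun v => ?_) (X10_sum T s hs)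
  exact Set.indicator_le_indicator_of_subset h (fun v => by positivity) v

theorem X10_union (S T : Set (Pl K)) (s : ℝ) (hs : 1 < s) :
    PS (S ∪ T) s + PS (S ∩ T) s = PS S s + PS T s := by
  unfold PS
  rw [← (X10_sum (S ∪ T) s hs).tsum_add (X10_sum (S ∩ T) s hs),
    ← (X10_sum S s hs).tsum_add (X10_sum T s hs)]
  exact tsum_congr fun v => Set.indicator_union_add_inter_apply _ S T v

theorem X10_nonneg (S : Set (Pl K)) (s : ℝ) : 0 ≤ PS S s := by
  unfold PS
  exact tsum_nonneg fun v => Set.indicator_nonneg (fun v _ => by positivity) v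

theorem X10_fin {S : Set (Pl K)} (hS : S.Finite) (s : ℝ) (hs : 1 < s) :
    PS S s ≤ hS.toFinset.card := by
  unfold PS
  rw [tsum_eq_sum (s := hS.toFinset) fun v hv => by
    rw [Set.indicator_of_notMem]
    exact fun h => hv (hS.mem_toFinset.2 h)]
  have h1 : ∀ v ∈ hS.toFinset, S.indicator (fun v : Pl K => (Ideal.absNorm v.asIdeal : ℝ) ^ (-s)) v ≤
      1 := by
    intro v hv
    rw [Set.indicator_of_mem (hS.mem_toFinset.1 hv)]
    apply Real.rpow_le_one_of_one_le_of_nonpos
    · have : 0 < Ideal.absNorm v.asIdeal := Nat.pos_of_ne_zero fun h => v.ne_bot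
        (Ideal.absNorm_eq_zero_iff.1 h)
      exact_mod_cast this
    · linarith
  calc _ ≤ ∑ v ∈ hS.toFinset, (1 : ℝ) := Finset.sum_le_sum h1
    _ = _ := by simp

theorem X10_bad {f : Ideal (𝓞 K)} (hf : f ≠ ⊥) : {v : Pl K | f ≤ v.asIdeal}.Finite := by
  have h := Ideal.finite_factors hf
  refine h.subset fun v hv => ?_
  exact Ideal.dvd_iff_le.2 hv

/-- Primes of S are in the kernel T up to the primes containing f. -/
theorem X10_cmp {f : Ideal (𝓞 K)} (hf : f ≠ ⊥) {S T : Set (Pl K)}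
    (h : ∀ v ∈ S, ¬ f ≤ v.asIdeal → v ∈ T) (s : ℝ) (hs : 1 < s) :
    PS S s ≤ PS T s + (X10_bad hf).toFinset.card := by
  have h1 : S ⊆ T ∪ {v : Pl K | f ≤ v.asIdeal} := by
    intro v hv
    by_cases hb : f ≤ v.asIdeal
    · exact Or.inr hb
    · exact Or.inl (h v hv hb)
  have h2 := X10_union T {v : Pl K | f ≤ v.asIdeal} s hs
  have h3 := X10_nonneg (T ∩ {v : Pl K | f ≤ v.asIdeal}) s
  have h4 := X10_fin (X10_bad hf) s hs
  have h5 := X10_mono h1 s hs
  linarith

end X10

theorem X10_lim {a b D : ℝ}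
    (h : ∀ s ∈ Set.Ioc (1 : ℝ) 2, a * Real.log (1 / (s - 1)) ≤ b * Real.log (1 / (s - 1)) + D) :
    a ≤ b := by
  by_contra hab
  push Not at hab
  set T : ℝ := max 0 (D / (a - b)) + 1 with hT
  have hT1 : 0 < T := by
    have := le_max_left 0 (D / (a - b))
    linarith
  have hab' : 0 < a - b := by linarith
  have hT2 : D < (a - b) * T := by
    have h1 := le_max_right 0 (D / (a - b))
    have h2 : D / (a - b) < T := by linarith
    rw [div_lt_iff₀ hab'] at h2
    linarith
  have h3 := h (1 + Real.exp (-T)) ⟨by linarith [Real.exp_pos (-T)], by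
    have := Real.exp_le_one_iff.2 (by linarith : -T ≤ 0)
    linarith⟩
  rw [add_sub_cancel_left, one_div, ← Real.exp_neg, neg_neg, Real.log_exp] at h3
  linarith

theorem X10_index {G : Type} [Group G] [Finite G] (A : Subgroup G) : (0 : ℝ) < A.index := by
  exact_mod_cast Nat.pos_of_ne_zero Subgroup.index_ne_zero_of_finite

theorem second_ineq (K N : Type) [Field K] [NumberField K] [Algebra F K] [Field N] [NumberField N]
    [Algebra K N] [IsGalois K N] (A : Subgroup Gal(N/K)) (hA : A.Normal) (f : Ideal (𝓞 K))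
    (hf : f ≠ ⊥) (hf' : f ≠ ⊤) (Y : Subgroup (Pl K → ℂˣ)) (hYf : Finite Y) (hY : Y ≤ RC f)
    (h : ∀ φ ∈ Y, ∀ v : Pl K, ¬ f ≤ v.asIdeal → SplA A v → φ v = 1) :
    Nat.card Y ≤ A.index := by
  obtain ⟨C, hC⟩ := density_A K N A hA
  obtain ⟨C', hC'⟩ := density_ker f hf hf' Y hY
  have hY0 : (0 : ℝ) < Nat.card Y := by exact_mod_cast Nat.card_pos
  have hA0 := X10_index A
  have h1 : (1 / A.index : ℝ) ≤ 1 / Nat.card Y := by
    refine X10_lim (D := C + C' + (X10_bad hf).toFinset.card) fun s hs => ?_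
    have e1 := (abs_le.1 (hC s hs)).1
    have e2 := hC' s hs
    have e3 := X10_cmp hf (S := {v : Pl K | SplA A v})
      (T := {v : Pl K | ¬ f ≤ v.asIdeal ∧ ∀ φ ∈ Y, φ v = 1})
      (fun v hv hb => ⟨hb, fun φ hφ => h φ hφ v hb hv⟩) s hs.1
    linarith
  rw [one_div_le_one_div hA0 hY0] at h1
  exact_mod_cast h1

theorem indep (K N : Type) [Field K] [NumberField K] [Algebra F K] [Field N] [NumberField N]
    [Algebra K N] [IsGalois K N] (A B : Subgroup Gal(N/K)) (hA : A.Normal) (hB : B.Normal)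
    (hAB : ¬ A ≤ B) (f : Ideal (𝓞 K)) (hf : f ≠ ⊥) (hf' : f ≠ ⊤) (Z : Subgroup (Pl K → ℂˣ))
    (hZf : Finite Z) (hZ : Z ≤ RC f)
    (h : ∀ φ ∈ Z, ∀ v : Pl K, ¬ f ≤ v.asIdeal → SplA A v ∨ SplA B v → φ v = 1) :
    Nat.card Z < B.index := by
  obtain ⟨C₁, hC₁⟩ := density_A K N A hA
  obtain ⟨C₂, hC₂⟩ := density_A K N B hB
  have hAB' : (A ⊓ B).Normal := Subgroup.normal_inf_normal A B
  obtain ⟨C₃, hC₃⟩ := density_A K N (A ⊓ B) hAB'
  obtain ⟨C', hC'⟩ := density_ker f hf hf' Z hZ
  have hZ0 : (0 : ℝ) < Nat.card Z := by exact_mod_cast Nat.card_pos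
  have hA0 := X10_index A
  have hB0 := X10_index B
  have hAB0 := X10_index (A ⊓ B)
  have hint : {v : Pl K | SplA A v} ∩ {v : Pl K | SplA B v} = {v : Pl K | SplA (A ⊓ B) v} := by
    ext v
    constructor
    · rintro ⟨h1, h2⟩ W hW σ hσ
      exact ⟨h1 W hW σ hσ, h2 W hW σ hσ⟩
    · intro h1
      exact ⟨fun W hW σ hσ => (h1 W hW σ hσ).1, fun W hW σ hσ => (h1 W hW σ hσ).2⟩
  have h1 : (1 / A.index + 1 / B.index - 1 / (A ⊓ B).index : ℝ) ≤ 1 / Nat.card Z := by
    refine X10_lim (D := C₁ + C₂ + C₃ + C' + (X10_bad hf).toFinset.card) fun s hs => ?_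
    have e1 := (abs_le.1 (hC₁ s hs)).1
    have e2 := (abs_le.1 (hC₂ s hs)).1
    have e3 := (abs_le.1 (hC₃ s hs)).2
    have e4 := hC' s hs
    have e5 := X10_cmp hf (S := {v : Pl K | SplA A v} ∪ {v : Pl K | SplA B v})
      (T := {v : Pl K | ¬ f ≤ v.asIdeal ∧ ∀ φ ∈ Z, φ v = 1})
      (fun v hv hb => ⟨hb, fun φ hφ => h φ hφ v hb hv⟩) s hs.1
    have e6 := X10_union {v : Pl K | SplA A v} {v : Pl K | SplA B v} s hs.1
    rw [hint] at e6
    linarith
  have h2 : A.index < (A ⊓ B).index := by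
    have e1 := Subgroup.relIndex_mul_index (inf_le_left : A ⊓ B ≤ A)
    have e2 : (A ⊓ B).relIndex A ≠ 1 := by
      intro e
      rw [Subgroup.relIndex_eq_one] at e
      exact hAB (e.trans inf_le_right)
    have e3 : (A ⊓ B).relIndex A ≠ 0 := by
      intro e
      rw [e, zero_mul] at e1
      exact Subgroup.index_ne_zero_of_finite e1.symm
    have e4 : 0 < A.index := Nat.pos_of_ne_zero Subgroup.index_ne_zero_of_finite
    rw [← e1]
    exact lt_mul_of_one_lt_left e4 (by omega)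
  have h3 : (1 / (A ⊓ B).index : ℝ) < 1 / A.index := by
    rw [one_div_lt_one_div hAB0 hA0]
    exact_mod_cast h2
  have h4 : (1 / B.index : ℝ) < 1 / Nat.card Z := by linarith
  rw [one_div_lt_one_div hB0 hZ0] at h4
  exact_mod_cast h4

end H55R
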