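import Mathlib

namespace H55R

/-! Chunk X11 (S, group theory). fin_adjoin: the product map Y × zpowers φ -> Y ⊔ zpowers φ is surjective (commutative group, Subgroup.mem_sup).
card_adjoin: zpowers φ has prime order l (φ <> 1 as φ is not in Y) and meets Y in 1 (its subgroups are trivial or everything), so the product map is injective too.
mem_adjoin: elements of Y ⊔ zpowers φ are μ φ^j. -/

theorem X11_map {P : Type} [CommGroup P] (Y : Subgroup P) (φ : P) :
    Function.Surjective (fun q : Y × Subgroup.zpowers φ =>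
      (⟨q.1.1 * q.2.1, Subgroup.mul_mem_sup q.1.2 q.2.2⟩ : (Y ⊔ Subgroup.zpowers φ : Subgroup P))) := by
  rintro ⟨x, hx⟩
  obtain ⟨y, hy, z, hz, h⟩ := Subgroup.mem_sup.1 hx
  exact ⟨(⟨y, hy⟩, ⟨z, hz⟩), Subtype.ext h⟩

theorem fin_adjoin {P : Type} [CommGroup P] (Y : Subgroup P) (hY : Finite Y) (φ : P) (k : ℕ)
    (hk : 0 < k) (hφ : φ ^ k = 1) : Finite (Y ⊔ Subgroup.zpowers φ : Subgroup P) := by
  have h1 : Finite (Subgroup.zpowers φ) :=
    (finite_zpowers.2 (isOfFinOrder_iff_pow_eq_one.2 ⟨k, hk, hφ⟩)).to_subtype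
  exact Finite.of_surjective _ (X11_map Y φ)

theorem card_adjoin {P : Type} [CommGroup P] (Y : Subgroup P) (hY : Finite Y) (φ : P) (l : ℕ)
    (hl : l.Prime) (hφ : φ ^ l = 1) (hn : φ ∉ Y) :
    l * Nat.card Y ≤ Nat.card (Y ⊔ Subgroup.zpowers φ : Subgroup P) := by
  have hfin := fin_adjoin Y hY φ l hl.pos hφ
  have hf : Fact l.Prime := ⟨hl⟩
  have h1 : φ ≠ 1 := fun h => hn (by rw [h]; exact Y.one_mem)
  have hord : orderOf φ = l := orderOf_eq_prime hφ h1
  have hcard : Nat.card (Subgroup.zpowers φ) = l := by rw [Nat.card_zpowers, hord]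
  have hinj : Function.Injective (fun q : Y × Subgroup.zpowers φ =>
      (⟨q.1.1 * q.2.1, Subgroup.mul_mem_sup q.1.2 q.2.2⟩ : (Y ⊔ Subgroup.zpowers φ : Subgroup P))) := by
    rintro ⟨⟨y, hy⟩, ⟨z, hz⟩⟩ ⟨⟨y', hy'⟩, ⟨z', hz'⟩⟩ h
    have h2 : y * z = y' * z' := congrArg Subtype.val h
    have h3 : z * z'⁻¹ ∈ Y := by
      have : z * z'⁻¹ = y⁻¹ * y' := by
        calc z * z'⁻¹ = y⁻¹ * (y * z) * z'⁻¹ := by group
          _ = y⁻¹ * y' := by rw [h2]; group
      rw [this]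
      exact Y.mul_mem (Y.inv_mem hy) hy'
    have h4 : z * z'⁻¹ = 1 := by
      by_contra hne
      have h5 : z * z'⁻¹ ∈ Subgroup.zpowers φ :=
        (Subgroup.zpowers φ).mul_mem hz ((Subgroup.zpowers φ).inv_mem hz')
      -- a nontrivial element of a group of prime order generates
      have hf' : Fact (Nat.card (Subgroup.zpowers φ)).Prime := ⟨by rw [hcard]; exact hl⟩
      have h6 : (⟨φ, Subgroup.mem_zpowers φ⟩ : Subgroup.zpowers φ) ∈
          Subgroup.zpowers (⟨z * z'⁻¹, h5⟩ : Subgroup.zpowers φ) :=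
        mem_zpowers_of_prime_card hcard (by
          intro h
          exact hne (congrArg Subtype.val h))
      obtain ⟨j, hj⟩ := Subgroup.mem_zpowers_iff.1 h6
      have h7 : (z * z'⁻¹) ^ j = φ := congrArg Subtype.val hj
      apply hn
      rw [← h7]
      exact Y.zpow_mem h3 j
    have h5 : z = z' := mul_inv_eq_one.1 h4
    have h6 : y = y' := by
      rw [h5] at h2
      exact mul_right_cancel h2
    simp only [h5, h6]
  have h2 := Nat.card_le_card_of_injective _ hinj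
  rw [Nat.card_prod, hcard] at h2
  rwa [mul_comm]

theorem mem_adjoin {P : Type} [CommGroup P] (Y : Subgroup P) (φ θ : P)
    (h : θ ∈ Y ⊔ Subgroup.zpowers φ) : ∃ μ ∈ Y, ∃ j : ℤ, θ = μ * φ ^ j := by
  obtain ⟨y, hy, z, hz, h⟩ := Subgroup.mem_sup.1 h
  obtain ⟨j, rfl⟩ := Subgroup.mem_zpowers_iff.1 hz
  exact ⟨y, hy, j, h.symm⟩

end H55R
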