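import Mathlib

namespace H55R

/-! Chunk X2 (S/M, pure group theory). exists_theta: u is not in the subgroup H generated by u^l (l divides the order of u, so orderOf (u^l) < orderOf u);
the finite commutative group (ZMod p)ˣ / H has a character which is not 1 on the class of u (CommGroup.exists_apply_ne_one_of_hasEnoughRootsOfUnity).
gen_exists: σ a generator of B; G/B has prime order and g is not in B, so every x is g^k b, b in B = <σ>, b = σ^i.
index_pow: l divides orderOf g, so the subgroup generated by g^l has index l in that generated by g; Subgroup.relIndex_mul_index.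
pow_mem: B normal of index l: g^l is in B (the quotient has order l). -/

theorem exists_theta (p l : ℕ) [Fact p.Prime] (hl : l.Prime) (u : (ZMod p)ˣ) (h : l ∣ orderOf u) :
    ∃ θ : (ZMod p)ˣ →* ℂˣ, θ u ≠ 1 ∧ θ (u ^ l) = 1 := by
  have hpos : 0 < orderOf u := orderOf_pos u
  have hu : u ∉ Subgroup.zpowers (u ^ l) := by
    intro hu
    have h1 : orderOf u ∣ orderOf (u ^ l) := orderOf_dvd_of_mem_zpowers hu
    rw [orderOf_pow_of_dvd hl.ne_zero h] at h1
    have h2 : 0 < orderOf u / l := Nat.div_pos (Nat.le_of_dvd hpos h) hl.pos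
    have h3 := Nat.le_of_dvd h2 h1
    have h4 : orderOf u / l < orderOf u := Nat.div_lt_self hpos hl.one_lt
    omega
  have hne : (QuotientGroup.mk u : (ZMod p)ˣ ⧸ Subgroup.zpowers (u ^ l)) ≠ 1 := by
    intro h1
    exact hu ((QuotientGroup.eq_one_iff u).1 h1)
  have : NeZero (Monoid.exponent ((ZMod p)ˣ ⧸ Subgroup.zpowers (u ^ l))) :=
    ⟨Monoid.exponent_ne_zero_of_finite⟩
  obtain ⟨φ, hφ⟩ := CommGroup.exists_apply_ne_one_of_hasEnoughRootsOfUnity
    ((ZMod p)ˣ ⧸ Subgroup.zpowers (u ^ l)) ℂ hne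
  refine ⟨φ.comp (QuotientGroup.mk' _), hφ, ?_⟩
  have h1 : (QuotientGroup.mk' (Subgroup.zpowers (u ^ l))) (u ^ l) = 1 :=
    (QuotientGroup.eq_one_iff _).2 (Subgroup.mem_zpowers _)
  rw [MonoidHom.comp_apply, h1, map_one]

theorem gen_exists {G : Type} [Group G] [Finite G] (hc : ∀ g h : G, g * h = h * g) (l : ℕ)
    (hl : l.Prime) (g : G) (B : Subgroup G) (hB : B.index = l) (hBc : IsCyclic B) (hg : g ∉ B) :
    ∃ σ : G, ∀ x : G, ∃ i : ℤ, x * (σ ^ i)⁻¹ ∈ Subgroup.zpowers g := by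
  obtain ⟨σ, hσ⟩ := hBc.exists_generator
  refine ⟨σ, fun x => ?_⟩
  have hn : B.Normal := ⟨fun b hb y => by rwa [hc y b, mul_assoc, mul_inv_cancel, mul_one]⟩
  have := Fact.mk hl
  have hcard : Nat.card (G ⧸ B) = l := hB
  have hgne : (QuotientGroup.mk g : G ⧸ B) ≠ 1 := fun h => hg ((QuotientGroup.eq_one_iff g).1 h)
  have hmem : (QuotientGroup.mk x : G ⧸ B) ∈ Subgroup.zpowers (QuotientGroup.mk g : G ⧸ B) :=
    mem_zpowers_of_prime_card hcard hgne
  obtain ⟨k, hk⟩ := hmem
  have h1 : (g ^ k)⁻¹ * x ∈ B := by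
    rw [← QuotientGroup.eq]
    exact_mod_cast hk
  obtain ⟨i, hi⟩ := hσ ⟨_, h1⟩
  have h2 : (σ : G) ^ i = (g ^ k)⁻¹ * x := by
    have := congrArg Subtype.val hi
    simpa using this
  refine ⟨i, k, ?_⟩
  rw [h2]
  change g ^ k = _
  group

theorem index_pow {G : Type} [Group G] [Finite G] (l : ℕ) (hl : l.Prime) (g : G)
    (h : l ∣ orderOf g) :
    (Subgroup.zpowers (g ^ l)).index = l * (Subgroup.zpowers g).index := by
  have h1 := Subgroup.card_mul_index (Subgroup.zpowers (g ^ l))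
  have h2 := Subgroup.card_mul_index (Subgroup.zpowers g)
  rw [Nat.card_zpowers] at h1 h2
  rw [orderOf_pow_of_dvd hl.ne_zero h] at h1
  obtain ⟨o, ho⟩ := h
  have hpos : 0 < orderOf g := orderOf_pos g
  have ho0 : 0 < o := by
    rcases Nat.eq_zero_or_pos o with h0 | h0
    · rw [ho, h0] at hpos
      simp at hpos
    · exact h0
  rw [ho, Nat.mul_div_cancel_left o hl.pos] at h1
  rw [ho] at h2
  refine Nat.eq_of_mul_eq_mul_left ho0 ?_
  rw [h1, ← h2]
  ring

theorem pow_mem_index {G : Type} [Group G] [Finite G] (hc : ∀ g h : G, g * h = h * g) (l : ℕ)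
    (g : G) (B : Subgroup G) (hB : B.index = l) : g ^ l ∈ B := by
  have hn : B.Normal := ⟨fun b hb y => by rwa [hc y b, mul_assoc, mul_inv_cancel, mul_one]⟩
  rw [← hB]
  exact Subgroup.pow_index_mem B g

end H55R
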