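import Mathlib

open NumberField IsDedekindDomain

namespace H55R

/-! Chunk X3 (M): the field N = L(zeta_p). Take N = CyclotomicField p L (a number field, IsCyclotomicExtension {p} L N, ζ = IsCyclotomicExtension.zeta),
Algebra K N by composition (toAlgebra), scalar tower. N/K is normal: the splitting field of f (X^p - 1) if L is the splitting field
of f over K (IsGalois.of_isSplittingField..., or: every K-embedding of N into an algebraic closure maps L to L (normal) and ζ to a p-th root of unity,
hence N to N: Normal via AlgHom.fieldRange), separable in characteristic 0. An automorphism fixing L and ζ is the identity (N is generated by ζ over L).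
Commutative: (g h)(x) = (h g)(x) for x in L (restrictions to L commute by hc; AlgEquiv.restrictNormal) and for ζ: g ζ = ζ^a, h ζ = ζ^b;
so (g h)(h g)^-1 fixes L and ζ. -/

theorem exists_N (K L : Type) [Field K] [NumberField K] [Field L] [NumberField L] [Algebra K L]
    [IsGalois K L] (hc : ∀ g h : Gal(L/K), g * h = h * g) (p : ℕ) (hp : p.Prime) :
    ∃ (N : Type) (_ : Field N) (_ : NumberField N) (_ : Algebra K N) (_ : Algebra L N)
      (_ : IsScalarTower K L N) (ζ : N), IsPrimitiveRoot ζ p ∧ IsGalois K N ∧
      (∀ g h : Gal(N/K), g * h = h * g) ∧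
      (∀ g : Gal(N/K), g ζ = ζ → (∀ x : L, g (algebraMap L N x) = algebraMap L N x) → g = 1) := by
  have : NeZero p := ⟨hp.ne_zero⟩
  have hζ : IsPrimitiveRoot (IsCyclotomicExtension.zeta p L (CyclotomicField p L)) p :=
    IsCyclotomicExtension.zeta_spec p L (CyclotomicField p L)
  have hgal : IsGalois K (CyclotomicField p L) := by
    have hff : ∃ f : Polynomial K, f ≠ 0 ∧ Polynomial.IsSplittingField K L f := by
      obtain ⟨f, hf⟩ := Normal.exists_isSplittingField K L
      rcases ne_or_eq f 0 with h0 | h0
      · exact ⟨f, h0, hf⟩
      · refine ⟨1, one_ne_zero, ⟨?_, ?_⟩⟩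
        · rw [Polynomial.map_one]
          exact Polynomial.Splits.one
        · have h1 := hf.adjoin_rootSet
          rw [h0, Polynomial.rootSet_zero] at h1
          rw [Polynomial.rootSet_one]
          exact h1
    obtain ⟨f, hf0, hf⟩ := hff
    have hg0 : ((Polynomial.X : Polynomial K) ^ p - 1) ≠ 0 :=
      Polynomial.X_pow_sub_C_ne_zero hp.pos (1 : K)
    have h2 : Polynomial.IsSplittingField L (CyclotomicField p L)
        (((Polynomial.X : Polynomial K) ^ p - 1).map (algebraMap K L)) := by
      rw [Polynomial.map_sub, Polynomial.map_pow, Polynomial.map_X, Polynomial.map_one]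
      exact IsCyclotomicExtension.isSplittingField_X_pow_sub_one p L (CyclotomicField p L)
    have h3 : Normal K (CyclotomicField p L) := by
      have h4 := Polynomial.IsSplittingField.mul (F := K) (K := L) (CyclotomicField p L) f
        ((Polynomial.X : Polynomial K) ^ p - 1) hf0 hg0
      exact Normal.of_isSplittingField (f * ((Polynomial.X : Polynomial K) ^ p - 1))
    exact ⟨⟩
  have hfix : ∀ g : Gal((CyclotomicField p L)/K),
      g (IsCyclotomicExtension.zeta p L (CyclotomicField p L)) =
        IsCyclotomicExtension.zeta p L (CyclotomicField p L) →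
      (∀ x : L, g (algebraMap L (CyclotomicField p L) x) = algebraMap L (CyclotomicField p L) x) →
      g = 1 := by
    intro g h1 h2
    let g' : (CyclotomicField p L) →ₐ[L] (CyclotomicField p L) :=
      { ((g : (CyclotomicField p L) ≃ₐ[K] (CyclotomicField p L)) :
          (CyclotomicField p L) →+* (CyclotomicField p L)) with
        commutes' := h2 }
    have h3 : g' = AlgHom.id L (CyclotomicField p L) := by
      refine AlgHom.ext_of_adjoin_eq_top
        (IsCyclotomicExtension.adjoin_primitive_root_eq_top (A := L) hζ) ?_
      intro x hx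
      rw [Set.mem_singleton_iff] at hx
      rw [hx]
      exact h1
    ext x
    exact DFunLike.congr_fun h3 x
  refine ⟨CyclotomicField p L, inferInstance, inferInstance, inferInstance, inferInstance,
    inferInstance, IsCyclotomicExtension.zeta p L (CyclotomicField p L), hζ, hgal, ?_, hfix⟩
  intro g h
  have hres : ∀ (k : Gal((CyclotomicField p L)/K)) (x : L),
      k (algebraMap L (CyclotomicField p L) x) =
        algebraMap L (CyclotomicField p L) (AlgEquiv.restrictNormal k L x) := fun k x =>
    (AlgEquiv.restrictNormal_commutes k L x).symm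
  have h1 : (h * g)⁻¹ * (g * h) = 1 := by
    apply hfix
    · have h2 : (g * h) (IsCyclotomicExtension.zeta p L (CyclotomicField p L)) =
          (h * g) (IsCyclotomicExtension.zeta p L (CyclotomicField p L)) := by
        rw [AlgEquiv.mul_apply, AlgEquiv.mul_apply, ← hζ.autToPow_spec K h, ← hζ.autToPow_spec K g,
          map_pow, map_pow, ← hζ.autToPow_spec K g, ← hζ.autToPow_spec K h, ← pow_mul, ← pow_mul,
          mul_comm]
      rw [AlgEquiv.mul_apply, h2, ← AlgEquiv.mul_apply, inv_mul_cancel]
      rfl
    · intro x
      have h2 : (g * h) (algebraMap L (CyclotomicField p L) x) =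
          (h * g) (algebraMap L (CyclotomicField p L) x) := by
        rw [AlgEquiv.mul_apply, AlgEquiv.mul_apply, hres h x, hres g x, hres, hres]
        congr 1
        exact DFunLike.congr_fun (hc (AlgEquiv.restrictNormal g L) (AlgEquiv.restrictNormal h L)) x
      rw [AlgEquiv.mul_apply, h2, ← AlgEquiv.mul_apply, inv_mul_cancel]
      rfl
  exact (inv_mul_eq_one.1 h1).symm

end H55R
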