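import Mathlib
import Pool.Agent.Lib.H55R.BF2

open NumberField IsDedekindDomain
open scoped Pointwise

namespace H55R

/-! Chunk X7 (M): Frobenius elements of an abelian extension N/K at an unramified prime v. Let W be above v, g an arithmetic Frobenius at W (Mathlib:
IsArithFrobAt, IsArithFrobAt.exists_of_isInvariant, arithFrobAt): g x = x^q mod W for x in 𝓞 N, q = absNorm v; g is in the stabiliser D of W (mem_stabilizer). The
inertia group is trivial (Ideal.card_inertia_eq_ramificationIdxIn), so |D| = f (card_stab), D injects into the automorphisms of the finite field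
𝓞 N / W over 𝓞 K / v (a field with q elements, extension of degree f), and g maps to the q-power Frobenius, of order f: so D is generated by g. The
stabilisers of the other primes above v are conjugate, hence equal to D (commutative). So SplA A v iff D <= A iff g is in A.
Roots of unity: g ζ = ζ^a, and ζ^a - ζ^q is in W. If ζ^a <> ζ^q, then p is in W (p = product of the 1 - ζ^i, 0 < i < p, up to units:
IsPrimitiveRoot; or X^p - 1 is separable modulo W), so p is in v, excluded. -/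

theorem X7_inj {K N : Type} [Field K] [NumberField K] [Field N] [NumberField N] [Algebra K N]
    [IsGalois K N] (v : Pl K) (hv : es K N v = 1) (W : Pl N) [hl : W.asIdeal.LiesOver v.asIdeal]
    [hc : SMulCommClass Gal(N/K) (𝓞 K) (𝓞 N)] :
    Function.Injective (Ideal.Quotient.stabilizerHom W.asIdeal v.asIdeal Gal(N/K)) := by
  have hW := W.isPrime
  have hp := v.isPrime
  rw [injective_iff_map_eq_one]
  intro σ hσ
  have h1 : (σ : Gal(N/K)) ∈ W.asIdeal.inertia Gal(N/K) := by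
    rw [← Ideal.Quotient.map_ker_stabilizer_subtype W.asIdeal v.asIdeal Gal(N/K)]
    exact ⟨σ, hσ, rfl⟩
  have h2 : Nat.card (W.asIdeal.inertia Gal(N/K)) = 1 := by
    rw [Ideal.card_inertia_eq_ramificationIdxIn (G := Gal(N/K)) v.asIdeal W.asIdeal]
    exact hv
  rw [Subgroup.card_eq_one.1 h2, Subgroup.mem_bot] at h1
  exact Subtype.ext h1

theorem X7_pow {K N : Type} [Field K] [NumberField K] [Field N] [NumberField N] [Algebra K N]
    [IsGalois K N] (v : Pl K) (hv : es K N v = 1) (W : Pl N) [hl : W.asIdeal.LiesOver v.asIdeal]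
    [hc : SMulCommClass Gal(N/K) (𝓞 K) (𝓞 N)] (g : Gal(N/K)) (hg : IsArithFrobAt (𝓞 K) g W.asIdeal)
    (σ : Gal(N/K)) (hσ : σ • W.asIdeal = W.asIdeal) : ∃ n : ℕ, σ = g ^ n := by
  have hW := W.isPrime
  have hp := v.isPrime
  have hWm := W.isMaximal
  have hpm := v.isMaximal
  have hfin : Finite (𝓞 N ⧸ W.asIdeal) := Ideal.finiteQuotientOfFreeOfNeBot _ W.ne_bot
  have hfin' : Finite (𝓞 K ⧸ v.asIdeal) := Ideal.finiteQuotientOfFreeOfNeBot _ v.ne_bot
  let _ := Ideal.Quotient.field v.asIdeal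
  let _ := Ideal.Quotient.field W.asIdeal
  let _ := Fintype.ofFinite (𝓞 K ⧸ v.asIdeal)
  have hgs := hg.mem_stabilizer
  obtain ⟨⟨n, hn⟩, hn2⟩ := (FiniteField.bijective_frobeniusAlgEquivOfAlgebraic_pow (𝓞 K ⧸ v.asIdeal)
    (𝓞 N ⧸ W.asIdeal)).2 (Ideal.Quotient.stabilizerHom W.asIdeal v.asIdeal Gal(N/K) ⟨σ, hσ⟩)
  have hF : Ideal.Quotient.stabilizerHom W.asIdeal v.asIdeal Gal(N/K) ⟨g, hgs⟩ =
      FiniteField.frobeniusAlgEquivOfAlgebraic (𝓞 K ⧸ v.asIdeal) (𝓞 N ⧸ W.asIdeal) := by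
    apply AlgEquiv.ext
    intro y
    obtain ⟨x, rfl⟩ := Ideal.Quotient.mk_surjective y
    rw [FiniteField.coe_frobeniusAlgEquivOfAlgebraic]
    have h1 := hg.mk_apply x
    rw [← hl.over, Nat.card_eq_fintype_card] at h1
    exact h1
  refine ⟨n, ?_⟩
  have h2 : Ideal.Quotient.stabilizerHom W.asIdeal v.asIdeal Gal(N/K) ⟨σ, hσ⟩ =
      Ideal.Quotient.stabilizerHom W.asIdeal v.asIdeal Gal(N/K) (⟨g, hgs⟩ ^ n) := by
    rw [map_pow, hF]
    exact hn2.symm
  exact congrArg Subtype.val (X7_inj v hv W h2)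

theorem exists_frob (K N : Type) [Field K] [NumberField K] [Field N] [NumberField N] [Algebra K N]
    [IsGalois K N] (hc : ∀ g h : Gal(N/K), g * h = h * g) (v : Pl K) (hv : es K N v = 1) :
    ∃ g : Gal(N/K), (∀ A : Subgroup Gal(N/K), SplA A v ↔ g ∈ A) ∧
      ∀ (p : ℕ) (ζ : N), p.Prime → IsPrimitiveRoot ζ p → (p : 𝓞 K) ∉ v.asIdeal →
        g ζ = ζ ^ Ideal.absNorm v.asIdeal := by
  classical
  have hcomm := BF1_comm (K := K) (L := N)
  obtain ⟨W, hW⟩ := under_exists (L := N) v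
  have hl : W.asIdeal.LiesOver v.asIdeal := (BF2_mem v W hW).2
  have hWp := W.isPrime
  have hfin : Finite (𝓞 N ⧸ W.asIdeal) := Ideal.finiteQuotientOfFreeOfNeBot _ W.ne_bot
  obtain ⟨g, hg⟩ := IsArithFrobAt.exists_of_isInvariant (𝓞 K) Gal(N/K) W.asIdeal
  refine ⟨g, fun A => ⟨fun h => h W hW g hg.mem_stabilizer, fun h => ?_⟩, ?_⟩
  · intro W' hW' σ hσ
    obtain ⟨τ, hτ⟩ := smulP_trans W W' (hW.trans hW'.symm)
    have h1 : W'.asIdeal = τ • W.asIdeal := (congrArg HeightOneSpectrum.asIdeal hτ).symm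
    rw [h1, ← mul_smul, hc σ τ, mul_smul] at hσ
    have h2 := smul_left_cancel τ hσ
    obtain ⟨n, hn⟩ := X7_pow v hv W g hg σ h2
    rw [hn]
    exact A.pow_mem h n
  · intro p ζ hp hζ hpv
    have hint : IsIntegral ℤ ζ := hζ.isIntegral hp.pos
    obtain ⟨z, hz⟩ : ∃ z : 𝓞 N, (z : N) = ζ := ⟨⟨ζ, hint⟩, rfl⟩
    have hz1 : z ^ p = 1 := by
      apply RingOfIntegers.coe_injective
      rw [map_pow, map_one]
      change (z : N) ^ p = 1
      rw [hz, hζ.pow_eq_one]
    have hpW : (p : 𝓞 N) ∉ W.asIdeal := by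
      intro h
      apply hpv
      rw [hl.over, Ideal.under, Ideal.mem_comap, map_natCast]
      exact h
    have h1 := AlgHom.IsArithFrobAt.apply_of_pow_eq_one hg hz1 hpW
    have h2 : g • z = z ^ Ideal.absNorm v.asIdeal := by
      rw [Ideal.absNorm_apply, Submodule.cardQuot_apply, hl.over]
      exact h1
    have h3 : ((g • z : 𝓞 N) : N) = ((z ^ Ideal.absNorm v.asIdeal : 𝓞 N) : N) := by rw [h2]
    rw [BF1_coe, hz] at h3
    rw [h3, ← hz]
    exact map_pow (algebraMap (𝓞 N) N) z _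

end H55R
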