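import Mathlib
import Pool.Agent.Lib.H55R.BF2

open NumberField IsDedekindDomain
open scoped Pointwise

namespace H55R

variable (K L N : Type) [Field K] [NumberField K] [Field L] [NumberField L] [Field N]
  [NumberField N] [Algebra K L] [Algebra L N] [Algebra K N] [IsScalarTower K L N]
  [IsGalois K L] [IsGalois K N]

/-! Chunk X8 (M): ramification in N = L(zeta_p). I = inertia group of a prime W of N above v in Gal(N/K) (g x - x in W for all x in 𝓞 N), of order es K N v
(Ideal.card_inertia_eq_ramificationIdxIn). Restriction maps I to the inertia group I1 of W.under (𝓞 L) in Gal(L/K), of order es K L v.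
es_N: p not in v. The map I -> I1 is injective: if g in I fixes L pointwise, g ζ = ζ^a with ζ^a - ζ in W; if ζ^a <> ζ then p is in W, hence in v; so g ζ = ζ and
g = 1 (hN). So the order of I divides the order of I1 (Subgroup.card_dvd_of_injective or card_range_dvd).
es_N': es K L v = 1: then I fixes L pointwise, and g -> a (g ζ = ζ^a, IsPrimitiveRoot.autToPow) is an injective homomorphism from I to (ZMod p)ˣ, of order
p - 1. -/

omit [NumberField K] [NumberField L] [NumberField N] [IsGalois K N] in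
theorem X8_res (σ : Gal(N/K)) (x : L) :
    algebraMap L N (AlgEquiv.restrictNormalHom L σ x) = σ (algebraMap L N x) :=
  AlgEquiv.restrictNormal_commutes σ L x

omit [NumberField K] [NumberField L] [IsGalois K L] [IsGalois K N] [Algebra K L] [Algebra L N]
  [IsScalarTower K L N] in
theorem X8_zeta (p : ℕ) (hp : p.Prime) (ζ : N) (hζ : IsPrimitiveRoot ζ p) (W : Pl N)
    (σ : Gal(N/K)) (hσ : σ ∈ W.asIdeal.inertia Gal(N/K)) (hne : σ ζ ≠ ζ) :
    (p : 𝓞 N) ∈ W.asIdeal := by
  have : NeZero p := ⟨hp.ne_zero⟩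
  have hint : IsIntegral ℤ ζ := hζ.isIntegral hp.pos
  set z : 𝓞 N := ⟨ζ, hint⟩ with hz
  have hzp : z ^ p = 1 := by
    apply RingOfIntegers.ext
    exact hζ.pow_eq_one
  have hs : ((σ • z : 𝓞 N) : N) = σ ζ := rfl
  have hsp : (σ • z) ^ p = 1 := by
    rw [← smul_pow', hzp, smul_one]
  set η : 𝓞 N := (σ • z) * z ^ (p - 1) with hη
  have hηp : η ^ p = 1 := by
    rw [hη, mul_pow, hsp, one_mul, ← pow_mul, mul_comm, pow_mul, hzp, one_pow]
  have hpp : z ^ (p - 1) * z = 1 := by
    rw [← pow_succ, Nat.sub_add_cancel hp.one_le, hzp]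
  have hη1 : η ≠ 1 := by
    intro h
    apply hne
    have h1 : σ • z = z := by
      calc σ • z = (σ • z) * (z ^ (p - 1) * z) := by rw [hpp, mul_one]
        _ = η * z := by rw [hη, mul_assoc]
        _ = z := by rw [h, one_mul]
    rw [← hs, h1]
    rfl
  have hord : orderOf η = p := by
    have : Fact p.Prime := ⟨hp⟩
    exact orderOf_eq_prime hηp hη1
  have hprim : IsPrimitiveRoot η p := by
    rw [← hord]
    exact IsPrimitiveRoot.orderOf η
  have hsum := hprim.geom_sum_eq_zero hp.one_lt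
  have hmem : η - 1 ∈ W.asIdeal := by
    have h1 : σ • z - z ∈ W.asIdeal := hσ z
    have h2 : η - 1 = z ^ (p - 1) * (σ • z - z) := by
      rw [mul_sub, hpp, hη]
      ring
    rw [h2]
    exact Ideal.mul_mem_left _ _ h1
  have hq : Ideal.Quotient.mk W.asIdeal η = 1 := by
    rw [← map_one (Ideal.Quotient.mk W.asIdeal), Ideal.Quotient.eq]
    exact hmem
  rw [← Ideal.Quotient.eq_zero_iff_mem, map_natCast]
  have h3 := congrArg (Ideal.Quotient.mk W.asIdeal) hsum
  rw [map_sum, map_zero] at h3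
  simp only [map_pow, hq, one_pow, Finset.sum_const, Finset.card_range, nsmul_eq_mul, mul_one] at h3
  exact h3

omit [IsGalois K N] in
theorem X8_inertia (W : Pl N) (σ : Gal(N/K))
    (hσ : σ ∈ W.asIdeal.inertia Gal(N/K)) :
    AlgEquiv.restrictNormalHom L σ ∈ (W.under (𝓞 L)).asIdeal.inertia Gal(L/K) := by
  intro x
  show algebraMap (𝓞 L) (𝓞 N) ((AlgEquiv.restrictNormalHom L σ) • x - x) ∈ W.asIdeal
  have h1 : algebraMap (𝓞 L) (𝓞 N) ((AlgEquiv.restrictNormalHom L σ) • x) =
      σ • algebraMap (𝓞 L) (𝓞 N) x := by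
    apply RingOfIntegers.ext
    exact X8_res K L N σ (x : L)
  rw [map_sub, h1]
  exact hσ _

theorem X8_card (W : Pl N) (v : Pl K) (h : W.under (𝓞 K) = v) :
    Nat.card (W.asIdeal.inertia Gal(N/K)) = es K N v := by
  have hp := v.isPrime
  have hW := W.isPrime
  have hl : W.asIdeal.LiesOver v.asIdeal := (BF2_mem v W h).2
  exact Ideal.card_inertia_eq_ramificationIdxIn (G := Gal(N/K)) v.asIdeal W.asIdeal

theorem X8_under (W : Pl N) (v : Pl K) (h : W.under (𝓞 K) = v) :
    (W.under (𝓞 L)).under (𝓞 K) = v := by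
  rw [← h]
  apply HeightOneSpectrum.ext
  show (W.asIdeal.under (𝓞 L)).under (𝓞 K) = W.asIdeal.under (𝓞 K)
  rw [Ideal.under_under]

theorem es_N (p : ℕ) (hp : p.Prime) (ζ : N) (hζ : IsPrimitiveRoot ζ p)
    (hN : ∀ g : Gal(N/K), g ζ = ζ → (∀ x : L, g (algebraMap L N x) = algebraMap L N x) → g = 1)
    (v : Pl K) (hv : (p : 𝓞 K) ∉ v.asIdeal) : es K N v ∣ es K L v := by
  obtain ⟨W, hW⟩ := under_exists (L := N) v
  rw [← X8_card K N W v hW, ← X8_card K L (W.under (𝓞 L)) v (X8_under K L N W v hW)]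
  let f : (W.asIdeal.inertia Gal(N/K)) →* ((W.under (𝓞 L)).asIdeal.inertia Gal(L/K)) :=
    ((AlgEquiv.restrictNormalHom L : Gal(N/K) →* Gal(L/K)).comp
      (W.asIdeal.inertia Gal(N/K)).subtype).codRestrict _
      (fun σ => X8_inertia K L N W σ.1 σ.2)
  refine Subgroup.card_dvd_of_injective f ?_
  rw [injective_iff_map_eq_one]
  rintro ⟨σ, hσ⟩ h1
  have h2 : (AlgEquiv.restrictNormalHom L σ : Gal(L/K)) = 1 := congrArg Subtype.val h1
  apply Subtype.ext
  apply hN
  · by_contra hne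
    apply hv
    have h3 := X8_zeta K N p hp ζ hζ W σ hσ hne
    have h4 : v.asIdeal = W.asIdeal.under (𝓞 K) := (congrArg HeightOneSpectrum.asIdeal hW).symm
    rw [h4, Ideal.under, Ideal.mem_comap, map_natCast]
    exact h3
  · intro x
    rw [← X8_res K L N σ x, h2]
    rfl

theorem X8_pow (p : ℕ) (hp : p.Prime) (ζ : N) (hζ : IsPrimitiveRoot ζ p) [NeZero p] (σ : Gal(N/K))
    (h : hζ.autToPow K σ = 1) : σ ζ = ζ := by
  have h1 := hζ.autToPow_spec K σ
  have : Fact (1 < p) := ⟨hp.one_lt⟩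
  rw [h, Units.val_one, ZMod.val_one, pow_one] at h1
  exact h1.symm

theorem es_N' (p : ℕ) (hp : p.Prime) (ζ : N) (hζ : IsPrimitiveRoot ζ p)
    (hN : ∀ g : Gal(N/K), g ζ = ζ → (∀ x : L, g (algebraMap L N x) = algebraMap L N x) → g = 1)
    (v : Pl K) (hv : es K L v = 1) : es K N v ∣ p - 1 := by
  have : NeZero p := ⟨hp.ne_zero⟩
  have : Fact p.Prime := ⟨hp⟩
  obtain ⟨W, hW⟩ := under_exists (L := N) v
  have hc := X8_card K L (W.under (𝓞 L)) v (X8_under K L N W v hW)
  rw [hv] at hc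
  have hu : Nat.card (ZMod p)ˣ = p - 1 := by
    rw [Nat.card_eq_fintype_card, ZMod.card_units]
  rw [← X8_card K N W v hW, ← hu]
  let f : (W.asIdeal.inertia Gal(N/K)) →* (ZMod p)ˣ :=
    (hζ.autToPow K).comp (W.asIdeal.inertia Gal(N/K)).subtype
  refine Subgroup.card_dvd_of_injective f ?_
  rw [injective_iff_map_eq_one]
  rintro ⟨σ, hσ⟩ h1
  have h2 : hζ.autToPow K σ = 1 := h1
  have h3 : (AlgEquiv.restrictNormalHom L σ : Gal(L/K)) = 1 := by
    have h4 := X8_inertia K L N W σ hσ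
    have h5 : Subsingleton ((W.under (𝓞 L)).asIdeal.inertia Gal(L/K)) :=
      (Nat.card_eq_one_iff_unique.1 hc).1
    exact congrArg Subtype.val (h5.elim (⟨_, h4⟩ : ((W.under (𝓞 L)).asIdeal.inertia Gal(L/K))) 1)
  apply Subtype.ext
  apply hN
  · exact X8_pow K N p hp ζ hζ σ h2
  · intro x
    rw [← X8_res K L N σ x, h3]
    rfl

/-- The kernel of the restriction to L is cyclic (it embeds in (ZMod p)ˣ) of index [L : K]. -/
theorem ker_cyclic (p : ℕ) (hp : p.Prime) (ζ : N) (hζ : IsPrimitiveRoot ζ p)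
    (hN : ∀ g : Gal(N/K), g ζ = ζ → (∀ x : L, g (algebraMap L N x) = algebraMap L N x) → g = 1) :
    IsCyclic (AlgEquiv.restrictNormalHom L : Gal(N/K) →* Gal(L/K)).ker ∧
      (AlgEquiv.restrictNormalHom L : Gal(N/K) →* Gal(L/K)).ker.index = Module.finrank K L := by
  have : NeZero p := ⟨hp.ne_zero⟩
  have : Fact p.Prime := ⟨hp⟩
  constructor
  · refine isCyclic_of_injective ((hζ.autToPow K).comp
      (AlgEquiv.restrictNormalHom L : Gal(N/K) →* Gal(L/K)).ker.subtype) ?_
    rw [injective_iff_map_eq_one]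
    rintro ⟨σ, hσ⟩ h1
    have h2 : hζ.autToPow K σ = 1 := h1
    apply Subtype.ext
    apply hN
    · exact X8_pow K N p hp ζ hζ σ h2
    · intro x
      rw [← X8_res K L N σ x, MonoidHom.mem_ker.1 hσ]
      rfl
  · rw [Subgroup.index_ker, MonoidHom.range_eq_top.2
      (AlgEquiv.restrictNormalHom_surjective (F := K) (K₁ := L) N), Subgroup.card_top,
      IsGalois.card_aut_eq_finrank]

end H55R
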