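import Mathlib
import Pool.Agent.Lib.H55R.Defs

open NumberField IsDedekindDomain

namespace H55R

variable {K : Type} [Field K] [NumberField K]

open Classical in
/-- The cyclotomic character: v -> θ (N v mod p). -/
noncomputable def thetaF (f : Ideal (𝓞 K)) (p : ℕ) (θ : (ZMod p)ˣ →* ℂˣ) : Pl K → ℂˣ := fun v =>
  if h : ¬ f ≤ v.asIdeal ∧ IsUnit ((Ideal.absNorm v.asIdeal : ℕ) : ZMod p) then θ h.2.unit else 1

open Classical in
/-- The restriction of a character to a larger modulus. -/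
noncomputable def resF (f : Ideal (𝓞 K)) (φ : Pl K → ℂˣ) : Pl K → ℂˣ := fun v =>
  if f ≤ v.asIdeal then 1 else φ v

/-! Chunk X9 (M). theta_RC: f <= (p). For v not containing f, p is not in v, so N v is prime to p and thetaF v = θ(N v). For an ideal a prime to f, pv a =
θ(N a mod p) (multiplicativity: UniqueFactorizationMonoid.induction_on_prime or the product over the normalized factors; absNorm is multiplicative). For
x <> 0: absNorm (x) = |N_(K/Q) x| = N_(K/Q) x > 0 because K is totally complex (InfinitePlace.prod_eq_abs_norm and: the norm is a product over pairs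
of conjugate embeddings; or Algebra.norm as the product over all embeddings, which come in conjugate pairs), and x = y mod p gives N x = N y mod p
(determinants: the matrices of multiplication by x and y on an integral basis are congruent mod p).
theta_frob: if ¬ f ≤ v and N v = q as elements of ZMod p with u the unit q, then thetaF v = θ u.
resF_RC: f' <= f: pv of the restriction agrees with pv φ on ideals prime to f'. resF_one: let v not contain f. If v does not contain f', φ v = 1. In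
general choose x in 𝓞 K with x = 1 mod f, x in v, x not in v^2, x not in v' for the other primes v' containing f' (those containing f are automatic; Chinese
remainder theorem); then (x) = v a with a prime to f', x prime to f, so 1 = pv φ (1) = pv φ (x) = φ v * pv φ a = φ v. -/

/-! ### Values at ideals -/

theorem X9_pv_congr (φ ψ : Pl K → ℂˣ) (a : Ideal (𝓞 K))
    (h : ∀ v : Pl K, a ≤ v.asIdeal → φ v = ψ v) : pv φ a = pv ψ a := by
  unfold pv
  refine congrArg Multiset.prod (Multiset.map_congr rfl fun P hP => ?_)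
  by_cases h2 : P.IsPrime ∧ P ≠ ⊥
  · rw [dif_pos h2, dif_pos h2]
    exact h _ (Ideal.dvd_iff_le.1 (UniqueFactorizationMonoid.dvd_of_mem_normalizedFactors hP))
  · rw [dif_neg h2, dif_neg h2]

theorem X9_pv_eq_one (φ : Pl K → ℂˣ) (a : Ideal (𝓞 K))
    (h : ∀ v : Pl K, a ≤ v.asIdeal → φ v = 1) : pv φ a = 1 := by
  rw [X9_pv_congr φ 1 a h, pv_one_fun]

theorem X9_not_le {a f : Ideal (𝓞 K)} (h : IsCoprime a f) (v : Pl K) (ha : a ≤ v.asIdeal) :
    ¬ f ≤ v.asIdeal := by
  intro hf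
  rw [Ideal.isCoprime_iff_sup_eq] at h
  exact v.isPrime.ne_top (top_unique (h ▸ sup_le ha hf))

theorem X9_coprime_of {a f : Ideal (𝓞 K)} (ha : a ≠ ⊥)
    (h : ∀ v : Pl K, a ≤ v.asIdeal → ¬ f ≤ v.asIdeal) : IsCoprime a f := by
  rw [Ideal.isCoprime_iff_sup_eq]
  by_contra hne
  obtain ⟨M, hM, hle⟩ := Ideal.exists_le_maximal _ hne
  have hM0 : M ≠ ⊥ := by
    rintro rfl
    exact ha (le_bot_iff.1 (le_sup_left.trans hle))
  exact h ⟨M, hM.isPrime, hM0⟩ (le_sup_left.trans hle) (le_sup_right.trans hle)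

/-! ### The norm modulo p -/

theorem X9_norm_congr (n : ℕ) (x y : 𝓞 K) (h : x - y ∈ Ideal.span {(n : 𝓞 K)}) :
    ((Algebra.norm ℤ x : ℤ) : ZMod n) = ((Algebra.norm ℤ y : ℤ) : ZMod n) := by
  classical
  obtain ⟨z, hz⟩ := Ideal.mem_span_singleton.1 h
  let b := RingOfIntegers.basis K
  have hx : x = y + (n : ℤ) • z := by
    rw [zsmul_eq_mul]
    push_cast
    rw [← hz]
    ring
  have h1 : (Algebra.leftMulMatrix b x).map (Int.castRingHom (ZMod n)) =
      (Algebra.leftMulMatrix b y).map (Int.castRingHom (ZMod n)) := by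
    ext i j
    rw [Matrix.map_apply, Matrix.map_apply, hx, map_add, map_zsmul, Matrix.add_apply,
      Matrix.smul_apply, map_add, smul_eq_mul, map_mul]
    simp
  rw [Algebra.norm_eq_matrix_det b x, Algebra.norm_eq_matrix_det b y]
  have h2 : ∀ M : Matrix (Module.Free.ChooseBasisIndex ℤ (𝓞 K)) (Module.Free.ChooseBasisIndex ℤ (𝓞 K)) ℤ,
      ((M.det : ℤ) : ZMod n) = (M.map (Int.castRingHom (ZMod n))).det := by
    intro M
    have := RingHom.map_det (Int.castRingHom (ZMod n)) M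
    exact this
  rw [h2, h2, h1]

theorem X9_fiber (w : InfinitePlace K) (hw : w.IsComplex) (x : K) [DecidableEq (InfinitePlace K)] :
    ∏ φ ∈ Finset.univ.filter (fun φ : K →+* ℂ => InfinitePlace.mk φ = w), φ x =
      ((‖w.embedding x‖ ^ 2 : ℝ) : ℂ) := by
  classical
  have hne : w.embedding ≠ ComplexEmbedding.conjugate w.embedding := by
    intro h
    exact (InfinitePlace.isComplex_iff.1 hw) h.symm
  have h1 : Finset.univ.filter (fun φ : K →+* ℂ => InfinitePlace.mk φ = w) =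
      {w.embedding, ComplexEmbedding.conjugate w.embedding} := by
    ext φ
    rw [Finset.mem_filter, Finset.mem_insert, Finset.mem_singleton]
    constructor
    · rintro ⟨-, h⟩
      have h2 : InfinitePlace.mk w.embedding = InfinitePlace.mk φ := by
        rw [InfinitePlace.mk_embedding, h]
      rcases InfinitePlace.mk_eq_iff.1 h2 with h3 | h3
      · exact Or.inl h3.symm
      · exact Or.inr h3.symm
    · intro h
      refine ⟨Finset.mem_univ _, ?_⟩
      rcases h with h | h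
      · rw [h, InfinitePlace.mk_embedding]
      · rw [h, InfinitePlace.mk_conjugate_eq, InfinitePlace.mk_embedding]
  rw [h1, Finset.prod_pair hne, ComplexEmbedding.conjugate_coe_eq, Complex.mul_conj,
    Complex.normSq_eq_norm_sq]

theorem X9_norm_nonneg (hK : ∀ v : InfinitePlace K, v.IsComplex) (x : K) :
    0 ≤ Algebra.norm ℚ x := by
  classical
  have h := Algebra.norm_eq_prod_embeddings ℚ ℂ x
  rw [← Fintype.prod_equiv (RingHom.equivRatAlgHom K ℂ) (fun φ => φ x) (fun f => f x)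
    (fun _ => by simp [RingHom.equivRatAlgHom_apply]),
    ← Finset.prod_fiberwise Finset.univ InfinitePlace.mk (fun φ => φ x),
    Finset.prod_congr rfl fun w _ => X9_fiber w (hK w) x, ← Complex.ofReal_prod, eq_ratCast] at h
  have h2 : ((Algebra.norm ℚ x : ℚ) : ℝ) = ∏ w : InfinitePlace K, ‖w.embedding x‖ ^ 2 := by
    exact_mod_cast h
  have h3 : (0 : ℝ) ≤ ((Algebra.norm ℚ x : ℚ) : ℝ) := by
    rw [h2]
    exact Finset.prod_nonneg fun w _ => by positivity
  exact_mod_cast h3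

theorem X9_absNorm (hK : ∀ v : InfinitePlace K, v.IsComplex) (x : 𝓞 K) :
    ((Ideal.absNorm (Ideal.span {x}) : ℕ) : ℤ) = Algebra.norm ℤ x := by
  rw [Ideal.absNorm_span_singleton, Int.natAbs_of_nonneg]
  have h1 := X9_norm_nonneg hK (x : K)
  rw [← Algebra.coe_norm_int] at h1
  exact_mod_cast h1

theorem X9_unit (f : Ideal (𝓞 K)) (p : ℕ) (hp : p.Prime) (hf : f ≤ Ideal.span {(p : 𝓞 K)})
    (v : Pl K) (hv : ¬ f ≤ v.asIdeal) : IsUnit ((Ideal.absNorm v.asIdeal : ℕ) : ZMod p) := by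
  rw [ZMod.isUnit_iff_coprime, Nat.coprime_comm, Nat.Prime.coprime_iff_not_dvd hp]
  intro hdvd
  apply hv
  refine hf.trans ?_
  rw [Ideal.span_singleton_le_iff_mem]
  have hmax := v.isMaximal
  have hfin : Finite (𝓞 K ⧸ v.asIdeal) := Ideal.finiteQuotientOfFreeOfNeBot _ v.ne_bot
  have hcard : Nat.card (𝓞 K ⧸ v.asIdeal) = Ideal.absNorm v.asIdeal := by
    rw [Ideal.absNorm_apply, Submodule.cardQuot_apply]
  have hF := Fintype.ofFinite (𝓞 K ⧸ v.asIdeal)
  have hpf : Fact p.Prime := ⟨hp⟩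
  obtain ⟨x, hx⟩ := exists_prime_addOrderOf_dvd_card' (G := 𝓞 K ⧸ v.asIdeal) p (by rw [hcard]; exact hdvd)
  have hx0 : x ≠ 0 := by
    rintro rfl
    rw [addOrderOf_zero] at hx
    exact hp.one_lt.ne hx
  have hpx : (p : 𝓞 K ⧸ v.asIdeal) * x = 0 := by
    rw [← nsmul_eq_mul, ← hx]
    exact addOrderOf_nsmul_eq_zero x
  have h1 : (p : 𝓞 K ⧸ v.asIdeal) = 0 := (mul_eq_zero.1 hpx).resolve_right hx0
  rw [← Ideal.Quotient.eq_zero_iff_mem, map_natCast]
  exact h1

theorem X9_pv (f : Ideal (𝓞 K)) (p : ℕ) (hp : p.Prime)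
    (hf : f ≤ Ideal.span {(p : 𝓞 K)}) (θ : (ZMod p)ˣ →* ℂˣ) (a : Ideal (𝓞 K)) :
    a ≠ ⊥ → IsCoprime a f → ∃ u : (ZMod p)ˣ, (u : ZMod p) = (Ideal.absNorm a : ℕ) ∧
      pv (thetaF f p θ) a = θ u := by
  induction a using UniqueFactorizationMonoid.induction_on_prime with
  | h₁ => exact fun h => absurd rfl h
  | h₂ x hx =>
    intro _ _
    have h1 : x = 1 := by
      rw [Ideal.isUnit_iff] at hx
      rw [hx, Ideal.one_eq_top]
    refine ⟨1, ?_, ?_⟩
    · rw [h1, Ideal.one_eq_top, Ideal.absNorm_top]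
      simp
    · rw [h1, pv_one, map_one]
  | h₃ a P ha hP ih =>
    intro h1 h2
    obtain ⟨u, hu, hpu⟩ := ih ha h2.of_mul_left_right
    have hP1 : P.IsPrime := Ideal.isPrime_of_prime hP
    obtain ⟨v, hv⟩ : ∃ v : Pl K, v.asIdeal = P := ⟨⟨P, hP1, hP.ne_zero⟩, rfl⟩
    have hvf : ¬ f ≤ v.asIdeal := X9_not_le h2.of_mul_left_left v hv.ge
    have hvu := X9_unit f p hp hf v hvf
    refine ⟨hvu.unit * u, ?_, ?_⟩
    · rw [Units.val_mul, hu, IsUnit.unit_spec, map_mul, hv]
      push_cast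
      rfl
    · rw [pv_mul _ hP.ne_zero ha, hpu, map_mul, ← hv, pv_prime]
      congr 1
      exact dif_pos ⟨hvf, hvu⟩

theorem theta_RC (hK : ∀ v : InfinitePlace K, v.IsComplex) (f : Ideal (𝓞 K)) (p : ℕ)
    (hp : p.Prime) (hf : f ≤ Ideal.span {(p : 𝓞 K)}) (θ : (ZMod p)ˣ →* ℂˣ) :
    thetaF f p θ ∈ RC f := by
  refine ⟨fun v hv => dif_neg fun h => h.1 hv, fun x y hx hy hc hxy => ?_⟩
  have hx' : Ideal.span {x} ≠ ⊥ := by rwa [Ne, Ideal.span_singleton_eq_bot]
  have hy' : Ideal.span {y} ≠ ⊥ := by rwa [Ne, Ideal.span_singleton_eq_bot]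
  have hc' : IsCoprime (Ideal.span {y}) f := by
    refine X9_coprime_of hy' fun v h1 h2 => X9_not_le hc v ?_ h2
    rw [Ideal.span_singleton_le_iff_mem] at h1 ⊢
    have h3 : x = (x - y) + y := by ring
    rw [h3]
    exact v.asIdeal.add_mem (h2 hxy) h1
  obtain ⟨u, hu, hpu⟩ := X9_pv f p hp hf θ _ hx' hc
  obtain ⟨w, hw, hpw⟩ := X9_pv f p hp hf θ _ hy' hc'
  rw [hpu, hpw]
  congr 1
  apply Units.ext
  rw [hu, hw]
  have h1 := X9_norm_congr p x y (hf hxy)
  rw [← X9_absNorm hK, ← X9_absNorm hK] at h1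
  exact_mod_cast h1

theorem theta_apply (f : Ideal (𝓞 K)) (p : ℕ) (hp : p.Prime) (θ : (ZMod p)ˣ →* ℂˣ) (v : Pl K)
    (hv : ¬ f ≤ v.asIdeal) (u : (ZMod p)ˣ) (hu : (u : ZMod p) = (Ideal.absNorm v.asIdeal : ℕ)) :
    thetaF f p θ v = θ u := by
  have h1 : IsUnit ((Ideal.absNorm v.asIdeal : ℕ) : ZMod p) := hu ▸ u.isUnit
  have h2 : thetaF f p θ v = θ h1.unit := dif_pos ⟨hv, h1⟩
  rw [h2]
  congr 1
  apply Units.ext
  rw [IsUnit.unit_spec, hu]

theorem resF_RC (f f' : Ideal (𝓞 K)) (hle : f' ≤ f) (φ : Pl K → ℂˣ) (hφ : φ ∈ RC f) :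
    resF f' φ ∈ RC f' := by
  refine ⟨fun v hv => if_pos hv, fun x y hx hy hc hxy => ?_⟩
  have hy' : Ideal.span {y} ≠ ⊥ := by rwa [Ne, Ideal.span_singleton_eq_bot]
  have hx' : Ideal.span {x} ≠ ⊥ := by rwa [Ne, Ideal.span_singleton_eq_bot]
  have hc' : IsCoprime (Ideal.span {y}) f' := by
    refine X9_coprime_of hy' fun v h1 h2 => X9_not_le hc v ?_ h2
    rw [Ideal.span_singleton_le_iff_mem] at h1 ⊢
    have h3 : x = (x - y) + y := by ring
    rw [h3]
    exact v.asIdeal.add_mem (h2 hxy) h1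
  have key : ∀ a : Ideal (𝓞 K), IsCoprime a f' → pv (resF f' φ) a = pv φ a := fun a ha =>
    X9_pv_congr _ _ a fun v hv => if_neg (X9_not_le ha v hv)
  rw [key _ hc, key _ hc']
  exact hφ.2 x y hx hy (X9_coprime_of hx' fun v h1 h2 => X9_not_le hc v h1 (hle.trans h2)) (hle hxy)

theorem resF_one (f f' : Ideal (𝓞 K)) (hle : f' ≤ f) (hf' : f' ≠ ⊥) (φ : Pl K → ℂˣ)
    (hφ : φ ∈ RC f) (h : resF f' φ = 1) : φ = 1 := by
  classical
  funext v
  rw [Pi.one_apply]
  by_cases hf : f ≤ v.asIdeal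
  · exact hφ.1 v hf
  have hres : ∀ w : Pl K, ¬ f' ≤ w.asIdeal → φ w = 1 := by
    intro w hw
    have h1 := congrFun h w
    rw [Pi.one_apply] at h1
    have h2 : resF f' φ w = φ w := if_neg hw
    rw [← h2, h1]
  have hvu : ¬ IsUnit v.asIdeal := by
    rw [Ideal.isUnit_iff]
    exact v.isPrime.ne_top
  obtain ⟨g, hg1, hg2⟩ := (FiniteMultiplicity.of_not_isUnit hvu hf').exists_eq_pow_mul_and_not_dvd
  have hf'm : f' = v.asIdeal ^ multiplicity v.asIdeal f' * g := hg1
  have hg0 : g ≠ ⊥ := by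
    rintro rfl
    exact hf' (by rw [hf'm]; exact mul_zero _)
  have hgv : IsCoprime g v.asIdeal := by
    refine X9_coprime_of hg0 fun w h1 h2 => hg2 ?_
    rw [Ideal.dvd_iff_le]
    have h3 : v.asIdeal = w.asIdeal := v.isMaximal.eq_of_le w.isPrime.ne_top h2
    rw [h3]
    exact h1
  have hfv : IsCoprime f v.asIdeal := by
    rw [Ideal.isCoprime_iff_sup_eq]
    by_contra hne
    obtain ⟨M, hM, hle⟩ := Ideal.exists_le_maximal _ hne
    have h4 : v.asIdeal = M := v.isMaximal.eq_of_le hM.ne_top (le_sup_right.trans hle)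
    exact hf (h4 ▸ le_sup_left.trans hle)
  have hgf : g ≤ f := by
    rw [← Ideal.dvd_iff_le]
    have h1 : f ∣ v.asIdeal ^ multiplicity v.asIdeal f' * g := by
      rw [← hf'm, Ideal.dvd_iff_le]
      exact hle
    exact (hfv.pow_right).dvd_of_dvd_mul_left h1
  obtain ⟨π, hπ1, hπ2⟩ : ∃ π ∈ v.asIdeal, π ∉ v.asIdeal ^ 2 := by
    have h1 : v.asIdeal ^ 2 < v.asIdeal ^ 1 :=
      Ideal.pow_right_strictAnti v.asIdeal v.ne_bot v.isPrime.ne_top (by norm_num)
    rw [pow_one] at h1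
    obtain ⟨π, h2, h3⟩ := SetLike.exists_of_lt h1
    exact ⟨π, h2, h3⟩
  obtain ⟨i, hi, j, hj, hij⟩ := Ideal.isCoprime_iff_exists.1 (hgv.pow_right (n := 2))
  -- i in g, j in v ^ 2, i + j = 1
  obtain ⟨x, hx⟩ : ∃ x : 𝓞 K, x = j + i * π := ⟨_, rfl⟩
  have hx1 : x - 1 ∈ g := by
    have h1 : x - 1 = i * (π - 1) := by
      rw [hx]
      linear_combination hij
    rw [h1]
    exact g.mul_mem_right _ hi
  have hx2 : x ∈ v.asIdeal := by
    rw [hx]
    exact v.asIdeal.add_mem (Ideal.pow_le_self two_ne_zero hj) (v.asIdeal.mul_mem_left _ hπ1)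
  have hx3 : x ∉ v.asIdeal ^ 2 := by
    intro h1
    apply hπ2
    have h2 : π = x - j * (1 - π) := by
      rw [hx]
      linear_combination (-π) * hij
    rw [h2]
    exact (v.asIdeal ^ 2).sub_mem h1 ((v.asIdeal ^ 2).mul_mem_right _ hj)
  have hx0 : x ≠ 0 := by
    rintro rfl
    exact hx3 (v.asIdeal ^ 2).zero_mem
  obtain ⟨a, ha⟩ : ∃ a, Ideal.span {x} = v.asIdeal * a := by
    have h1 : v.asIdeal ∣ Ideal.span {x} := by
      rw [Ideal.dvd_iff_le, Ideal.span_singleton_le_iff_mem]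
      exact hx2
    exact h1
  have hxs : Ideal.span {x} ≠ ⊥ := by rwa [Ne, Ideal.span_singleton_eq_bot]
  have ha0 : a ≠ ⊥ := by
    rintro rfl
    exact hxs (by rw [ha]; exact mul_zero _)
  have hav : ¬ a ≤ v.asIdeal := by
    intro h1
    apply hx3
    have h2 : Ideal.span {x} ≤ v.asIdeal ^ 2 := by
      rw [ha, sq]
      exact Ideal.mul_mono_right h1
    exact h2 (Ideal.mem_span_singleton_self x)
  have hag : ∀ w : Pl K, a ≤ w.asIdeal → ¬ f' ≤ w.asIdeal := by
    intro w h1 h2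
    have h3 : v.asIdeal ^ multiplicity v.asIdeal f' * g ≤ w.asIdeal := hf'm ▸ h2
    rcases (Ideal.IsPrime.mul_le w.isPrime).1 h3 with h4 | h4
    · have h5 := Ideal.IsPrime.le_of_pow_le h4
      have h6 : v.asIdeal = w.asIdeal := v.isMaximal.eq_of_le w.isPrime.ne_top h5
      exact hav (h6 ▸ h1)
    · have h5 : x ∈ w.asIdeal := by
        have h6 : Ideal.span {x} ≤ w.asIdeal := by
          rw [ha]
          exact Ideal.mul_le_right.trans h1
        exact h6 (Ideal.mem_span_singleton_self x)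
      have h6 : (1 : 𝓞 K) ∈ w.asIdeal := by
        have h7 : (1 : 𝓞 K) = x - (x - 1) := by ring
        rw [h7]
        exact w.asIdeal.sub_mem h5 (h4 hx1)
      exact w.isPrime.ne_top ((Ideal.eq_top_iff_one _).2 h6)
  have hpa : pv φ a = 1 := X9_pv_eq_one φ a fun w hw => hres w (hag w hw)
  have hxf : IsCoprime (Ideal.span {x}) f := by
    refine X9_coprime_of hxs fun w h1 h2 => ?_
    have h5 : x ∈ w.asIdeal := h1 (Ideal.mem_span_singleton_self x)
    have h6 : (1 : 𝓞 K) ∈ w.asIdeal := by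
      have h7 : (1 : 𝓞 K) = x - (x - 1) := by ring
      rw [h7]
      exact w.asIdeal.sub_mem h5 (h2 (hgf hx1))
    exact w.isPrime.ne_top ((Ideal.eq_top_iff_one _).2 h6)
  have h1 := hφ.2 x 1 hx0 one_ne_zero hxf (hgf hx1)
  rw [ha, pv_mul φ v.ne_bot ha0, hpa, mul_one, pv_prime, Ideal.span_singleton_one,
    ← Ideal.one_eq_top, pv_one] at h1
  exact h1

end H55R
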