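import Mathlib
import Pool.Agent.Lib.H55R.X1
import Pool.Agent.Lib.H55R.X2
import Pool.Agent.Lib.H55R.X3
import Pool.Agent.Lib.H55R.X7
import Pool.Agent.Lib.H55R.X8
import Pool.Agent.Lib.H55R.X9
import Pool.Agent.Lib.H55R.X10
import Pool.Agent.Lib.H55R.X11

open NumberField IsDedekindDomain

namespace H55R

open H55B

theorem SplA_mono {K N : Type} [Field K] [NumberField K] [Field N] [NumberField N] [Algebra K N]
    {A B : Subgroup Gal(N/K)} (h : A ≤ B) {v : Pl K} (hv : SplA A v) : SplA B v :=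
  fun W hW σ hσ => h (hv W hW σ hσ)

theorem complexF (K : Type) [Field K] [NumberField K] [Algebra F K] (v : InfinitePlace K) :
    v.IsComplex := by
  classical
  rw [← InfinitePlace.not_isReal_iff_isComplex]
  intro h
  have h1 : (v.comap (algebraMap F K)).IsReal := h.comap (algebraMap F K)
  have h2 : InfinitePlace.nrRealPlaces F = 0 :=
    IsCyclotomicExtension.Rat.nrRealPlaces_eq_zero (n := 3) F (by norm_num)
  have h3 : 0 < InfinitePlace.nrRealPlaces F := Fintype.card_pos_iff.2 ⟨⟨_, h1⟩⟩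
  omega

theorem root_pow_eq {N : Type} [Field N] {p : ℕ} {ζ : N} (hζ : IsPrimitiveRoot ζ p) (hp : p ≠ 0)
    {a b : ℕ} (h : ζ ^ a = ζ ^ b) : a ≡ b [MOD p] := by
  have hζ0 : ζ ≠ 0 := hζ.ne_zero hp
  have h1 := hζ.eq_orderOf
  have h2 : (Units.mk0 ζ hζ0) ^ a = (Units.mk0 ζ hζ0) ^ b := by
    ext
    exact h
  rw [pow_eq_pow_iff_modEq, ← orderOf_units, Units.val_mk0, ← h1] at h2
  exact h2

/-- Inert primes are not in the kernel of the character (assembly). -/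
theorem cross {K L : Type} [Field K] [NumberField K] [Algebra F K] [Field L] [NumberField L]
    [Algebra K L] [IsGalois K L] (l : ℕ) (hl : l.Prime) (hn : Module.finrank K L = l)
    (hcL : ∀ g h : Gal(L/K), g * h = h * g) (f : Ideal (𝓞 K))
    (hf : f ≠ ⊥) (hf0 : ∀ v : Pl K, ¬ f ≤ v.asIdeal → es K L v = 1)
    (htame : ∀ v : Pl K, es K L v ∣ Ideal.absNorm v.asIdeal - 1) (φ : Pl K → ℂˣ) (hφ : φ ∈ RC f)
    (hφl : φ ^ l = 1) (hφ1 : φ ≠ 1)
    (hφS : ∀ v : Pl K, ¬ f ≤ v.asIdeal → Spl K L v → φ v = 1) (w : Pl K)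
    (hw : ¬ f ≤ w.asIdeal) (hns : ¬ Spl K L w) : φ w ≠ 1 := by
  classical
  set q := Ideal.absNorm w.asIdeal with hq
  have hK : ∀ v : InfinitePlace K, v.IsComplex := complexF K
  have hq1 : 1 < q := by
    have h1 : q ≠ 0 := by
      rw [hq, Ne, Ideal.absNorm_eq_zero_iff]
      exact w.ne_bot
    have h2 : q ≠ 1 := by
      rw [hq, Ne, Ideal.absNorm_eq_one_iff]
      exact w.isPrime.ne_top
    omega
  obtain ⟨p, hp, hpq, hpbad, hord⟩ := exists_p q l hq1 hl (Ideal.absNorm f).primeFactors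
  have hpf : ¬ p ∣ Ideal.absNorm f := by
    intro h
    exact hpbad (Nat.mem_primeFactors.2 ⟨hp, h, by rwa [Ne, Ideal.absNorm_eq_zero_iff]⟩)
  have := Fact.mk hp
  -- the unit q modulo p
  have hqu : IsUnit (q : ZMod p) := by
    rw [isUnit_iff_ne_zero, Ne, ZMod.natCast_eq_zero_iff]
    exact hpq
  set u : (ZMod p)ˣ := hqu.unit with hu
  have huq : (u : ZMod p) = (q : ℕ) := hqu.unit_spec
  have hou : l ∣ orderOf u := by
    rw [← orderOf_units, huq]
    exact hord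
  obtain ⟨θ, hθ1, hθ2⟩ := exists_theta p l hl u hou
  obtain ⟨N, i1, i2, i3, i4, i5, ζ, hζ, i6, hc, hN⟩ := exists_N K L hcL p hp
  set f' : Ideal (𝓞 K) := f * Ideal.span {(p : 𝓞 K)} with hf'
  have hp0 : (p : 𝓞 K) ≠ 0 := Nat.cast_ne_zero.2 hp.ne_zero
  have hf'0 : f' ≠ ⊥ := mul_ne_zero hf (by
    rw [Ne, Ideal.zero_eq_bot, Ideal.span_singleton_eq_bot]
    exact hp0)
  have hle1 : f' ≤ f := Ideal.mul_le_left
  have hle2 : f' ≤ Ideal.span {(p : 𝓞 K)} := Ideal.mul_le_right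
  have hv' : ∀ v : Pl K, ¬ f' ≤ v.asIdeal → ¬ f ≤ v.asIdeal ∧ (p : 𝓞 K) ∉ v.asIdeal :=
    fun v hv => ⟨fun h => hv (hle1.trans h), fun h => hv (hle2.trans (by
      rw [Ideal.span_singleton_le_iff_mem]
      exact h))⟩
  have hv'' : ∀ v : Pl K, ¬ f ≤ v.asIdeal → (p : 𝓞 K) ∉ v.asIdeal → ¬ f' ≤ v.asIdeal := by
    intro v h1 h2 h3
    rcases (v.isPrime.mul_le).1 h3 with h | h
    · exact h1 h
    · rw [Ideal.span_singleton_le_iff_mem] at h
      exact h2 h
  have hf't : f' ≠ ⊤ := by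
    intro h
    have h1 : (p : 𝓞 K) ∣ 1 := by
      rw [← Ideal.mem_span_singleton]
      exact hle2 (by rw [h]; trivial)
    have h2 := Algebra.norm ℤ (p : 𝓞 K)
    have h3 : IsUnit (p : 𝓞 K) := isUnit_of_dvd_one h1
    have h4 := (Ideal.absNorm_eq_one_iff (I := Ideal.span {(p : 𝓞 K)})).2
      (Ideal.span_singleton_eq_top.2 h3)
    rw [Ideal.absNorm_span_singleton] at h4
    have h5 : (Algebra.norm ℤ (p : 𝓞 K)) = (p : ℤ) ^ Module.finrank ℤ (𝓞 K) := by
      have h6 := Algebra.norm_algebraMap (S := 𝓞 K) (p : ℤ)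
      simpa using h6
    rw [h5, Int.natAbs_pow, Int.natAbs_natCast] at h4
    have h7 : Module.finrank ℤ (𝓞 K) ≠ 0 := by
      rw [RingOfIntegers.rank]
      exact Module.finrank_pos.ne'
    have h8 := hp.one_lt
    have h9 := Nat.one_lt_pow h7 h8
    omega
  -- primes dividing f and p
  have hcop : ∀ v : Pl K, (p : 𝓞 K) ∈ v.asIdeal → ¬ f ≤ v.asIdeal := by
    intro v h1 h2
    have h3 := Ideal.absNorm_dvd_absNorm_of_le h2
    have h4 : p ∣ Ideal.absNorm v.asIdeal := by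
      have h5 : (Ideal.absNorm v.asIdeal : 𝓞 K) ∈ v.asIdeal := Ideal.absNorm_mem v.asIdeal
      by_contra h6
      have h7 : IsCoprime (p : ℤ) (Ideal.absNorm v.asIdeal : ℤ) :=
        Nat.isCoprime_iff_coprime.2 ((Nat.Prime.coprime_iff_not_dvd hp).2 h6)
      obtain ⟨a, b, hab⟩ := h7
      apply v.isPrime.ne_top
      rw [Ideal.eq_top_iff_one]
      have h8 : (1 : 𝓞 K) = a * p + b * (Ideal.absNorm v.asIdeal : 𝓞 K) := by
        exact_mod_cast (congrArg (fun z : ℤ => (z : 𝓞 K)) hab).symm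
      rw [h8]
      exact add_mem (Ideal.mul_mem_left _ _ h1) (Ideal.mul_mem_left _ _ h5)
    exact hpf (h4.trans h3)
  have hram : ∀ v : Pl K, ¬ f' ≤ v.asIdeal → es K N v = 1 := by
    intro v hv
    obtain ⟨h1, h2⟩ := hv' v hv
    have h3 := es_N K L N p hp ζ hζ hN v h2
    rw [hf0 v h1] at h3
    exact Nat.dvd_one.1 h3
  have htame' : ∀ v : Pl K, es K N v ∣ Ideal.absNorm v.asIdeal - 1 := by
    intro v
    by_cases h : (p : 𝓞 K) ∈ v.asIdeal
    · have h1 := es_N' K L N p hp ζ hζ hN v (hf0 v (hcop v h))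
      refine h1.trans ?_
      -- the norm of v is a power of p
      have h2 : ∃ k : ℕ, Ideal.absNorm v.asIdeal = p ^ k := by
        have h3 := Ideal.absNorm_dvd_absNorm_of_le
          ((Ideal.span_singleton_le_iff_mem v.asIdeal).2 h)
        rw [Ideal.absNorm_span_singleton] at h3
        have h5 : (Algebra.norm ℤ (p : 𝓞 K)) = (p : ℤ) ^ Module.finrank ℤ (𝓞 K) := by
          have h6 := Algebra.norm_algebraMap (S := 𝓞 K) (p : ℤ)
          simpa using h6
        rw [h5, Int.natAbs_pow, Int.natAbs_natCast] at h3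
        obtain ⟨k, -, hk⟩ := (Nat.dvd_prime_pow hp).1 h3
        exact ⟨k, hk⟩
      obtain ⟨k, hk⟩ := h2
      rw [hk]
      exact Nat.sub_one_dvd_pow_sub_one p k
    · exact (es_N K L N p hp ζ hζ hN v h).trans (htame v)
  -- the Frobenius of w
  have hpw : (p : 𝓞 K) ∉ w.asIdeal := by
    intro h
    apply hpq
    rw [hq]
    have h5 : (Ideal.absNorm w.asIdeal : 𝓞 K) ∈ w.asIdeal := Ideal.absNorm_mem w.asIdeal
    by_contra h6
    have h7 : IsCoprime (p : ℤ) (Ideal.absNorm w.asIdeal : ℤ) :=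
      Nat.isCoprime_iff_coprime.2 ((Nat.Prime.coprime_iff_not_dvd hp).2 h6)
    obtain ⟨a, b, hab⟩ := h7
    apply w.isPrime.ne_top
    rw [Ideal.eq_top_iff_one]
    have h8 : (1 : 𝓞 K) = a * p + b * (Ideal.absNorm w.asIdeal : 𝓞 K) := by
      exact_mod_cast (congrArg (fun z : ℤ => (z : 𝓞 K)) hab).symm
    rw [h8]
    exact add_mem (Ideal.mul_mem_left _ _ h) (Ideal.mul_mem_left _ _ h5)
  have hw' : ¬ f' ≤ w.asIdeal := hv'' w hw hpw
  obtain ⟨g, hg1, hg2⟩ := exists_frob K N hc w (hram w hw')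
  have hgζ : g ζ = ζ ^ q := hg2 p ζ hp hζ hpw
  have hgpow : ∀ k : ℕ, (g ^ k) ζ = ζ ^ (q ^ k) := by
    intro k
    induction k with
    | zero => rw [pow_zero, pow_zero, pow_one]; rfl
    | succ k ih =>
      rw [pow_succ', AlgEquiv.mul_apply, ih, map_pow, hgζ, ← pow_mul, pow_succ']
  have hnorm : ∀ A : Subgroup Gal(N/K), A.Normal := fun A => ⟨fun a ha x => by
    rw [hc x a, mul_assoc, mul_inv_cancel, mul_one]
    exact ha⟩
  set B : Subgroup Gal(N/K) := (AlgEquiv.restrictNormalHom L : Gal(N/K) →* Gal(L/K)).ker with hB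
  obtain ⟨hBc, hBi⟩ := ker_cyclic K L N p hp ζ hζ hN
  rw [hn] at hBi
  have hgB : g ∉ B := by
    intro h
    apply hns
    rw [spl_iff K L N w]
    exact (hg1 _).2 h
  have hog : l ∣ orderOf g := by
    refine hord.trans ?_
    rw [orderOf_dvd_iff_pow_eq_one]
    have h1 := hgpow (orderOf g)
    rw [pow_orderOf_eq_one, AlgEquiv.one_apply] at h1
    have h2 : ζ ^ (q ^ orderOf g) = ζ ^ 1 := by rw [← h1, pow_one]
    have h3 := root_pow_eq hζ hp.ne_zero h2
    have h4 := (ZMod.natCast_eq_natCast_iff _ _ _).2 h3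
    push_cast at h4
    exact h4
  obtain ⟨σ, hσ⟩ := gen_exists hc l hl g B hBi hBc hgB
  -- the characters of M
  obtain ⟨YM, m1, m2, m3, m4⟩ := first_A K N (Subgroup.zpowers g) (hnorm _) σ hσ hK f' hf'0 hram
    htame'
  have hwM : SplA (Subgroup.zpowers g) w := (hg1 _).2 (Subgroup.mem_zpowers g)
  -- the restriction of φ
  set φ' : Pl K → ℂˣ := resF f' φ with hφ'
  have hφ'v : ∀ v : Pl K, ¬ f' ≤ v.asIdeal → φ' v = φ v := fun v hv => if_neg hv
  have hφ'RC : φ' ∈ RC f' := resF_RC f f' hle1 φ hφ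
  have hφ'1 : φ' ≠ 1 := fun h => hφ1 (resF_one f f' hle1 hf'0 φ hφ h)
  have hφ'l : φ' ^ l = 1 := by
    funext v
    by_cases hv : f' ≤ v.asIdeal
    · have h1 : φ' v = 1 := if_pos hv
      rw [Pi.pow_apply, h1, one_pow, Pi.one_apply]
    · rw [Pi.pow_apply, hφ'v v hv]
      exact congrFun hφl v
  have hφ'S : ∀ v : Pl K, ¬ f' ≤ v.asIdeal → SplA B v → φ' v = 1 := by
    intro v hv hs
    rw [hφ'v v hv]
    exact hφS v (hv' v hv).1 ((spl_iff K L N v).2 hs)
  have hzl : Nat.card (Subgroup.zpowers φ') = l := by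
    have := Fact.mk hl
    rw [Nat.card_zpowers]
    exact orderOf_eq_prime hφ'l hφ'1
  have hzfin : Finite (Subgroup.zpowers φ') :=
    Nat.finite_of_card_ne_zero (by rw [hzl]; exact hl.ne_zero)
  -- independence
  have hnot : φ' ∉ YM := by
    intro hmem
    have h1 := indep K N (Subgroup.zpowers g) B (hnorm _) (hnorm _)
      (fun h => hgB (h (Subgroup.mem_zpowers g))) f' hf'0 hf't (Subgroup.zpowers φ') hzfin
      (by rw [Subgroup.zpowers_le]; exact hφ'RC) (by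
        rintro ψ ⟨j, rfl⟩ v hv hs
        have h2 : φ' v = 1 := by
          rcases hs with hs | hs
          · exact m4 φ' hmem v hv hs
          · exact hφ'S v hv hs
        show (φ' ^ j) v = 1
        rw [Pi.pow_apply, h2, one_zpow])
    rw [hzl, hBi] at h1
    exact lt_irrefl _ h1
  -- the cyclotomic character
  set θ' : Pl K → ℂˣ := thetaF f' p θ with hθ'
  have hθ'RC : θ' ∈ RC f' := theta_RC hK f' p hp hle2 θ
  have hθ'pow : θ' ^ (p - 1) = 1 := by
    funext v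
    rw [Pi.pow_apply, Pi.one_apply]
    by_cases h : ¬ f' ≤ v.asIdeal ∧ IsUnit ((Ideal.absNorm v.asIdeal : ℕ) : ZMod p)
    · have h1 : θ' v = θ h.2.unit := dif_pos h
      rw [h1, ← map_pow, ZMod.units_pow_card_sub_one_eq_one, map_one]
    · have h1 : θ' v = 1 := dif_neg h
      rw [h1, one_pow]
  have hp1 : 0 < p - 1 := by
    have := hp.two_le
    omega
  set A2 : Subgroup Gal(N/K) := Subgroup.zpowers (g ^ l) with hA2
  have hA21 : A2 ≤ Subgroup.zpowers g := by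
    rw [hA2, Subgroup.zpowers_le]
    exact Subgroup.pow_mem _ (Subgroup.mem_zpowers g) l
  have hA2B : A2 ≤ B := by
    rw [hA2, Subgroup.zpowers_le]
    exact pow_mem_index hc l g B hBi
  have hθ'S : ∀ v : Pl K, ¬ f' ≤ v.asIdeal → SplA A2 v → θ' v = 1 := by
    intro v hv hs
    obtain ⟨h1, h2⟩ := hv' v hv
    obtain ⟨gv, hgv1, hgv2⟩ := exists_frob K N hc v (hram v hv)
    have h3 := (hgv1 A2).1 hs
    obtain ⟨i, hi⟩ := (mem_zpowers_iff_mem_range_orderOf.1 h3 |> Finset.mem_image.1)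
    have h4 : gv ζ = ζ ^ Ideal.absNorm v.asIdeal := hgv2 p ζ hp hζ h2
    rw [← hi.2, ← pow_mul, hgpow] at h4
    have h5 := root_pow_eq hζ hp.ne_zero h4
    have h6 := (ZMod.natCast_eq_natCast_iff _ _ _).2 h5
    have h7 : ((u ^ (l * i) : (ZMod p)ˣ) : ZMod p) = (Ideal.absNorm v.asIdeal : ℕ) := by
      rw [← h6, Units.val_pow_eq_pow_val, huq]
      push_cast
      rfl
    rw [hθ', theta_apply f' p hp θ v hv _ h7, pow_mul, map_pow, hθ2, one_pow]
  -- counting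
  have hYfin : Finite (YM ⊔ Subgroup.zpowers φ' : Subgroup (Pl K → ℂˣ)) :=
    fin_adjoin YM m1 φ' l hl.pos hφ'l
  have hYcard := card_adjoin YM m1 φ' l hl hφ'l hnot
  have hY'fin : Finite ((YM ⊔ Subgroup.zpowers φ') ⊔ Subgroup.zpowers θ' :
      Subgroup (Pl K → ℂˣ)) := fin_adjoin _ hYfin θ' (p - 1) hp1 hθ'pow
  have hY'RC : ((YM ⊔ Subgroup.zpowers φ') ⊔ Subgroup.zpowers θ' : Subgroup (Pl K → ℂˣ)) ≤
      RC f' := by
    refine sup_le (sup_le m2 ?_) ?_
    · rw [Subgroup.zpowers_le]; exact hφ'RC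
    · rw [Subgroup.zpowers_le]; exact hθ'RC
  have h2 := second_ineq K N A2 (hnorm _) f' hf'0 hf't _ hY'fin hY'RC (by
    intro ψ hψ v hv hs
    obtain ⟨ν, hν, j, rfl⟩ := mem_adjoin _ _ _ hψ
    obtain ⟨μ, hμ, k, rfl⟩ := mem_adjoin _ _ _ hν
    have e1 : μ v = 1 := m4 μ hμ v hv (SplA_mono hA21 hs)
    have e2 : φ' v = 1 := hφ'S v hv (SplA_mono hA2B hs)
    have e3 : θ' v = 1 := hθ'S v hv hs
    simp only [Pi.mul_apply, Pi.pow_apply, e1, e2, e3, one_zpow, mul_one])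
  rw [hA2, index_pow l hl g hog] at h2
  have hge : Nat.card ((YM ⊔ Subgroup.zpowers φ') ⊔ Subgroup.zpowers θ' :
      Subgroup (Pl K → ℂˣ)) ≤ Nat.card (YM ⊔ Subgroup.zpowers φ' : Subgroup (Pl K → ℂˣ)) := by
    refine h2.trans (le_trans ?_ hYcard)
    exact Nat.mul_le_mul_left l m3
  have heq := Subgroup.eq_of_le_of_card_ge
    (le_sup_left : (YM ⊔ Subgroup.zpowers φ') ≤ (YM ⊔ Subgroup.zpowers φ') ⊔ Subgroup.zpowers θ')
    hge
  have hmem : θ' ∈ YM ⊔ Subgroup.zpowers φ' := by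
    rw [heq]
    exact (le_sup_right : Subgroup.zpowers θ' ≤ _) (Subgroup.mem_zpowers θ')
  obtain ⟨μ, hμ, j, hj⟩ := mem_adjoin _ _ _ hmem
  have e1 := congrFun hj w
  have e2 : θ' w = θ u := by
    rw [hθ', theta_apply f' p hp θ w hw' u (by rw [huq])]
  have e3 : μ w = 1 := m4 μ hμ w hw' hwM
  rw [e2, Pi.mul_apply, Pi.pow_apply, e3, one_mul, hφ'v w hw'] at e1
  intro h
  rw [h, one_zpow] at e1
  exact hθ1 e1

end H55R
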