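import Mathlib
import Pool.Agent.Lib.H55R.BF2

open NumberField IsDedekindDomain

namespace H55R

/-! Chunk X12 (M): the modulus. Only finitely many primes v of K are ramified in L: e.g. es K L v <> 1 implies that the prime number below v divides the discriminant
of L (Mathlib: NumberField.not_dvd_discr_iff_forall_mem, es divides the absolute ramification index of the primes above), or that a prime W above v divides the
different of L/K; a nonzero ideal has finitely many prime divisors. f = product of the ramified v.asIdeal over the finite set: f <> 0, squarefree (product of distinct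
primes), f <= v.asIdeal iff v.asIdeal is one of the factors (Ideal.IsPrime.prod_le, maximal ideals). -/

theorem ram_fin (K L : Type) [Field K] [NumberField K] [Field L] [NumberField L] [Algebra K L]
    [IsGalois K L] : {v : Pl K | es K L v ≠ 1}.Finite := by
  have hD : differentIdeal (𝓞 K) (𝓞 L) ≠ ⊥ := differentIdeal_ne_bot
  refine Set.Finite.subset (Set.Finite.image (fun W : Pl L => W.under (𝓞 K))
    (Ideal.finite_factors (I := differentIdeal (𝓞 K) (𝓞 L)) hD)) ?_
  intro v hv
  obtain ⟨W, hW⟩ := under_exists (L := L) v
  refine ⟨W, ?_, hW⟩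
  have hp := v.isPrime
  have hm := v.isMaximal
  have hWp := W.isPrime
  have hl : W.asIdeal.LiesOver v.asIdeal := (BF2_mem v W hW).2
  have h1 : es K L v = Ideal.ramificationIdx' v.asIdeal W.asIdeal := by
    rw [Ideal.ramificationIdx'_eq_ramificationIdx v.asIdeal W.asIdeal v.ne_bot,
      ← Ideal.ramificationIdxIn_eq_ramificationIdx v.asIdeal W.asIdeal Gal(L/K)]
    rfl
  have h2 : W.asIdeal ^ es K L v ∣ v.asIdeal.map (algebraMap (𝓞 K) (𝓞 L)) := by
    rw [Ideal.dvd_iff_le, h1]
    exact Ideal.le_pow_ramificationIdx'
  have h3 := pow_sub_one_dvd_differentIdeal (𝓞 K) W.asIdeal _ v.ne_bot h2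
  have h4 : es K L v - 1 ≠ 0 := by
    have h5 := es_pos (L := L) v
    have h6 : es K L v ≠ 1 := hv
    omega
  exact (dvd_pow_self _ h4).trans h3

theorem exists_mod (K L : Type) [Field K] [NumberField K] [Field L] [NumberField L] [Algebra K L]
    [IsGalois K L] : ∃ f : Ideal (𝓞 K), f ≠ ⊥ ∧ Squarefree f ∧
      ∀ v : Pl K, f ≤ v.asIdeal ↔ es K L v ≠ 1 := by
  classical
  have hfin := ram_fin K L
  refine ⟨∏ v ∈ hfin.toFinset, v.asIdeal, ?_, ?_, fun v => ?_⟩
  · exact Finset.prod_ne_zero_iff.2 fun v _ => v.ne_bot
  · refine Finset.squarefree_prod_of_pairwise_isCoprime ?_ fun v _ => ?_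
    · intro v _ w _ hvw
      have hvm := v.isMaximal
      have hwm := w.isMaximal
      exact (Ideal.isCoprime_of_isMaximal fun h => hvw (HeightOneSpectrum.ext h)).isRelPrime
    · exact v.irreducible.squarefree
  · have hp := v.isPrime
    rw [hp.prod_le]
    constructor
    · rintro ⟨w, hw, hle⟩
      rw [Set.Finite.mem_toFinset] at hw
      have hwm := w.isMaximal
      have h1 : w = v := HeightOneSpectrum.ext (hwm.eq_of_le hp.ne_top hle)
      rw [← h1]
      exact hw
    · intro h
      exact ⟨v, by rw [Set.Finite.mem_toFinset]; exact h, le_refl _⟩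

end H55R
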