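import Mathlib
import Pool.Agent.Lib.H55R.Cross
import Pool.Agent.Lib.H55R.X12

/-!
# H55R: the reciprocity law for tame cyclic extensions of prime degree (final assembly)
-/

open NumberField IsDedekindDomain

namespace H55R

open H55B

/-- The character rho of the cyclic extension L/K of prime degree l. -/
structure IsRec (K L : Type) [Field K] [NumberField K] [Field L] [NumberField L] [Algebra K L]
    (l : ℕ) (f : Ideal (𝓞 K)) (ρ : Ideal (𝓞 K) →*₀ ℂ) : Prop where
  ne : f ≠ ⊥
  sq : Squarefree f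
  ram : ∀ v : Pl K, f ≤ v.asIdeal ↔ es K L v ≠ 1
  val : ∀ a : Ideal (𝓞 K), a ≠ ⊥ → IsCoprime a f → ρ a ^ l = 1
  zero : ∀ a : Ideal (𝓞 K), ¬ IsCoprime a f → ρ a = 0
  per : ∀ x y : 𝓞 K, x ≠ 0 → y ≠ 0 → IsCoprime (Ideal.span {x}) f → x - y ∈ f →
    ρ (Ideal.span {x}) = ρ (Ideal.span {y})
  spl : ∀ v : Pl K, ¬ f ≤ v.asIdeal → (ρ v.asIdeal = 1 ↔ Spl K L v)

theorem pv_pow {K : Type} [Field K] [NumberField K] (φ : Pl K → ℂˣ) (a : Ideal (𝓞 K)) (n : ℕ) :
    pv (φ ^ n) a = pv φ a ^ n := by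
  induction n with
  | zero => rw [pow_zero, pow_zero, pv_one_fun]
  | succ n ih => rw [pow_succ, pow_succ, pv_mul_fun, ih]

theorem cop_prime {K : Type} [Field K] [NumberField K] (v : Pl K) (f : Ideal (𝓞 K))
    (h : ¬ f ≤ v.asIdeal) : IsCoprime v.asIdeal f := by
  rw [Ideal.isCoprime_iff_sup_eq]
  by_contra h1
  have h2 := v.isMaximal.eq_of_le h1 le_sup_left
  exact h (by rw [h2]; exact le_sup_right)

/-- THEOREM: reciprocity. -/
theorem reciprocity (K L : Type) [Field K] [NumberField K] [Algebra F K] [Field L] [NumberField L]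
    [Algebra K L] [IsGalois K L] (l : ℕ) (hl : l.Prime) (hn : Module.finrank K L = l)
    (htame : ∀ v : Pl K, es K L v ≠ 1 → l ∣ Ideal.absNorm v.asIdeal - 1) :
    ∃ (f : Ideal (𝓞 K)) (ρ : Ideal (𝓞 K) →*₀ ℂ), IsRec K L l f ρ := by
  classical
  have hl1 := Fact.mk hl
  have hcard : Nat.card Gal(L/K) = l := by
    rw [IsGalois.card_aut_eq_finrank, hn]
  have hcyc : IsCyclic Gal(L/K) := isCyclic_of_prime_card hcard
  obtain ⟨σ, hσ⟩ := hcyc.exists_generator
  have hc : ∀ g h : Gal(L/K), g * h = h * g := by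
    intro g h
    obtain ⟨i, rfl⟩ := hσ g
    obtain ⟨j, rfl⟩ := hσ h
    exact Commute.zpow_zpow (Commute.refl σ) i j
  obtain ⟨f, hf, hsq, hram⟩ := exists_mod K L
  have hf0 : ∀ v : Pl K, ¬ f ≤ v.asIdeal → es K L v = 1 := fun v hv => by
    by_contra h
    exact hv ((hram v).2 h)
  have htame' : ∀ v : Pl K, es K L v ∣ Ideal.absNorm v.asIdeal - 1 := by
    intro v
    by_cases h : es K L v = 1
    · rw [h]
      exact one_dvd _
    · have h1 : es K L v ∣ l := by
        have h2 := card_above (K := K) (L := L) v (above_finite v).toFinset (fun W => by simp)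
        rw [hn] at h2
        exact ⟨(above_finite (K := K) (L := L) v).toFinset.card * fs K L v, by rw [← h2]; ring⟩
      rcases (Nat.dvd_prime hl).1 h1 with h2 | h2
      · exact absurd h2 h
      · rw [h2]
        exact htame v h
  obtain ⟨Y, hY1, hY2, hY3, hY4, hY5⟩ := first_ineq σ hσ (complexF K) f hf hf0 htame'
  rw [hn] at hY3 hY4
  -- a nontrivial element
  obtain ⟨φ, hφ, hφ1⟩ : ∃ φ ∈ Y, φ ≠ 1 := by
    by_contra hcon
    push Not at hcon
    have h1 : Y = ⊥ := by
      rw [Subgroup.eq_bot_iff_forall]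
      exact hcon
    rw [h1, Subgroup.card_bot] at hY3
    have := hl.two_le
    omega
  have hcross := fun w hw hns => cross (K := K) (L := L) l hl hn hc f hf hf0 htame' φ (hY2 hφ)
    (hY4 φ hφ) hφ1 (fun v hv hs => hY5 φ hφ v hv hs) w hw hns
  refine ⟨f, tI f φ, hf, hsq, hram, ?_, ?_, ?_, ?_⟩
  · intro a ha hac
    rw [tI_apply f φ ha hac, ← Units.val_pow_eq_pow_val, ← pv_pow, hY4 φ hφ, pv_one_fun,
      Units.val_one]
  · intro a ha
    exact tI_zero f φ ha
  · intro x y hx hy hxc hxy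
    have hyc : IsCoprime (Ideal.span {y}) f := by
      rw [Ideal.isCoprime_iff_sup_eq] at hxc ⊢
      rw [eq_top_iff, ← hxc]
      refine sup_le ?_ le_sup_right
      rw [Ideal.span_singleton_le_iff_mem]
      have h1 : x = y + (x - y) := by ring
      rw [h1]
      exact add_mem (Ideal.mem_sup_left (Ideal.mem_span_singleton_self y))
        (Ideal.mem_sup_right hxy)
    rw [tI_apply f φ (by rwa [Ne, Ideal.span_singleton_eq_bot]) hxc,
      tI_apply f φ (by rwa [Ne, Ideal.span_singleton_eq_bot]) hyc, (hY2 hφ).2 x y hx hy hxc hxy]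
  · intro v hv
    rw [tI_apply f φ v.ne_bot (cop_prime v f hv), pv_prime, Units.val_eq_one]
    constructor
    · intro h
      by_contra hns
      exact hcross v hv hns h
    · exact fun h => hY5 φ hφ v hv h

end H55R
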