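import Mathlib
import Pool.Agent.Lib.H55R.Fin
import Pool.Agent.Lib.H55R.CH1
import Pool.Agent.Lib.H55R.CH2
import Pool.Agent.Lib.H19T.Defs

/-!
# H55R: the cubic character of a cyclic cubic extension (interface for H19T)
-/

open NumberField IsDedekindDomain

namespace H55R

open H55B

theorem exists_chrT (K K' : Type) [Field K] [NumberField K] [Algebra F K] [Field K']
    [NumberField K'] [Algebra F K'] [Algebra K K'] [IsScalarTower F K K']
    (h3 : Module.finrank K K' = 3) (hG : IsGalois K K') (hU : H35T.UnrOut K') :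
    ∃ (f : Ideal (𝓞 K)) (χ : Ideal (𝓞 K) →*₀ ℂ), H19T.CChr f χ ∧ H19T.SplitC K K' χ := by
  have hgood : ∀ (w : Pl K), es K K' w ≠ 1 → ∀ v : HeightOneSpectrum O,
      v.asIdeal = w.asIdeal.under O → H35T.Good v := fun w h v hv => good_of_es hU w h v hv
  have hthree : ∀ (w : Pl K), es K K' w ≠ 1 → (3 : 𝓞 K) ∉ w.asIdeal := by
    intro w h h3w
    have hne : w.asIdeal.under O ≠ ⊥ := by
      intro hb
      exact w.ne_bot (Ideal.eq_bot_of_comap_eq_bot (R := O) hb)
    have hg := hgood w h ⟨w.asIdeal.under O, Ideal.IsPrime.under O w.asIdeal, hne⟩ rfl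
    apply hg.2.1
    show (3 : O) ∈ w.asIdeal.under O
    rw [Ideal.mem_comap, map_ofNat]
    exact h3w
  obtain ⟨f, ρ, hρ⟩ := reciprocity K K' 3 Nat.prime_three h3
    (fun v hv => three_dvd v (hthree v hv))
  refine ⟨f, ρ, ⟨hρ.ne, ?_, hρ.val, hρ.zero, hρ.per⟩, ?_⟩
  · intro w v hw hv
    exact hgood w ((hρ.ram w).1 hw) v hv
  · intro w
    by_cases hw : f ≤ w.asIdeal
    · right; right
      refine ⟨?_, cubic_ram h3 w ((hρ.ram w).1 hw)⟩
      apply hρ.zero
      intro h
      rw [Ideal.isCoprime_iff_sup_eq] at h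
      apply w.isPrime.ne_top
      rw [eq_top_iff, ← h]
      exact sup_le le_rfl hw
    · by_cases hs : Spl K K' w
      · left
        exact ⟨(hρ.spl w hw).2 hs, cubic_spl h3 w hs⟩
      · right; left
        refine ⟨fun h => hs ((hρ.spl w hw).1 h), hρ.val _ w.ne_bot (cop_prime w f hw), ?_⟩
        refine cubic_inert h3 w hs ?_
        by_contra h
        exact hw ((hρ.ram w).2 h)

end H55R
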